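import Mathlib

set_option autoImplicit false
set_option maxHeartbeats 400000

namespace Pool.Agent.Lib.MP_6e81d8_ag

open Polynomial Finset

/-- The polynomial ring in two variables, as polynomials in `Y` over `ℂ[X]`. -/
abbrev R : Type := Polynomial (Polynomial ℂ)

theorem hom_ext {A : Type} [CommRing A] [Algebra ℂ A] {f g : R →ₐ[ℂ] A}
    (h1 : f (C X) = g (C X)) (h2 : f X = g X) : f = g :=
  (aevalAevalEquiv ℂ A).symm.injective (Prod.ext h1 h2)

/-- Evaluation at a point. -/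
noncomputable def ev (p : ℂ × ℂ) : R →ₐ[ℂ] ℂ := aevalAeval p.1 p.2

@[simp] theorem ev_CX (p : ℂ × ℂ) : ev p (C X) = p.1 := by simp [ev]
@[simp] theorem ev_Y (p : ℂ × ℂ) : ev p X = p.2 := by simp [ev]
@[simp] theorem ev_C (p : ℂ × ℂ) (f : ℂ[X]) : ev p (C f) = f.eval p.1 := by
  simp [ev]

theorem ev_eq (p : ℂ × ℂ) (F : R) : ev p F = (F.eval (C p.2)).eval p.1 := by
  rw [ev, coe_aevalAeval_eq_evalEval]

/-- The maximal ideal of a point. -/
noncomputable def mx (p : ℂ × ℂ) : Ideal R := RingHom.ker (ev p)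

theorem mem_mx {p : ℂ × ℂ} {F : R} : F ∈ mx p ↔ ev p F = 0 := RingHom.mem_ker

/-- Vanishing to order at least `μ`. -/
def Van (μ : ℕ) (p : ℂ × ℂ) (F : R) : Prop := F ∈ mx p ^ μ

theorem pow_map {A B : Type} [CommRing A] [CommRing B] (g : A →+* B) {I : Ideal A} {J : Ideal B}
    (h : ∀ x ∈ I, g x ∈ J) {μ : ℕ} {F : A} (hF : F ∈ I ^ μ) : g F ∈ J ^ μ := by
  have h1 : I.map g ≤ J := Ideal.map_le_iff_le_comap.mpr h
  have h2 := Ideal.mem_map_of_mem g hF
  rw [Ideal.map_pow] at h2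
  exact Ideal.pow_right_mono h1 μ h2

theorem pow_succ_ind {A : Type} [CommRing A] {I : Ideal A} {n : ℕ} {P : A → Prop} {F : A}
    (h : F ∈ I ^ (n + 1)) (hm : ∀ x ∈ I ^ n, ∀ y ∈ I, P (x * y))
    (ha : ∀ x y, P x → P y → P (x + y)) : P F := by
  rw [pow_succ] at h
  exact Submodule.mul_induction_on h hm ha

theorem mul_mem_pow_add {A : Type} [CommRing A] {I : Ideal A} {a b : ℕ} {x y : A}
    (hx : x ∈ I) (hy : y ∈ I) : x ^ a * y ^ b ∈ I ^ (a + b) := by
  rw [pow_add]
  exact Ideal.mul_mem_mul (Ideal.pow_mem_pow hx _) (Ideal.pow_mem_pow hy _)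

theorem isUnit_mk_gen {A : Type} [CommRing A] (I : Ideal A) (μ : ℕ) {G c : A} (hc : IsUnit c)
    (h1 : G - c ∈ I) : IsUnit (Ideal.Quotient.mk (I ^ μ) G) := by
  have h2 : IsNilpotent (Ideal.Quotient.mk (I ^ μ) (G - c)) :=
    ⟨μ, by rw [← map_pow, Ideal.Quotient.eq_zero_iff_mem]; exact Ideal.pow_mem_pow h1 μ⟩
  have h4 := h2.isUnit_add_right_of_commute (hc.map (Ideal.Quotient.mk (I ^ μ))) (Commute.all _ _)
  rwa [← map_add, sub_add_cancel] at h4

theorem cancel_gen {A : Type} [CommRing A] (I : Ideal A) (μ : ℕ) {G c F : A} (hc : IsUnit c)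
    (h1 : G - c ∈ I) (hF : G * F ∈ I ^ μ) : F ∈ I ^ μ := by
  rw [← Ideal.Quotient.eq_zero_iff_mem] at hF ⊢
  rw [map_mul] at hF
  exact (isUnit_mk_gen I μ hc h1).mul_right_eq_zero.mp hF

theorem van_map (g : R →ₐ[ℂ] R) {p p' : ℂ × ℂ} (h : (ev p').comp g = ev p) {μ : ℕ} {F : R}
    (hF : Van μ p F) : Van μ p' (g F) := by
  refine pow_map (g : R →+* R) (fun x hx => ?_) hF
  rw [mem_mx] at hx ⊢
  rw [← h] at hx
  exact hx

theorem Van.mono {μ ν : ℕ} (h : ν ≤ μ) {p : ℂ × ℂ} {F : R} (hF : Van μ p F) : Van ν p F :=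
  Ideal.pow_le_pow_right h hF

/-- The scaling `Y ↦ t Y`. -/
noncomputable def scale (t : ℂ) : R →ₐ[ℂ] R :=
  (aeval (C (C t) * X : R) : R →ₐ[ℂ[X]] R).restrictScalars ℂ

theorem coeff_scale (t : ℂ) (F : R) (b : ℕ) : (scale t F).coeff b = t ^ b • F.coeff b := by
  have : scale t F = F.comp (C (C t) * X) := by simp [scale, comp_eq_aeval]
  rw [this, comp_C_mul_X_coeff, ← C_pow, mul_comm, smul_eq_C_mul]

theorem van_scale {t : ℂ} {μ : ℕ} {p : ℂ × ℂ} {F : R} (h : Van μ (p.1, t * p.2) F) :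
    Van μ p (scale t F) :=
  van_map _ (hom_ext (by simp [scale]) (by simp [scale])) h

/-- The translation `X ↦ X + β`. -/
noncomputable def trX (β : ℂ) : R →ₐ[ℂ] R := mapAlgHom (taylorAlgHom β)

theorem coeff_trX (β : ℂ) (F : R) (b : ℕ) : (trX β F).coeff b = taylor β (F.coeff b) := by
  simp [trX]

theorem van_trX {β : ℂ} {μ : ℕ} {p : ℂ × ℂ} {F : R} (h : Van μ (p.1 + β, p.2) F) :
    Van μ p (trX β F) :=
  van_map _ (hom_ext (by simp [trX]) (by simp [trX])) h

/-- The shear `Y ↦ Y + f(X)`. -/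
noncomputable def sh (f : ℂ[X]) : R →ₐ[ℂ] R := (taylorAlgHom f).restrictScalars ℂ

theorem sh_apply (f : ℂ[X]) (F : R) : sh f F = taylor f F := rfl

theorem van_sh {f : ℂ[X]} {μ : ℕ} {p : ℂ × ℂ} {F : R} (h : Van μ (p.1, p.2 + f.eval p.1) F) :
    Van μ p (sh f F) :=
  van_map _ (hom_ext (by simp [sh_apply]) (by simp [sh_apply])) h

theorem sh_neg_sh (f : ℂ[X]) (F : R) : sh (-f) (sh f F) = F := by
  simp [sh_apply, taylor_taylor]

/-- The exchange of the two variables. -/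
noncomputable def sw : R →ₐ[ℂ] R := (Bivariate.swap (R := ℂ)).toAlgHom

theorem sw_sw (F : R) : sw (sw F) = F := Bivariate.swap_swap_apply F

theorem coeff_sw (F : R) (a b : ℕ) : ((sw F).coeff a).coeff b = (F.coeff b).coeff a := by
  induction F using Polynomial.induction_on' with
  | add p q hp hq => simp [hp, hq]
  | monomial n f =>
    induction f using Polynomial.induction_on' with
    | add p q hp hq => simp only [map_add, coeff_add, hp, hq]
    | monomial k c =>
      have : sw (monomial n (monomial k c)) = monomial k (monomial n c) :=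
        Bivariate.swap_monomial_monomial n k c
      rw [this]
      simp only [coeff_monomial]
      split_ifs <;> simp_all [coeff_monomial]

theorem van_sw {μ : ℕ} {p : ℂ × ℂ} {F : R} (h : Van μ (p.2, p.1) F) : Van μ p (sw F) :=
  van_map _ (hom_ext (by simp [sw, Bivariate.swap_X]) (by simp [sw, Bivariate.swap_Y])) h

theorem ev_zero (F : R) : ev (0, 0) F = (F.coeff 0).coeff 0 := by
  rw [ev_eq]
  simp [coeff_zero_eq_eval_zero]

theorem van_zero_iff (μ : ℕ) (F : R) :
    Van μ (0, 0) F ↔ ∀ a b, a + b < μ → (F.coeff b).coeff a = 0 := by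
  constructor
  · induction μ generalizing F with
    | zero => intro _ a b h; omega
    | succ μ ih =>
      intro hF
      refine pow_succ_ind (P := fun F : R => ∀ a b, a + b < μ + 1 → (F.coeff b).coeff a = 0) hF
        (fun x hx y hy a b hab => ?_) (fun x y hx hy a b hab => ?_)
      · rw [coeff_mul, finsetSum_coeff]
        refine Finset.sum_eq_zero fun bb hb => ?_
        rw [coeff_mul]
        refine Finset.sum_eq_zero fun aa ha => ?_
        rw [Finset.HasAntidiagonal.mem_antidiagonal] at ha hb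
        by_cases h0 : aa.2 + bb.2 = 0
        · have h1 : aa.2 = 0 := by omega
          have h2 : bb.2 = 0 := by omega
          rw [mem_mx, ev_zero] at hy
          rw [h1, h2, hy, mul_zero]
        · rw [ih x hx aa.1 bb.1 (by omega), zero_mul]
      · simp [hx a b hab, hy a b hab]
  · intro h
    rw [Van, F.as_sum_support]
    refine Ideal.sum_mem _ fun b _ => ?_
    rw [(F.coeff b).as_sum_support, map_sum]
    refine Ideal.sum_mem _ fun a ha => ?_
    have hab : μ ≤ a + b := by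
      by_contra hc
      exact (mem_support_iff.mp ha) (h a b (by omega))
    refine Ideal.pow_le_pow_right hab ?_
    rw [← C_mul_X_pow_eq_monomial, ← C_mul_X_pow_eq_monomial, C_mul, C_pow, mul_assoc]
    refine Ideal.mul_mem_left _ _ (mul_mem_pow_add ?_ ?_)
    · simp [mem_mx]
    · simp [mem_mx]

/-- The Taylor shift at a point. -/
noncomputable def tay (p : ℂ × ℂ) : R →ₐ[ℂ] R := aevalAeval (C X + C (C p.1)) (X + C (C p.2))

theorem van_iff (μ : ℕ) (p : ℂ × ℂ) (F : R) :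
    Van μ p F ↔ ∀ a b, a + b < μ → ((tay p F).coeff b).coeff a = 0 := by
  rw [← van_zero_iff]
  constructor
  · exact van_map _ (hom_ext (by simp [tay]) (by simp [tay]))
  · intro h
    have h1 := van_map (tay (-p)) (p' := p) (hom_ext (by simp [tay]) (by simp [tay])) h
    have h2 : (tay (-p)).comp (tay p) = AlgHom.id ℂ R := by
      refine hom_ext ?_ ?_
      · simp only [tay, AlgHom.comp_apply, aevalAeval_X, map_add, AlgHom.id_apply]
        rw [aevalAeval_C, aeval_C]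
        simp [algebraMap_eq, add_assoc]
      · simp only [tay, AlgHom.comp_apply, aevalAeval_Y, map_add, AlgHom.id_apply]
        rw [aevalAeval_C, aeval_C]
        simp [algebraMap_eq, add_assoc]
    have h3 : tay (-p) (tay p F) = F := congrArg (fun g : R →ₐ[ℂ] R => g F) h2
    rwa [h3] at h1

theorem tay_poly {σ : Type} (i j : σ) (F : R) (a b : ℕ) :
    ∃ P : MvPolynomial σ ℂ, ∀ q : σ → ℂ,
      ((tay (q i, q j) F).coeff b).coeff a = MvPolynomial.eval q P := by
  let g : R →ₐ[ℂ] Polynomial (Polynomial (MvPolynomial σ ℂ)) :=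
    aevalAeval (C X + C (C (MvPolynomial.X i))) (X + C (C (MvPolynomial.X j)))
  refine ⟨((g F).coeff b).coeff a, fun q => ?_⟩
  let e : Polynomial (Polynomial (MvPolynomial σ ℂ)) →ₐ[ℂ] R :=
    mapAlgHom (mapAlgHom (MvPolynomial.aeval q))
  have h : e.comp g = tay (q i, q j) := hom_ext (by simp [e, g, tay]) (by simp [e, g, tay])
  rw [← h]
  simp [e, MvPolynomial.coe_aeval_eq_eval]

theorem isUnit_mk {μ : ℕ} {p : ℂ × ℂ} {G : R} (h : ev p G ≠ 0) :
    IsUnit (Ideal.Quotient.mk (mx p ^ μ) G) :=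
  isUnit_mk_gen (mx p) μ (c := C (C (ev p G))) (((IsUnit.mk0 _ h).map C).map C)
    (by simp [mem_mx])

theorem van_cancel {μ : ℕ} {p : ℂ × ℂ} {G F : R} (h : ev p G ≠ 0) (hF : Van μ p (G * F)) :
    Van μ p F :=
  cancel_gen (mx p) μ (c := C (C (ev p G))) (((IsUnit.mk0 _ h).map C).map C)
    (by simp [mem_mx]) hF

theorem derivative_mem {A : Type} [CommRing A] (I : Ideal A[X]) (μ : ℕ) (F : A[X])
    (h : F ∈ I ^ (μ + 1)) : derivative F ∈ I ^ μ := by
  induction μ generalizing F with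
  | zero => simp
  | succ μ ih =>
    rw [pow_succ] at h
    refine Submodule.mul_induction_on h (fun x hx y hy => ?_) (fun x y hx hy => ?_)
    · rw [derivative_mul]
      refine Ideal.add_mem _ ?_ (Ideal.mul_mem_right _ _ hx)
      rw [pow_succ]
      exact Ideal.mul_mem_mul (ih x hx) hy
    · rw [derivative_add]
      exact Ideal.add_mem _ hx hy

theorem van_eval {μ : ℕ} {p : ℂ × ℂ} {F : R} (h : Van μ p F) :
    (X - C p.1) ^ μ ∣ F.eval (C p.2) := by
  have := pow_map (evalRingHom (C p.2) : R →+* ℂ[X]) (J := Ideal.span {X - C p.1})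
    (fun x hx => by
      rw [Ideal.mem_span_singleton, dvd_iff_isRoot]
      rw [mem_mx, ev_eq] at hx
      exact hx) h
  rwa [Ideal.span_singleton_pow, Ideal.mem_span_singleton] at this

/-- A polynomial with at most `n + 1` rows vanishing to order `μ` has rows of order `μ - n`. -/
theorem row_dvd {p : ℂ × ℂ} (hp : p.2 ≠ 0) (b : ℕ) (n : ℕ) :
    ∀ (T : Finset ℕ) (μ : ℕ) (F : R), T.card = n + 1 → b ∈ T → (∀ c, c ∉ T → F.coeff c = 0) →
      Van μ p F → (X - C p.1) ^ (μ - n) ∣ F.coeff b := by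
  induction n with
  | zero =>
    intro T μ F hT hb hF hV
    obtain ⟨c, rfl⟩ := Finset.card_eq_one.mp hT
    rw [mem_singleton] at hb
    subst hb
    have h1 : F = monomial b (F.coeff b) := by
      ext1 c
      rw [coeff_monomial]
      split_ifs with h
      · rw [h]
      · exact hF c (by simpa using fun h' => h h'.symm)
    have h2 := van_eval hV
    rw [h1, eval_monomial, ← C_pow] at h2
    exact ((IsUnit.mk0 _ (pow_ne_zero b hp)).map C).dvd_mul_right.mp h2
  | succ n ih =>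
    intro T μ F hT hb hF hV
    rcases μ with _ | μ
    · simp
    obtain ⟨c, hc⟩ : (T.erase b).Nonempty := by
      rw [← Finset.card_pos, card_erase_of_mem hb]; omega
    have hcb : c ≠ b := ne_of_mem_erase hc
    have hcT : c ∈ T := mem_of_mem_erase hc
    let G : R := X * derivative F - C (C (c : ℂ)) * F
    have hG : ∀ j, G.coeff j = C ((j : ℂ) - c) * F.coeff j := by
      intro j
      simp only [G, coeff_sub, coeff_C_mul]
      rcases j with _ | j
      · simp
      · rw [coeff_X_mul, coeff_derivative, C_sub, sub_mul, mul_comm]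
        simp
    have hGV : Van μ p G :=
      Ideal.sub_mem _ (Ideal.mul_mem_left _ _ (derivative_mem _ _ _ hV))
        (Ideal.mul_mem_left _ _ (hV.mono (Nat.le_succ μ)))
    have h1 := ih (T.erase c) μ G (by rw [card_erase_of_mem hcT]; omega)
      (mem_erase.mpr ⟨hcb.symm, hb⟩) (fun j hj => by
        rw [hG]
        by_cases hjc : j = c
        · simp [hjc]
        · rw [hF j (fun h => hj (mem_erase.mpr ⟨hjc, h⟩)), mul_zero]) hGV
    rw [hG] at h1
    have hne : (b : ℂ) - c ≠ 0 := sub_ne_zero.mpr (by exact_mod_cast hcb.symm)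
    rw [Nat.add_sub_add_right]
    exact ((IsUnit.mk0 _ hne).map C).dvd_mul_left.mp h1

/-- Reflection of exponents as a linear map. -/
noncomputable def reflL (N : ℕ) : ℂ[X] →ₗ[ℂ] ℂ[X] where
  toFun := reflect N
  map_add' f g := reflect_add f g N
  map_smul' c f := by ext; simp [coeff_reflect]

/-- The monomial map `X^a Y^b ↦ X^(N - σ b - a) Y^b`. -/
noncomputable def inv (σ N : ℕ) : R →ₗ[ℂ] R :=
  lsum fun b => ((monomial b : ℂ[X] →ₗ[ℂ[X]] R).restrictScalars ℂ) ∘ₗ reflL (N - σ * b)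

theorem inv_apply (σ N : ℕ) (F : R) :
    inv σ N F = ∑ b ∈ F.support, monomial b (reflect (N - σ * b) (F.coeff b)) := rfl

theorem coeff_inv (σ N : ℕ) (F : R) (b : ℕ) :
    (inv σ N F).coeff b = reflect (N - σ * b) (F.coeff b) := by
  rw [inv_apply, finsetSum_coeff]
  simp only [coeff_monomial]
  rw [Finset.sum_ite_eq' F.support b]
  split_ifs with h
  · rfl
  · rw [notMem_support_iff.mp h, reflect_zero]

theorem inv_formula {Q : Type} [CommRing Q] [Algebra ℂ Q] (mk : R →ₐ[ℂ] Q) (w : Q)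
    (hwu : w * mk (C X) = 1) {σ N : ℕ} {F : R}
    (hF : ∀ b, F.coeff b ≠ 0 → (F.coeff b).natDegree + σ * b ≤ N)
    (h0 : (aevalAeval w (mk X * w ^ σ) : R →ₐ[ℂ] Q) F = 0) : mk (inv σ N F) = 0 := by
  have h7 : mk (inv σ N F) = (aevalAeval w (mk X * w ^ σ) : R →ₐ[ℂ] Q) F * mk (C X) ^ N := by
    conv_rhs => rw [F.as_sum_support]
    rw [inv_apply, map_sum, map_sum, Finset.sum_mul]
    refine Finset.sum_congr rfl fun b hb => ?_
    have hb' := hF b (mem_support_iff.mp hb)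
    let _ : Invertible w := ⟨mk (C X), by rw [mul_comm]; exact hwu, hwu⟩
    have h8 := eval₂_reflect_mul_pow (algebraMap ℂ Q) w (N - σ * b) (F.coeff b) (by omega)
    have h9 : ∀ f : ℂ[X], mk (C f) = eval₂ (algebraMap ℂ Q) (mk (C X)) f := by
      intro f
      have : mk = aevalAeval (mk (C X)) (mk X) := hom_ext (by simp) (by simp)
      conv_lhs => rw [this]
      rw [aevalAeval_C, aeval_def]
    rw [← C_mul_X_pow_eq_monomial, ← C_mul_X_pow_eq_monomial, map_mul, map_mul, map_pow, map_pow,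
      h9 (reflect _ _)]
    simp only [aevalAeval_C, aevalAeval_Y]
    rw [aeval_def, ← h8]
    have h10 : N = (N - σ * b) + σ * b := by omega
    have h11 : w ^ N * mk (C X) ^ N = 1 := by rw [← mul_pow, hwu, one_pow]
    change _ = eval₂ (algebraMap ℂ Q) (mk (C X)) _ * _ * _ * _
    calc _ = eval₂ (algebraMap ℂ Q) (mk (C X)) (reflect (N - σ * b) (F.coeff b))
          * mk X ^ b * (w ^ N * mk (C X) ^ N) := by rw [h11, mul_one]
      _ = _ := by
        have : w ^ N = w ^ (N - σ * b) * (w ^ σ) ^ b := by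
          rw [← pow_mul, ← pow_add, ← h10]
        rw [this, mul_pow]
        ring
  rw [h7, h0, zero_mul]

theorem quot_kill {A B : Type} [CommRing A] [CommRing B] (I : Ideal A) (J : Ideal B) (μ : ℕ)
    (ψ : A →+* B ⧸ J ^ μ) (h : ∀ x ∈ I, ∃ G ∈ J, ψ x = Ideal.Quotient.mk _ G) {F : A}
    (hF : F ∈ I ^ μ) : ψ F = 0 := by
  have h3 := pow_map ψ (J := J.map (Ideal.Quotient.mk (J ^ μ))) (fun x hx => by
    obtain ⟨G, hG, h5⟩ := h x hx
    rw [h5]
    exact Ideal.mem_map_of_mem _ hG) hF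
  rwa [← Ideal.map_pow, Ideal.map_quotient_self] at h3

theorem van_inv_gen {B : Type} [CommRing B] [Algebra ℂ B] (e0 : B →ₐ[ℂ] ℂ) (φ : R →ₐ[ℂ] B)
    {σ N μ : ℕ} (hp : e0 (φ (C X)) ≠ 0) {F : R}
    (hF : ∀ b, F.coeff b ≠ 0 → (F.coeff b).natDegree + σ * b ≤ N)
    (hV : Van μ ((e0 (φ (C X)))⁻¹, e0 (φ X) * (e0 (φ (C X)))⁻¹ ^ σ) F) :
    φ (inv σ N F) ∈ (RingHom.ker e0) ^ μ := by
  rcases μ with _ | μ
  · simp
  let J : Ideal B := RingHom.ker e0
  let I : Ideal B := J ^ (μ + 1)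
  let mk : B →ₐ[ℂ] B ⧸ I := Ideal.Quotient.mkₐ ℂ I
  obtain ⟨u, hu⟩ : IsUnit (mk (φ (C X))) :=
    isUnit_mk_gen J (μ + 1) (c := algebraMap ℂ B (e0 (φ (C X))))
      ((IsUnit.mk0 _ hp).map (algebraMap ℂ B)) (by simp [J, RingHom.mem_ker])
  let w : B ⧸ I := (u⁻¹ : (B ⧸ I)ˣ)
  have hwu : w * mk (φ (C X)) = 1 := by rw [← hu]; exact u.inv_mul
  let ψ : R →ₐ[ℂ] B ⧸ I := aevalAeval w (mk (φ X) * w ^ σ)
  let e : (B ⧸ I) →ₐ[ℂ] ℂ := Ideal.Quotient.liftₐ I e0
    (fun x hx => Ideal.pow_le_self (Nat.succ_ne_zero μ) hx)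
  have he : ∀ G, e (mk G) = e0 G := fun G => rfl
  have hew : e w = (e0 (φ (C X)))⁻¹ := by
    have := congrArg e hwu
    rw [map_mul, he, map_one] at this
    exact eq_inv_of_mul_eq_one_left this
  have h1 : e.comp ψ = ev ((e0 (φ (C X)))⁻¹, e0 (φ X) * (e0 (φ (C X)))⁻¹ ^ σ) :=
    hom_ext (by simp [ψ, hew]) (by simp [ψ, hew, he])
  have h2 : ψ F = 0 := by
    refine quot_kill _ J (μ + 1) (ψ : R →+* B ⧸ I) (fun x hx => ?_) hV
    obtain ⟨G, hG⟩ := Ideal.Quotient.mk_surjective (ψ x)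
    have h4 : e (ψ x) = 0 := by
      rw [mem_mx, ← h1] at hx
      exact hx
    have h5 : ψ x = mk G := hG.symm
    rw [h5, he] at h4
    exact ⟨G, h4, h5⟩
  exact Ideal.Quotient.eq_zero_iff_mem.mp (inv_formula (mk.comp φ) w hwu hF h2)

theorem van_inv {σ N μ : ℕ} {p : ℂ × ℂ} (hp : p.1 ≠ 0) {F : R}
    (hF : ∀ b, F.coeff b ≠ 0 → (F.coeff b).natDegree + σ * b ≤ N)
    (hV : Van μ (p.1⁻¹, p.2 * p.1⁻¹ ^ σ) F) : Van μ p (inv σ N F) :=
  van_inv_gen (ev p) (AlgHom.id ℂ R) (by simpa using hp) hF (by simpa using hV)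

end Pool.Agent.Lib.MP_6e81d8_ag
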