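import Pool.Agent.Lib.MP_6e81d8_ag.Lin
import Pool.Agent.Lib.MP_6e81d8_ag.Van

set_option autoImplicit false
set_option maxHeartbeats 400000
set_option maxSynthPendingDepth 3

namespace Pool.Agent.Lib.MP_6e81d8_ag

open Polynomial Finset Module

variable {ι : Type}

/-- For suitable positions, the elements of `E` vanishing to order `μ i` at the points of `S`
form a space of dimension at most `ρ`. -/
def Bd (μ : ι → ℕ) (E : Submodule ℂ R) (S : Finset ι) (ρ : ℕ) : Prop :=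
  ∃ p : ι → ℂ × ℂ, ∃ Ψ : R →ₗ[ℂ] (Fin ρ → ℂ),
    ∀ F ∈ E, (∀ i ∈ S, Van (μ i) (p i) F) → Ψ F = 0 → F = 0

theorem Bd.mono {μ : ι → ℕ} {E E' : Submodule ℂ R} {S S' : Finset ι} {ρ : ℕ} (hE : E ≤ E')
    (hS : S' ⊆ S) (h : Bd μ E' S' ρ) : Bd μ E S ρ := by
  obtain ⟨p, Ψ, h⟩ := h
  exact ⟨p, Ψ, fun F hF hV hΨ => h F (hE hF) (fun i hi => hV i (hS hi)) hΨ⟩

theorem Bd.mono_mult {μ μ' : ι → ℕ} {E : Submodule ℂ R} {S : Finset ι} {ρ : ℕ}
    (hμ : ∀ i, μ' i ≤ μ i) (h : Bd μ' E S ρ) : Bd μ E S ρ := by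
  obtain ⟨p, Ψ, h⟩ := h
  exact ⟨p, Ψ, fun F hF hV hΨ => h F hF (fun i hi => (hV i hi).mono (hμ i)) hΨ⟩

theorem Bd.of_map {μ : ι → ℕ} {E E' : Submodule ℂ R} {S : Finset ι} {ρ : ℕ} (g : R →ₗ[ℂ] R)
    (τ : ℂ × ℂ → ℂ × ℂ) (hg : ∀ F ∈ E, g F ∈ E') (hi : ∀ F ∈ E, g F = 0 → F = 0)
    (hv : ∀ ν p, ∀ F ∈ E, Van ν (τ p) F → Van ν p (g F)) (h : Bd μ E' S ρ) : Bd μ E S ρ := by
  obtain ⟨p, Ψ, h⟩ := h
  exact ⟨fun i => τ (p i), Ψ ∘ₗ g, fun F hF hV hΨ =>
    hi F hF (h _ (hg F hF) (fun i hi => hv _ _ F hF (hV i hi)) hΨ)⟩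

/-- The `b`-th row. -/
noncomputable def cf (b : ℕ) : R →ₗ[ℂ] ℂ[X] := (lcoeff ℂ[X] b).restrictScalars ℂ

@[simp] theorem cf_apply (b : ℕ) (F : R) : cf b F = F.coeff b := rfl

theorem Bd.generic {μ : ι → ℕ} {E : Submodule ℂ R} [FiniteDimensional ℂ E] {S : Finset ι} {ρ : ℕ}
    (h : Bd μ E S ρ) : ∃ Δ : MvPolynomial (ι × Fin 2) ℂ, Δ ≠ 0 ∧ ∃ Ψ : R →ₗ[ℂ] (Fin ρ → ℂ),
      ∀ q : ι × Fin 2 → ℂ, MvPolynomial.eval q Δ ≠ 0 → ∀ F ∈ E,
        (∀ i ∈ S, Van (μ i) (q (i, 0), q (i, 1)) F) → Ψ F = 0 → F = 0 := by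
  classical
  obtain ⟨p, Ψ, h⟩ := h
  obtain ⟨q₀, hq₀⟩ : ∃ q₀ : ι × Fin 2 → ℂ, ∀ i, (q₀ (i, 0), q₀ (i, 1)) = p i :=
    ⟨fun x => ![(p x.1).1, (p x.1).2] x.2, fun _ => rfl⟩
  let κ := (Σ i : S, Fin (μ i) × Fin (μ i)) ⊕ Fin ρ
  let φ : (ι × Fin 2 → ℂ) → κ → E →ₗ[ℂ] ℂ := fun q k =>
    match k with
    | Sum.inl ⟨i, a, b⟩ => if (a : ℕ) + b < μ i then
        (lcoeff ℂ a) ∘ₗ cf b ∘ₗ (tay (q (i, 0), q (i, 1))).toLinearMap ∘ₗ E.subtype else 0
    | Sum.inr j => (LinearMap.proj j) ∘ₗ Ψ ∘ₗ E.subtype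
  have hφ : ∀ q (v : E), (∀ k, φ q k v = 0) ↔
      (∀ i ∈ S, Van (μ i) (q (i, 0), q (i, 1)) v) ∧ Ψ v = 0 := by
    intro q v
    constructor
    · intro hk
      refine ⟨fun i hi => (van_iff _ _ _).mpr fun a b hab => ?_, funext fun j => hk (Sum.inr j)⟩
      have := hk (Sum.inl ⟨⟨i, hi⟩, ⟨a, by simp; omega⟩, ⟨b, by simp; omega⟩⟩)
      simpa [φ, hab] using this
    · rintro ⟨h1, h2⟩ k
      rcases k with ⟨i, a, b⟩ | j
      · by_cases hab : (a : ℕ) + b < μ i
        · have := (van_iff _ _ _).mp (h1 i i.2) a b hab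
          simpa [φ, hab] using this
        · simp [φ, hab]
      · exact congrFun h2 j
  obtain ⟨Δ, hΔ, hq⟩ := generic_inj (E := E) (κ := κ) (σ := ι × Fin 2) φ (by
    intro k v
    rcases k with ⟨i, a, b⟩ | j
    · by_cases hab : (a : ℕ) + b < μ i
      · obtain ⟨P, hP⟩ := tay_poly ((i : ι), (0 : Fin 2)) ((i : ι), (1 : Fin 2)) v a b
        exact ⟨P, fun q => by simpa [φ, hab] using hP q⟩
      · exact ⟨0, fun q => by simp [φ, hab]⟩
    · exact ⟨MvPolynomial.C (Ψ v j), fun q => by simp [φ]⟩)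
    q₀ (by
      intro v hv
      have hv' := (hφ q₀ v).mp hv
      refine Subtype.ext (h v v.2 (fun i hi => ?_) hv'.2)
      rw [← hq₀ i]
      exact hv'.1 i hi)
  refine ⟨Δ, hΔ, Ψ, fun q hq0 F hF hV hΨ => ?_⟩
  exact congrArg Subtype.val (hq q hq0 ⟨F, hF⟩ ((hφ q ⟨F, hF⟩).mpr ⟨hV, hΨ⟩))

theorem Bd.of_map_ne {μ : ι → ℕ} {E E' : Submodule ℂ R} [FiniteDimensional ℂ E'] {S : Finset ι}
    {ρ : ℕ} (g : R →ₗ[ℂ] R)
    (τ : ℂ × ℂ → ℂ × ℂ) (hg : ∀ F ∈ E, g F ∈ E') (hi : ∀ F ∈ E, g F = 0 → F = 0)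
    (hv : ∀ ν (p : ℂ × ℂ), p.1 ≠ 0 → ∀ F ∈ E, Van ν (τ p) F → Van ν p (g F))
    (h : Bd μ E' S ρ) : Bd μ E S ρ := by
  classical
  obtain ⟨Δ, hΔ, Ψ, h⟩ := h.generic
  obtain ⟨q, hq⟩ := exists_eval_ne (Δ * ∏ i ∈ S, MvPolynomial.X (i, 0))
    (mul_ne_zero hΔ (Finset.prod_ne_zero_iff.mpr fun i _ => MvPolynomial.X_ne_zero _))
  rw [map_mul, map_prod] at hq
  have h1 := left_ne_zero_of_mul hq
  have h2 := Finset.prod_ne_zero_iff.mp (right_ne_zero_of_mul hq)
  refine ⟨fun i => τ (q (i, 0), q (i, 1)), Ψ ∘ₗ g, fun F hF hV hΨ =>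
    hi F hF (h q h1 _ (hg F hF) (fun i hi => hv _ _ ?_ F hF (hV i hi)) hΨ)⟩
  simpa using h2 i hi

/-- Polynomials whose rows lie in prescribed spaces. -/
noncomputable def rows (W : ℕ → Submodule ℂ ℂ[X]) : Submodule ℂ R := ⨅ b, (W b).comap (cf b)

theorem mem_rows {W : ℕ → Submodule ℂ ℂ[X]} {F : R} : F ∈ rows W ↔ ∀ b, F.coeff b ∈ W b := by
  simp [rows, Submodule.mem_iInf]

theorem rows_mono {W W' : ℕ → Submodule ℂ ℂ[X]} (h : ∀ b, W b ≤ W' b) : rows W ≤ rows W' :=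
  fun _ hF => mem_rows.mpr fun b => h b (mem_rows.mp hF b)

/-- The injection of `rows W` into a finite product. -/
noncomputable def rowsMap (W : ℕ → Submodule ℂ ℂ[X]) (B : ℕ) :
    rows W →ₗ[ℂ] ((b : Fin B) → W b) :=
  LinearMap.pi fun b => (cf b ∘ₗ (rows W).subtype).codRestrict (W b)
    (fun F => mem_rows.mp F.2 b)

theorem rowsMap_inj (W : ℕ → Submodule ℂ ℂ[X]) (B : ℕ) (hB : ∀ b, B ≤ b → W b = ⊥) :
    Function.Injective (rowsMap W B) := by
  rw [injective_iff_map_eq_zero]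
  intro F hF
  ext1
  ext1 b
  by_cases hb : b < B
  · exact congrArg Subtype.val (congrFun hF ⟨b, hb⟩)
  · have := mem_rows.mp F.2 b
    rw [hB b (not_lt.mp hb)] at this
    simpa using this

theorem finite_rows (W : ℕ → Submodule ℂ ℂ[X]) (hW : ∀ b, FiniteDimensional ℂ (W b)) (B : ℕ)
    (hB : ∀ b, B ≤ b → W b = ⊥) : FiniteDimensional ℂ (rows W) :=
  Module.Finite.of_injective _ (rowsMap_inj W B hB)

theorem finrank_rows (W : ℕ → Submodule ℂ ℂ[X]) (hW : ∀ b, FiniteDimensional ℂ (W b)) (B : ℕ)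
    (hB : ∀ b, B ≤ b → W b = ⊥) : finrank ℂ (rows W) ≤ ∑ b ∈ range B, finrank ℂ (W b) := by
  have := LinearMap.finrank_le_finrank_of_injective (rowsMap_inj W B hB)
  rwa [Module.finrank_pi_fintype, Fin.sum_univ_eq_sum_range (fun b => finrank ℂ (W b))] at this

theorem bd_of_finrank (μ : ι → ℕ) (E : Submodule ℂ R) [FiniteDimensional ℂ E] (S : Finset ι)
    {ρ : ℕ} (h : finrank ℂ E ≤ ρ) : Bd μ E S ρ := by
  obtain ⟨f, hf⟩ : ∃ f : E →ₗ[ℂ] (Fin ρ → ℂ), Function.Injective f :=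
    finrank_le_iff_exists_linearMap.mp (by simpa using h)
  obtain ⟨g, hg⟩ := LinearMap.exists_extend f
  refine ⟨fun _ => 0, g, fun F hF _ hΨ => ?_⟩
  have : f ⟨F, hF⟩ = 0 := by rw [← hg]; exact hΨ
  exact congrArg Subtype.val ((injective_iff_map_eq_zero f).mp hf _ this)

theorem exists_bound (E : Submodule ℂ R) [FiniteDimensional ℂ E] :
    ∃ B, ∀ F ∈ E, ∀ b, B ≤ b → F.coeff b = 0 := by
  obtain ⟨s, hs⟩ : E.FG := Module.Finite.iff_fg.mp inferInstance
  refine ⟨s.sup natDegree + 1, fun F hF b hb => ?_⟩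
  have : E ≤ LinearMap.ker (cf b) := by
    rw [← hs, Submodule.span_le]
    intro G hG
    have := Finset.le_sup (f := natDegree) hG
    exact coeff_eq_zero_of_natDegree_lt (by omega)
  exact this hF

theorem limit2 (E : Submodule ℂ R) [FiniteDimensional ℂ E] (N : Submodule ℂ R)
    (h : ∀ F : ℕ → R, (∀ α, F α ∈ E) →
      (∀ γ, ∑ b ∈ range (γ + 1), monomial b ((F (γ - b)).coeff b) ∈ N) → F 0 = 0) :
    ∃ t : ℂ, t ≠ 0 ∧ ∀ F ∈ E, scale t F ∈ N → F = 0 := by
  obtain ⟨B, hB⟩ := exists_bound E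
  obtain ⟨t, ht, h2⟩ := limit B (fun k =>
      ((monomial k : ℂ[X] →ₗ[ℂ[X]] R).restrictScalars ℂ) ∘ₗ cf k ∘ₗ E.subtype)
    (fun k hk => by
      ext v
      simp [hB v v.2 k hk]) N
    (fun F hF => Subtype.ext (h (fun α => F α) (fun α => (F α).2) hF))
  refine ⟨t, ht, fun F hF hN => congrArg Subtype.val (h2 ⟨F, hF⟩ ?_)⟩
  convert hN using 1
  ext1 b
  rw [coeff_scale, finsetSum_coeff]
  simp only [LinearMap.comp_apply, LinearMap.restrictScalars_apply, cf_apply,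
    Submodule.subtype_apply, coeff_smul, coeff_monomial]
  rw [Finset.sum_eq_single b]
  · simp
  · intro c _ hc; simp [hc]
  · intro hb
    simp [hB F hF b (by simpa using hb)]

theorem coeff_level (F : ℕ → R) (γ b : ℕ) :
    (∑ c ∈ range (γ + 1), monomial c ((F (γ - c)).coeff c)).coeff b
      = if b ≤ γ then (F (γ - b)).coeff b else 0 := by
  rw [finsetSum_coeff]
  simp only [coeff_monomial]
  rw [Finset.sum_ite_eq' (range (γ + 1)) b]
  simp

/-- The solution space of the vanishing conditions. -/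
noncomputable def sol (μ : ι → ℕ) (S : Finset ι) (p : ι → ℂ × ℂ) : Submodule ℂ R :=
  ⨅ i ∈ S, (mx (p i) ^ μ i).restrictScalars ℂ

theorem mem_sol {μ : ι → ℕ} {S : Finset ι} {p : ι → ℂ × ℂ} {F : R} :
    F ∈ sol μ S p ↔ ∀ i ∈ S, Van (μ i) (p i) F := by
  simp [sol, Submodule.mem_iInf, Van]

/-- Two-sided degeneration: the points of `J` go to the curve `Y = 0`, those of `I` stay. -/
theorem cut [DecidableEq ι] {μ : ι → ℕ} (E : Submodule ℂ R) [FiniteDimensional ℂ E] (k : ℕ)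
    {I J : Finset ι} (hIJ : Disjoint I J) (p : ι → ℂ × ℂ) (W : ℕ → Submodule ℂ ℂ[X]) {ρ : ℕ}
    (hW1 : ∀ b < k, ∀ F ∈ E, (∀ c < b, F.coeff c = 0) → F.coeff b ∈ W b)
    (hW2 : ∀ F ∈ E, (∀ c < k, F.coeff c = 0) → (∀ i ∈ I, Van (μ i) (p i) F) → F.coeff k ∈ W k)
    (h0 : ∀ F ∈ E, (∀ c < k + 1, F.coeff c = 0) → (∀ i ∈ I, Van (μ i) (p i) F) → F = 0)
    (hJ : Bd μ (rows W) J ρ) : Bd μ E (I ∪ J) ρ := by
  obtain ⟨q, Ψ, hq⟩ := hJ
  obtain ⟨t, ht, h⟩ := limit2 (E ⊓ sol μ I p) (sol μ J q ⊓ LinearMap.ker Ψ) (by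
    intro F hF hN
    have key : ∀ γ, γ ≤ k → ∀ b ≤ γ, (F (γ - b)).coeff b = 0 := by
      intro γ
      induction γ using Nat.strong_induction_on with
      | _ γ ih =>
        intro hγ
        have hlow : ∀ b ≤ γ, ∀ c < b, (F (γ - b)).coeff c = 0 := by
          intro b hb c hc
          have := ih (γ - b + c) (by omega) (by omega) c (by omega)
          rwa [Nat.add_sub_cancel] at this
        have h1 := hq _ (mem_rows.mpr fun b => by
          rw [coeff_level]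
          split_ifs with hb
          · by_cases hbk : b < k
            · exact hW1 b hbk _ (hF _).1 (hlow b hb)
            · obtain rfl : b = k := by omega
              exact hW2 _ (hF _).1 (hlow b hb) (mem_sol.mp (hF _).2)
          · exact zero_mem _) (mem_sol.mp (hN γ).1) (hN γ).2
        intro b hb
        have h2 := coeff_level F γ b
        rw [h1, if_pos hb] at h2
        exact h2.symm
    refine h0 _ (hF 0).1 (fun c hc => ?_) (mem_sol.mp (hF 0).2)
    simpa using key c (by omega) c le_rfl)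
  refine ⟨fun i => if i ∈ J then ((q i).1, t * (q i).2) else p i, Ψ ∘ₗ (scale t).toLinearMap,
    fun F hF hV hΨ => h F ⟨hF, mem_sol.mpr fun i hi => ?_⟩ ⟨mem_sol.mpr fun i hi => ?_, hΨ⟩⟩
  · have := hV i (mem_union_left _ hi)
    simpa [Finset.disjoint_left.mp hIJ hi] using this
  · have := hV i (mem_union_right _ hi)
    simp only [hi, if_true] at this
    exact van_scale this

/-- Degeneration to the associated graded space. -/
theorem grade {μ : ι → ℕ} (E : Submodule ℂ R) [FiniteDimensional ℂ E] {S : Finset ι}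
    (W : ℕ → Submodule ℂ ℂ[X]) {ρ : ℕ}
    (hW : ∀ b, ∀ F ∈ E, (∀ c < b, F.coeff c = 0) → F.coeff b ∈ W b)
    (h : Bd μ (rows W) S ρ) : Bd μ E S ρ := by
  classical
  obtain ⟨B, hB⟩ := exists_bound E
  have := cut (μ := μ) E B (I := ∅) (J := S) (by simp) (fun _ => 0) W (fun b _ => hW b)
    (fun F hF h _ => hW B F hF h) (fun F hF h _ => by
      ext1 c
      by_cases hc : c < B
      · exact h c (by omega)
      · exact hB F hF c (by omega)) h
  simpa using this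

/-- Polynomials with support in `T`. -/
def supp (T : Finset ℕ) : Submodule ℂ ℂ[X] where
  carrier := {f | ∀ a, a ∉ T → f.coeff a = 0}
  add_mem' hf hg a ha := by rw [coeff_add, hf a ha, hg a ha, add_zero]
  zero_mem' a _ := coeff_zero a
  smul_mem' c f hf a ha := by rw [coeff_smul, hf a ha, smul_zero]

theorem mem_supp {T : Finset ℕ} {f : ℂ[X]} : f ∈ supp T ↔ ∀ a, a ∉ T → f.coeff a = 0 := Iff.rfl

theorem supp_inj (T : Finset ℕ) : Function.Injective
    (LinearMap.pi (fun a : T => lcoeff ℂ a ∘ₗ (supp T).subtype) : supp T →ₗ[ℂ] (T → ℂ)) := by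
  rw [injective_iff_map_eq_zero]
  intro f hf
  ext a
  by_cases ha : a ∈ T
  · exact congrFun hf ⟨a, ha⟩
  · exact f.2 a ha

instance finite_supp (T : Finset ℕ) : FiniteDimensional ℂ (supp T) :=
  Module.Finite.of_injective _ (supp_inj T)

theorem finrank_supp (T : Finset ℕ) : finrank ℂ (supp T) ≤ T.card := by
  simpa using LinearMap.finrank_le_finrank_of_injective (supp_inj T)

theorem supp_empty : supp ∅ = ⊥ := by
  rw [eq_bot_iff]
  intro f hf
  ext a
  exact hf a (by simp)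

/-- Polynomials of degree less than `n`. -/
abbrev lt (n : ℕ) : Submodule ℂ ℂ[X] := supp (range n)

theorem mem_lt {n : ℕ} {f : ℂ[X]} : f ∈ lt n ↔ ∀ a, n ≤ a → f.coeff a = 0 := by
  simp [mem_supp]

theorem mem_lt_degree {n : ℕ} {f : ℂ[X]} : f ∈ lt n ↔ f.degree < n := by
  rw [mem_lt, degree_lt_iff_coeff_zero]

theorem xgrade {μ : ι → ℕ} (W : ℕ → Submodule ℂ ℂ[X]) [FiniteDimensional ℂ (rows W)]
    (T : ℕ → Finset ℕ) {S : Finset ι} {ρ : ℕ}
    (hT : ∀ b, ∀ f ∈ W b, ∀ a, f.coeff a ≠ 0 → (∀ c < a, f.coeff c = 0) → a ∈ T b)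
    (h : Bd μ (rows fun b => supp (T b)) S ρ) : Bd μ (rows W) S ρ := by
  have hsw : ∀ F : R, sw F = 0 → F = 0 := fun F hF => by rw [← sw_sw F, hF, map_zero]
  refine Bd.of_map (E' := (rows W).map sw.toLinearMap) sw.toLinearMap (fun p => (p.2, p.1))
    (fun F hF => Submodule.mem_map_of_mem hF) (fun F _ => hsw F) (fun ν p F _ => van_sw) ?_
  let W' : ℕ → Submodule ℂ ℂ[X] := fun a => ⨅ b, ⨅ _ : a ∉ T b, LinearMap.ker (lcoeff ℂ b)
  have hW' : ∀ a f, f ∈ W' a ↔ ∀ b, a ∉ T b → f.coeff b = 0 := by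
    intro a f
    simp [W', Submodule.mem_iInf]
  refine grade _ W' ?_ ?_
  · rintro a _ ⟨F, hF, rfl⟩ hlow
    rw [hW']
    intro b hb
    by_contra hne
    refine hb (hT b _ (mem_rows.mp hF b) a ?_ fun c hc => ?_)
    · rwa [← coeff_sw]
    · rw [← coeff_sw]
      exact (congrArg (fun f => f.coeff b) (hlow c hc)).trans (coeff_zero b)
  · refine Bd.of_map sw.toLinearMap (fun p => (p.2, p.1)) (fun G hG => mem_rows.mpr fun b => ?_)
      (fun F _ => hsw F) (fun ν p F _ => van_sw) h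
    intro a ha
    exact (coeff_sw G b a).trans ((hW' _ _).mp (mem_rows.mp hG a) b ha)

theorem exists_trail (W : Submodule ℂ ℂ[X]) [FiniteDimensional ℂ W] :
    ∃ T : Finset ℕ, T.card ≤ finrank ℂ W ∧
      ∀ f ∈ W, ∀ a, f.coeff a ≠ 0 → (∀ c < a, f.coeff c = 0) → a ∈ T := by
  classical
  let U : Set ℕ := {a | ∃ f ∈ W, f.coeff a ≠ 0 ∧ ∀ c < a, f.coeff c = 0}
  have hcard : ∀ s : Finset ℕ, ↑s ⊆ U → s.card ≤ finrank ℂ W := by
    intro s hs
    choose f hf h1 h2 using fun a : s => hs a.2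
    have hli : LinearIndependent ℂ (fun a : s => (⟨f a, hf a⟩ : W)) := by
      rw [Fintype.linearIndependent_iff]
      intro g hg
      by_contra hc
      push Not at hc
      obtain ⟨a, ha, hmin⟩ := Finset.exists_min_image (univ.filter fun a : s => g a ≠ 0)
        (fun a => (a : ℕ)) (by obtain ⟨a, ha⟩ := hc; exact ⟨a, by simpa using ha⟩)
      have h3 := congrArg (fun v : W => (v : ℂ[X]).coeff a) hg
      simp only [AddSubmonoidClass.coe_finsetSum, SetLike.val_smul, finsetSum_coeff, coeff_smul,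
        smul_eq_mul, ZeroMemClass.coe_zero, coeff_zero] at h3
      rw [Finset.sum_eq_single a] at h3
      · exact mul_ne_zero (by simpa using ha) (h1 a) h3
      · intro c _ hca
        by_cases hgc : g c = 0
        · simp [hgc]
        · have := hmin c (by simpa using hgc)
          have h4 : (a : ℕ) ≠ c := fun h => hca (Subtype.ext h.symm)
          rw [h2 c a (by omega), mul_zero]
      · simp
    simpa using hli.fintype_card_le_finrank
  have hU : U.Finite := by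
    by_contra hinf
    obtain ⟨s, hs, hc⟩ := Set.Infinite.exists_subset_card_eq hinf (finrank ℂ W + 1)
    have := hcard s hs
    omega
  exact ⟨hU.toFinset, hcard _ (by simp), fun f hf a h1 h2 => by simpa using ⟨f, hf, h1, h2⟩⟩

theorem descartes {T : Finset ℕ} {n : ℕ} (hT : T.card ≤ n) {f : ℂ[X]} (hf : f ∈ supp T)
    (hd : (X - C 1) ^ n ∣ f) : f = 0 := by
  ext b
  by_contra hb
  have hbT : b ∈ T := by
    by_contra h
    exact hb (hf b h)
  obtain ⟨g, hg⟩ := hd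
  have hV : Van n (0, 1) (f.map C) := by
    rw [hg, Polynomial.map_mul, Polynomial.map_pow]
    refine Ideal.mul_mem_right _ _ (Ideal.pow_mem_pow ?_ _)
    simp [mem_mx]
  have hc : T.card = (T.card - 1) + 1 := by
    have := card_pos.mpr ⟨b, hbT⟩
    omega
  have h1 := row_dvd (p := (0, 1)) one_ne_zero b _ T n _ hc hbT
    (fun c hc => by rw [coeff_map, hf c hc, map_zero]) hV
  have h2 := (dvd_pow_self _ (by omega)).trans h1
  rw [coeff_map, dvd_iff_isRoot] at h2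
  exact hb (by simpa using h2)

/-- The statement `Bd` for the left aligned monomial diagram with row lengths `n`. -/
def Good (μ : ι → ℕ) (n : ℕ → ℕ) (S : Finset ι) (ρ : ℕ) : Prop :=
  Bd μ (rows fun b => lt (n b)) S ρ

theorem finite_good (n : ℕ → ℕ) (B : ℕ) (hB : ∀ b, B ≤ b → n b = 0) :
    FiniteDimensional ℂ (rows fun b => lt (n b)) :=
  finite_rows _ (fun _ => inferInstance) B fun b hb => by
    simp only [hB b hb, lt, range_zero, supp_empty]

theorem trX_inj (β : ℂ) (F : R) (h : trX β F = 0) : F = 0 := by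
  ext1 b
  have := coeff_trX β F b
  rw [h, coeff_zero, eq_comm, taylor_eq_zero] at this
  exact this

theorem Good.rows {μ : ι → ℕ} {n : ℕ → ℕ} {S : Finset ι} {ρ : ℕ} (h : Good μ n S ρ)
    (W : ℕ → Submodule ℂ ℂ[X]) (hW : ∀ b, FiniteDimensional ℂ (W b))
    (hn : ∀ b, finrank ℂ (W b) ≤ n b) (B : ℕ) (hB : ∀ b, B ≤ b → n b = 0) :
    Bd μ (rows W) S ρ := by
  choose T hT1 hT2 using fun b => exists_trail (W b)
  have : FiniteDimensional ℂ (MP_6e81d8_ag.rows W) := finite_rows W hW B fun b hb =>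
    Submodule.finrank_eq_zero.mp (by have := hn b; rw [hB b hb] at this; omega)
  refine xgrade W T hT2 ?_
  let W2 : ℕ → Submodule ℂ ℂ[X] := fun b => (supp (T b)).map (taylor 1)
  have : FiniteDimensional ℂ (MP_6e81d8_ag.rows W2) :=
    finite_rows W2 (fun b => inferInstance) B fun b hb => by
      have h1 : T b = ∅ := by
        have := hn b; have := hT1 b; rw [hB b hb] at *
        exact card_eq_zero.mp (by omega)
      simp [W2, h1, supp_empty]
  refine Bd.of_map (E' := MP_6e81d8_ag.rows W2) (trX 1).toLinearMap (fun p => (p.1 + 1, p.2))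
    (fun F hF => mem_rows.mpr fun b => ?_) (fun F _ => trX_inj 1 F) (fun ν p F _ => van_trX) ?_
  · exact ⟨_, mem_rows.mp hF b, (coeff_trX 1 F b).symm⟩
  refine xgrade W2 (fun b => range (n b)) ?_ h
  rintro b _ ⟨f, hf, rfl⟩ a ha hlow
  rw [mem_range]
  by_contra hc
  have h1 : X ^ (n b) ∣ taylor 1 f := X_pow_dvd_iff.mpr fun c hc' => hlow c (by omega)
  have h2 := map_dvd (taylorAlgHom (-1 : ℂ)) h1
  have h3 : f = 0 := descartes ((hT1 b).trans (hn b)) hf (by
    simpa [taylor_taylor, sub_eq_add_neg] using h2)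
  exact ha (by simp [h3])

theorem good_empty (μ : ι → ℕ) (n : ℕ → ℕ) (B : ℕ) (hB : ∀ b, B ≤ b → n b = 0) (S : Finset ι)
    {ρ : ℕ} (h : ∑ b ∈ range B, n b ≤ ρ) : Good μ n S ρ := by
  have := finite_good n B hB
  refine bd_of_finrank μ _ S ((finrank_rows _ (fun _ => inferInstance) B fun b hb => ?_).trans
    (le_trans (Finset.sum_le_sum fun b _ => ?_) h))
  · simp only [hB b hb, lt, range_zero, supp_empty]
  · simpa using finrank_supp (range (n b))

theorem pick_dvd {n r : ℕ → ℕ} {ν : ℕ} (hr : ∀ b, r b ≤ ν)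
    (hv : ∀ c b, c < b → 0 < r b → 0 < n c → r b < r c ∨ (n c ≤ r c ∧ r c < r b))
    {G : R} (hG : ∀ c, G.coeff c ∈ lt (n c)) (b : ℕ) (hb : ∀ c, b < c → G.coeff c = 0)
    (hV : Van ν (1, 1) G) : (X - C 1) ^ r b ∣ G.coeff b := by
  classical
  by_contra hnd
  have hrb : 0 < r b := by
    rcases Nat.eq_zero_or_pos (r b) with h | h
    · simp [h] at hnd
    · exact h
  let T := (range (b + 1)).filter fun c => G.coeff c ≠ 0
  have hT : ∀ c, c ∈ T ↔ c ≤ b ∧ G.coeff c ≠ 0 := by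
    intro c; simp [T]
  have hbT : b ∈ T := (hT b).mpr ⟨le_rfl, fun h => hnd (by simp [h])⟩
  have hn : ∀ c ∈ T, 0 < n c := by
    intro c hc
    by_contra h
    have h1 := hG c
    rw [show n c = 0 by omega, lt, range_zero, supp_empty] at h1
    exact ((hT c).mp hc).2 h1
  have hpos : ∀ c ∈ T, 0 < r c := by
    intro c hc
    rcases ((hT c).mp hc).1.lt_or_eq with h | h
    · have := hv c b h hrb (hn c hc)
      have := hn c hc
      omega
    · rw [h]; exact hrb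
  obtain ⟨c, hc, hmin⟩ := Finset.exists_min_image T r ⟨b, hbT⟩
  have hcard : T.card ≤ (Icc (r c) ν).card := by
    refine Finset.card_le_card_of_injOn r (fun x hx => ?_) (fun x hx y hy hxy => ?_)
    · simpa using ⟨hmin x hx, hr x⟩
    · by_contra hne
      rcases lt_or_gt_of_ne hne with h | h
      · have := hv x y h (hpos y hy) (hn x hx)
        omega
      · have := hv y x h (hpos x hx) (hn y hy)
        omega
  rw [Nat.card_Icc] at hcard
  have hc1 : T.card = (T.card - 1) + 1 := by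
    have := card_pos.mpr ⟨b, hbT⟩
    omega
  have h1 := row_dvd (p := (1, 1)) one_ne_zero c _ T ν G hc1 hc (fun x hx => by
    by_contra h
    by_cases hxb : x ≤ b
    · exact hx ((hT x).mpr ⟨hxb, h⟩)
    · exact h (hb x (by omega))) hV
  have h2 : (X - C 1) ^ r c ∣ G.coeff c := (pow_dvd_pow _ (by have := hr c; omega)).trans h1
  rcases ((hT c).mp hc).1.lt_or_eq with h | h
  · have h3 := hv c b h hrb (hn c hc)
    have h4 := hmin b hbT
    refine ((hT c).mp hc).2 (eq_zero_of_dvd_of_degree_lt h2 ?_)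
    rw [degree_pow, degree_X_sub_C]
    refine (mem_lt_degree.mp (hG c)).trans_le ?_
    simp only [nsmul_eq_mul, mul_one, Nat.cast_le]
    omega
  · exact hnd (h ▸ h2)

/-- One point moves to the line `Y = 0` and removes `r b` monomials from the row `b`. -/
theorem pmove [DecidableEq ι] {μ : ι → ℕ} {n r : ℕ → ℕ} (B : ℕ) (hB : ∀ b, B ≤ b → n b = 0)
    {S : Finset ι} {i : ι} (hi : i ∉ S) {ρ : ℕ} (hr : ∀ b, r b ≤ μ i)
    (hv : ∀ c b, c < b → 0 < r b → 0 < n c → r b < r c ∨ (n c ≤ r c ∧ r c < r b))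
    (h : Good μ (fun b => n b - r b) S ρ) : Good μ n (insert i S) ρ := by
  let W : ℕ → Submodule ℂ ℂ[X] := fun b =>
    (lt (n b - r b)).map (LinearMap.mulLeft ℂ ((X - C 1) ^ r b))
  have hW : ∀ b f, f ∈ lt (n b) → (X - C 1) ^ r b ∣ f → f ∈ W b := by
    rintro b f hf ⟨g, rfl⟩
    refine ⟨g, ?_, rfl⟩
    by_cases hg : g = 0
    · simp [hg]
    · change g ∈ lt _
      rw [mem_lt_degree] at hf ⊢
      rw [degree_mul, degree_pow, degree_X_sub_C, degree_eq_natDegree hg] at hf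
      rw [degree_eq_natDegree hg]
      simp only [nsmul_eq_mul, mul_one] at hf
      norm_cast at hf ⊢
      omega
  obtain ⟨q, Ψ, hq⟩ := h.rows W (fun b => inferInstance)
    (fun b => (Submodule.finrank_map_le _ _).trans (by simpa using finrank_supp (range (n b - r b))))
    B (fun b hb => by simp [hB b hb])
  have := finite_good n B hB
  obtain ⟨t, ht, h2⟩ := limit2 ((rows fun b => lt (n b)) ⊓ (sol μ S q ⊓ LinearMap.ker Ψ))
    ((mx (1, 1) ^ μ i).restrictScalars ℂ) (by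
      intro F hF hN
      refine hq _ (mem_rows.mpr fun b => hW b _ (mem_rows.mp (hF 0).1 b) ?_)
        (mem_sol.mp (hF 0).2.1) (hF 0).2.2
      have h3 := pick_dvd hr hv (fun c => by
        rw [coeff_level]
        split_ifs
        · exact mem_rows.mp (hF _).1 c
        · exact zero_mem _) b (fun c hc => by rw [coeff_level, if_neg (by omega)]) (hN b)
      rw [coeff_level] at h3
      simpa using h3)
  refine ⟨Function.update q i (1, t * 1), Ψ, fun F hF hV hΨ =>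
    h2 F ⟨hF, mem_sol.mpr fun j hj => ?_, hΨ⟩ ?_⟩
  · have := hV j (mem_insert_of_mem hj)
    rwa [Function.update_of_ne (fun h : j = i => hi (h ▸ hj))] at this
  · have := hV i (mem_insert_self i S)
    rw [Function.update_self] at this
    exact van_scale (p := (1, 1)) this

end Pool.Agent.Lib.MP_6e81d8_ag
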