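import Pool.Agent.Lib.MP_6e81d8_ag.Strip

set_option autoImplicit false
set_option maxHeartbeats 400000
set_option maxSynthPendingDepth 3

namespace Pool.Agent.Lib.MP_6e81d8_ag

open Polynomial Finset Module

variable {ι : Type}

/-- Polynomials of `X`-degree less than `A` and total degree less than `e`. -/
noncomputable def Dsp (A e : ℕ) : Submodule ℂ R := rows fun b => lt (min A (e - b))

/-- The number of monomials in `Dsp A e`. -/
def sz (A e : ℕ) : ℕ := ∑ a ∈ range A, (e - a)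

instance finite_Dsp (A e : ℕ) : FiniteDimensional ℂ (Dsp A e) :=
  finite_good (fun b => min A (e - b)) e fun b hb => by omega

theorem sz_split (u A e : ℕ) : sz A e = sz (min u A) e + sz (A - u) (e - u) := by
  rcases le_total u A with h | h
  · obtain ⟨A', rfl⟩ := Nat.exists_eq_add_of_le h
    rw [min_eq_left h, sz, Finset.sum_range_add, Nat.add_sub_cancel_left]
    simp only [sz, Nat.sub_sub]
  · rw [min_eq_right h, show A - u = 0 by omega]
    simp [sz]

/-- The length of the `j`-th row along the curve `Y = X ^ u`. -/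
def ell (u A e j : ℕ) : ℕ := sz (min u (A - j * u)) (e - j * u)

theorem sum_ell (u A e k : ℕ) :
    ∑ j ∈ range k, ell u A e j + sz (A - k * u) (e - k * u) = sz A e := by
  induction k with
  | zero => simp
  | succ k ih =>
    rw [Finset.sum_range_succ, ← ih, sz_split u (A - k * u) (e - k * u), ell, add_assoc,
      Nat.sub_sub, Nat.sub_sub, add_mul, one_mul]

theorem ell_zero {u A e K j : ℕ} (h : A ≤ K * u) (hj : K ≤ j) : ell u A e j = 0 := by
  have := Nat.mul_le_mul_right u hj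
  rw [ell, show A - j * u = 0 by omega]
  simp [sz]

theorem sz_shift {u e t : ℕ} (h : t + u ≤ e + 1) : sz u (e - t) + u * t = sz u e := by
  have : u * t = ∑ _a ∈ range u, t := by simp
  rw [sz, sz, this, ← Finset.sum_add_distrib]
  exact Finset.sum_congr rfl fun a ha => by have := mem_range.mp ha; omega

theorem sz_mono {A A' e e' : ℕ} (h : A ≤ A') (h' : e ≤ e') : sz A e ≤ sz A' e' :=
  (Finset.sum_le_sum fun a _ => by omega).trans
    (Finset.sum_le_sum_of_subset (range_subset_range.mpr h))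

theorem ell_lin {u A e j : ℕ} (hAe : A ≤ e) (h : (j + 1) * u ≤ A) :
    ell u A e j + u * u * j = sz u e := by
  rw [add_mul, one_mul] at h
  rw [ell, min_eq_left (by omega), ← sz_shift (t := j * u) (u := u) (e := e) (by omega)]
  ring

theorem two_sz {u e : ℕ} (h : u ≤ e + 1) : 2 * sz u e + u * u = u * (2 * e + 1) := by
  induction u with
  | zero => simp [sz]
  | succ u ih =>
    have := ih (by omega)
    rw [sz, Finset.sum_range_succ, ← sz]
    obtain ⟨t, rfl⟩ := Nat.exists_eq_add_of_le (show u ≤ e by omega)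
    rw [Nat.add_sub_cancel_left]
    nlinarith

theorem sz_self (e : ℕ) : sz e e = tri e := sum_range_sub_tri e e le_rfl

theorem div_curve {u A e : ℕ} (hu : 1 ≤ u) {F : R} (hF : F ∈ Dsp A e) (h0 : F.eval (X ^ u) = 0) :
    ∃ G ∈ Dsp (A - u) (e - u), F = (X - C (X ^ u)) * G := by
  obtain ⟨G, hG⟩ := dvd_iff_isRoot.mpr h0
  refine ⟨G, mem_rows.mpr fun b => ?_, hG⟩
  have hF' : ∀ b a, min A (e - b) ≤ a → (F.coeff b).coeff a = 0 := fun b =>
    mem_lt.mp (mem_rows.mp hF b)
  rw [mem_lt]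
  induction b with
  | zero =>
    intro a ha
    have h1 := hF' 0 (a + u) (by omega)
    rw [hG, sub_mul, coeff_sub, coeff_C_mul, coeff_X_mul_zero, zero_sub, coeff_neg,
      coeff_X_pow_mul] at h1
    exact neg_eq_zero.mp h1
  | succ b ih =>
    intro a ha
    have h1 := hF' (b + 1) (a + u) (by omega)
    rw [hG, sub_mul, coeff_sub, coeff_C_mul, coeff_X_mul, coeff_sub, coeff_X_pow_mul,
      ih (a + u) (by omega), zero_sub] at h1
    exact neg_eq_zero.mp h1

theorem coeff_sh_pow (f : ℂ[X]) (j : ℕ) (G : R) :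
    (sh f ((X - C f) ^ j * G)).coeff j = G.eval f := by
  have : sh f (X - C f) = X := by simp [sh_apply]
  rw [map_mul, map_pow, this]
  have h := coeff_X_pow_mul (sh f G) j 0
  rw [zero_add] at h
  rw [h, sh_apply, taylor_coeff_zero]

theorem div_pow {u A e : ℕ} (hu : 1 ≤ u) {F : R} (hF : F ∈ Dsp A e) (j : ℕ)
    (h0 : ∀ c < j, (sh (X ^ u) F).coeff c = 0) :
    ∃ G ∈ Dsp (A - j * u) (e - j * u), F = (X - C (X ^ u)) ^ j * G := by
  induction j with
  | zero => exact ⟨F, by simpa using hF, by simp⟩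
  | succ j ih =>
    obtain ⟨G, hG, rfl⟩ := ih fun c hc => h0 c (by omega)
    have h1 := h0 j (by omega)
    rw [coeff_sh_pow] at h1
    obtain ⟨G', hG', rfl⟩ := div_curve hu hG h1
    refine ⟨G', ?_, by ring⟩
    rwa [Nat.sub_sub, Nat.sub_sub, ← add_one_mul] at hG'

/-- The exponents of the restriction to the curve. -/
def Tc (u A e : ℕ) : Finset ℕ :=
  (range (min u A)).biUnion fun i => (range (e - i)).image fun v => i + u * v

theorem card_Tc (u A e : ℕ) : (Tc u A e).card ≤ sz (min u A) e :=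
  card_biUnion_le.trans (Finset.sum_le_sum fun i _ => card_image_le.trans (by simp))

theorem eval_mem {u A e : ℕ} (hu : 1 ≤ u) {G : R} (hG : G ∈ Dsp A e) :
    G.eval (X ^ u) ∈ supp (Tc u A e) := by
  rw [eval_eq_sum_range]
  refine Submodule.sum_mem _ fun b _ => ?_
  intro x hx
  rw [← pow_mul, coeff_mul_X_pow']
  split_ifs with h
  · refine mem_lt.mp (mem_rows.mp hG b) _ ?_
    by_contra hc
    apply hx
    obtain ⟨a, rfl⟩ := Nat.exists_eq_add_of_le h
    rw [Nat.add_sub_cancel_left] at hc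
    have h1 := Nat.mod_lt a hu
    have h2 := Nat.mod_add_div a u
    have h3 : a / u ≤ u * (a / u) := Nat.le_mul_of_pos_left _ hu
    simp only [Tc, mem_biUnion, mem_image, mem_range]
    refine ⟨a % u, by omega, a / u + b, by omega, ?_⟩
    rw [mul_add]
    omega
  · rfl

theorem bd_sh {μ : ι → ℕ} {E : Submodule ℂ R} (f : ℂ[X]) {S : Finset ι} {ρ : ℕ}
    (h : Bd μ (E.map (sh f).toLinearMap) S ρ) : Bd μ E S ρ :=
  Bd.of_map (sh f).toLinearMap (fun p => (p.1, p.2 + f.eval p.1))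
    (fun _ hF => Submodule.mem_map_of_mem hF)
    (fun F _ hF => by
      have h1 : sh f F = 0 := hF
      rw [← sh_neg_sh f F, h1, map_zero]) (fun _ _ _ _ => van_sh) h

theorem row_mem {u A e : ℕ} (hu : 1 ≤ u) (b : ℕ) :
    ∀ F ∈ (Dsp A e).map (sh (X ^ u)).toLinearMap, (∀ c < b, F.coeff c = 0) →
      F.coeff b ∈ supp (Tc u (A - b * u) (e - b * u)) := by
  rintro _ ⟨F, hF, rfl⟩ h0
  obtain ⟨G, hG, rfl⟩ := div_pow hu hF b h0
  exact (coeff_sh_pow _ _ _).symm ▸ eval_mem hu hG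

/-- Approximate theorem for plane curves with one point of arbitrary multiplicity. -/
theorem approx [DecidableEq ι] {μ : ι → ℕ} {m u A e K : ℕ} (hm : 1 ≤ m) (hu : 1 ≤ u)
    (hAe : A ≤ e) (h1 : m * u ≤ A) (h2 : (m + 1) * u ≤ e + 1) (h3 : A ≤ K * u)
    {S : Finset ι} (hS : ∀ i ∈ S, μ i ≤ m)
    (h : sz A e + (m - 1) * K + 1 ≤ mass μ S + tri m ∨
      mass μ S + (m - 1) * K + 1 ≤ sz A e + tri m) :
    Bd μ (Dsp A e) S (sz A e - mass μ S) := by
  have hsum : ∑ j ∈ range K, ell u A e j = sz A e := by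
    have := sum_ell u A e K
    rwa [show A - K * u = 0 by omega, sz, Finset.sum_range_zero, add_zero] at this
  have hsh := sz_shift (u := u) (e := e) (t := m * u) (by rw [add_mul] at h2; omega)
  have h4 := strip (μ := μ) (l := ell u A e) (K := K) (σ := u * u) (lam := sz u e) hm
    (Nat.le_of_mul_le_mul_right (h1.trans h3) hu) (fun b hb => ell_zero h3 hb)
    (fun b hb => ell_lin hAe ((Nat.mul_le_mul_right u hb).trans h1))
    (by rw [← hsh]; nlinarith) (fun b hb => by
      have : ell u A e b ≤ sz u (e - m * u) := sz_mono (min_le_left _ _)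
        (Nat.sub_le_sub_left (Nat.mul_le_mul_right u hb) _)
      rw [← hsh]; nlinarith) hS (hsum ▸ h)
  rw [hsum] at h4
  refine bd_sh (X ^ u) (grade _ _ (row_mem hu) (h4.rows _ (fun _ => inferInstance)
    (fun b => (finrank_supp _).trans (card_Tc _ _ _)) K fun b hb => ell_zero h3 hb))

/-- The two-sided degeneration along the curve `Y = X ^ s`. -/
theorem main_cut [DecidableEq ι] {μ : ι → ℕ} {s A e k : ℕ} (hs : 1 ≤ s) (hAe : A ≤ e)
    (hk : (k + 1) * s ≤ A) {I J : Finset ι} (hIJ : Disjoint I J) {ρ ρ' : ℕ}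
    (hρ : ρ + ρ' ≤ ell s A e k)
    (hI0 : Bd μ (Dsp (A - (k + 1) * s) (e - (k + 1) * s)) I 0)
    (hI1 : Bd μ (Dsp (A - k * s) (e - k * s)) I ρ)
    (hJ0 : Good μ (tr k (ell s A e)) J 0) (hJ1 : Good μ (tr (k + 1) (ell s A e)) J ρ') :
    Bd μ (Dsp A e) (I ∪ J) 0 := by
  have hJ := transversal (σ := s * s) (lam := sz s e)
    (fun b hb => ell_lin hAe ((Nat.mul_le_mul_right s (by omega)).trans hk)) hρ hJ0 hJ1
  obtain ⟨Δ₀, hΔ₀, Ψ₀, h0⟩ := hI0.generic
  obtain ⟨Δ₁, hΔ₁, Ψ₁, h1⟩ := hI1.generic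
  obtain ⟨q, hq⟩ := exists_eval_ne
    (Δ₀ * Δ₁ * ∏ i ∈ I, (MvPolynomial.X (i, 1) - MvPolynomial.X (i, 0) ^ s))
    (mul_ne_zero (mul_ne_zero hΔ₀ hΔ₁) (Finset.prod_ne_zero_iff.mpr fun i _ h => by
      have := congrArg (MvPolynomial.eval fun x : ι × Fin 2 => if x.2 = 0 then (0 : ℂ) else 1) h
      simp [show s ≠ 0 by omega] at this))
  rw [map_mul, map_mul, map_prod] at hq
  replace h0 := h0 q (left_ne_zero_of_mul (left_ne_zero_of_mul hq))
  replace h1 := h1 q (right_ne_zero_of_mul (left_ne_zero_of_mul hq))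
  have h2 := Finset.prod_ne_zero_iff.mp (right_ne_zero_of_mul hq)
  obtain ⟨p, hp⟩ : ∃ p : ι → ℂ × ℂ, ∀ i, (q (i, 0), q (i, 1)) = p i := ⟨_, fun _ => rfl⟩
  simp only [hp] at h0 h1
  have h3 : ∀ i ∈ I, ∀ j, ev (p i) ((X - C (X ^ s)) ^ j) ≠ 0 := by
    intro i hi j
    rw [map_pow]
    refine pow_ne_zero _ ?_
    rw [← hp i]
    simpa using h2 i hi
  have hvan : ∀ j (G : R), (∀ i ∈ I, Van (μ i) ((p i).1, (p i).2 + (-X ^ s).eval (p i).1)
      (sh (X ^ s) ((X - C (X ^ s)) ^ j * G))) → ∀ i ∈ I, Van (μ i) (p i) G := by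
    intro j G h i hi
    have := van_sh (h i hi)
    rw [sh_neg_sh] at this
    exact van_cancel (h3 i hi j) this
  let V : Submodule ℂ R := Dsp (A - k * s) (e - k * s) ⊓ sol μ I p
  have hV : finrank ℂ V ≤ ρ := by
    have : Function.Injective (Ψ₁ ∘ₗ V.subtype) := by
      rw [injective_iff_map_eq_zero]
      intro F hF
      exact Subtype.ext (h1 F F.2.1 (mem_sol.mp F.2.2) hF)
    simpa using LinearMap.finrank_le_finrank_of_injective this
  let U : Submodule ℂ ℂ[X] := V.map (cf 0 ∘ₗ (sh (X ^ s)).toLinearMap)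
  let W : ℕ → Submodule ℂ ℂ[X] := fun b =>
    if b = k then U else supp (if b < k then Tc s (A - b * s) (e - b * s) else ∅)
  have hWk : W k = U := if_pos rfl
  have hW' : ∀ b, b ≠ k → W b = supp (if b < k then Tc s (A - b * s) (e - b * s) else ∅) :=
    fun b hb => if_neg hb
  have hW : ∀ b, FiniteDimensional ℂ (W b) := fun b => by
    by_cases hb : b = k
    · rw [hb, hWk]; infer_instance
    · rw [hW' b hb]; infer_instance
  refine bd_sh (X ^ s) (cut _ k hIJ (fun i => ((p i).1, (p i).2 + (-X ^ s).eval (p i).1)) W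
    (fun b hb F hF h => ?_) ?_ ?_ (hJ.rows W hW (fun b => ?_) (k + 1) fun b hb => ?_))
  · rw [hW' b (by omega), if_pos hb]
    exact row_mem hs b F hF h
  · rintro _ ⟨F, hF, rfl⟩ h hv
    obtain ⟨G, hG, rfl⟩ := div_pow hs hF k h
    rw [hWk]
    refine ⟨G, ⟨hG, mem_sol.mpr (hvan k G hv)⟩, ?_⟩
    refine Eq.trans ?_ (coeff_sh_pow _ _ _).symm
    exact taylor_coeff_zero _ _
  · rintro _ ⟨F, hF, rfl⟩ h hv
    obtain ⟨G, hG, rfl⟩ := div_pow hs hF (k + 1) h
    rw [h0 G hG (hvan _ G hv) (Subsingleton.elim _ _), mul_zero, map_zero]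
  · by_cases hb : b = k
    · rw [if_pos hb, hb, hWk]
      exact (Submodule.finrank_map_le _ _).trans hV
    · rw [if_neg hb, hW' b hb]
      refine (finrank_supp _).trans ?_
      unfold tr
      split_ifs
      · exact card_Tc _ _ _
      · simp
  · rw [if_neg (by omega), tr_of_le _ (by omega)]

end Pool.Agent.Lib.MP_6e81d8_ag
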