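import Pool.Agent.Lib.MP_6e81d8_ag.Curve

set_option autoImplicit false
set_option maxHeartbeats 400000
set_option maxSynthPendingDepth 3

namespace Pool.Agent.Lib.MP_6e81d8_ag

open Polynomial Finset Module

variable {ι : Type}

theorem exists_lower [DecidableEq ι] (S : Finset ι) {m z : ℕ} (hm : 1 ≤ m) :
    ∀ (n : ℕ) (μ : ι → ℕ), mass μ S = n → (∀ i ∈ S, μ i ≤ m) → z ≤ mass μ S →
      ∃ μ' : ι → ℕ, (∀ i, μ' i ≤ μ i) ∧ z ≤ mass μ' S ∧ mass μ' S < z + m := by
  intro n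
  induction n using Nat.strong_induction_on with
  | _ n ih =>
    intro μ hn hS hz
    by_cases h : mass μ S < z + m
    · exact ⟨μ, fun _ => le_rfl, hz, h⟩
    obtain ⟨i, hi, hpos⟩ : ∃ i ∈ S, μ i ≠ 0 := by
      by_contra hc
      push Not at hc
      have : mass μ S = 0 := Finset.sum_eq_zero fun i hi => by rw [hc i hi, tri]
      omega
    obtain ⟨ν, hν⟩ : ∃ ν, μ i = ν + 1 := ⟨μ i - 1, by omega⟩
    have hle : ∀ j, Function.update μ i ν j ≤ μ j := by
      intro j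
      by_cases hj : j = i
      · subst hj; simp [hν]
      · simp [hj]
    have hmass : mass (Function.update μ i ν) S + (ν + 1) = mass μ S := by
      unfold mass
      rw [← Finset.add_sum_erase _ _ hi, ← Finset.add_sum_erase S _ hi, Function.update_self, hν,
        tri, Finset.sum_congr rfl fun j hj => by
          rw [Function.update_of_ne (ne_of_mem_erase hj)]]
      ring
    have := hS i hi
    obtain ⟨μ', h1, h2, h3⟩ := ih _ (by omega) (Function.update μ i ν) rfl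
      (fun j hj => (hle j).trans (hS j hj)) (by omega)
    exact ⟨μ', fun j => (h1 j).trans (hle j), h2, h3⟩

theorem exists_window [DecidableEq ι] (μ : ι → ℕ) {k L : ℕ} (hk : 1 ≤ k) (T : Finset ι)
    (hT : ∀ i ∈ T, μ i ≤ k) (hL : L ≤ mass μ T) :
    ∃ J ⊆ T, L ≤ mass μ J ∧ mass μ J < L + tri k := by
  have h1 : 1 ≤ tri k := tri_mono (a := 1) hk
  induction T using Finset.induction_on with
  | empty => exact ⟨∅, subset_rfl, hL, by simp only [mass, sum_empty]; omega⟩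
  | insert i T hi ih =>
    by_cases h : mass μ (insert i T) < L + tri k
    · exact ⟨_, subset_rfl, hL, h⟩
    · have h2 := tri_mono (hT i (mem_insert_self i T))
      rw [mass, Finset.sum_insert hi, ← mass] at h
      obtain ⟨J, hJ, h3⟩ := ih (fun j hj => hT j (mem_insert_of_mem hj)) (by omega)
      exact ⟨J, hJ.trans (subset_insert i T), h3⟩

theorem mass_mono {μ μ' : ι → ℕ} (h : ∀ i, μ' i ≤ μ i) (S : Finset ι) : mass μ' S ≤ mass μ S :=
  Finset.sum_le_sum fun i _ => tri_mono (h i)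

theorem Bd.of_extra {μ : ι → ℕ} {E : Submodule ℂ R} {S : Finset ι} {ρ : ℕ}
    (h : Bd (Sum.elim μ fun _ : Fin ρ => 1) E (S.disjSum univ) 0) : Bd μ E S ρ := by
  obtain ⟨p, Ψ, h⟩ := h
  refine ⟨fun i => p (Sum.inl i), LinearMap.pi fun j => (ev (p (Sum.inr j))).toLinearMap,
    fun F hF hV hΨ => h F hF ?_ (Subsingleton.elim _ _)⟩
  rintro (i | j) hi
  · exact hV i (by simpa using hi)
  · simp only [Sum.elim_inr, Van, pow_one, mem_mx]
    exact congrFun hΨ j

/-- The expected dimension `z - mass` holds when the virtual dimension is far from zero. -/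
def Approx (E : Submodule ℂ R) (z m g : ℕ) : Prop :=
  ∀ (ι : Type) [DecidableEq ι] (μ : ι → ℕ) (S : Finset ι), (∀ i ∈ S, μ i ≤ m) →
    (z + g + 1 ≤ mass μ S + tri m ∨ mass μ S + g + 1 ≤ z + tri m) → Bd μ E S (z - mass μ S)

/-- The conclusion of a two-sided degeneration with `k + 1` rows of lengths `l`. -/
def CutP (E E0 E1 : Submodule ℂ R) (k : ℕ) (l : ℕ → ℕ) : Prop :=
  ∀ (ι : Type) [DecidableEq ι] (μ : ι → ℕ) (I J : Finset ι) (ρ ρ' : ℕ), Disjoint I J →
    ρ + ρ' ≤ l k → Bd μ E0 I 0 → Bd μ E1 I ρ → Good μ (tr k l) J 0 →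
    Good μ (tr (k + 1) l) J ρ' → Bd μ E (I ∪ J) 0

theorem exact_over [DecidableEq ι] {E E0 E1 : Submodule ℂ R} {k m σ lam z K0 K1 : ℕ} {l : ℕ → ℕ}
    (hk : 1 ≤ k) (hkm : k ≤ m) (hlin : ∀ b ≤ k, l b + σ * b = lam) (hcut : CutP E E0 E1 k l)
    (h0 : Approx E0 z m ((m - 1) * K0)) (h1 : Approx E1 (l k + z) m ((m - 1) * K1))
    (hK0 : m + 1 ≤ K0) (hK1 : m + 1 ≤ K1)
    (hnum : (m - 1) * K0 + (m - 1) * K1 + tri k + m ≤ l k + 2 * tri m)
    {μ : ι → ℕ} {S T : Finset ι} (hTS : T ⊆ S) (hS : ∀ i ∈ S, μ i ≤ m) (hT : ∀ i ∈ T, μ i ≤ k)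
    (hz : mass μ (S \ T) ≤ z) (hover : ∑ j ∈ range k, l j + (l k + z) ≤ mass μ S) :
    Bd μ E S 0 := by
  obtain ⟨μ', hμ, h2, h3⟩ := exists_lower S (hk.trans hkm) _ μ rfl hS hover
  refine Bd.mono_mult hμ ?_
  replace hS : ∀ i ∈ S, μ' i ≤ m := fun i hi => (hμ i).trans (hS i hi)
  replace hT : ∀ i ∈ T, μ' i ≤ k := fun i hi => (hμ i).trans (hT i hi)
  replace hz := (mass_mono hμ _).trans hz
  have g0 : tri m ≤ 1 + (m - 1) * K0 := by
    simpa [tri] using gamma_mono (w := 0) (hk.trans hkm) (show m ≤ K0 by omega)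
  have g1 : tri m ≤ 1 + (m - 1) * K1 := by
    simpa [tri] using gamma_mono (w := 0) (hk.trans hkm) (show m ≤ K1 by omega)
  have g2 := gamma_mono (w := k - 1) (m := m) (K := K0) (by omega) (by omega)
  have g3 := gamma_mono (w := k - 1) (m := m) (K := K1) (by omega) (by omega)
  rw [show k - 1 + 1 = k by omega] at g2 g3
  have g4 : (k - 1) * (k + 1) ≤ (k - 1) * K0 := Nat.mul_le_mul_left _ (by omega)
  have g5 : (k - 1) * k ≤ (k - 1) * K1 := Nat.mul_le_mul_left _ (by omega)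
  have g6 : 1 ≤ tri k := tri_mono (a := 1) hk
  have g7 := mass_sdiff μ' hTS
  obtain ⟨J, hJ, h4, h5⟩ := exists_window μ' hk T hT
    (L := ∑ j ∈ range k, l j + ((m - 1) * K1 + m - tri m)) (by omega)
  have hJS := hJ.trans hTS
  have g8 := mass_sdiff μ' hJS
  have hJk : ∀ i ∈ J, μ' i ≤ k := fun i hi => hT i (hJ hi)
  have hI : ∀ i ∈ S \ J, μ' i ≤ m := fun i hi => hS i (mem_sdiff.mp hi).1
  have hσ : σ * k ≤ lam := by have := hlin k le_rfl; omega
  have hJ0 := strip (μ := μ') (l := tr k l) (K := k) (σ := σ) (lam := lam) hk le_rfl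
    (fun b hb => tr_of_le _ hb) (fun b hb => by rw [tr_of_lt _ hb]; exact hlin b hb.le) hσ
    (fun b hb => by rw [tr_of_le _ hb]; omega) hJk (Or.inl (by rw [sum_tr]; omega))
  have hJ1 := strip (μ := μ') (l := tr (k + 1) l) (K := k + 1) (σ := σ) (lam := lam) hk
    (Nat.le_succ k) (fun b hb => tr_of_le _ hb)
    (fun b hb => by rw [tr_of_lt _ (by omega)]; exact hlin b hb.le) hσ
    (fun b hb => by
      rcases hb.eq_or_lt with h | h
      · rw [← h, tr_of_lt _ (Nat.lt_succ_self k)]; exact (hlin k le_rfl).le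
      · rw [tr_of_le _ h]; omega) hJk
    (Or.inr (by rw [sum_tr, Finset.sum_range_succ]; omega))
  rw [sum_tr] at hJ0 hJ1
  rw [Finset.sum_range_succ] at hJ1
  rw [show ∑ j ∈ range k, l j - mass μ' J = 0 by omega] at hJ0
  have hI0 := h0 ι μ' _ hI (Or.inl (by omega))
  have hI1 := h1 ι μ' _ hI (Or.inr (by omega))
  rw [show z - mass μ' (S \ J) = 0 by omega] at hI0
  have := hcut ι μ' _ J _ _ sdiff_disjoint (by omega) hI0 hI1 hJ0 hJ1
  rwa [sdiff_union_of_subset hJS] at this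

theorem exact_abs [DecidableEq ι] {E E0 E1 : Submodule ℂ R} {k m σ lam z K0 K1 : ℕ} {l : ℕ → ℕ}
    (hk : 1 ≤ k) (hkm : k ≤ m) (hlin : ∀ b ≤ k, l b + σ * b = lam) (hcut : CutP E E0 E1 k l)
    (h0 : Approx E0 z m ((m - 1) * K0)) (h1 : Approx E1 (l k + z) m ((m - 1) * K1))
    (hK0 : m + 1 ≤ K0) (hK1 : m + 1 ≤ K1)
    (hnum : (m - 1) * K0 + (m - 1) * K1 + tri k + m ≤ l k + 2 * tri m)
    {μ : ι → ℕ} {S T : Finset ι} (hTS : T ⊆ S) (hS : ∀ i ∈ S, μ i ≤ m) (hT : ∀ i ∈ T, μ i ≤ k)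
    (hz : mass μ (S \ T) ≤ z) :
    Bd μ E S (∑ j ∈ range k, l j + (l k + z) - mass μ S) := by
  by_cases hover : ∑ j ∈ range k, l j + (l k + z) ≤ mass μ S
  · rw [Nat.sub_eq_zero_of_le hover]
    exact exact_over hk hkm hlin hcut h0 h1 hK0 hK1 hnum hTS hS hT hz hover
  obtain ⟨ρ, hρ⟩ : ∃ ρ, ρ = ∑ j ∈ range k, l j + (l k + z) - mass μ S := ⟨_, rfl⟩
  rw [← hρ]
  refine Bd.of_extra (exact_over (T := T.disjSum univ) hk hkm hlin hcut h0 h1 hK0 hK1 hnum
    (disjSum_mono hTS subset_rfl) ?_ ?_ ?_ ?_)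
  · rintro (i | j) hi
    · exact hS i (by simpa using hi)
    · exact hk.trans hkm
  · rintro (i | j) hi
    · exact hT i (by simpa using hi)
    · exact hk
  · have : S.disjSum (univ : Finset (Fin ρ)) \ T.disjSum univ = (S \ T).disjSum ∅ := by
      ext (i | j) <;> simp
    rw [this, mass, Finset.sum_disjSum]
    simpa [mass] using hz
  · rw [mass, Finset.sum_disjSum]
    simp only [Sum.elim_inl, Sum.elim_inr, tri, sum_const, card_univ, Fintype.card_fin,
      smul_eq_mul]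
    rw [← mass]
    omega

theorem approx_two {m A e : ℕ} (hm : 1 ≤ m) (hA : m ≤ A) (hAe : A + m ≤ e) :
    Approx (Dsp A e) (sz A e) m ((m - 1) * max (2 * m - 1) (m + 1)) := by
  intro ι _ μ S hS h
  have h1 := Nat.div_mul_le_self A m
  have h2 := Nat.lt_div_mul_add (a := A) (show 0 < m by omega)
  have h3 := Nat.div_mul_le_self (e + 1) (m + 1)
  have h4 := Nat.lt_div_mul_add (a := e + 1) (show 0 < m + 1 by omega)
  have h5 : 1 ≤ A / m := (Nat.le_div_iff_mul_le hm).mpr (by omega)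
  have h6 : 1 ≤ (e + 1) / (m + 1) := (Nat.le_div_iff_mul_le (by omega)).mpr (by omega)
  generalize A / m = a at *
  generalize (e + 1) / (m + 1) = b at *
  have h7 := le_max_left (2 * m - 1) (m + 1)
  have h8 := le_max_right (2 * m - 1) (m + 1)
  generalize max (2 * m - 1) (m + 1) = K at *
  obtain ⟨m, rfl⟩ : ∃ m', m = m' + 1 := ⟨m - 1, by omega⟩
  rw [show 2 * (m + 1) - 1 = 2 * m + 1 by omega] at h7
  rcases le_total a b with hab | hab
  · refine approx (u := a) (K := K) hm h5 (by omega) (by nlinarith) (by nlinarith) ?_ hS h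
    nlinarith
  · refine approx (u := b) (K := K) hm h6 (by omega) (by nlinarith) (by nlinarith) ?_ hS h
    nlinarith

theorem exists_s {m k H d : ℕ} (hk : 1 ≤ k) (hkm : k ≤ m) (hH : m + k + 1 ≤ H) (hd : H + m ≤ d)
    (h : 14 * m ^ 3 ≤ d * H) : ∃ s, 1 ≤ s ∧ (k + 1) * s + m ≤ H + 1 ∧
      7 * m ^ 2 + 4 + (2 * m + 1) * s ^ 2 ≤ s * (2 * d + 3) + 11 * m := by
  have h1 := Nat.div_mul_le_self (H + 1 - m) (m + 1)
  have h2 := Nat.lt_div_mul_add (a := H + 1 - m) (show 0 < m + 1 by omega)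
  have h3 := Nat.div_mul_le_self d (2 * m + 1)
  have h4 := Nat.lt_div_mul_add (a := d) (show 0 < 2 * m + 1 by omega)
  have h6 : 1 ≤ d / (2 * m + 1) := (Nat.le_div_iff_mul_le (by omega)).mpr (by omega)
  generalize (H + 1 - m) / (m + 1) = a at *
  generalize d / (2 * m + 1) = b at *
  have hm : 1 ≤ m := hk.trans hkm
  obtain ⟨t, ht⟩ : ∃ t, H + 1 = m + t := ⟨H + 1 - m, by omega⟩
  rw [show H + 1 - m = t by omega] at h1 h2
  have hadm : ∀ s, s ≤ a → (k + 1) * s + m ≤ H + 1 := by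
    intro s hs
    have : (k + 1) * s ≤ a * (m + 1) := by
      rw [mul_comm a]; exact Nat.mul_le_mul (by omega) hs
    omega
  by_cases ha : a ≤ 1
  · refine ⟨1, le_rfl, by omega, ?_⟩
    have h7 : H ≤ 3 * m := by nlinarith
    have h8 : 14 * m ^ 2 ≤ 3 * d := by
      refine Nat.le_of_mul_le_mul_right (c := m) ?_ hm
      nlinarith
    nlinarith
  rcases le_total a b with hab | hab
  · refine ⟨a, by omega, hadm a le_rfl, ?_⟩
    have h7 : H ≤ (2 * m + 1) * a := by nlinarith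
    have h8 : (2 * m + 1) * a ≤ d := by nlinarith
    have h9 : 14 * m ^ 3 ≤ (2 * m + 1) * (a * d) := by nlinarith
    have h10 : 7 * m ^ 2 + 4 ≤ a * d + 11 * m := by
      refine Nat.le_of_mul_le_mul_left (c := 2 * m + 1) ?_ (by omega)
      nlinarith
    nlinarith
  · refine ⟨b, h6, hadm b hab, ?_⟩
    obtain ⟨r, rfl⟩ : ∃ r, d = b * (2 * m + 1) + r := ⟨d - b * (2 * m + 1), by omega⟩
    have h7 : r ≤ 2 * m := by omega
    have h8 : 14 * m ^ 3 ≤ (b * (2 * m + 1) + r) ^ 2 := by nlinarith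
    refine Nat.le_of_mul_le_mul_left (c := 2 * m + 1) ?_ (by omega)
    have h9 : r ^ 2 ≤ 4 * m ^ 2 := by nlinarith
    have e1 : (2 * m + 1) * (7 * m ^ 2 + 4 + (2 * m + 1) * b ^ 2)
        = 14 * m ^ 3 + 7 * m ^ 2 + 8 * m + 4 + (b * (2 * m + 1)) ^ 2 := by ring
    have e2 : (2 * m + 1) * (b * (2 * (b * (2 * m + 1) + r) + 3) + 11 * m)
        = 2 * (b * (2 * m + 1)) ^ 2 + 2 * (b * (2 * m + 1) * r) + 3 * (b * (2 * m + 1))
          + 22 * m ^ 2 + 11 * m := by ring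
    have e3 : (b * (2 * m + 1) + r) ^ 2
        = (b * (2 * m + 1)) ^ 2 + 2 * (b * (2 * m + 1) * r) + r ^ 2 := by ring
    have e4 : 1 ≤ m ^ 2 := Nat.one_le_pow _ _ hm
    rw [e1, e2]
    rw [e3] at h8
    omega

theorem exact_dsp [DecidableEq ι] {m k H d : ℕ} (hk : 1 ≤ k) (hkm : k ≤ m) (hH : m + k + 1 ≤ H)
    (hd : H + m ≤ d) (h : 14 * m ^ 3 ≤ d * H) {μ : ι → ℕ} {S T : Finset ι} (hTS : T ⊆ S)
    (hS : ∀ i ∈ S, μ i ≤ m) (hT : ∀ i ∈ T, μ i ≤ k) (hz : mass μ (S \ T) ≤ tri m) :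
    Bd μ (Dsp (H + 1) (d + 1)) S (sz (H + 1) (d + 1) - mass μ S) := by
  obtain ⟨s, hs, h1, h2⟩ := exists_s hk hkm hH hd h
  have hm : 1 ≤ m := hk.trans hkm
  have hks : (k + 1) * s = k * s + s := by ring
  have h3 : ell s (H + 1) (d + 1) k + sz (H + 1 - (k + 1) * s) (d + 1 - (k + 1) * s)
      = sz (H + 1 - k * s) (d + 1 - k * s) := by
    rw [sz_split s (H + 1 - k * s), ell, Nat.sub_sub, Nat.sub_sub, hks]
  have h4 := exact_abs (E := Dsp (H + 1) (d + 1)) (σ := s * s) (lam := sz s (d + 1))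
    (l := ell s (H + 1) (d + 1)) hk hkm
    (fun b hb => ell_lin (by omega) (le_trans (Nat.mul_le_mul_right s (by omega))
      (show (k + 1) * s ≤ H + 1 by omega)))
    (fun ι _ μ I J ρ ρ' hIJ hρ => main_cut hs (by omega) (by omega) hIJ hρ)
    (approx_two (A := H + 1 - (k + 1) * s) hm (by omega) (by omega))
    (h3 ▸ approx_two (A := H + 1 - k * s) hm (by omega) (by omega))
    (le_max_right _ _) (le_max_right _ _) ?_ hTS hS hT
    (hz.trans (by rw [← sz_self]; exact sz_mono (by omega) (by omega)))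
  · rwa [h3, sum_ell] at h4
  · have h5 := ell_lin (u := s) (A := H + 1) (e := d + 1) (j := k) (by omega) (by omega)
    have h6 := two_sz (u := s) (e := d + 1) (by omega)
    have h7 := two_tri m
    have h8 := tri_mono hkm
    have h9 : s * s * k ≤ s * s * m := Nat.mul_le_mul_left _ hkm
    have h10 : (m - 1) * max (2 * m - 1) (m + 1) + 3 * m = 2 * m ^ 2 + 1 := by
      obtain ⟨m, rfl⟩ : ∃ m', m = m' + 1 := ⟨m - 1, by omega⟩
      rcases m with _ | m
      · simp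
      · rw [max_eq_left (by omega), show 2 * (m + 1 + 1) - 1 = 2 * m + 3 by omega,
          Nat.add_sub_cancel]
        ring
    nlinarith

end Pool.Agent.Lib.MP_6e81d8_ag
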