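import Mathlib

set_option autoImplicit false
set_option maxHeartbeats 400000

namespace Pool.Agent.Lib.MP_6e81d8_ag

open Finset

theorem exp_lcm {x P : ℕ} (hx : 1 ≤ x) (hP : 0 < P) (h : ∀ s, x < s → s ≤ 2 * x → s ∣ P) :
    2 ^ x ≤ P := by
  have h1 : Nat.centralBinom x ∣ P := by
    rw [Nat.dvd_iff_prime_pow_dvd_dvd]
    intro p k hp hk
    have h2 : p ^ k ≤ 2 * x :=
      (Nat.pow_le_pow_right hp.pos ((hp.pow_dvd_iff_le_factorization
        (Nat.centralBinom_ne_zero x)).1 hk)).trans (Nat.pow_factorization_choose_le (by omega))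
    have h3 : 0 < p ^ k := pow_pos hp.pos k
    generalize p ^ k = q at *
    have h4 := Nat.div_add_mod x q
    have h5 := Nat.mod_lt x h3
    refine (Dvd.intro _ rfl : q ∣ q * (x / q + 1)).trans (h _ (by rw [mul_add]; omega) ?_)
    rcases le_or_gt q x with h6 | h6
    · rw [mul_add]; omega
    · rw [Nat.div_eq_of_lt h6]; omega
  have h2 := Nat.four_pow_le_two_mul_self_mul_centralBinom x hx
  have h3 : 2 * x ≤ 2 ^ x := by
    obtain ⟨y, rfl⟩ : ∃ y, x = y + 1 := ⟨x - 1, by omega⟩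
    have := Nat.lt_two_pow_self (n := y)
    rw [pow_succ]
    omega
  have h4 : 2 ^ x * 2 ^ x ≤ 2 ^ x * P := by
    rw [← mul_pow]
    exact h2.trans (Nat.mul_le_mul h3 (Nat.le_of_dvd hP h1))
  exact Nat.le_of_mul_le_mul_left h4 (by positivity)

theorem exp_arc {A M s : ℤ} {L : ℕ} (hL : 1 ≤ L)
    (h : ∀ j : ℕ, j ≤ L → ∃ q ρ : ℤ, A + j * M = 2 * s * q + ρ ∧ -s < 10 * ρ ∧ 10 * ρ < s) :
    ∃ a : ℤ, s ∣ M - a ∧ 5 * (L * |a|) < s := by
  obtain ⟨q0, ρ0, e0, a0, b0⟩ := h 0 (by omega)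
  obtain ⟨q1, ρ1, e1, a1, b1⟩ := h 1 hL
  have key : ∀ j : ℕ, j ≤ L → -s < 10 * (ρ0 + j * (ρ1 - ρ0)) ∧ 10 * (ρ0 + j * (ρ1 - ρ0)) < s := by
    intro j
    induction j with
    | zero => intro _; simpa using ⟨a0, b0⟩
    | succ j ih =>
      intro hj
      obtain ⟨c1, c2⟩ := ih (by omega)
      obtain ⟨q, ρ, e, a, b⟩ := h (j + 1) hj
      push_cast at e e0 e1 ⊢
      obtain ⟨w, hw⟩ : ∃ w, w = q - q0 - (j + 1) * (q1 - q0) := ⟨_, rfl⟩
      have h1 : ρ0 + (j + 1) * (ρ1 - ρ0) = ρ + 2 * (s * w) := by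
        rw [hw]
        linear_combination e - e0 - (j + 1 : ℤ) * (e1 - e0)
      have h2 : w = 0 := by
        by_contra hne
        rcases lt_or_gt_of_ne hne with h3 | h3
        · have := mul_le_mul_of_nonneg_left (show w ≤ -1 by omega) (show 0 ≤ s by omega)
          linarith
        · have := mul_le_mul_of_nonneg_left (show 1 ≤ w by omega) (show 0 ≤ s by omega)
          linarith
      rw [h1, h2]
      constructor <;> linarith
  refine ⟨ρ1 - ρ0, ⟨2 * (q1 - q0), ?_⟩, ?_⟩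
  · push_cast at e0 e1
    linear_combination e1 - e0
  · obtain ⟨c1, c2⟩ := key L le_rfl
    rcases abs_cases (ρ1 - ρ0) with ⟨h1, -⟩ | ⟨h1, -⟩ <;> rw [h1] <;> linarith

theorem exp_one {m D s : ℕ} (hs : 10 ^ 7 ≤ s) (hm : 10 ^ 8 ≤ m) (hD : 5 * (s * m) ≤ 2 * D)
    (h : ¬ ∃ u k r, D = 2 * (k * s) + (2 * m + 1) * u + r ∧ s ≤ 10 * r ∧ 10 * r ≤ 19 * s ∧
      1000001 * m ≤ 1000000 * k ∧ 1000000 * (k + 1) ≤ 1000002 * m) :
    ∃ a : ℤ, (s : ℤ) ∣ (2 * m + 1 : ℕ) - a ∧ |a| ≤ 10 ^ 6 := by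
  obtain ⟨K, hK1, hK2⟩ : ∃ K, 1000001 * m ≤ 1000000 * K ∧ 1000000 * K ≤ 1000001 * m + 1000000 :=
    ⟨1000001 * m / 1000000 + 1, by omega, by omega⟩
  obtain ⟨L, hL1, hL2⟩ : ∃ L, 2000000 * (L + 1) ≤ s ∧ s ≤ 4000000 * L :=
    ⟨s / 2000000 - 1, by omega, by omega⟩
  generalize hM : 2 * m + 1 = M at h ⊢
  have hM0 : 0 < M := by omega
  have hML : 2000000 * (M * (L + 1)) ≤ M * s := by
    rw [mul_left_comm]; exact Nat.mul_le_mul_left _ hL1
  obtain ⟨B, hB⟩ : ∃ B, D = 2 * (K * s) + M * L + B := by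
    refine Nat.exists_eq_add_of_le ?_
    have a1 := Nat.mul_le_mul_right s hK2
    have a2 := Nat.mul_le_mul_left s hm
    subst hM
    nlinarith only [a1, a2, hML, hD, Nat.zero_le (s * m), Nat.zero_le m]
  have h1 := Nat.div_add_mod B M
  have h2 := Nat.mod_lt B hM0
  generalize B / M = u at h1
  generalize B % M = t at h1 h2
  obtain ⟨a, ha1, ha2⟩ := exp_arc (A := t) (M := M) (s := s) (L := L) (by omega) fun j hj => by
    have h3 := Nat.div_add_mod (t + j * M) (2 * s)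
    have h4 := Nat.mod_lt (t + j * M) (show 0 < 2 * s by omega)
    generalize (t + j * M) / (2 * s) = q at h3
    generalize (t + j * M) % (2 * s) = r at h3 h4
    have h5 : 4000000 * q < M := by
      refine Nat.lt_of_mul_lt_mul_right (a := s) ?_
      have := Nat.mul_le_mul_right M hj
      nlinarith only [this, h3, h2, hML, Nat.zero_le r]
    have h6 : 10 * r < s ∨ 19 * s < 10 * r := by
      by_contra hc
      obtain ⟨i, rfl⟩ := Nat.exists_eq_add_of_le hj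
      exact h ⟨u + i, K + q, r, by nlinarith only [hB, h1, h3], by omega, by omega, by omega,
        by omega⟩
    have h7 : (t : ℤ) + j * M = 2 * s * q + r := by exact_mod_cast h3.symm
    rcases h6 with h6 | h6
    · exact ⟨q, r, h7, by omega, by omega⟩
    · exact ⟨q + 1, r - 2 * s, by linear_combination h7, by omega, by omega⟩
  refine ⟨a, ha1, ?_⟩
  by_contra hc
  have h8 := mul_le_mul_of_nonneg_left (not_le.1 hc).le (Nat.cast_nonneg (α := ℤ) L)
  have h9 : (s : ℤ) ≤ 4000000 * L := by exact_mod_cast hL2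
  linarith

theorem exp_select {m D x : ℕ} (hx : 10 ^ 7 ≤ x) (hm : 10 ^ 8 ≤ m) (hD : 5 * (x * m) ≤ D)
    (hbig : (m * m) ^ 2000001 < 2 ^ x) :
    ∃ s u k r, x < s ∧ s ≤ 2 * x ∧ D = 2 * (k * s) + (2 * m + 1) * u + r ∧ s ≤ 10 * r ∧
      10 * r ≤ 19 * s ∧ 1000001 * m ≤ 1000000 * k ∧ 1000000 * (k + 1) ≤ 1000002 * m := by
  by_contra hc
  obtain ⟨w, hw⟩ : ∃ w, 2 * m + 1 = w + 1000000 := ⟨2 * m + 1 - 1000000, by omega⟩
  have h1 := exp_lcm (x := x) (P := ∏ i ∈ range 2000001, (w + i)) (by omega)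
    (Finset.prod_pos fun i _ => by omega) fun s h1 h2 => by
      obtain ⟨a, ha1, ha2⟩ := exp_one (m := m) (D := D) (s := s) (by omega) hm
        (by have := Nat.mul_le_mul_right m h2; nlinarith only [this, hD])
        fun ⟨u, k, r, h⟩ => hc ⟨s, u, k, r, h1, h2, h⟩
      rw [abs_le] at ha2
      obtain ⟨i, hi⟩ : ∃ i : ℕ, (i : ℤ) = 1000000 - a := ⟨(1000000 - a).toNat, by omega⟩
      refine Dvd.dvd.trans ?_ (Finset.dvd_prod_of_mem (a := i) _ (mem_range.2 (by omega)))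
      rw [← Int.natCast_dvd_natCast, show ((w + i : ℕ) : ℤ) = (2 * m + 1 : ℕ) - a by omega]
      exact ha1
  have h2 : ∏ i ∈ range 2000001, (w + i) ≤ (m * m) ^ 2000001 := by
    have h3 := Finset.prod_le_pow_card (range 2000001) (fun i => w + i) (m * m) fun i hi => by
      have := mem_range.1 hi
      have := Nat.mul_le_mul_right m hm
      omega
    rwa [card_range] at h3
  exact absurd (h1.trans h2) (not_le.2 hbig)

end Pool.Agent.Lib.MP_6e81d8_ag
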