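import Pool.Agent.Lib.MP_6e81d8_ag.HomFinal

set_option autoImplicit false
set_option maxHeartbeats 400000
set_option maxSynthPendingDepth 3

namespace Pool.Agent.Lib.MP_6e81d8_ag

open Polynomial Finset Module

theorem Dsp_mono {e e' : ℕ} (h : e ≤ e') : Dsp e e ≤ Dsp e' e' :=
  rows_mono fun b f hf => mem_lt.mpr fun a ha => mem_lt.mp hf a (by omega)

theorem Bd.succ_deg {ι : Type} {μ : ι → ℕ} {S : Finset ι} {e ρ : ℕ} (h : Bd μ (Dsp e e) S ρ) :
    Bd μ (Dsp (e + 1) (e + 1)) S (ρ + (e + 1)) := by
  obtain ⟨p, Ψ, h⟩ := h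
  refine ⟨p, LinearMap.pi fun j => Fin.addCases (motive := fun _ => R →ₗ[ℂ] ℂ)
    (fun j => LinearMap.proj j ∘ₗ Ψ) (fun b => lcoeff ℂ (e - b) ∘ₗ cf b) j,
    fun F hF hV h0 => h F (mem_rows.mpr fun b => mem_lt.mpr fun a ha => ?_) hV ?_⟩
  · by_cases hc : min (e + 1) (e + 1 - b) ≤ a
    · exact mem_lt.mp (mem_rows.mp hF b) a hc
    · have h1 := congrFun h0 (Fin.natAdd ρ ⟨b, by omega⟩)
      simp only [LinearMap.pi_apply, Fin.addCases_right] at h1
      rw [show a = e - b by omega]
      exact h1
  · funext j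
    have h1 := congrFun h0 (Fin.castAdd (e + 1) j)
    simp only [LinearMap.pi_apply, Fin.addCases_left] at h1
    exact h1

theorem bd_of_ell {ι : Type} {μ : ι → ℕ} {S : Finset ι} {u e ρ : ℕ} (hu : 1 ≤ u)
    (h : Good μ (ell u e e) S ρ) : Bd μ (Dsp e e) S ρ :=
  bd_sh (X ^ u) (grade _ _ (row_mem hu) (h.rows _ (fun _ => inferInstance)
    (fun _ => (finrank_supp _).trans (card_Tc _ _ _)) e
    fun _ hb => ell_zero (Nat.le_mul_of_pos_right e hu) hb))

/-- A square number of points: the regular side. -/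
theorem square_reg {u m e : ℕ} (hu : 1 ≤ u) (h : (2 * m + 1) * u ≤ 2 * e + 1) :
    Bd (fun _ : Fin (u * u) => m) (Dsp e e) univ (tri e - u * u * tri m) := by
  classical
  have hz : ∀ b, e ≤ b → ell u e e b = 0 := fun b hb => ell_zero (Nat.le_mul_of_pos_right e hu) hb
  have hmu : m * u ≤ e := by nlinarith
  have hme : m ≤ e := le_trans (Nat.le_mul_of_pos_right m hu) hmu
  have hle : ∀ b, u * u * (m - b) ≤ ell u e e b := fun b => by
    by_cases hb : b < m
    · have h1 : ell u e e b + u * u * b = sz u e :=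
        ell_lin le_rfl ((Nat.mul_le_mul_right u hb).trans hmu)
      have h2 := two_sz (u := u) (e := e) (by nlinarith)
      have h3 := Nat.mul_le_mul_left u h
      obtain ⟨t, rfl⟩ := Nat.exists_eq_add_of_le hb.le
      rw [Nat.add_sub_cancel_left]
      nlinarith only [h1, h2, h3]
    · rw [show m - b = 0 by omega]; simp
  have hsum : ∑ b ∈ range e, (ell u e e b - u * u * (m - b)) = tri e - u * u * tri m := by
    have h1 := sum_ell u e e e
    rw [show e - e * u = 0 from Nat.sub_eq_zero_of_le (Nat.le_mul_of_pos_right e hu), sz,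
      Finset.sum_range_zero, add_zero, sz_self] at h1
    rw [Finset.sum_tsub_distrib _ fun b _ => hle b, h1, ← Finset.mul_sum, sum_range_sub_tri m e hme]
  have := qmoves (μ := fun _ : Fin (u * u) => m) e (S := ∅) (ρ := tri e - u * u * tri m) univ
    (ell u e e) hz (by simp) (good_empty _ _ e (fun b hb => by simp [hz b hb]) _ (by
      simp only [sum_const, card_univ, Fintype.card_fin, smul_eq_mul]
      exact hsum.le))
  rw [union_empty] at this
  exact bd_of_ell hu this

/-- A square number of points: the empty side. -/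
theorem square_emp {u m e : ℕ} (hu : 2 ≤ u) (h : 2 * e + 1 < (2 * m + 1) * u)
    (hm : u * u ≤ 8 * m) : Bd (fun _ : Fin (u * u) => m) (Dsp e e) univ 0 := by
  classical
  obtain ⟨z, hz1, hz2⟩ : ∃ z, 2 * z + 2 ≤ u ∧ u ≤ 2 * z + 3 := ⟨(u - 2) / 2, by omega, by omega⟩
  have he : e ≤ m * u + z := by
    rw [add_mul, mul_assoc] at h
    omega
  refine Bd.mono (Dsp_mono he) subset_rfl (bd_of_ell (u := u) (by omega) ?_)
  generalize hE : m * u + z = E
  have hw : tri z ≤ m := by
    have h1 := two_tri z
    nlinarith only [h1, hz1, hm]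
  have hz : ∀ b, m + 1 ≤ b → ell u E E b = 0 := fun b hb =>
    ell_zero (K := m + 1) (by rw [add_mul]; omega) hb
  have hlow : ∀ b < m, ell u E E b + 1 ≤ u * u * (m - b) := fun b hb => by
    have h1 : ell u E E b + u * u * b = sz u E :=
      ell_lin le_rfl ((Nat.mul_le_mul_right u hb).trans (by omega))
    have h0 : u ≤ m * u := Nat.le_mul_of_pos_left u (by omega)
    have h2 := two_sz (u := u) (e := E) (by omega)
    obtain ⟨t, rfl⟩ := Nat.exists_eq_add_of_le hb.le
    rw [Nat.add_sub_cancel_left]
    subst hE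
    nlinarith only [h1, h2, hz1, hu]
  have htop : ell u E E m = tri z := by
    rw [ell, show E - m * u = z by omega, min_eq_right (by omega), sz_self]
  have i0 : Fin (u * u) := ⟨0, by positivity⟩
  have hcard : (univ.erase i0).card + 1 = u * u := by
    rw [card_erase_add_one (mem_univ _)]; simp
  have h1 := pmove (μ := fun _ : Fin (u * u) => m)
    (n := fun b => ell u E E b - ∑ _i ∈ univ.erase i0, (m - b))
    (r := fun b => if b < m then (if m - b - 1 < tri z then m - b - 1 else m - b)
      else if b = m then tri z else 0) (m + 1) (fun b hb => by simp [hz b hb]) (S := ∅) (i := i0)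
    (by simp) (ρ := 0) (fun b => by split_ifs <;> omega)
    (fun c b hcb hb hc => by
      have h2 := hlow c
      simp only [sum_const, smul_eq_mul] at hc ⊢
      rw [← hcard, add_mul, one_mul] at h2
      split_ifs at hb ⊢ <;> omega)
    (good_empty _ _ 0 (fun b _ => by
      have h2 := hlow b
      have h3 := hz b
      simp only [sum_const, smul_eq_mul]
      rw [← hcard, add_mul, one_mul] at h2
      split_ifs with h4 h5 h6
      · omega
      · omega
      · rw [h6, htop]; omega
      · omega) _ (by simp))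
  have h2 := qmoves (μ := fun _ : Fin (u * u) => m) (m + 1) (univ.erase i0) (ell u E E) hz
    (by simp) h1
  convert h2 using 1
  ext i
  by_cases hi : i = i0 <;> simp [hi]

end Pool.Agent.Lib.MP_6e81d8_ag
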