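import Pool.Agent.Lib.MP_6e81d8_ag.ExpDefs
import Pool.Agent.Lib.MP_6e81d8_ag.ExpSq
import Pool.Agent.Lib.MP_6e81d8_ag.ExpSel

set_option autoImplicit false
set_option maxHeartbeats 400000
set_option maxSynthPendingDepth 3

namespace Pool.Agent.Lib.MP_6e81d8_ag

open Polynomial Finset Module

theorem tri_sq_nat (z : ℕ) : 8 * tri z + 1 = (2 * z + 1) ^ 2 := by
  have := two_tri z
  linarith

theorem exp_aux {s u m r : ℕ} (h1 : 13 * s ≤ 20 * u) (h2 : 20 * u ≤ 47 * s) (h3 : s ≤ 10 * r)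
    (h4 : 10 * r ≤ 19 * s) (hm : 100 ≤ m) :
    13 * (s * s * m) ≤ 100 * ((2 * m + 1) * u * r) ∧
      200 * ((2 * m + 1) * u * r) ≤ 2679 * (s * s * m) ∧
      10 * (u * u + r * r) ≤ s * s * m := by
  have a1 := Nat.mul_le_mul h1 h3
  have a2 := Nat.mul_le_mul h2 h4
  have a3 := Nat.mul_le_mul h2 h2
  have a4 := Nat.mul_le_mul h4 h4
  have a5 := Nat.mul_le_mul_left (s * s) hm
  have a6 := Nat.mul_le_mul_left m a1
  have a7 := Nat.mul_le_mul a2 (show 2 * m + 1 ≤ 3 * m by omega)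
  refine ⟨?_, ?_, ?_⟩
  · linarith only [a6, Nat.zero_le (u * r)]
  · linarith only [a7]
  · linarith only [a3, a4, a5, Nat.zero_le (s * s)]

theorem exp_core {c : ℝ} {N₀ : ℕ} (hT : Trap c N₀) {n m E s u k r : ℕ}
    (hD : 2 * E + 1 = 2 * (k * s) + (2 * m + 1) * u + r) (hr1 : s ≤ 10 * r) (hr2 : 10 * r ≤ 19 * s)
    (hk1 : 1000001 * m ≤ 1000000 * k) (hk2 : 1000000 * (k + 1) ≤ 1000002 * m)
    (hu1 : 13 * s ≤ 20 * u) (hu2 : 20 * u ≤ 47 * s) (hu3 : u * u ≤ 8 * m) (hu4 : u * u ≤ n)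
    (hE : E + 1 ≤ 4 * (s * m)) (hs : 10 ^ 6 ≤ s) (hm : 100 ≤ m)
    (hc1 : n * tri m ≤ tri E + (E + 1)) (hc2 : tri E ≤ n * tri m + (E + 1))
    (ht1 : N₀ ≤ s * s) (ht2 : s * s ≤ 20 * m) (ht3 : (m : ℝ) ≤ Real.exp (c * (s * s : ℕ))) :
    Bd (fun _ : Fin n => m) (Dsp E E) univ (tri E - n * tri m) := by
  classical
  obtain ⟨g, hg⟩ : ∃ g, 2 * s = r + g := ⟨2 * s - r, by omega⟩
  have hY1 : 13 * (s * m) ≤ 10 * ((2 * m + 1) * u) := by
    have := Nat.mul_le_mul_left m hu1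
    linarith only [this, Nat.zero_le u]
  have hY2 : 20 * ((2 * m + 1) * u) ≤ 141 * (s * m) := by
    have := Nat.mul_le_mul hu2 (show 2 * m + 1 ≤ 3 * m by omega)
    linarith only [this]
  have hsm : s * 100 ≤ s * m := Nat.mul_le_mul_left s hm
  have hks : (k + 1) * s = k * s + s := by ring
  obtain ⟨e, he⟩ : ∃ e, E = (k + 1) * s + e := ⟨E - (k + 1) * s, by omega⟩
  have e0 : E - (k + 1) * s = e := by omega
  have e1 : E - k * s = e + s := by omega
  have q1 : 2 * (e + s) + 1 = (2 * m + 1) * u + r := by omega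
  have q0 : 2 * e + 1 + g = (2 * m + 1) * u := by omega
  have hU : 8 * (u * u * tri m) + u * u = ((2 * m + 1) * u) ^ 2 := by
    rw [mul_pow, ← tri_sq_nat]; ring
  have hP1 : 8 * tri (e + s) + 1 =
      8 * (u * u * tri m) + (u * u + r * r) + 2 * ((2 * m + 1) * u * r) := by
    rw [tri_sq_nat, q1]; linarith only [hU]
  have hP0 : 8 * tri e + 1 + 2 * ((2 * m + 1) * u * g) =
      8 * (u * u * tri m) + (u * u + g * g) := by
    rw [tri_sq_nat, ← add_assoc, hU, ← q0]; ring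
  obtain ⟨x1, x2, x3⟩ := exp_aux hu1 hu2 hr1 hr2 hm
  obtain ⟨y1, y2, y3⟩ := exp_aux (r := g) hu1 hu2 (by omega) (by omega) hm
  have hEW : 1000 * (E + 1) ≤ s * s * m := by
    have := Nat.mul_le_mul_right (s * m) hs
    linarith only [this, hE, Nat.zero_le (s * m)]
  obtain ⟨N, hN⟩ := Nat.exists_eq_add_of_le hu4
  have hnT : n * tri m = u * u * tri m + N * tri m := by rw [hN, add_mul]
  have hlin : ∀ b ≤ k, ell s E E b = sz s E - s * s * b := fun b hb => by
    have : ell s E E b + s * s * b = sz s E :=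
      ell_lin le_rfl (le_trans (Nat.mul_le_mul_right s (by omega)) (show (k + 1) * s ≤ E by omega))
    omega
  have htr : ∀ j ≤ k + 1, tr j (fun t => sz s E - s * s * t) = tr j (ell s E E) := fun j hj => by
    funext b
    unfold tr
    split_ifs with h
    · exact (hlin b (by omega)).symm
    · rfl
  have hsum : ∀ j ≤ k + 1, ∑ t ∈ range j, (sz s E - s * s * t) = ∑ t ∈ range j, ell s E E t :=
    fun j hj => Finset.sum_congr rfl fun b hb => (hlin b (by have := mem_range.1 hb; omega)).symm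
  have hz0 := sum_ell s E E k
  have hz1 := sum_ell s E E (k + 1)
  rw [e1, sz_self, sz_self] at hz0
  rw [e0, sz_self, sz_self] at hz1
  have hlam : 2 * sz s E + s * s = 2 * (s * s * k) + s * ((2 * m + 1) * u) + s * r := by
    rw [two_sz (by omega), hD]; ring
  have l1 := Nat.mul_le_mul_left s hY1
  have l2 := Nat.mul_le_mul_left s hY2
  have l3 := Nat.mul_le_mul_left s hr2
  have l4 := Nat.mul_le_mul_left s hsm
  have J0 := (hT (s * s) m k (sz s E) N ht1 ht2 ht3 hk1 (by omega)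
    (by linarith only [hlam, l1, l4, Nat.zero_le (s * r), Nat.zero_le (s * s)])
    (by linarith only [hlam, l2, l3, l4, Nat.zero_le (s * s)])).1
  have J1 := (hT (s * s) m (k + 1) (sz s E) N ht1 ht2 ht3 (by omega) hk2
    (by linarith only [hlam, l1, l4, Nat.zero_le (s * r), Nat.zero_le (s * s)])
    (by linarith only [hlam, l2, l3, l4, Nat.zero_le (s * s)])).2
  rw [hsum k (by omega), htr k (by omega)] at J0
  rw [hsum (k + 1) le_rfl, htr (k + 1) le_rfl] at J1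
  replace J0 := J0 (by omega) (by omega)
  replace J1 := J1 (by omega) (by omega)
  have I0 := square_emp (u := u) (m := m) (e := e) (by omega) (by omega) hu3
  have I1 := square_reg (u := u) (m := m) (e := e + s) (by omega) (by omega)
  obtain ⟨v, hv⟩ : ∃ v, v = tri E - n * tri m := ⟨_, rfl⟩
  obtain ⟨a, ha⟩ : ∃ a, tri (e + s) - u * u * tri m = v + a :=
    ⟨tri (e + s) - u * u * tri m - v, by omega⟩
  rw [ha] at I1
  obtain ⟨J, -, hJ⟩ := Finset.exists_subset_card_eq (s := (univ : Finset (Fin n))) (n := N)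
    (by simp; omega)
  have hI : (univ \ J).card = u * u := by
    rw [card_sdiff_of_subset (subset_univ J), hJ]; simp; omega
  have hμ : ∀ S : Finset (Fin n), ∀ i ∈ S.disjSum (∅ : Finset (Fin v)),
      m ≤ Sum.elim (fun _ : Fin n => m) (fun _ : Fin v => 1) i := by
    rintro S (i | j) hi
    · exact le_rfl
    · simp at hi
  have hcut := main_cut (μ := Sum.elim (fun _ : Fin n => m) fun _ : Fin v => 1) (A := E)
    (e := E) (k := k) (s := s) (I := (univ \ J).disjSum univ) (J := J.disjSum ∅) (ρ := a)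
    (ρ' := ∑ t ∈ range (k + 1), ell s E E t - N * tri m)
    (by omega) le_rfl (by omega) (by
      rw [Finset.disjoint_left]
      rintro (i | j) <;> simp)
    (by rw [Finset.sum_range_succ] at hz1 ⊢; omega)
    (by
      rw [e0]
      exact Bd.mono le_rfl (disjSum_mono subset_rfl (empty_subset _))
        (I0.reindex (by simpa using hI) (hμ _)))
    (by
      rw [e1]
      exact (I1.reindex hI fun _ _ => le_rfl).add_simple)
    (Bd.reindex J0 (by simpa using hJ) (hμ _)) (Bd.reindex J1 (by simpa using hJ) (hμ _))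
  rw [← hv]
  refine Bd.of_extra ?_
  convert hcut using 1
  ext (i | j) <;> simp [em']

theorem exp_deg {n m E : ℕ} {R : ℝ} (hR0 : 0 ≤ R) (hR : R ^ 2 = n) (hn : 9 ≤ n)
    (hc1 : n * tri m ≤ tri E + (E + 1)) (hc2 : tri E ≤ n * tri m + (E + 1)) :
    2 * m * R ≤ 2 * E + 3 ∧ (2 * E + 1 : ℝ) ≤ (2 * m + 1) * R + 2 := by
  have q1 := tri_sq m
  have q2 := tri_sq E
  have a1 : (n * tri m : ℝ) ≤ tri E + (E + 1) := by exact_mod_cast hc1
  have a2 : (tri E : ℝ) ≤ n * tri m + (E + 1) := by exact_mod_cast hc2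
  have a3 : (9 : ℝ) ≤ n := by exact_mod_cast hn
  have a4 : (n : ℝ) * (8 * tri m + 1) = n * (2 * m + 1) ^ 2 := by rw [q1]
  have a5 : (0 : ℝ) ≤ n * m := by positivity
  constructor
  · refine abs_le_of_sq_le_sq' (a := 2 * m * R) (b := 2 * E + 3) ?_ (by positivity) |>.2
    rw [mul_pow, hR]
    linarith only [q2, a1, a4, a5]
  · have h := abs_le_of_sq_le_sq' (a := 2 * (E : ℝ) - 1) (b := (2 * m + 1) * R) (by
      rw [mul_pow, hR]
      linarith only [q2, a2, a3, a4]) (by positivity) |>.2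
    linarith only [h]

theorem exp_u {n m E s u k r : ℕ} {R : ℝ} (hR : R ^ 2 = n) (hR1 : 10 ^ 6 ≤ R) (hm : n ≤ 16 * m)
    (d1 : 2 * m * R ≤ 2 * E + 3) (d2 : (2 * E + 1 : ℝ) ≤ (2 * m + 1) * R + 2)
    (hs1 : 0.299 * R ≤ s) (hs2 : s ≤ 0.6 * R)
    (hD : 2 * E + 1 = 2 * (k * s) + (2 * m + 1) * u + r) (hr2 : 10 * r ≤ 19 * s)
    (hk1 : 1000001 * m ≤ 1000000 * k) (hk2 : 1000000 * (k + 1) ≤ 1000002 * m) :
    13 * s ≤ 20 * u ∧ 20 * u ≤ 47 * s ∧ u * u ≤ 8 * m ∧ u * u ≤ n ∧ E + 1 ≤ 4 * (s * m) ∧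
      s * s ≤ 20 * m := by
  have hmR : (n : ℝ) ≤ 16 * m := by exact_mod_cast hm
  have hDR : (2 * E + 1 : ℝ) = 2 * (k * s) + (2 * m + 1) * u + r := by exact_mod_cast hD
  have hr : (10 * r : ℝ) ≤ 19 * s := by exact_mod_cast hr2
  have k1 : (1000001 * m : ℝ) ≤ 1000000 * k := by exact_mod_cast hk1
  have k2 : (1000000 * (k + 1) : ℝ) ≤ 1000002 * m := by exact_mod_cast hk2
  have s0 : (0 : ℝ) ≤ s := Nat.cast_nonneg s
  have u0 : (0 : ℝ) ≤ u := Nat.cast_nonneg u
  have r0 : (0 : ℝ) ≤ r := Nat.cast_nonneg r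
  have hRR := mul_le_mul_of_nonneg_right hR1 (show 0 ≤ R by linarith)
  have hmb : 1000 * R ≤ m := by linarith only [hRR, hR, hmR, hR1]
  have m0 : (0 : ℝ) < m := by linarith
  have b1 := mul_le_mul_of_nonneg_right k1 s0
  have b2 := mul_le_mul_of_nonneg_right k2 s0
  have b3 := mul_le_mul_of_nonneg_left hs1 m0.le
  have b4 := mul_le_mul_of_nonneg_left hs2 m0.le
  have b5 := mul_le_mul_of_nonneg_left hR1 m0.le
  have b6 : 0 ≤ (m : ℝ) * s := by positivity
  have up : (u : ℝ) ≤ R - s + 1 := by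
    refine le_of_mul_le_mul_left ?_ (show 0 < 2 * (m : ℝ) + 1 by linarith)
    linarith only [hDR, d2, b1, r0, b6, hs2, hmb, hR1]
  have lo : 0.39 * R ≤ u := by
    refine le_of_mul_le_mul_left ?_ (show 0 < 2 * (m : ℝ) + 1 by linarith)
    linarith only [hDR, d1, b2, b4, b5, hr, hs2, hmb, hR1, s0]
  have up2 : (u : ℝ) ≤ 0.702 * R := by linarith only [up, hs1, hR1]
  have sq := mul_le_mul up2 up2 u0 (by linarith)
  have sq2 := mul_le_mul hs2 hs2 s0 (by linarith)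
  have n0 : (0 : ℝ) ≤ n := Nat.cast_nonneg n
  refine ⟨?_, ?_, ?_, ?_, ?_, ?_⟩
  · have : (13 * s : ℝ) ≤ 20 * u := by linarith only [lo, hs2]
    exact_mod_cast this
  · have : (20 * u : ℝ) ≤ 47 * s := by linarith only [up, hs1, hR1]
    exact_mod_cast this
  · have : (u * u : ℝ) ≤ 8 * m := by linarith only [sq, hR, hmR, n0]
    exact_mod_cast this
  · have : (u * u : ℝ) ≤ n := by linarith only [sq, hR, n0]
    exact_mod_cast this
  · have : (E + 1 : ℝ) ≤ 4 * (s * m) := by linarith only [d2, b3, b5, hmb, hR1]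
    exact_mod_cast this
  · have : (s * s : ℝ) ≤ 20 * m := by linarith only [sq2, hR, hmR, n0]
    exact_mod_cast this

theorem exp_big {m x : ℕ} {R : ℝ} (hR : 0 < R) (hx : 0.299 * R ≤ x)
    (hm : (m : ℝ) ≤ Real.exp (R / 10 ^ 8)) : (m * m) ^ 2000001 < 2 ^ x := by
  have h1 : ((m * m : ℕ) : ℝ) ≤ Real.exp (2 * (R / 10 ^ 8)) := by
    rw [two_mul, Real.exp_add, Nat.cast_mul]
    exact mul_le_mul hm hm (Nat.cast_nonneg m) (Real.exp_pos _).le
  have h2 := pow_le_pow_left₀ (Nat.cast_nonneg _) h1 2000001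
  rw [← Real.exp_nat_mul] at h2
  have h3 : Real.exp ((2000001 : ℕ) * (2 * (R / 10 ^ 8))) < Real.exp (x * Real.log 2) := by
    rw [Real.exp_lt_exp]
    have h4 := mul_le_mul hx Real.log_two_gt_d9.le (by norm_num) (Nat.cast_nonneg x)
    push_cast
    linarith
  rw [Real.exp_nat_mul (Real.log 2), Real.exp_log two_pos] at h3
  generalize 2000001 = L at *
  exact_mod_cast h2.trans_lt h3

theorem exp_crit {c : ℝ} {N₀ : ℕ} (hc : 0 < c) (hT : Trap c N₀) {n m E : ℕ} (hn : 10 ^ 30 ≤ n)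
    (hN : 12 * N₀ ≤ n) (hm : n ≤ 16 * m) (hm1 : (m : ℝ) ≤ Real.exp (min c (1 / 10 ^ 8) * √n))
    (hc1 : n * tri m ≤ tri E + (E + 1)) (hc2 : tri E ≤ n * tri m + (E + 1)) :
    Bd (fun _ : Fin n => m) (Dsp E E) univ (tri E - n * tri m) := by
  have hnR : (10 : ℝ) ^ 30 ≤ n := by exact_mod_cast hn
  have hR : √(n : ℝ) ^ 2 = n := Real.sq_sqrt (Nat.cast_nonneg n)
  have hR1 : (10 : ℝ) ^ 15 ≤ √n := Real.le_sqrt_of_sq_le (by linarith only [hnR])
  generalize √(n : ℝ) = R at *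
  have hR0 : 0 < R := by linarith
  obtain ⟨d1, d2⟩ := exp_deg hR0.le hR (by omega) hc1 hc2
  have x1 : (⌊0.3 * R⌋₊ : ℝ) ≤ 0.3 * R := Nat.floor_le (by positivity)
  have x2 : 0.3 * R < ⌊0.3 * R⌋₊ + 1 := Nat.lt_floor_add_one _
  generalize ⌊0.3 * R⌋₊ = x at x1 x2
  have x3 : 0.299 * R ≤ x := by linarith only [x2, hR1]
  have x4 : 10 ^ 7 ≤ x := by
    have : (10 ^ 7 : ℝ) ≤ x := by linarith only [x3, hR1]
    exact_mod_cast this
  have m1 : (1 : ℝ) ≤ m := by exact_mod_cast (show 1 ≤ m by omega)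
  obtain ⟨s, u, k, r, s1, s2, hD, r1, r2, k1, k2⟩ := exp_select (m := m) (D := 2 * E + 1) x4
    (by omega) (by
      have b1 := mul_le_mul_of_nonneg_right x1 (Nat.cast_nonneg (α := ℝ) m)
      have b2 := mul_le_mul_of_nonneg_left m1 hR0.le
      have : (5 * (x * m) : ℝ) ≤ 2 * E + 1 := by linarith only [b1, b2, d1, hR1]
      exact_mod_cast this)
    (exp_big hR0 x3 (hm1.trans (Real.exp_le_exp.2 (by
      have := mul_le_mul_of_nonneg_right (min_le_right c (1 / 10 ^ 8)) hR0.le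
      linarith only [this]))))
  have s1R : (x : ℝ) ≤ s := by exact_mod_cast s1.le
  have s2R : (s : ℝ) ≤ 2 * x := by exact_mod_cast s2
  have s3 : 0.299 * R ≤ s := x3.trans s1R
  obtain ⟨u1, u2, u3, u4, u5, u6⟩ := exp_u hR (by linarith only [hR1]) hm d1 d2 s3
    (by linarith only [s2R, x1]) hD r2 k1 k2
  have sq := mul_le_mul s3 s3 (by positivity) (Nat.cast_nonneg s)
  refine exp_core hT hD r1 r2 k1 k2 u1 u2 u3 u4 u5 (by omega) (by omega) hc1 hc2 ?_ u6 ?_
  · have h1 : (12 * N₀ : ℝ) ≤ n := by exact_mod_cast hN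
    have : (N₀ : ℝ) ≤ s * s := by linarith only [h1, sq, hR, hnR]
    exact_mod_cast this
  · refine hm1.trans (Real.exp_le_exp.2 ?_)
    have h1 := mul_le_mul_of_nonneg_right hR1 hR0.le
    push_cast
    exact mul_le_mul (min_le_left _ _) (by linarith only [h1, sq, hR0]) hR0.le hc.le

theorem exp_large {c : ℝ} {N₀ : ℕ} (hc : 0 < c) (hT : Trap c N₀) {n m d : ℕ} (hn : 10 ^ 30 ≤ n)
    (hN : 12 * N₀ ≤ n) (hm : n ≤ 16 * m) (hm1 : (m : ℝ) ≤ Real.exp (min c (1 / 10 ^ 8) * √n)) :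
    Bd (fun _ : Fin n => m) (Dsp (d + 1) (d + 1)) univ (tri (d + 1) - n * tri m) := by
  have hT1 : 1 ≤ tri m := tri_mono (a := 1) (by omega)
  obtain ⟨d₀, -, -, h1, h2⟩ := exists_step (f := fun z => n * tri m < tri (z + 1)) (a := 0)
    (b := n * tri m) (by simp only [tri]; nlinarith) (by simp only [tri]; omega) (Nat.zero_le _)
  have h3 : tri (d₀ + 1 + 1) = tri (d₀ + 1) + (d₀ + 1 + 1) := rfl
  rcases le_or_gt d d₀ with h | h
  · have h4 := exp_crit hc hT (E := d₀ + 1) hn hN hm hm1 (by omega) (by omega)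
    have h5 := tri_mono (show d + 1 ≤ d₀ + 1 by omega)
    rw [show tri (d₀ + 1) - n * tri m = 0 by omega] at h4
    rw [show tri (d + 1) - n * tri m = 0 by omega]
    exact Bd.mono (Dsp_mono (by omega)) subset_rfl h4
  · induction d, h using Nat.le_induction with
    | base => exact exp_crit hc hT (E := d₀ + 1 + 1) hn hN hm hm1 (by omega) (by omega)
    | succ d hd ih =>
      have h4 := tri_mono (show d₀ + 1 + 1 ≤ d + 1 by omega)
      have h5 : tri (d + 1 + 1) = tri (d + 1) + (d + 1 + 1) := rfl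
      rw [show tri (d + 1 + 1) - n * tri m = tri (d + 1) - n * tri m + (d + 1 + 1) by omega]
      exact ih.succ_deg

theorem exp_exact (h : ∃ c : ℝ, 0 < c ∧ ∃ N₀, Trap c N₀) :
    ∃ c : ℝ, 0 < c ∧ ∃ N : ℕ, ∀ n m d : ℕ, N ≤ n → 0 < m → (m : ℝ) ≤ Real.exp (c * √n) →
      ∃ F : MvPolynomial (Fin n × Fin 2) ℂ, F ≠ 0 ∧
        ∀ p : Fin n → Fin 2 → ℂ,
          MvPolynomial.eval (fun ij : Fin n × Fin 2 => p ij.1 ij.2) F ≠ 0 →
          ((Module.finrank ℂ
              ↥(MvPolynomial.restrictTotalDegree (Fin 2) ℂ d ⊓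
                ⨅ i : Fin n,
                  ((RingHom.ker (MvPolynomial.eval (p i))) ^ m).restrictScalars ℂ) : ℤ) - 1)
            = max (-1) (((d * (d + 3) / 2 : ℕ) : ℤ) - n * ((m * (m + 1) / 2 : ℕ) : ℤ)) := by
  obtain ⟨c, hc, N₀, hT⟩ := h
  refine ⟨min c (1 / 10 ^ 8), lt_min hc (by positivity), max (10 ^ 30) (12 * N₀),
    fun n m d hn hm0 hm => ?_⟩
  have h : Bd (fun _ : Fin n => m) (Dsp (d + 1) (d + 1)) univ
      (tri (d + 1) - mass (fun _ : Fin n => m) univ) := by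
    rw [mass_const]
    rcases le_total n (16 * m) with h | h
    · exact exp_large hc hT (le_of_max_le_left hn) (le_of_max_le_right hn) h hm
    · exact hom_small (le_of_max_le_left hn) hm0 h
  have := expected_of_bd _ h
  simpa only [sum_const, card_univ, Fintype.card_fin, nsmul_eq_mul] using this

end Pool.Agent.Lib.MP_6e81d8_ag
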