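import Pool.Agent.Lib.MP_6e81d8_ag.Greedy

set_option autoImplicit false

namespace Pool.Agent.Lib.MP_6e81d8_ag

open Finset

/-- The two-sided approximate theorem on trapezoids with `k` rows of lengths `lam - sg * t`. -/
def Trap (c : ℝ) (N₀ : ℕ) : Prop :=
  ∀ sg m k lam nJ : ℕ, N₀ ≤ sg → sg ≤ 20 * m → (m : ℝ) ≤ Real.exp (c * sg) →
    1000001 * m ≤ 1000000 * k → 1000000 * k ≤ 1000002 * m →
    2 * (sg * k) + sg * m ≤ 2 * lam → lam ≤ sg * k + 4 * (sg * m) →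
    (100 * (∑ t ∈ range k, (lam - sg * t)) + sg * m ≤ 100 * (nJ * tri m) →
      nJ * tri m ≤ ∑ t ∈ range k, (lam - sg * t) + 5 * (sg * m) →
      Good (fun _ : Fin nJ => m) (tr k fun t => lam - sg * t) univ 0) ∧
    (100 * (nJ * tri m) + sg * m ≤ 100 * ∑ t ∈ range k, (lam - sg * t) →
      ∑ t ∈ range k, (lam - sg * t) ≤ nJ * tri m + 5 * (sg * m) →
      Good (fun _ : Fin nJ => m) (tr k fun t => lam - sg * t) univ
        (∑ t ∈ range k, (lam - sg * t) - nJ * tri m))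

end Pool.Agent.Lib.MP_6e81d8_ag
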