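import Pool.Agent.Lib.MP_6e81d8_ag.H16.TrapDisc
import Pool.Agent.Lib.MP_6e81d8_ag.ExpCore

set_option autoImplicit false

namespace Pool.Agent.Lib.MP_6e81d8_ag

open Finset H16

/-- The proof of `H16.trap_disc`, with its constants kept in the statement. -/
theorem trap_explicit : Trap 1e-39 (10 ^ 50) := by
  intro sg m k lam n h0 h1 h2 k1 k2 l1 l2
  have hσ : (1e50 : ℝ) ≤ sg := by
    have : ((10 : ℝ) ^ 50) ≤ sg := by exact_mod_cast h0
    linarith [show (1e50 : ℝ) = 10 ^ 50 by norm_num]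
  have hm : (1e8 : ℝ) ≤ m := by
    have : (sg : ℝ) ≤ 20 * m := by exact_mod_cast h1
    linarith
  have he := err_le hσ h2
  have he0 : (0 : ℝ) ≤ 4 * sg / 2 ^ ⌊(sg : ℝ) / 1e38⌋₊ := by positivity
  have hz := sum_trap sg lam k (by omega)
  have ht : (2 : ℝ) * tri m = m * (m + 1) := by exact_mod_cast two_tri m
  have hlt : ∀ t < k, ((lam - sg * t : ℕ) : ℝ) = lam - sg * t := fun t ht => by
    rw [Nat.cast_sub (le_trans (Nat.mul_le_mul_left _ ht.le) (by omega)), Nat.cast_mul]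
  have hmk : m ≤ k := by omega
  replace k1 : (1000001 : ℝ) * m ≤ 1000000 * k := by exact_mod_cast k1
  replace k2 : (1000000 : ℝ) * k ≤ 1000002 * m := by exact_mod_cast k2
  replace l1 : (2 : ℝ) * (sg * k) + sg * m ≤ 2 * lam := by exact_mod_cast l1
  replace l2 : (lam : ℝ) ≤ sg * k + 4 * (sg * m) := by exact_mod_cast l2
  have hn : (n : ℝ) * (m * (m + 1)) = 2 * (n * tri m) := by rw [← ht]; ring
  have hs : (0 : ℝ) ≤ sg * m := by positivity
  refine ⟨fun h3 h4 => ?_, fun h3 h4 => ?_⟩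
  · generalize ∑ t ∈ range k, (lam - sg * t) = z at *
    replace h3 : (100 : ℝ) * z + sg * m ≤ 100 * (n * tri m) := by exact_mod_cast h3
    replace h4 : (n : ℝ) * tri m ≤ z + 5 * (sg * m) := by exact_mod_cast h4
    obtain ⟨H, hH⟩ : ∃ H : ℝ, H = k - 1 + 1e-6 := ⟨_, rfl⟩
    have hH0 : 0 < H := by linarith
    obtain ⟨Λ, hΛ⟩ : ∃ Λ : ℝ, (m : ℝ) ^ 2 * n = 2 * Λ * H + sg * H ^ 2 :=
      ⟨(m ^ 2 * n - sg * H ^ 2) / (2 * H), by field_simp; ring⟩
    obtain ⟨b1, b2⟩ := numE (l := lam - sg * (k - 1)) (z := z) (by linarith) n.cast_nonneg hm k1 k2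
      (by linarith) (by linarith) hH (by linarith) hΛ (by linarith) (by linarith)
    obtain ⟨ξ, -, x2, S₁, S₂, hF, hS⟩ := trap_rows (u := 0) (v := 1e-6) k (by linarith)
      (by linarith) (by linarith) (by linarith) b2 hσ hΛ le_rfl (by norm_num) hH.ge
    refine good_of_fill (by exact_mod_cast (by linarith : (0 : ℝ) < m)) hF fun t ht => ?_
    rw [(hS t).2, hlt t ht, hH]
    linarith [mul_le_mul_of_nonneg_left x2.le (by linarith : (0 : ℝ) ≤ sg)]
  · obtain ⟨H, hH⟩ : ∃ H : ℝ, H = k + 1 - 1e-6 := ⟨_, rfl⟩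
    have hH0 : 0 < H := by linarith
    obtain ⟨Λ, hΛ⟩ : ∃ Λ : ℝ, ((m : ℝ) + 1) ^ 2 * n = 2 * Λ * H + sg * H ^ 2 :=
      ⟨((m + 1) ^ 2 * n - sg * H ^ 2) / (2 * H), by field_simp; ring⟩
    replace h3 : (100 : ℝ) * (n * tri m) + sg * m ≤ 100 * (∑ t ∈ range k, (lam - sg * t) : ℕ) := by
      exact_mod_cast h3
    replace h4 : ((∑ t ∈ range k, (lam - sg * t) : ℕ) : ℝ) ≤ n * tri m + 5 * (sg * m) := by
      exact_mod_cast h4
    obtain ⟨b1, b2⟩ := numR (l := lam - sg * k) (z := (∑ t ∈ range k, (lam - sg * t) : ℕ))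
      (by linarith) hm k1 k2 (by linarith) (by linarith) hH (by linarith) hΛ (by linarith)
      (by linarith)
    obtain ⟨ξ, x1, x2, S₁, S₂, hF, hS⟩ := trap_rows (u := 1 - 1e-6) (v := 1) k (by linarith)
      (by linarith) (by linarith) b2 (by linarith) hσ hΛ (by norm_num) (by norm_num) (by linarith)
    refine reg_of_fill hmk hF (by linarith) (by rw [mul_div_cancel₀ _ (by positivity)]; linarith)
      fun t ht => ?_
    rw [(hS t).1, hlt t ht, hH]
    linarith [mul_le_mul_of_nonneg_left x1.le (by linarith : (0 : ℝ) ≤ sg)]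

theorem homogeneous_exp {n m d : ℕ} (hn : 10 ^ 30 ≤ n) (hm0 : 0 < m)
    (hm : (m : ℝ) ≤ max (√n ^ 5 / (10 ^ 14 * Real.log n ^ 3)) (Real.exp (√n / 10 ^ 39))) :
    ∃ F : MvPolynomial (Fin n × Fin 2) ℂ, F ≠ 0 ∧
      ∀ p : Fin n → Fin 2 → ℂ,
        MvPolynomial.eval (fun ij : Fin n × Fin 2 => p ij.1 ij.2) F ≠ 0 →
        ((Module.finrank ℂ
            ↥(MvPolynomial.restrictTotalDegree (Fin 2) ℂ d ⊓
              ⨅ i : Fin n,
                ((RingHom.ker (MvPolynomial.eval (p i))) ^ m).restrictScalars ℂ) : ℤ) - 1)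
          = max (-1) (((d * (d + 3) / 2 : ℕ) : ℤ) - n * ((m * (m + 1) / 2 : ℕ) : ℤ)) := by
  have hL : 0 < Real.log n := Real.log_pos (by exact_mod_cast (show 1 < n by omega))
  rcases le_max_iff.1 hm with h | h
  · refine homogeneous_exact hn hm0 ?_
    rw [le_div_iff₀ (by positivity)] at h
    linarith only [h]
  have h1 : Bd (fun _ : Fin n => m) (Dsp (d + 1) (d + 1)) univ
      (tri (d + 1) - mass (fun _ : Fin n => m) univ) := by
    rw [mass_const]
    rcases le_total n (16 * m) with h2 | h2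
    · refine exp_large (by norm_num) trap_explicit hn ?_ h2 (h.trans (le_of_eq ?_))
      · by_contra hc
        have a1 : (n : ℝ) ≤ (10 ^ 39) ^ 2 := by exact_mod_cast (show n ≤ (10 ^ 39) ^ 2 by omega)
        have a2 : √(n : ℝ) / 10 ^ 39 ≤ 1 := by
          rw [div_le_one (by positivity)]
          exact Real.sqrt_le_iff.2 ⟨by positivity, a1⟩
        have a3 : (m : ℝ) ≤ 3 := by
          linarith only [h, Real.exp_le_exp.2 a2, Real.exp_one_lt_d9]
        have a4 : m ≤ 3 := by exact_mod_cast a3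
        omega
      · rw [min_eq_left (by norm_num)]
        congr 1
        ring
    · exact hom_small hn hm0 h2
  have := expected_of_bd _ h1
  simpa only [sum_const, card_univ, Fintype.card_fin, nsmul_eq_mul] using this

end Pool.Agent.Lib.MP_6e81d8_ag
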