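import Pool.Agent.Lib.MP_6e81d8_ag.Exact
import Pool.Agent.Lib.MP_6e81d8_ag.H16.Generic

set_option autoImplicit false
set_option maxHeartbeats 400000
set_option maxSynthPendingDepth 3

namespace Pool.Agent.Lib.MP_6e81d8_ag

open Polynomial Finset Module

theorem symm_mem_Dsp {d : ℕ} {f : MvPolynomial (Fin 2) ℂ}
    (hf : f ∈ MvPolynomial.restrictTotalDegree (Fin 2) ℂ d) :
    (Bivariate.equivMvPolynomial ℂ).symm f ∈ Dsp (d + 1) (d + 1) := by
  rw [MvPolynomial.mem_restrictTotalDegree] at hf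
  rw [f.as_sum, map_sum]
  refine Submodule.sum_mem _ fun s hs => ?_
  have h1 := (MvPolynomial.le_totalDegree hs).trans hf
  rw [Finsupp.sum_fintype _ _ (fun _ => rfl), Fin.sum_univ_two] at h1
  have h2 : (Bivariate.equivMvPolynomial ℂ).symm (MvPolynomial.monomial s (f.coeff s))
      = monomial (s 1) (monomial (s 0) (f.coeff s)) := by
    rw [MvPolynomial.monomial_eq, Finsupp.prod_fintype _ _ (fun _ => pow_zero _),
      Fin.prod_univ_two, map_mul, map_mul, map_pow, map_pow,
      Bivariate.equivMvPolynomial_symm_C, Bivariate.equivMvPolynomial_symm_X_0,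
      Bivariate.equivMvPolynomial_symm_X_1, ← C_mul_X_pow_eq_monomial,
      ← C_mul_X_pow_eq_monomial, C_mul, C_pow, mul_assoc]
  rw [h2]
  refine mem_rows.mpr fun b => mem_lt.mpr fun a ha => ?_
  rw [coeff_monomial]
  split_ifs with hb
  · rw [coeff_monomial, if_neg (by omega)]
  · rfl

theorem expected_of_bd {r d : ℕ} (m : Fin r → ℕ)
    (h : Bd m (Dsp (d + 1) (d + 1)) univ (tri (d + 1) - mass m univ)) :
    ∃ F : MvPolynomial (Fin r × Fin 2) ℂ, F ≠ 0 ∧
      ∀ p : Fin r → Fin 2 → ℂ,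
        MvPolynomial.eval (fun ij : Fin r × Fin 2 => p ij.1 ij.2) F ≠ 0 →
        ((Module.finrank ℂ
            ↥(MvPolynomial.restrictTotalDegree (Fin 2) ℂ d ⊓
              ⨅ i : Fin r,
                ((RingHom.ker (MvPolynomial.eval (p i))) ^ (m i)).restrictScalars ℂ) : ℤ) - 1)
          = max (-1) (((d * (d + 3) / 2 : ℕ) : ℤ)
              - ∑ i : Fin r, ((m i * (m i + 1) / 2 : ℕ) : ℤ)) := by
  obtain ⟨Δ, hΔ, Ψ, h⟩ := h.generic
  refine ⟨Δ, hΔ, fun p hp => ?_⟩
  have h1 := h _ hp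
  let e := (Bivariate.equivMvPolynomial ℂ).symm
  have h2 : finrank ℂ (H16.Sys d m p) ≤ tri (d + 1) - mass m univ := by
    have : Function.Injective (Ψ ∘ₗ e.toLinearMap ∘ₗ (H16.Sys d m p).subtype) := by
      rw [injective_iff_map_eq_zero]
      intro f hf
      have h3 := h1 (e f) (symm_mem_Dsp f.2.1) (fun i _ => ?_) hf
      · exact Subtype.ext ((map_eq_zero_iff e e.injective).mp h3)
      · have h4 := f.2.2
        simp only [Submodule.coe_iInf, Set.mem_iInter, SetLike.mem_coe] at h4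
        refine pow_map (e : MvPolynomial (Fin 2) ℂ →+* R) (fun x hx => ?_) (h4 i)
        have h5 : (ev (p i 0, p i 1)).comp e.toAlgHom = MvPolynomial.aeval (p i) := by
          refine MvPolynomial.algHom_ext fun j => ?_
          fin_cases j <;> simp [e]
        rw [mem_mx]
        exact (DFunLike.congr_fun h5 x).trans hx
    simpa using LinearMap.finrank_le_finrank_of_injective this
  have h3 := H16.always_lower d m p
  have h4 : ∑ i, m i * (m i + 1) = 2 * mass m univ := by
    rw [mass, Finset.mul_sum]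
    exact Finset.sum_congr rfl fun i _ => (two_tri _).symm
  have h5 : ∑ i : Fin r, ((m i * (m i + 1) / 2 : ℕ) : ℤ) = (mass m univ : ℤ) := by
    rw [mass, Nat.cast_sum]
    refine Finset.sum_congr rfl fun i _ => ?_
    have := two_tri (m i)
    omega
  have h6 := two_tri (d + 1)
  have h7 : (d + 1) * (d + 1 + 1) = d * (d + 3) + 2 := by ring
  have h8 : (d + 1) * (d + 2) = d * (d + 3) + 2 := by ring
  rw [h5]
  change ((finrank ℂ (H16.Sys d m p) : ℕ) : ℤ) - 1 = _
  omega

theorem bd_first {ι : Type} [DecidableEq ι] {μ : ι → ℕ} {d : ℕ} {S : Finset ι} {i : ι}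
    (hi : i ∉ S) {ρ : ℕ} (h : Bd μ (Dsp (d + 1 - μ i) (d + 1)) S ρ) :
    Bd μ (Dsp (d + 1) (d + 1)) (insert i S) ρ := by
  have := qmoves (μ := μ) (d + 1) (S := S) (ρ := ρ) {i} (fun b => min (d + 1) (d + 1 - b))
    (fun b hb => by omega) (by simpa using hi) (by
      convert h using 1
      unfold Good Dsp
      simp only [sum_singleton]
      rw [show (fun b => lt (min (d + 1) (d + 1 - b) - (μ i - b)))
        = fun b => lt (min (d + 1 - μ i) (d + 1 - b)) from funext fun b => by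
          congr 1; omega])
  simpa [Good, Dsp] using this

theorem free_first (r d : ℕ) (m : Fin r → ℕ) (hr : 3 ≤ r) (hanti : Antitone m) (hpos : ∀ i, 0 < m i)
    (hsum : ∀ i j k : Fin r, i ≠ j → i ≠ k → j ≠ k → m i + m j + m k < d)
    (h : 14 * m ⟨1, by omega⟩ ^ 3 ≤ d * (d - m ⟨0, by omega⟩)) :
    Bd m (Dsp (d + 1) (d + 1)) univ (tri (d + 1) - mass m univ) := by
  obtain ⟨i0, hi0⟩ : ∃ i : Fin r, i = ⟨0, by omega⟩ := ⟨_, rfl⟩
  obtain ⟨i1, hi1⟩ : ∃ i : Fin r, i = ⟨1, by omega⟩ := ⟨_, rfl⟩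
  obtain ⟨i2, hi2⟩ : ∃ i : Fin r, i = ⟨2, by omega⟩ := ⟨_, rfl⟩
  rw [← hi0, ← hi1] at h
  have h1 := hsum i0 i1 i2 (by simp [hi0, hi1]) (by simp [hi0, hi2]) (by simp [hi1, hi2])
  have h01 : m i1 ≤ m i0 := hanti (by simp [hi0, hi1])
  have h12 : m i2 ≤ m i1 := hanti (by simp [hi1, hi2, Fin.le_def])
  have hS : ∀ i ∈ univ.erase i0, m i ≤ m i1 := by
    intro i hi
    have : i.1 ≠ 0 := fun h0 => ne_of_mem_erase hi (Fin.ext (by simp [hi0, h0]))
    exact hanti (by simp only [hi1, Fin.le_def]; omega)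
  have hT : ∀ i ∈ (univ.erase i0).erase i1, m i ≤ m i2 := by
    intro i hi
    have a0 : i.1 ≠ 0 := fun h0 =>
      ne_of_mem_erase (mem_of_mem_erase hi) (Fin.ext (by simp [hi0, h0]))
    have a1 : i.1 ≠ 1 := fun h0 => ne_of_mem_erase hi (Fin.ext (by simp [hi1, h0]))
    exact hanti (by simp only [hi2, Fin.le_def]; omega)
  have h2 := exact_dsp (H := d - m i0) (hpos i2) h12 (by omega) (by omega) h (erase_subset i1 _)
    hS hT (by
      have : univ.erase i0 \ (univ.erase i0).erase i1 ⊆ {i1} := by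
        intro x hx
        simp only [mem_sdiff, mem_erase, mem_univ, and_true, not_and, not_not] at hx
        by_contra hc
        exact hx.1 (hx.2 (by simpa using hc))
      exact (Finset.sum_le_sum_of_subset this).trans (by simp))
  rw [show d - m i0 + 1 = d + 1 - m i0 by omega] at h2
  have h3 := bd_first (notMem_erase i0 univ) h2
  rw [insert_erase (mem_univ i0)] at h3
  convert h3 using 1
  have h4 := sz_split (d + 1 - m i0) (d + 1) (d + 1)
  rw [min_eq_left (by omega), show d + 1 - (d + 1 - m i0) = m i0 by omega, sz_self, sz_self] at h4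
  have h5 : mass m univ = tri (m i0) + mass m (univ.erase i0) :=
    (Finset.add_sum_erase _ _ (mem_univ i0)).symm
  omega

end Pool.Agent.Lib.MP_6e81d8_ag
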