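import Pool.Agent.Lib.MP_6e81d8_ag.Bd

set_option autoImplicit false
set_option maxHeartbeats 400000
set_option maxSynthPendingDepth 3

namespace Pool.Agent.Lib.MP_6e81d8_ag

open Finset

variable {ι : Type}

/-- Triangular numbers. -/
def tri : ℕ → ℕ
  | 0 => 0
  | n + 1 => tri n + (n + 1)

theorem two_tri (n : ℕ) : 2 * tri n = n * (n + 1) := by
  induction n with
  | zero => rfl
  | succ n ih => rw [tri, mul_add, ih]; ring

theorem tri_mono {a b : ℕ} (h : a ≤ b) : tri a ≤ tri b := by
  have := two_tri a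
  have := two_tri b
  have := Nat.mul_le_mul h (Nat.succ_le_succ h)
  simp only [Nat.succ_eq_add_one] at this
  omega

theorem sum_Icc_tri (n : ℕ) : ∑ v ∈ Icc 1 n, v = tri n := by
  induction n with
  | zero => rfl
  | succ n ih => rw [Finset.sum_Icc_succ_top (by omega), ih, tri]

theorem sum_range_tri (n : ℕ) : ∑ v ∈ range n, (v + 1) = tri n := by
  induction n with
  | zero => rfl
  | succ n ih => rw [Finset.sum_range_succ, ih, tri]

theorem sum_range_sub_tri (n : ℕ) : ∀ K, n ≤ K → ∑ b ∈ range K, (n - b) = tri n := by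
  induction n with
  | zero => intro K _; simp [tri]
  | succ n ih =>
    intro K hK
    obtain ⟨K, rfl⟩ : ∃ K', K = K' + 1 := ⟨K - 1, by omega⟩
    rw [Finset.sum_range_succ', tri, ← ih K (by omega)]
    simp

/-- The number of conditions imposed by the points of `S`. -/
def mass (μ : ι → ℕ) (S : Finset ι) : ℕ := ∑ i ∈ S, tri (μ i)

/-- The shape invariant of the greedy reduction. -/
def Inv (m : ℕ) (n : ℕ → ℕ) : Prop :=
  (∀ b, n b = 0 ∨ n b < n (b + 1) ∨ (m ≤ n b ∧ n b ≤ n (b + 1))) ∧ ∃ b, n b ≠ 0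

theorem Inv.mono {m : ℕ} {n : ℕ → ℕ} (h : Inv m n) : Monotone n :=
  monotone_nat_of_le_succ fun b => by have := h.1 b; omega

theorem Inv.first {m : ℕ} {n : ℕ → ℕ} (h : Inv m n) : ∃ z, n z ≠ 0 ∧ ∀ b < z, n b = 0 := by
  classical
  exact ⟨Nat.find h.2, Nat.find_spec h.2, fun b hb => by simpa using Nat.find_min h.2 hb⟩

theorem Inv.lower {m : ℕ} {n : ℕ → ℕ} (h : Inv m n) {z : ℕ} (hz : n z ≠ 0) :
    ∀ v < m, v + 1 ≤ n (z + v) := by
  intro v
  induction v with
  | zero => intro _; simp only [add_zero]; omega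
  | succ v ih =>
    intro hv
    have := ih (by omega)
    have := h.1 (z + v)
    rw [← add_assoc]
    omega

theorem move {m ν z : ℕ} {n : ℕ → ℕ} (h : Inv m n) (hz : n z ≠ 0) (hz' : ∀ b < z, n b = 0)
    (hν : ν ≤ m) : ∃ r : ℕ → ℕ, (∀ b, r b ≤ ν) ∧ (∀ b, r b ≤ n b) ∧ (∀ b, z + ν ≤ b → r b = 0) ∧
      ∑ b ∈ range (z + ν), r b = tri ν ∧ Inv m (fun b => n b - r b) ∧
      ∀ c b, c < b → 0 < r b → 0 < n c → r b < r c ∨ (n c ≤ r c ∧ r c < r b) := by
  classical
  have hmono := h.mono
  have hex : ∃ u, ν ≤ n (z + u) := by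
    rcases Nat.eq_zero_or_pos ν with h0 | h0
    · exact ⟨0, by omega⟩
    · exact ⟨ν - 1, by have := h.lower hz (ν - 1) (by omega); omega⟩
  obtain ⟨u, hu1, hu2⟩ : ∃ u, ν ≤ n (z + u) ∧ ∀ v < u, n (z + v) < ν :=
    ⟨Nat.find hex, Nat.find_spec hex, fun v hv => by simpa using Nat.find_min hex hv⟩
  have hlow : ∀ b, z ≤ b → b < z + u → n b < ν := by
    intro b h1 h2
    have := hu2 (b - z) (by omega)
    rwa [show z + (b - z) = b by omega] at this
  have hpos : ∀ b, z ≤ b → 1 ≤ n b := fun b hb => by have := hmono hb; omega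
  have hstr : ∀ c b, z ≤ c → c < z + u → c < b → n c < n b := by
    intro c b h1 h2 h3
    have := h.1 c
    have := hlow c h1 h2
    have := hpos c h1
    have := hmono (show c + 1 ≤ b by omega)
    omega
  have huν : u ≤ ν := by
    by_contra hc
    rcases Nat.eq_zero_or_pos ν with h0 | h0
    · have := hu2 0 (by omega); omega
    · have := h.lower hz (ν - 1) (by omega)
      have := hu2 (ν - 1) (by omega)
      omega
  let T : Finset ℕ := Icc 1 ν \ (Ico z (z + u)).image n
  have hT : T.card = ν - u := by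
    rw [Finset.card_sdiff_of_subset, Nat.card_Icc, Finset.card_image_of_injOn, Nat.card_Ico]
    · omega
    · intro x hx y hy hxy
      simp only [coe_Ico, Set.mem_Ico] at hx hy
      by_contra hne
      rcases lt_or_gt_of_ne hne with h1 | h1
      · have := hstr x y hx.1 hx.2 h1; omega
      · have := hstr y x hy.1 hy.2 h1; omega
    · intro x hx
      obtain ⟨b, hb, rfl⟩ := mem_image.mp hx
      rw [mem_Ico] at hb
      have := hlow b hb.1 hb.2
      have := hpos b hb.1
      rw [mem_Icc]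
      omega
  obtain ⟨e, he1, he2⟩ : ∃ e : ℕ → ℕ, (∀ j < ν - u, e j ∈ T) ∧
      ∀ i j, i < j → j < ν - u → e i < e j := by
    refine ⟨fun j => if hj : j < ν - u then T.orderEmbOfFin hT ⟨j, hj⟩ else 0, fun j hj => ?_,
      fun i j hij hj => ?_⟩
    · simp only [hj, dif_pos]
      exact Finset.orderEmbOfFin_mem _ _ _
    · simp only [hj, hij.trans hj, dif_pos]
      exact (T.orderEmbOfFin hT).strictMono (by simpa using hij)
  have he3 : ∀ j < ν - u, 1 ≤ e j ∧ e j ≤ ν ∧ ∀ b, z ≤ b → b < z + u → n b ≠ e j := by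
    intro j hj
    have := he1 j hj
    simp only [T, mem_sdiff, mem_Icc, mem_image, mem_Ico, not_exists, not_and, and_imp] at this
    exact ⟨this.1.1, this.1.2, this.2⟩
  obtain ⟨r, hr0, hr1, hr2, hr3⟩ : ∃ r : ℕ → ℕ, (∀ b < z, r b = 0) ∧
      (∀ b, z ≤ b → b < z + u → r b = n b) ∧
      (∀ b, z + u ≤ b → b < z + ν → r b = e (z + ν - 1 - b)) ∧ ∀ b, z + ν ≤ b → r b = 0 := by
    refine ⟨fun b => if b < z then 0 else if b < z + u then n b else
      if b < z + ν then e (z + ν - 1 - b) else 0, ?_, ?_, ?_, ?_⟩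
    · intro b hb; simp [hb]
    · intro b h1 h2; simp [h2, not_lt.mpr h1]
    · intro b h1 h2; simp [h2, not_lt.mpr h1, show ¬ b < z by omega]
    · intro b h1; simp [not_lt.mpr h1, show ¬ b < z by omega, show ¬ b < z + u by omega]
  have hmid : ∀ b, z + u ≤ b → b < z + ν →
      1 ≤ r b ∧ r b ≤ ν ∧ ∀ c, z ≤ c → c < z + u → n c ≠ r b := by
    intro b h1 h2
    rw [hr2 b h1 h2]
    exact he3 _ (by omega)
  have hdec : ∀ c b, z + u ≤ c → c < z + ν → c < b → r b < r c := by
    intro c b h1 h2 h3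
    by_cases hb : b < z + ν
    · rw [hr2 c h1 h2, hr2 b (by omega) hb]
      exact he2 _ _ (by omega) (by omega)
    · rw [hr3 b (by omega)]
      exact (hmid c h1 h2).1
  have hbig : ∀ b, z + u ≤ b → ν ≤ n b := fun b hb => hu1.trans (hmono hb)
  have hA : ∀ b, r b ≤ ν ∧ r b ≤ n b := by
    intro b
    by_cases h1 : b < z
    · rw [hr0 b h1]; omega
    by_cases h2 : b < z + u
    · rw [hr1 b (by omega) h2]
      have := hlow b (by omega) h2
      omega
    by_cases h3 : b < z + ν
    · have := hmid b (by omega) h3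
      have := hbig b (by omega)
      omega
    · rw [hr3 b (by omega)]; omega
  have hv : ∀ c b, c < b → 0 < r b → 0 < n c → r b < r c ∨ (n c ≤ r c ∧ r c < r b) := by
    intro c b hcb hb hc
    have hcz : z ≤ c := by
      by_contra h1
      have := hz' c (by omega)
      omega
    have hbν : b < z + ν := by
      by_contra h1
      have := hr3 b (by omega)
      omega
    by_cases h2 : c < z + u
    · rw [hr1 c hcz h2]
      by_cases h3 : b < z + u
      · rw [hr1 b (by omega) h3]
        have := hstr c b hcz h2 hcb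
        omega
      · have := (hmid b (by omega) hbν).2.2 c hcz h2
        omega
    · exact Or.inl (hdec c b (by omega) (by omega) hcb)
  refine ⟨r, fun b => (hA b).1, fun b => (hA b).2, hr3, ?_, ⟨fun b => ?_, z + ν, ?_⟩, hv⟩
  · have hinj : Set.InjOn r (Ico z (z + ν) : Finset ℕ) := by
      have key : ∀ x y, z ≤ x → x < y → y < z + ν → r x ≠ r y := by
        intro x y h1 h2 h3
        have h4 : 0 < r y := by
          by_cases h5 : y < z + u
          · rw [hr1 y (by omega) h5]; exact hpos y (by omega)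
          · exact (hmid y (by omega) h3).1
        have := hv x y h2 h4 (hpos x h1)
        omega
      intro x hx y hy hxy
      simp only [coe_Ico, Set.mem_Ico] at hx hy
      by_contra hne
      rcases lt_or_gt_of_ne hne with h1 | h1
      · exact key x y hx.1 h1 hy.2 hxy
      · exact key y x hy.1 h1 hx.2 hxy.symm
    have him : (Ico z (z + ν)).image r = Icc 1 ν := by
      refine Finset.eq_of_subset_of_card_le (fun x hx => ?_) ?_
      · obtain ⟨b, hb, rfl⟩ := mem_image.mp hx
        rw [mem_Ico] at hb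
        refine mem_Icc.mpr ⟨?_, (hA b).1⟩
        by_cases h5 : b < z + u
        · rw [hr1 b hb.1 h5]; exact hpos b hb.1
        · exact (hmid b (by omega) hb.2).1
      · rw [Finset.card_image_of_injOn hinj]; simp
    rw [← sum_Icc_tri, ← him, Finset.sum_image hinj, Finset.range_eq_Ico,
      ← Finset.sum_Ico_consecutive r (Nat.zero_le z) (Nat.le_add_right z ν),
      Finset.sum_eq_zero (fun b hb => hr0 b (mem_Ico.mp hb).2), zero_add]
  · by_cases h1 : b < z
    · left; simp [hz' b h1]
    by_cases h2 : b < z + u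
    · left; simp [hr1 b (by omega) h2]
    by_cases h3 : b < z + ν
    · have := hdec b (b + 1) (by omega) h3 (by omega)
      have := hmono (Nat.le_succ b)
      have := (hA b).2
      simp only [Nat.succ_eq_add_one] at *
      omega
    · simpa [hr3 b (by omega), hr3 (b + 1) (by omega)] using h.1 b
  · have := hpos (z + ν) (by omega)
    have := hr3 (z + ν) le_rfl
    simp only
    omega

/-- The first `c` rows of a profile. -/
def tr (c : ℕ) (n : ℕ → ℕ) (b : ℕ) : ℕ := if b < c then n b else 0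

theorem tr_of_lt {c b : ℕ} (n : ℕ → ℕ) (h : b < c) : tr c n b = n b := if_pos h
theorem tr_of_le {c b : ℕ} (n : ℕ → ℕ) (h : c ≤ b) : tr c n b = 0 := if_neg (by omega)
theorem tr_le (c : ℕ) (n : ℕ → ℕ) (b : ℕ) : tr c n b ≤ n b := by
  unfold tr; split_ifs <;> omega

theorem sum_tr (c : ℕ) (n : ℕ → ℕ) : ∑ b ∈ range c, tr c n b = ∑ b ∈ range c, n b :=
  Finset.sum_congr rfl fun _ hb => tr_of_lt n (mem_range.mp hb)

theorem pmove_tr [DecidableEq ι] {μ : ι → ℕ} {n r : ℕ → ℕ} (c₀ : ℕ)
    {S : Finset ι} {i : ι} (hi : i ∉ S) {ρ : ℕ} (hr : ∀ b, r b ≤ μ i)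
    (hv : ∀ c b, c < b → 0 < r b → 0 < n c → r b < r c ∨ (n c ≤ r c ∧ r c < r b))
    (h : Good μ (tr c₀ fun b => n b - r b) S ρ) : Good μ (tr c₀ n) (insert i S) ρ := by
  refine pmove c₀ (fun b hb => tr_of_le n hb) hi hr (fun c b h1 h2 h3 => ?_) ?_
  · have := tr_le c₀ n c
    have := hv c b h1 h2 (by omega)
    omega
  · convert h using 2 with b
    unfold tr
    split_ifs <;> simp

theorem sum_sub_of_support {n r : ℕ → ℕ} (hr : ∀ b, r b ≤ n b) {a c : ℕ} (hac : a ≤ c)
    (h0 : ∀ b, a ≤ b → r b = 0) :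
    ∑ b ∈ range c, (n b - r b) + ∑ b ∈ range a, r b = ∑ b ∈ range c, n b := by
  rw [Finset.sum_subset (range_subset_range.mpr hac) (fun b _ hb => h0 b (by simpa using hb)),
    ← Finset.sum_add_distrib]
  exact Finset.sum_congr rfl fun b _ => Nat.sub_add_cancel (hr b)

theorem greedy_inj [DecidableEq ι] {μ : ι → ℕ} {m : ℕ} (c : ℕ) (S : Finset ι)
    (hS : ∀ i ∈ S, μ i ≤ m) : ∀ n, Inv m n →
      ∑ b ∈ range (c + m - 1), n b + 1 ≤ mass μ S + tri m → Good μ (tr c n) S 0 := by
  have triv : ∀ (S : Finset ι) (n : ℕ → ℕ) z, (∀ b < z, n b = 0) → c ≤ z →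
      Good μ (tr c n) S 0 := by
    intro S n z hz hc
    refine good_empty μ _ c (fun b hb => tr_of_le n hb) S ?_
    rw [sum_tr, Finset.sum_eq_zero fun b hb => hz b (by have := mem_range.mp hb; omega)]
  induction S using Finset.induction_on with
  | empty =>
    intro n hn h
    obtain ⟨z, hz, hz'⟩ := hn.first
    refine triv _ n z hz' ?_
    by_contra hc
    have h1 : tri m ≤ ∑ b ∈ range (z + m), n b := by
      rw [Finset.sum_range_add, ← sum_range_tri]
      exact (Finset.sum_le_sum fun v hv => hn.lower hz v (mem_range.mp hv)).trans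
        (Nat.le_add_left _ _)
    have h2 : ∑ b ∈ range (z + m), n b ≤ ∑ b ∈ range (c + m - 1), n b :=
      Finset.sum_le_sum_of_subset (range_subset_range.mpr (by omega))
    simp only [mass, sum_empty] at h
    omega
  | insert i S hi ih =>
    intro n hn h
    obtain ⟨z, hz, hz'⟩ := hn.first
    by_cases hc : c ≤ z
    · exact triv _ n z hz' hc
    have hi' := hS i (mem_insert_self i S)
    obtain ⟨r, h1, h2, h3, h4, h5, h6⟩ := move hn hz hz' hi'
    refine pmove_tr c hi h1 h6 (ih (fun j hj => hS j (mem_insert_of_mem hj)) _ h5 ?_)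
    have := sum_sub_of_support h2 (show z + μ i ≤ c + m - 1 by omega) h3
    rw [mass, Finset.sum_insert hi] at h
    rw [mass]
    omega

theorem gamma_mono {w m K : ℕ} (hw : w + 1 ≤ m) (hK : m ≤ K) :
    w * K + tri m ≤ tri (w + 1) + (m - 1) * K := by
  induction m, hw using Nat.le_induction with
  | base => simp [add_comm]
  | succ m hm ih =>
    have := ih (by omega)
    obtain ⟨m, rfl⟩ : ∃ m', m = m' + 1 := ⟨m - 1, by omega⟩
    rw [tri]
    simp only [Nat.add_sub_cancel] at *
    rw [add_mul m 1 K]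
    omega

theorem greedy_surj [DecidableEq ι] {μ : ι → ℕ} {m K : ℕ} (hK : m ≤ K) (c : ℕ) (S : Finset ι)
    (hS : ∀ i ∈ S, μ i ≤ m) : ∀ n, Inv m n → (∀ b, n b ≤ K) →
      mass μ S + (m - 1) * K + 1 ≤ ∑ b ∈ range c, n b + tri m →
      Good μ (tr c n) S (∑ b ∈ range c, n b - mass μ S) := by
  induction S using Finset.induction_on with
  | empty =>
    intro n _ _ _
    exact good_empty μ _ c (fun b hb => tr_of_le n hb) _ (by simp [sum_tr, mass])
  | insert i S hi ih =>
    intro n hn hnK h
    have ih' := ih (fun j hj => hS j (mem_insert_of_mem hj))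
    rw [mass, Finset.sum_insert hi] at h ⊢
    rcases Nat.eq_zero_or_pos (μ i) with h0 | h0
    · rw [h0, tri, zero_add] at h ⊢
      exact Bd.mono le_rfl (subset_insert i S) (ih' n hn hnK h)
    obtain ⟨z, hz, hz'⟩ := hn.first
    have hi' := hS i (mem_insert_self i S)
    obtain ⟨r, h1, h2, h3, h4, h5, h6⟩ := move hn hz hz' hi'
    have hc : z + μ i ≤ c := by
      by_contra hc
      have h7 : ∑ b ∈ range c, n b ≤ (c - z) * K := by
        rw [← Finset.sum_subset (s₁ := Ico z c) (fun x hx => by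
          rw [mem_Ico] at hx; exact mem_range.mpr hx.2) (fun x hx hx' => hz' x (by
          rw [mem_Ico] at hx'; have := mem_range.mp hx; omega))]
        simpa using Finset.sum_le_card_nsmul (Ico z c) n K fun b _ => hnK b
      have h8 := gamma_mono (w := c - z) (m := m) (by omega) hK
      have h9 := tri_mono (show c - z + 1 ≤ μ i by omega)
      omega
    have h7 := sum_sub_of_support h2 hc h3
    have h8 := ih' _ h5 (fun b => (Nat.sub_le _ _).trans (hnK b)) (by rw [mass]; omega)
    refine pmove_tr c hi h1 h6 ?_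
    convert h8 using 1
    rw [mass]
    omega

end Pool.Agent.Lib.MP_6e81d8_ag
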