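import Mathlib

/-!
Coprime pairs in short windows.
-/

set_option autoImplicit false

namespace Pool.Agent.Lib.MP_6e81d8_ag.H88

open Finset

lemma card_le_of_modEq {κ l : ℕ} (T : Finset ℕ) (hT : ∀ a ∈ T, a < κ)
    (h : ∀ a ∈ T, ∀ b ∈ T, a ≡ b [MOD l]) : (T.card : ℝ) ≤ κ / l + 1 := by
  have h1 : T.card ≤ (range (κ / l + 1)).card := by
    apply card_le_card_of_injOn (fun a => a / l)
    · intro a ha
      have := Nat.div_le_div_right (c := l) (hT a ha).le
      simp only [coe_range, Set.mem_Iio]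
      omega
    · intro a ha b hb hab
      have h2 : a % l = b % l := h a ha b hb
      have h3 : a / l = b / l := hab
      rw [← Nat.div_add_mod a l, ← Nat.div_add_mod b l, h2, h3]
  rw [card_range] at h1
  have h2 : ((κ / l : ℕ) : ℝ) ≤ κ / l := Nat.cast_div_le
  have h3 : (T.card : ℝ) ≤ ((κ / l : ℕ) : ℝ) + 1 := by exact_mod_cast h1
  linarith

lemma card_primeFactors_le_log {p P : ℕ} (hp : 0 < p) (hP : p ≤ P) :
    (p.primeFactors.card : ℝ) ≤ 3 / 2 * Real.log P := by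
  have h1 : 2 ^ p.primeFactors.card ≤ ∏ l ∈ p.primeFactors, l :=
    Finset.pow_card_le_prod _ _ _ (fun l hl => (Nat.prime_of_mem_primeFactors hl).two_le)
  have h2 : ∏ l ∈ p.primeFactors, l ≤ p := Nat.le_of_dvd hp (Nat.prod_primeFactors_dvd p)
  have h3 : (2 : ℝ) ^ p.primeFactors.card ≤ P := by exact_mod_cast h1.trans (h2.trans hP)
  have h4 := Real.log_le_log (by positivity) h3
  rw [Real.log_pow] at h4
  have h5 := Real.log_two_gt_d9
  have h6 : (0 : ℝ) ≤ p.primeFactors.card := Nat.cast_nonneg _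
  nlinarith

lemma exists_good {κ p₀ P : ℕ} (hκ : 0 < κ) (hodd : p₀ % 2 = 1) (hP : p₀ + 2 * κ ≤ P) :
    ∃ j < κ, (κ : ℝ) * ∑ l ∈ (p₀ + 2 * j).primeFactors, (l : ℝ)⁻¹ ≤ κ / 2 + (1 + Real.log P) := by
  classical
  have h1 : ∀ j ∈ range κ, ∑ l ∈ (p₀ + 2 * j).primeFactors, (l : ℝ)⁻¹
      = ∑ l ∈ Ioc 2 P, if l ∈ (p₀ + 2 * j).primeFactors then (l : ℝ)⁻¹ else 0 := by
    intro j hj
    rw [← sum_filter]
    apply sum_congr _ (fun _ _ => rfl)
    ext l
    simp only [mem_filter, mem_Ioc]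
    refine ⟨fun hl => ⟨⟨?_, ?_⟩, hl⟩, fun hl => hl.2⟩
    · have h2 := (Nat.prime_of_mem_primeFactors hl).two_le
      have h3 := Nat.dvd_of_mem_primeFactors hl
      rcases h2.lt_or_eq with h | h
      · exact h
      · rw [← h] at h3
        omega
    · have := Nat.le_of_mem_primeFactors hl
      have := mem_range.mp hj
      omega
  have h2 : ∑ j ∈ range κ, ∑ l ∈ (p₀ + 2 * j).primeFactors, (l : ℝ)⁻¹
      ≤ κ / 2 + (1 + Real.log P) := by
    rw [sum_congr rfl h1, sum_comm]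
    have h3 : ∀ l ∈ Ioc 2 P, (∑ j ∈ range κ,
        if l ∈ (p₀ + 2 * j).primeFactors then (l : ℝ)⁻¹ else 0)
        ≤ κ * ((l : ℝ) ^ 2)⁻¹ + (l : ℝ)⁻¹ := by
      intro l hl
      rw [mem_Ioc] at hl
      rw [← sum_filter, sum_const, nsmul_eq_mul]
      have hl0 : (0 : ℝ) < l := by exact_mod_cast (by omega : 0 < l)
      have h4 := card_le_of_modEq (κ := κ) (l := l)
        ((range κ).filter (fun j => l ∈ (p₀ + 2 * j).primeFactors))
        (fun a ha => mem_range.mp (mem_filter.mp ha).1) (by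
          intro a ha b hb
          have ha' := (mem_filter.mp ha).2
          have hb' := (mem_filter.mp hb).2
          have h5 : p₀ + 2 * a ≡ p₀ + 2 * b [MOD l] :=
            ((Nat.modEq_zero_iff_dvd.mpr (Nat.dvd_of_mem_primeFactors ha')).trans
              (Nat.modEq_zero_iff_dvd.mpr (Nat.dvd_of_mem_primeFactors hb')).symm)
          refine Nat.ModEq.cancel_left_of_coprime ?_ (Nat.ModEq.add_left_cancel' _ h5)
          exact (Nat.coprime_primes (Nat.prime_of_mem_primeFactors ha') Nat.prime_two).mpr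
            (by omega))
      calc _ ≤ ((κ : ℝ) / l + 1) * (l : ℝ)⁻¹ := by gcongr
        _ = _ := by field_simp
    refine (sum_le_sum h3).trans ?_
    rw [sum_add_distrib, ← mul_sum]
    have h4 := sum_Ioc_inv_sq_le_sub (α := ℝ) (k := 2) (n := P) (by norm_num) (by omega)
    have h5 : ∑ l ∈ Ioc 2 P, (l : ℝ)⁻¹ ≤ 1 + Real.log P := by
      refine le_trans ?_ (harmonic_le_one_add_log P)
      rw [harmonic_eq_sum_Icc]
      push_cast
      apply sum_le_sum_of_subset_of_nonneg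
      · intro l hl
        rw [mem_Ioc] at hl
        exact mem_Icc.mpr ⟨by omega, hl.2⟩
      · intro l _ _
        positivity
    have h6 : (0 : ℝ) ≤ (P : ℝ)⁻¹ := by positivity
    have h7 : ∑ l ∈ Ioc 2 P, ((l : ℝ) ^ 2)⁻¹ ≤ 1 / 2 := by
      norm_num at h4 ⊢
      linarith
    have h8 : (0 : ℝ) ≤ κ := Nat.cast_nonneg _
    nlinarith
  by_contra hcon
  push Not at hcon
  have h3 : ∑ _j ∈ range κ, ((κ : ℝ) / 2 + (1 + Real.log P))
      < ∑ j ∈ range κ, (κ : ℝ) * ∑ l ∈ (p₀ + 2 * j).primeFactors, (l : ℝ)⁻¹ :=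
    sum_lt_sum_of_nonempty ⟨0, mem_range.mpr hκ⟩ (fun j hj => hcon j (mem_range.mp hj))
  rw [← mul_sum, sum_const, card_range, nsmul_eq_mul] at h3
  have h8 : (0 : ℝ) < κ := by exact_mod_cast hκ
  exact absurd (lt_of_mul_lt_mul_left h3 h8.le) (not_lt.mpr h2)

theorem exists_coprime_window {κ p₀ P : ℕ} (hodd : p₀ % 2 = 1) (hP : p₀ + 2 * κ ≤ P)
    (hκ : 2 + 5 * Real.log P < κ) :
    ∃ j < κ, ∀ q₀ : ℕ, ∃ i < κ, Nat.Coprime (p₀ + 2 * j) (q₀ + i) := by
  classical
  have hlog : 0 ≤ Real.log P := Real.log_natCast_nonneg P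
  have hκ0 : 0 < κ := by
    have : (0 : ℝ) < κ := by linarith
    exact_mod_cast this
  obtain ⟨j, hj, hgood⟩ := exists_good hκ0 hodd hP
  refine ⟨j, hj, fun q₀ => ?_⟩
  set p := p₀ + 2 * j with hp
  by_contra hcon
  push Not at hcon
  have h1 : range κ ⊆ p.primeFactors.biUnion (fun l => (range κ).filter (fun i => l ∣ q₀ + i)) := by
    intro i hi
    obtain ⟨l, hl, h1, h2⟩ := Nat.Prime.not_coprime_iff_dvd.mp (hcon i (mem_range.mp hi))
    exact mem_biUnion.mpr ⟨l, Nat.mem_primeFactors.mpr ⟨hl, h1, by omega⟩, mem_filter.mpr ⟨hi, h2⟩⟩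
  have h2 := (card_le_card h1).trans card_biUnion_le
  rw [card_range] at h2
  have h3 : (κ : ℝ) ≤ ∑ l ∈ p.primeFactors, ((κ : ℝ) * (l : ℝ)⁻¹ + 1) := by
    have h4 : (κ : ℝ) ≤ ∑ l ∈ p.primeFactors,
        ((((range κ).filter (fun i => l ∣ q₀ + i)).card : ℕ) : ℝ) := by exact_mod_cast h2
    refine h4.trans (sum_le_sum fun l hl => ?_)
    rw [← div_eq_mul_inv]
    apply card_le_of_modEq _
      (fun a ha => mem_range.mp (mem_filter.mp ha).1)
    intro a ha b hb
    exact Nat.ModEq.add_left_cancel' q₀ ((Nat.modEq_zero_iff_dvd.mpr (mem_filter.mp ha).2).trans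
      (Nat.modEq_zero_iff_dvd.mpr (mem_filter.mp hb).2).symm)
  rw [sum_add_distrib, ← mul_sum, sum_const, nsmul_eq_mul, mul_one] at h3
  have h5 := card_primeFactors_le_log (p := p) (P := P) (by omega) (by omega)
  linarith

end Pool.Agent.Lib.MP_6e81d8_ag.H88
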