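import Mathlib

/-!
Vanishing to a given order at a point, for polynomials in two variables over a commutative ring.
-/

set_option autoImplicit false

namespace Pool.Agent.Lib.MP_6e81d8_ag.H88

open Polynomial Finset
open scoped Polynomial.Bivariate

section Ring

variable {A B S : Type*} [CommRing A] [CommRing B] [CommRing S]

/-- The coefficient of `X ^ i * Y ^ k`. -/
noncomputable def cf (f : A[X][Y]) (i k : ℕ) : A := (f.coeff k).coeff i

/-- The ideal of the point `(a, b)`. -/
noncomputable def mx (a b : A) : Ideal A[X][Y] := Ideal.span {C (X - C a), Y - C (C b)}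

/-- Vanishing to order `m` at `(a, b)`. -/
def Van (m : ℕ) (a b : A) (f : A[X][Y]) : Prop := f ∈ mx a b ^ m

lemma ipow_add (I : Ideal S) (m n : ℕ) : I ^ (m + n) = I ^ m * I ^ n := pow_add I m n

lemma ipow_succ (I : Ideal S) (m : ℕ) : I ^ (m + 1) = I ^ m * I := pow_succ I m

lemma ipow_mul (I : Ideal S) (m n : ℕ) : I ^ (m * n) = (I ^ m) ^ n := pow_mul I m n

lemma cf_ext {f g : A[X][Y]} (h : ∀ i k, cf f i k = cf g i k) : f = g := by
  ext k i
  exact h i k

lemma exists_cf_ne_zero {f : A[X][Y]} (h : f ≠ 0) : ∃ i k, cf f i k ≠ 0 := by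
  by_contra hh
  push Not at hh
  exact h (cf_ext (by simpa [cf] using hh))

@[simp] lemma cf_zero (i k : ℕ) : cf (0 : A[X][Y]) i k = 0 := by simp [cf]

lemma cf_add (f g : A[X][Y]) (i k : ℕ) : cf (f + g) i k = cf f i k + cf g i k := by simp [cf]

lemma cf_CC_mul (e : A) (f : A[X][Y]) (i k : ℕ) : cf (C (C e) * f) i k = e * cf f i k := by
  simp [cf]

lemma cf_sum {ι : Type*} (s : Finset ι) (f : ι → A[X][Y]) (i k : ℕ) :
    cf (∑ j ∈ s, f j) i k = ∑ j ∈ s, cf (f j) i k := by
  simp [cf, finsetSum_coeff]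

lemma cf_map (φ : A →+* B) (f : A[X][Y]) (i k : ℕ) :
    cf (f.map (mapRingHom φ)) i k = φ (cf f i k) := by
  simp [cf]

lemma cf_monomial (a b i k : ℕ) (c : A) :
    cf (monomial b (monomial a c) : A[X][Y]) i k = if a = i ∧ b = k then c else 0 := by
  unfold cf
  rw [coeff_monomial]
  split_ifs with h1 h2 h2
  · rw [coeff_monomial, if_pos h2.1]
  · rw [coeff_monomial, if_neg (fun h => h2 ⟨h, h1⟩)]
  · exact absurd h2.2 h1
  · simp

lemma X_mem_mx (a b : A) : (C (X - C a) : A[X][Y]) ∈ mx a b := Ideal.subset_span (by simp)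

lemma Y_mem_mx (a b : A) : (Y - C (C b) : A[X][Y]) ∈ mx a b := Ideal.subset_span (by simp)

lemma van_transfer (ψ : A[X][Y] →+* S) (I : Ideal S) {a b : A} (h1 : ψ (C (X - C a)) ∈ I)
    (h2 : ψ (Y - C (C b)) ∈ I) {m : ℕ} {f : A[X][Y]} (hf : Van m a b f) : ψ f ∈ I ^ m := by
  have h : Ideal.map ψ (mx a b) ≤ I := by
    rw [mx, Ideal.map_span, Ideal.span_le]
    rintro _ ⟨x, hx, rfl⟩
    rcases hx with rfl | rfl
    · exact h1
    · exact h2
  have h3 : ψ f ∈ Ideal.map ψ (mx a b ^ m) := Ideal.mem_map_of_mem ψ hf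
  rw [Ideal.map_pow] at h3
  exact Ideal.pow_right_mono h m h3

lemma van_map (φ : A →+* B) {a b : A} {m : ℕ} {f : A[X][Y]} (hf : Van m a b f) :
    Van m (φ a) (φ b) (f.map (mapRingHom φ)) := by
  have := van_transfer (mapRingHom (mapRingHom φ)) (mx (φ a) (φ b)) (a := a) (b := b)
    (by simpa using X_mem_mx (φ a) (φ b)) (by simpa using Y_mem_mx (φ a) (φ b)) hf
  exact this

lemma Van.mono {m m' : ℕ} (h : m' ≤ m) {a b : A} {f : A[X][Y]} (hf : Van m a b f) :
    Van m' a b f := Ideal.pow_le_pow_right h hf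

lemma Van.mul {m m' : ℕ} {a b : A} {f g : A[X][Y]} (hf : Van m a b f) (hg : Van m' a b g) :
    Van (m + m') a b (f * g) := by
  unfold Van
  rw [ipow_add]
  exact Ideal.mul_mem_mul hf hg

lemma Van.mul_left {m : ℕ} {a b : A} {f : A[X][Y]} (g : A[X][Y]) (hf : Van m a b f) :
    Van m a b (g * f) := Ideal.mul_mem_left _ _ hf

lemma Van.mul_right {m : ℕ} {a b : A} {f : A[X][Y]} (g : A[X][Y]) (hf : Van m a b f) :
    Van m a b (f * g) := Ideal.mul_mem_right _ _ hf

lemma Van.add {m : ℕ} {a b : A} {f g : A[X][Y]} (hf : Van m a b f) (hg : Van m a b g) :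
    Van m a b (f + g) := Ideal.add_mem _ hf hg

lemma van_zero (m : ℕ) (a b : A) : Van m a b 0 := Ideal.zero_mem _

lemma van_order_zero (a b : A) (f : A[X][Y]) : Van 0 a b f := by simp [Van]

lemma van_sum {ι : Type*} (s : Finset ι) {m : ℕ} {a b : A} {f : ι → A[X][Y]}
    (h : ∀ j ∈ s, Van m a b (f j)) : Van m a b (∑ j ∈ s, f j) := Ideal.sum_mem _ h

lemma van_pow {a b : A} {f : A[X][Y]} (h : f ∈ mx a b) (m : ℕ) : Van m a b (f ^ m) :=
  Ideal.pow_mem_pow h m

lemma Van.pow {m : ℕ} {a b : A} {f : A[X][Y]} (h : Van m a b f) (k : ℕ) :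
    Van (m * k) a b (f ^ k) := by
  unfold Van
  rw [ipow_mul]
  exact Ideal.pow_mem_pow h k

lemma C_mem_mx {a b : A} {p : A[X]} (h : p.eval a = 0) : (C p : A[X][Y]) ∈ mx a b := by
  obtain ⟨u, hu⟩ := dvd_iff_isRoot.mpr h
  rw [hu, C_mul]
  exact Ideal.mul_mem_right _ _ (X_mem_mx a b)

lemma Y_sub_C_mem_mx {a b : A} {p : A[X]} (h : p.eval a = b) :
    (Y - C p : A[X][Y]) ∈ mx a b := by
  have h1 : (C (p - C b) : A[X][Y]) ∈ mx a b := C_mem_mx (by simp [h])
  have h2 := Ideal.sub_mem _ (Y_mem_mx a b) h1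
  have : (Y - C (C b) - C (p - C b) : A[X][Y]) = Y - C p := by rw [C_sub]; ring
  rwa [this] at h2

lemma sub_mem_mx (a b : A) (f : A[X][Y]) : f - C (C (f.evalEval a b)) ∈ mx a b := by
  obtain ⟨u, hu⟩ := X_sub_C_dvd_sub_C_eval (p := f) (a := C b)
  have h1 : f - C (f.eval (C b)) ∈ mx a b := by
    rw [hu]
    exact Ideal.mul_mem_right _ _ (Y_mem_mx a b)
  have h2 : (C (f.eval (C b) - C (f.evalEval a b)) : A[X][Y]) ∈ mx a b :=
    C_mem_mx (by simp [evalEval])
  have := Ideal.add_mem _ h1 h2
  rw [C_sub] at this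
  simpa using this

lemma mem_mx_iff {a b : A} {f : A[X][Y]} : f ∈ mx a b ↔ f.evalEval a b = 0 := by
  constructor
  · intro h
    have := van_transfer (evalEvalRingHom a b) ⊥ (a := a) (b := b) (m := 1) (f := f)
      (by simp) (by simp) (by simpa [Van] using h)
    simpa using this
  · intro h
    have := sub_mem_mx a b f
    simpa [h] using this

/-- The substitution `X ↦ u`, `Y ↦ v`. -/
noncomputable def sub2 (u : A[X]) (v : A[X][Y]) : A[X][Y] →+* A[X][Y] :=
  eval₂RingHom ((C : A[X] →+* A[X][Y]).comp (compRingHom u)) v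

@[simp] lemma sub2_C (u : A[X]) (v : A[X][Y]) (p : A[X]) : sub2 u v (C p) = C (p.comp u) := by
  simp [sub2]

@[simp] lemma sub2_Y (u : A[X]) (v : A[X][Y]) : sub2 u v Y = v := by
  simp [sub2]

/-- The translation `X ↦ X + a`, `Y ↦ Y + b`. -/
noncomputable def sh (a b : A) : A[X][Y] →+* A[X][Y] := sub2 (X + C a) (Y + C (C b))

@[simp] lemma sh_C (a b : A) (p : A[X]) : sh a b (C p) = C (p.comp (X + C a)) := by simp [sh]

@[simp] lemma sh_Y (a b : A) : sh a b Y = Y + C (C b) := by simp [sh]

lemma sh_sh (a b a' b' : A) (f : A[X][Y]) : sh a b (sh a' b' f) = sh (a + a') (b + b') f := by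
  have : (sh a b).comp (sh a' b') = sh (a + a') (b + b') := by
    apply Polynomial.ringHom_ext
    · intro p
      simp [comp_assoc, add_assoc]
    · simp [add_assoc]
  exact congrArg (fun g : A[X][Y] →+* A[X][Y] => g f) this

lemma sh_zero (f : A[X][Y]) : sh (0 : A) 0 f = f := by
  have : sh (0 : A) 0 = RingHom.id _ := by
    apply Polynomial.ringHom_ext
    · intro p
      simp
    · simp
  rw [this]; rfl

lemma sh_injective (a b : A) : Function.Injective (sh a b) := by
  intro f g h
  have := congrArg (sh (-a) (-b)) h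
  simpa [sh_sh, sh_zero] using this

lemma van_sh {m : ℕ} {a b a' b' : A} {f : A[X][Y]} (h : Van m (a' + a) (b' + b) f) :
    Van m a' b' (sh a b f) := by
  apply van_transfer (sh a b) (mx a' b') _ _ h
  · rw [sh_C]
    exact C_mem_mx (by simp)
  · rw [mem_mx_iff]
    simp [evalEval]

lemma van_iff_sh {m : ℕ} {a b : A} {f : A[X][Y]} : Van m a b f ↔ Van m 0 0 (sh a b f) := by
  constructor
  · intro h
    exact van_sh (by simpa using h)
  · intro h
    have := van_sh (a := -a) (b := -b) (a' := a) (b' := b) (f := sh a b f) (by simpa using h)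
    simpa [sh_sh, sh_zero] using this

lemma sh_map (φ : A →+* B) (a b : A) (f : A[X][Y]) :
    (sh a b f).map (mapRingHom φ) = sh (φ a) (φ b) (f.map (mapRingHom φ)) := by
  have : (mapRingHom (mapRingHom φ)).comp (sh a b)
      = (sh (φ a) (φ b)).comp (mapRingHom (mapRingHom φ)) := by
    apply Polynomial.ringHom_ext
    · intro p
      simp [Polynomial.map_comp]
    · simp
  exact congrArg (fun g : A[X][Y] →+* B[X][Y] => g f) this

lemma cf_mul (f g : A[X][Y]) (i k : ℕ) :
    cf (f * g) i k = ∑ x ∈ antidiagonal k, ∑ y ∈ antidiagonal i,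
      cf f y.1 x.1 * cf g y.2 x.2 := by
  simp [cf, coeff_mul, finsetSum_coeff]

lemma as_sum_cf (f : A[X][Y]) :
    f = ∑ k ∈ f.support, ∑ i ∈ (f.coeff k).support, monomial k (monomial i (cf f i k)) := by
  conv_lhs => rw [f.as_sum_support]
  apply Finset.sum_congr rfl
  intro k _
  rw [← map_sum]
  congr 1
  exact (f.coeff k).as_sum_support

lemma monomial_monomial_eq (i k : ℕ) (c : A) :
    (monomial k (monomial i c) : A[X][Y]) = C (C c) * C X ^ i * Y ^ k := by
  rw [← C_mul_X_pow_eq_monomial, ← C_mul_X_pow_eq_monomial, C_mul, C_pow]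

lemma van_origin_iff {m : ℕ} {f : A[X][Y]} :
    Van m 0 0 f ↔ ∀ i k, i + k < m → cf f i k = 0 := by
  constructor
  · intro h
    unfold Van at h
    induction m generalizing f with
    | zero => intro i k hik; omega
    | succ m ih =>
      rw [ipow_succ] at h
      refine Submodule.mul_induction_on h ?_ ?_
      · intro u hu v hv i k hik
        rw [cf_mul]
        apply Finset.sum_eq_zero
        intro x hx
        apply Finset.sum_eq_zero
        intro y hy
        rw [HasAntidiagonal.mem_antidiagonal] at hx hy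
        by_cases h1 : y.1 + x.1 < m
        · rw [ih hu _ _ h1, zero_mul]
        · have h2 : y.2 = 0 := by omega
          have h3 : x.2 = 0 := by omega
          have h4 : v.evalEval 0 0 = 0 := mem_mx_iff.mp hv
          have : cf v 0 0 = 0 := by
            rw [← h4, cf, evalEval, coeff_zero_eq_eval_zero, coeff_zero_eq_eval_zero]
            simp
          rw [h2, h3, this, mul_zero]
      · intro u v hu hv i k hik
        rw [cf_add, hu i k hik, hv i k hik, add_zero]
  · intro h
    rw [as_sum_cf f]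
    apply van_sum
    intro k _
    apply van_sum
    intro i _
    by_cases hik : i + k < m
    · rw [h i k hik]
      simpa using van_zero m (0 : A) 0
    · rw [monomial_monomial_eq, mul_assoc]
      apply Van.mul_left
      apply Van.mono (not_lt.mp hik)
      apply Van.mul
      · exact van_pow (by simpa using X_mem_mx (0 : A) 0) i
      · exact van_pow (by simpa using Y_mem_mx (0 : A) 0) k

lemma van_iff_cf {m : ℕ} {a b : A} {f : A[X][Y]} :
    Van m a b f ↔ ∀ i k, i + k < m → cf (sh a b f) i k = 0 := by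
  rw [van_iff_sh, van_origin_iff]

lemma van_cancel [NoZeroDivisors A] {m : ℕ} {a b e : A} (he : e ≠ 0) {f : A[X][Y]}
    (h : Van m a b (C (C e) * f)) : Van m a b f := by
  rw [van_iff_cf] at h ⊢
  intro i k hik
  have := h i k hik
  rw [map_mul, sh_C, C_comp, cf_CC_mul] at this
  exact (mul_eq_zero.mp this).resolve_left he

lemma van_of_map_injective (φ : A →+* B) (hφ : Function.Injective φ) {m : ℕ} {a b : A}
    {f : A[X][Y]} (h : Van m (φ a) (φ b) (f.map (mapRingHom φ))) : Van m a b f := by
  rw [van_iff_cf] at h ⊢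
  intro i k hik
  have := h i k hik
  rw [← sh_map, cf_map] at this
  exact hφ (by rw [this, map_zero])

lemma coeff_sub2_Y (u : A[X]) (f : A[X][Y]) (k : ℕ) :
    (sub2 u Y f).coeff k = (f.coeff k).comp u := by
  have : sub2 u Y = mapRingHom (compRingHom u) := by
    apply Polynomial.ringHom_ext
    · intro p
      simp
    · simp
  rw [this]
  simp

lemma van_row_dvd {m : ℕ} {a : A} {f : A[X][Y]} (h : Van m a 0 f) (k : ℕ) :
    (X - C a) ^ (m - k) ∣ f.coeff k := by
  rw [van_iff_cf] at h
  have h1 : X ^ (m - k) ∣ (f.coeff k).comp (X + C a) := by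
    rw [X_pow_dvd_iff]
    intro i hi
    have := h i k (by omega)
    rwa [sh, C_0, C_0, add_zero, cf, coeff_sub2_Y] at this
  obtain ⟨u, hu⟩ := h1
  refine ⟨u.comp (X - C a), ?_⟩
  have := congrArg (fun p : A[X] => p.comp (X - C a)) hu
  simpa [comp_assoc] using this

lemma cf_swap (f : A[X][Y]) (i k : ℕ) : cf (Bivariate.swap f) i k = cf f k i := by
  induction f using Polynomial.induction_on' with
  | add p q hp hq => rw [map_add, cf_add, cf_add, hp, hq]
  | monomial n p =>
    induction p using Polynomial.induction_on' with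
    | add p q hp hq => rw [map_add, map_add, cf_add, cf_add, hp, hq]
    | monomial l c =>
      rw [Bivariate.swap_monomial_monomial, cf_monomial, cf_monomial]
      simp [and_comm]

lemma van_swap {m : ℕ} {a b : A} {f : A[X][Y]} (h : Van m a b f) :
    Van m b a (Bivariate.swap f) := by
  have := van_transfer (Bivariate.swap (R := A)).toRingEquiv.toRingHom (mx b a) (a := a) (b := b)
    ?_ ?_ h
  · exact this
  · have := Y_mem_mx b a
    show Bivariate.swap (C (X - C a)) ∈ mx b a
    rwa [C_sub, map_sub, Bivariate.swap_X, Bivariate.swap_C_C]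
  · have := X_mem_mx b a
    show Bivariate.swap (Y - C (C b)) ∈ mx b a
    rwa [map_sub, Bivariate.swap_Y, Bivariate.swap_C_C, ← C_sub]

/-- The operator `Y * d/dY - u` lowers the order of vanishing by at most one. -/
lemma van_derivative {m : ℕ} {a b : A} {f : A[X][Y]} (h : Van m a b f) :
    Van (m - 1) a b (derivative f) := by
  unfold Van at h ⊢
  induction m generalizing f with
  | zero => simp
  | succ m ih =>
    rw [ipow_succ] at h
    rw [Nat.add_sub_cancel]
    refine Submodule.mul_induction_on h ?_ ?_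
    · intro u hu v hv
      rw [derivative_mul]
      apply Ideal.add_mem
      · rcases m with _ | m
        · simp
        · have := ih hu
          rw [Nat.add_sub_cancel] at this
          rw [ipow_succ]
          exact Ideal.mul_mem_mul this hv
      · exact Ideal.mul_mem_right _ _ hu
    · intro u v hu hv
      rw [derivative_add]
      exact Ideal.add_mem _ hu hv

end Ring

end Pool.Agent.Lib.MP_6e81d8_ag.H88
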