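import Mathlib
import Pool.Agent.Lib.MP_6e81d8_ag.H88Basic

/-!
Emptiness of a linear system with prescribed monomials, and its behaviour under specialisation.
-/

set_option autoImplicit false

namespace Pool.Agent.Lib.MP_6e81d8_ag.H88

open Polynomial Finset
open scoped Polynomial.Bivariate

section Matrices

variable {A K : Type*} [CommRing A] {ρ κ : Type*} [Fintype ρ] [Fintype κ] [DecidableEq κ]

lemma exists_left_inv_field [Field K] (M : Matrix ρ κ K) (h : ∀ c, M.mulVec c = 0 → c = 0) :
    ∃ N : Matrix κ ρ K, N * M = 1 := by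
  classical
  obtain ⟨g, hg⟩ := LinearMap.exists_leftInverse_of_injective (Matrix.toLin' M)
    (LinearMap.ker_eq_bot'.mpr (fun c hc => h c (by simpa using hc)))
  refine ⟨LinearMap.toMatrix' g, ?_⟩
  have := congrArg LinearMap.toMatrix' hg
  rwa [LinearMap.toMatrix'_comp, LinearMap.toMatrix'_toLin', LinearMap.toMatrix'_id] at this

lemma exists_left_inv [IsDomain A] (M : Matrix ρ κ A) (h : ∀ c, M.mulVec c = 0 → c = 0) :
    ∃ D : A, D ≠ 0 ∧ ∃ N : Matrix κ ρ A, N * M = D • (1 : Matrix κ κ A) := by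
  classical
  let L := FractionRing A
  have hinj : Function.Injective (algebraMap A L) := IsFractionRing.injective A L
  have h' : ∀ c, (M.map (algebraMap A L)).mulVec c = 0 → c = 0 := by
    intro c hc
    obtain ⟨b, hb⟩ := IsLocalization.exist_integer_multiples_of_finite (nonZeroDivisors A) c
    choose c' hc' using hb
    have h1 : M.mulVec c' = 0 := by
      funext r
      apply hinj
      have := congrFun hc r
      simp only [Matrix.mulVec, dotProduct, Matrix.map_apply, Pi.zero_apply] at this ⊢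
      rw [map_sum, map_zero]
      simp only [map_mul, hc', Algebra.smul_def]
      have h2 : ∑ x, algebraMap A L (M r x) * (algebraMap A L b * c x)
          = algebraMap A L b * ∑ x, algebraMap A L (M r x) * c x := by
        rw [Finset.mul_sum]
        apply Finset.sum_congr rfl
        intro x _
        ring
      rw [h2, this, mul_zero]
    have h2 := h c' h1
    funext j
    have h3 := hc' j
    rw [h2, Pi.zero_apply, map_zero, Algebra.smul_def] at h3
    have hb0 : algebraMap A L b ≠ 0 := by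
      intro h0
      exact nonZeroDivisors.ne_zero b.2 (hinj (by rw [h0, map_zero]))
    exact (mul_eq_zero.mp h3.symm).resolve_left hb0
  obtain ⟨N, hN⟩ := exists_left_inv_field _ h'
  obtain ⟨b, hb⟩ := IsLocalization.exist_integer_multiples_of_finite (nonZeroDivisors A)
    (fun x : κ × ρ => N x.1 x.2)
  choose N' hN' using hb
  refine ⟨b, nonZeroDivisors.ne_zero b.2, Matrix.of fun i j => N' (i, j), ?_⟩
  ext i j
  apply hinj
  have := congrFun (congrFun hN i) j
  simp only [Matrix.mul_apply, Matrix.map_apply] at this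
  simp only [Matrix.mul_apply, Matrix.of_apply, map_sum, map_mul, hN', Algebra.smul_def,
    Matrix.smul_apply]
  have h2 : ∑ x, algebraMap A L b * N i x * algebraMap A L (M x j)
      = algebraMap A L b * ∑ x, N i x * algebraMap A L (M x j) := by
    rw [Finset.mul_sum]
    apply Finset.sum_congr rfl
    intro x _
    ring
  rw [h2, this]
  simp only [Matrix.one_apply]
  split_ifs <;> simp

lemma ker_trivial_open [IsDomain A] (M : Matrix ρ κ A) (h : ∀ c, M.mulVec c = 0 → c = 0) :
    ∃ D : A, D ≠ 0 ∧ ∀ (K : Type) [CommRing K] [NoZeroDivisors K] (φ : A →+* K), φ D ≠ 0 →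
      ∀ c, (M.map φ).mulVec c = 0 → c = 0 := by
  obtain ⟨D, hD, N, hN⟩ := exists_left_inv M h
  refine ⟨D, hD, fun K _ _ φ hφ c hc => ?_⟩
  have h1 : N.map φ * M.map φ = φ D • (1 : Matrix κ κ K) := by
    rw [← Matrix.map_mul, hN]
    ext i j
    simp only [Matrix.map_apply, Matrix.smul_apply, smul_eq_mul, map_mul, Matrix.one_apply]
    split_ifs <;> simp
  have h2 : (N.map φ * M.map φ).mulVec c = 0 := by
    rw [← Matrix.mulVec_mulVec, hc, Matrix.mulVec_zero]
  rw [h1, Matrix.smul_mulVec, Matrix.one_mulVec] at h2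
  funext j
  have := congrFun h2 j
  simp only [Pi.smul_apply, smul_eq_mul, Pi.zero_apply] at this
  exact (mul_eq_zero.mp this).resolve_left hφ

lemma ker_trivial_generic [IsDomain A] [Field K] (φ : A →+* K) (σ : K →+* A)
    (hσ : ∀ x, φ (σ x) = x) (M : Matrix ρ κ A) (h : ∀ c, (M.map φ).mulVec c = 0 → c = 0) :
    ∀ c, M.mulVec c = 0 → c = 0 := by
  obtain ⟨N, hN⟩ := exists_left_inv_field _ h
  have hdet : (N.map σ * M).det ≠ 0 := by
    intro h0
    have h1 := congrArg φ h0
    rw [RingHom.map_det, map_zero, RingHom.mapMatrix_apply, Matrix.map_mul] at h1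
    have h2 : (N.map σ).map φ = N := by
      ext i j
      simp [hσ]
    rw [h2, hN, Matrix.det_one] at h1
    exact one_ne_zero h1
  intro c hc
  apply Matrix.eq_zero_of_mulVec_eq_zero hdet
  rw [← Matrix.mulVec_mulVec, hc, Matrix.mulVec_zero]

end Matrices

section Emp

variable {A B : Type*} [CommRing A] [CommRing B] {ι : Type*}

/-- All monomials of `f` lie in the diagram `D`. -/
def Sup (D : ℕ → ℕ → Prop) (f : A[X][Y]) : Prop := ∀ i k, cf f i k ≠ 0 → D i k

/-- No nonzero polynomial with monomials in `D` vanishes to order `m j` at each `(a j, b j)`. -/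
def Emp (D : ℕ → ℕ → Prop) (m : ι → ℕ) (a b : ι → A) : Prop :=
  ∀ f : A[X][Y], Sup D f → (∀ j, Van (m j) (a j) (b j) f) → f = 0

/-- The diagram is bounded. -/
def Bdd (D : ℕ → ℕ → Prop) : Prop := ∃ N, ∀ i k, D i k → i < N ∧ k < N

lemma Emp.mono {D D' : ℕ → ℕ → Prop} (h : ∀ i k, D i k → D' i k) {m : ι → ℕ} {a b : ι → A}
    (H : Emp D' m a b) : Emp D m a b := fun f hf hv => H f (fun i k hik => h i k (hf i k hik)) hv

/-- The monomial `X ^ i * Y ^ k`. -/
noncomputable def mon (A : Type*) [CommRing A] (i k : ℕ) : A[X][Y] := monomial k (monomial i 1)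

lemma mon_map (φ : A →+* B) (i k : ℕ) : (mon A i k).map (mapRingHom φ) = mon B i k := by
  simp [mon]

lemma cf_mon (a b i k : ℕ) : cf (mon A a b) i k = if a = i ∧ b = k then 1 else 0 :=
  cf_monomial _ _ _ _ _

lemma monomial_eq_mon (i k : ℕ) (c : A) :
    (monomial k (monomial i c) : A[X][Y]) = C (C c) * mon A i k := by
  rw [mon, C_mul_monomial, C_mul_monomial, mul_one]

/-- The polynomial with the given coefficients. -/
noncomputable def comb (s : Finset (ℕ × ℕ)) (c : s → A) : A[X][Y] :=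
  ∑ x : s, C (C (c x)) * mon A x.1.1 x.1.2

lemma cf_comb (s : Finset (ℕ × ℕ)) (c : s → A) (i k : ℕ) :
    cf (comb s c) i k = if h : (i, k) ∈ s then c ⟨(i, k), h⟩ else 0 := by
  rw [comb, cf_sum]
  simp only [cf_CC_mul, cf_mon]
  split_ifs with h
  · rw [Finset.sum_eq_single ⟨(i, k), h⟩]
    · simp
    · intro x _ hx
      rw [if_neg, mul_zero]
      rintro ⟨h1, h2⟩
      exact hx (Subtype.ext (Prod.ext h1 h2))
    · simp
  · apply Finset.sum_eq_zero
    intro x _
    rw [if_neg, mul_zero]
    rintro ⟨h1, h2⟩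
    apply h
    have : x.1 = (i, k) := Prod.ext h1 h2
    rw [← this]
    exact x.2

/-- The matrix of the vanishing conditions. -/
noncomputable def cmat (s : Finset (ℕ × ℕ)) (m : ι → ℕ) (a b : ι → A) :
    Matrix (Σ j : ι, Fin (m j) × Fin (m j)) s A :=
  Matrix.of fun r x => if r.2.1.val + r.2.2.val < m r.1 then
    cf (sh (a r.1) (b r.1) (mon A x.1.1 x.1.2)) r.2.1.val r.2.2.val else 0

lemma cmat_map (φ : A →+* B) (s : Finset (ℕ × ℕ)) (m : ι → ℕ) (a b : ι → A) :
    (cmat s m a b).map φ = cmat s m (fun j => φ (a j)) (fun j => φ (b j)) := by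
  ext r x
  simp only [cmat, Matrix.map_apply, Matrix.of_apply]
  split_ifs
  · rw [← cf_map, sh_map, mon_map]
  · simp

lemma cf_sh_comb (s : Finset (ℕ × ℕ)) (c : s → A) (a b : A) (i k : ℕ) :
    cf (sh a b (comb s c)) i k = ∑ x : s, cf (sh a b (mon A x.1.1 x.1.2)) i k * c x := by
  rw [comb, map_sum, cf_sum]
  apply Finset.sum_congr rfl
  intro x _
  rw [map_mul, sh_C, C_comp, cf_CC_mul, mul_comm]

lemma cmat_mulVec (s : Finset (ℕ × ℕ)) (m : ι → ℕ) (a b : ι → A) (c : s → A) :
    (cmat s m a b).mulVec c = 0 ↔ ∀ j, Van (m j) (a j) (b j) (comb s c) := by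
  constructor
  · intro h j
    rw [van_iff_cf]
    intro i k hik
    have := congrFun h ⟨j, ⟨i, by omega⟩, ⟨k, by omega⟩⟩
    simp only [Matrix.mulVec, dotProduct, cmat, Matrix.of_apply, if_pos hik, Pi.zero_apply] at this
    rw [cf_sh_comb, this]
  · intro h
    funext r
    simp only [Matrix.mulVec, dotProduct, cmat, Matrix.of_apply, Pi.zero_apply]
    split_ifs with hr
    · rw [← cf_sh_comb]
      exact van_iff_cf.mp (h r.1) _ _ hr
    · simp

lemma emp_iff_cmat {D : ℕ → ℕ → Prop} (s : Finset (ℕ × ℕ)) (hs : ∀ i k, (i, k) ∈ s ↔ D i k)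
    (m : ι → ℕ) (a b : ι → A) :
    Emp D m a b ↔ ∀ c, (cmat s m a b).mulVec c = 0 → c = 0 := by
  constructor
  · intro h c hc
    rw [cmat_mulVec] at hc
    have h1 : comb s c = 0 := by
      apply h _ _ hc
      intro i k hik
      rw [cf_comb] at hik
      split_ifs at hik with h2
      · exact (hs i k).mp h2
      · exact absurd rfl hik
    funext x
    have := cf_comb s c x.1.1 x.1.2
    rw [h1, dif_pos x.2] at this
    simpa using this.symm
  · intro h f hf hv
    have h1 : comb s (fun x => cf f x.1.1 x.1.2) = f := by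
      apply cf_ext
      intro i k
      rw [cf_comb]
      split_ifs with h2
      · rfl
      · by_contra h3
        exact h2 ((hs i k).mpr (hf i k (fun h4 => h3 h4.symm)))
    have h2 := h (fun x => cf f x.1.1 x.1.2) (by rw [cmat_mulVec, h1]; exact hv)
    rw [← h1, h2]
    simp [comb]

lemma Bdd.exists_finset {D : ℕ → ℕ → Prop} (h : Bdd D) :
    ∃ s : Finset (ℕ × ℕ), ∀ i k, (i, k) ∈ s ↔ D i k := by
  classical
  obtain ⟨N, hN⟩ := h
  refine ⟨(range N ×ˢ range N).filter (fun x => D x.1 x.2), fun i k => ?_⟩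
  simp only [mem_filter, mem_product, mem_range]
  exact ⟨fun h => h.2, fun h => ⟨hN i k h, h⟩⟩

/-- Emptiness over a domain passes to all specialisations off a hypersurface. -/
theorem emp_open [Fintype ι] [IsDomain A] {D : ℕ → ℕ → Prop} (hD : Bdd D) {m : ι → ℕ}
    {a b : ι → A} (h : Emp D m a b) :
    ∃ E : A, E ≠ 0 ∧ ∀ (K : Type) [CommRing K] [NoZeroDivisors K] (φ : A →+* K), φ E ≠ 0 →
      Emp D m (fun j => φ (a j)) (fun j => φ (b j)) := by
  classical
  obtain ⟨s, hs⟩ := hD.exists_finset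
  rw [emp_iff_cmat s hs] at h
  obtain ⟨E, hE, H⟩ := ker_trivial_open _ h
  refine ⟨E, hE, fun K _ _ φ hφ => ?_⟩
  rw [emp_iff_cmat s hs, ← cmat_map]
  exact H K φ hφ

/-- Emptiness at one specialisation gives emptiness over the domain. -/
theorem emp_generic [Fintype ι] [IsDomain A] {K : Type*} [Field K] (φ : A →+* K) (σ : K →+* A)
    (hσ : ∀ x, φ (σ x) = x) {D : ℕ → ℕ → Prop} (hD : Bdd D) {m : ι → ℕ}
    {a b : ι → A} (h : Emp D m (fun j => φ (a j)) (fun j => φ (b j))) : Emp D m a b := by
  classical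
  obtain ⟨s, hs⟩ := hD.exists_finset
  rw [emp_iff_cmat s hs, ← cmat_map] at h
  rw [emp_iff_cmat s hs]
  exact ker_trivial_generic φ σ hσ _ h

end Emp

end Pool.Agent.Lib.MP_6e81d8_ag.H88
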