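import Mathlib
import Pool.Agent.Lib.MP_6e81d8_ag.H88Gen

/-!
One-parameter degenerations: initial forms, and points approaching the two sections at
different speeds.
-/

set_option autoImplicit false

namespace Pool.Agent.Lib.MP_6e81d8_ag.H88

open Polynomial Finset
open scoped Polynomial.Bivariate

section Scale

variable {A : Type*} [CommRing A]

lemma cf_scale (e₁ e₂ : A) (f : A[X][Y]) (i k : ℕ) :
    cf (sub2 (C e₁ * X) (C (C e₂) * Y) f) i k = e₁ ^ i * e₂ ^ k * cf f i k := by
  induction f using Polynomial.induction_on' with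
  | add p q hp hq => rw [map_add, cf_add, cf_add, hp, hq, mul_add]
  | monomial n p =>
    induction p using Polynomial.induction_on' with
    | add p q hp hq => rw [map_add, map_add, cf_add, cf_add, hp, hq, mul_add]
    | monomial l c =>
      have : sub2 (C e₁ * X) (C (C e₂) * Y) (monomial n (monomial l c))
          = monomial n (monomial l (e₁ ^ l * e₂ ^ n * c)) := by
        rw [monomial_monomial_eq, monomial_monomial_eq]
        simp only [map_mul, map_pow, sub2_C, sub2_Y, C_comp, X_comp]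
        ring
      rw [this, cf_monomial, cf_monomial]
      split_ifs with h
      · rw [h.1, h.2]
      · simp

lemma van_scale {m : ℕ} {e₁ e₂ a b : A} {f : A[X][Y]} (h : Van m (e₁ * a) (e₂ * b) f) :
    Van m a b (sub2 (C e₁ * X) (C (C e₂) * Y) f) := by
  apply van_transfer _ (mx a b) _ _ h
  · rw [sub2_C]
    exact C_mem_mx (by simp)
  · rw [mem_mx_iff]
    simp [evalEval]

lemma exists_euler {m : ℕ} {a b : A} {G : A[X][Y]} (h : Van m a b G) (U : Finset ℕ) :
    ∃ G' : A[X][Y], Van (m - U.card) a b G' ∧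
      ∀ k, G'.coeff k = C (∏ u ∈ U, ((k : A) - u)) * G.coeff k := by
  induction U using Finset.induction_on with
  | empty => exact ⟨G, by simpa using h, by simp⟩
  | insert u U hu ih =>
    obtain ⟨G', h1, h2⟩ := ih
    refine ⟨Y * derivative G' + C (C (-(u : A))) * G', ?_, ?_⟩
    · rw [card_insert_of_notMem hu, ← Nat.sub_sub]
      exact ((van_derivative h1).mul_left _).add ((h1.mono (Nat.sub_le _ _)).mul_left _)
    · intro k
      rw [prod_insert hu, coeff_add, coeff_C_mul, C_mul, mul_assoc, ← h2]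
      rcases k with _ | k
      · simp
      · rw [coeff_X_mul, coeff_derivative]
        simp only [C_sub, C_neg, map_natCast, Nat.cast_add, Nat.cast_one, C_add, C_1]
        ring

end Scale

variable {K : Type} [Field K] {ι : Type*}

/-- The coefficient of the `j`-th power of the parameter. -/
noncomputable def slice (j : ℕ) (G : K[X][X][Y]) : K[X][Y] :=
  ∑ k ∈ G.support, ∑ i ∈ (G.coeff k).support, monomial k (monomial i ((cf G i k).coeff j))

lemma cf_sh_slice (α β : K) (j : ℕ) (G : K[X][X][Y]) (i k : ℕ) :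
    cf (sh α β (slice j G)) i k = (cf (sh (C α) (C β) G) i k).coeff j := by
  conv_rhs => rw [as_sum_cf G]
  simp only [slice, map_sum, cf_sum, finsetSum_coeff]
  apply Finset.sum_congr rfl
  intro k' _
  apply Finset.sum_congr rfl
  intro i' _
  rw [monomial_eq_mon, monomial_eq_mon, map_mul, map_mul, sh_C, sh_C, C_comp, C_comp, cf_CC_mul,
    cf_CC_mul, ← mon_map (C : K →+* K[X]), ← sh_map, cf_map, coeff_mul_C]

lemma cf_slice (j : ℕ) (G : K[X][X][Y]) (i k : ℕ) : cf (slice j G) i k = (cf G i k).coeff j := by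
  have := cf_sh_slice 0 0 j G i k
  rwa [C_0, sh_zero, sh_zero] at this

lemma Sup.slice {D : ℕ → ℕ → Prop} {G : K[X][X][Y]} (h : Sup D G) (j : ℕ) : Sup D (slice j G) := by
  intro i k hik
  apply h
  intro h0
  rw [cf_slice, h0] at hik
  exact hik (coeff_zero _)

lemma exists_limit {m : ι → ℕ} {a b : ι → K[X]} {H : K[X][X][Y]} (hH : H ≠ 0)
    (hv : ∀ j, Van (m j) (a j) (b j) H) :
    ∃ (v : ℕ) (g : K[X][Y]), g ≠ 0 ∧ (∀ j, Van (m j) ((a j).eval 0) ((b j).eval 0) g) ∧
      (∀ i k, cf g i k = (cf H i k).coeff v) ∧ ∀ i k u, u < v → (cf H i k).coeff u = 0 := by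
  classical
  have hex : ∃ v, ∃ i k, (cf H i k).coeff v ≠ 0 := by
    obtain ⟨i, k, hik⟩ := exists_cf_ne_zero hH
    exact ⟨_, i, k, leadingCoeff_ne_zero.mpr hik⟩
  set v := Nat.find hex with hvdef
  have hlow : ∀ i k u, u < v → (cf H i k).coeff u = 0 := by
    intro i k u hu
    by_contra h
    exact Nat.find_min hex hu ⟨i, k, h⟩
  have hdvd : (C (C (X ^ v)) : K[X][X][Y]) ∣ H := by
    rw [C_dvd_iff_dvd_coeff]
    intro k
    rw [C_dvd_iff_dvd_coeff]
    intro i
    rw [X_pow_dvd_iff]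
    exact fun u hu => hlow i k u hu
  obtain ⟨H', hH'⟩ := hdvd
  have hcf : ∀ i k, cf (H'.map (mapRingHom (evalRingHom 0))) i k = (cf H i k).coeff v := by
    intro i k
    rw [cf_map, hH', cf_CC_mul, coe_evalRingHom, ← coeff_zero_eq_eval_zero]
    have := coeff_X_pow_mul (cf H' i k) v 0
    rw [zero_add] at this
    exact this.symm
  refine ⟨v, H'.map (mapRingHom (evalRingHom 0)), ?_, ?_, hcf, hlow⟩
  · obtain ⟨i, k, hik⟩ := Nat.find_spec hex
    intro h0
    rw [← hcf, h0] at hik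
    exact hik (cf_zero _ _)
  · intro j
    have h1 : Van (m j) (a j) (b j) H' :=
      van_cancel (pow_ne_zero v X_ne_zero) (by rw [← hH']; exact hv j)
    have h2 := van_map (evalRingHom (0 : K)) h1
    rwa [coe_evalRingHom] at h2

/-- Degeneration to initial forms at the point `(α, β)`, for the weights `w₁`, `w₂`. -/
theorem emp_initial {D D' : ℕ → ℕ → Prop} (α β : K) (w₁ w₂ : ℕ)
    (hDD : ∀ f : K[X][Y], Sup D f → ∀ i k, cf (sh α β f) i k ≠ 0 →
      (∀ i' k', w₁ * i' + w₂ * k' < w₁ * i + w₂ * k → cf (sh α β f) i' k' = 0) → D' i k)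
    {m : ι → ℕ} {a b : ι → K[X]}
    (h : Emp D' m (fun j => (a j).eval 0) (fun j => (b j).eval 0)) :
    Emp D m (fun j => X ^ w₁ * a j + C α) (fun j => X ^ w₂ * b j + C β) := by
  intro G hG hv
  by_contra hne
  set G₁ := sh (C α) (C β) G with hG₁
  set H := sub2 (C (X ^ w₁) * X) (C (C (X ^ w₂)) * Y) G₁ with hH
  have hcfH : ∀ i k, cf H i k = X ^ (w₁ * i + w₂ * k) * cf G₁ i k := by
    intro i k
    rw [hH, cf_scale, ← pow_mul, ← pow_mul, ← pow_add]
  have hG₁0 : G₁ ≠ 0 := fun h0 => hne (sh_injective _ _ (by rw [← hG₁, h0, map_zero]))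
  have hH0 : H ≠ 0 := by
    obtain ⟨i, k, hik⟩ := exists_cf_ne_zero hG₁0
    intro h0
    have := hcfH i k
    rw [h0, cf_zero] at this
    exact mul_ne_zero (pow_ne_zero _ X_ne_zero) hik this.symm
  obtain ⟨v, g, hg0, hgv, hgc, hlow⟩ := exists_limit (m := m) (a := a) (b := b) hH0
    (fun j => van_scale (van_sh (hv j)))
  apply hg0
  apply h g _ hgv
  intro i k hik
  rw [hgc, hcfH, coeff_X_pow_mul'] at hik
  split_ifs at hik with hle
  · apply hDD (slice (v - (w₁ * i + w₂ * k)) G) (hG.slice _) i k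
    · rw [cf_sh_slice]
      exact hik
    · intro i' k' hlt
      rw [cf_sh_slice]
      have := hlow i' k' (v - (w₁ * i + w₂ * k) + (w₁ * i' + w₂ * k')) (by omega)
      rwa [hcfH, coeff_X_pow_mul] at this
  · exact absurd rfl hik

/-- Points `(x j, T ^ v j)`: the point `j` sees, besides the row `k`, only the rows in `U j k`. -/
theorem emp_speeds [CharZero K] {D : ℕ → ℕ → Prop} (W : ℕ) (hW : ∀ i k, D i k → k ≤ W)
    (m : ι → ℕ) (x : ι → K) (v : ι → ℕ) (lam : ℕ → ℕ) (U : ι → ℕ → Finset ℕ)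
    (hU1 : ∀ j k, k ∉ U j k)
    (hU2 : ∀ j k k', k ≤ W → k' ≤ W → k' ≠ k → k' ∉ U j k →
      v j * k' + lam k < v j * k + lam k')
    (hrow : ∀ k ≤ W, ∀ g : K[X], (∀ i, g.coeff i ≠ 0 → D i k) →
      (∀ j, (X - C (x j)) ^ (m j - (U j k).card) ∣ g) → g = 0) :
    Emp D m (fun j => (C (x j) : K[X])) (fun j => X ^ v j) := by
  classical
  intro G hG hv
  by_contra hne
  let s : Finset (Σ _ : ℕ, ℕ) := G.support.sigma (fun k => (G.coeff k).support)
  have hs : ∀ i k, cf G i k ≠ 0 → (⟨k, i⟩ : Σ _ : ℕ, ℕ) ∈ s := by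
    intro i k hik
    simp only [s, mem_sigma, mem_support_iff]
    refine ⟨fun h0 => hik ?_, hik⟩
    rw [cf, h0, coeff_zero]
  have hsne : s.Nonempty := by
    obtain ⟨i, k, hik⟩ := exists_cf_ne_zero hne
    exact ⟨_, hs i k hik⟩
  obtain ⟨⟨k₀, i₀⟩, hmem, hmax⟩ := exists_max_image s
    (fun z => (cf G z.2 z.1).natDegree + lam z.1) hsne
  have h₀ : cf G i₀ k₀ ≠ 0 := by
    simp only [s, mem_sigma, mem_support_iff] at hmem
    exact hmem.2
  set u₀ := (cf G i₀ k₀).natDegree with hu₀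
  have hk₀ : k₀ ≤ W := hW _ _ (hG _ _ h₀)
  set g : K[X] := (slice u₀ G).coeff k₀ with hg
  have hgc : ∀ i, g.coeff i = (cf G i k₀).coeff u₀ := fun i => cf_slice u₀ G i k₀
  have hg0 : g ≠ 0 := by
    intro h0
    have := hgc i₀
    rw [h0, coeff_zero] at this
    exact leadingCoeff_ne_zero.mpr h₀ this.symm
  apply hg0
  apply hrow k₀ hk₀ g (fun i hi => hG.slice u₀ i k₀ hi)
  intro j
  obtain ⟨G', hG'v, hG'c⟩ := exists_euler (hv j) (U j k₀)
  have h1 := van_transfer (evalRingHom (C (X ^ v j) : K[X][X]))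
    (Ideal.span {(X - C (C (x j)) : K[X][X])}) (a := C (x j)) (b := X ^ v j)
    (by simp) (by simp) hG'v
  rw [Ideal.span_singleton_pow, Ideal.mem_span_singleton, coe_evalRingHom] at h1
  have h2 := map_dvd (Bivariate.swap (R := K)) h1
  rw [map_pow, map_sub, Bivariate.swap_Y, Bivariate.swap_C_C, ← C_sub, ← C_pow,
    C_dvd_iff_dvd_coeff] at h2
  have h3 := h2 (u₀ + v j * k₀)
  have hq : ∀ k : ℕ, (∏ u ∈ U j k₀, ((k : K[X]) - u)) = C (∏ u ∈ U j k₀, ((k : K) - u)) := by
    intro k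
    simp [map_prod]
  have h4 : (Bivariate.swap (G'.eval (C (X ^ v j)))).coeff (u₀ + v j * k₀)
      = C (∏ u ∈ U j k₀, ((k₀ : K) - u)) * g := by
    ext i
    have h5 := cf_swap (G'.eval (C (X ^ v j))) i (u₀ + v j * k₀)
    unfold cf at h5
    rw [h5, coeff_C_mul, hgc, eval_eq_sum_range' (n := G'.natDegree + k₀ + 1) (by omega),
      finsetSum_coeff, finsetSum_coeff, Finset.sum_eq_single k₀]
    · rw [← C_pow, coeff_mul_C, ← pow_mul, coeff_mul_X_pow, hG'c, hq, coeff_C_mul, coeff_C_mul]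
      rfl
    · intro k _ hk
      rw [← C_pow, coeff_mul_C, ← pow_mul, hG'c, hq, coeff_C_mul, coeff_mul_X_pow']
      split_ifs with hle
      · rw [coeff_C_mul]
        by_cases hkU : k ∈ U j k₀
        · rw [Finset.prod_eq_zero hkU (sub_self _), zero_mul]
        · by_cases hik : cf G i k = 0
          · unfold cf at hik
            rw [hik, coeff_zero, mul_zero]
          · have h6 := hU2 j k₀ k hk₀ (hW _ _ (hG _ _ hik)) hk hkU
            have h7 : (cf G i k).natDegree + lam k ≤ u₀ + lam k₀ := hmax _ (hs i k hik)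
            have h8 : (cf G i k).coeff (u₀ + v j * k₀ - v j * k) = 0 :=
              coeff_eq_zero_of_natDegree_lt (by omega)
            unfold cf at h8
            rw [h8, mul_zero]
      · rfl
    · intro h
      exact absurd (mem_range.mpr (by omega)) h
  rw [h4] at h3
  have hq0 : (∏ u ∈ U j k₀, ((k₀ : K) - u)) ≠ 0 := by
    rw [Finset.prod_ne_zero_iff]
    intro u hu h0
    have : k₀ = u := Nat.cast_injective (R := K) (sub_eq_zero.mp h0)
    exact hU1 j k₀ (this ▸ hu)
  exact (dvd_C_mul hq0).mp h3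

lemma exists_eval_ne_zero [Infinite K] {E : K[X]} (hE : E ≠ 0) : ∃ t : K, E.eval t ≠ 0 := by
  by_contra h
  push Not at h
  exact hE (Polynomial.funext (by simpa using h))

/-- Specialising the parameter, away from the zeros of a given nonzero polynomial. -/
theorem emp_specialise [Infinite K] [Fintype ι] {D : ℕ → ℕ → Prop} (hD : Bdd D) {m : ι → ℕ}
    {a b : ι → K[X]} (h : Emp D m a b) {E : K[X]} (hE : E ≠ 0) :
    ∃ t : K, E.eval t ≠ 0 ∧ Emp D m (fun j => (a j).eval t) (fun j => (b j).eval t) := by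
  obtain ⟨E', hE', H⟩ := emp_open hD h
  obtain ⟨t, ht⟩ := exists_eval_ne_zero (mul_ne_zero hE hE')
  rw [eval_mul] at ht
  exact ⟨t, left_ne_zero_of_mul ht, H K (evalRingHom t) (right_ne_zero_of_mul ht)⟩

end Pool.Agent.Lib.MP_6e81d8_ag.H88
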