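import Mathlib
import Pool.Agent.Lib.MP_6e81d8_ag.H88Limit

/-!
Monomial changes of coordinates and degeneration along a binomial curve.
-/

set_option autoImplicit false

namespace Pool.Agent.Lib.MP_6e81d8_ag.H88

open Polynomial Finset
open scoped Polynomial.Bivariate

variable {K : Type} [Field K] {ι : Type*}

lemma lt_card_support [CharZero K] (o : ℕ) (u : K[X]) (hu : u ≠ 0) (h : (X - C 1) ^ o ∣ u) :
    o < u.support.card := by
  induction o generalizing u with
  | zero => exact card_pos.mpr (support_nonempty.mpr hu)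
  | succ o ih =>
    obtain ⟨t, ht⟩ := support_nonempty.mpr hu
    set v : K[X] := X * derivative u - C (t : K) * u with hv
    have hvc : ∀ i, v.coeff i = ((i : K) - t) * u.coeff i := by
      intro i
      rw [hv, coeff_sub, coeff_C_mul]
      rcases i with _ | i
      · simp
      · rw [coeff_X_mul, coeff_derivative]
        push_cast
        ring
    have hsup : v.support = u.support.erase t := by
      ext i
      simp only [mem_support_iff, mem_erase, hvc, ne_eq, mul_eq_zero, not_or, sub_eq_zero,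
        Nat.cast_inj]
    have hvd : (X - C 1) ^ o ∣ v := by
      apply dvd_sub
      · have := pow_sub_one_dvd_derivative_of_pow_dvd h
        rw [Nat.add_sub_cancel] at this
        exact this.mul_left _
      · exact ((pow_dvd_pow _ (Nat.le_succ o)).trans h).mul_left _
    by_cases hv0 : v = 0
    · exfalso
      have h1 : u = monomial t (u.coeff t) := by
        ext i
        rw [coeff_monomial]
        split_ifs with hi
        · rw [hi]
        · by_contra h2
          have : i ∈ v.support := by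
            rw [hsup, mem_erase, mem_support_iff]
            exact ⟨fun h3 => hi h3.symm, h2⟩
          rw [hv0] at this
          simp at this
      have h2 : u.IsRoot 1 := dvd_iff_isRoot.mp ((dvd_pow_self _ (Nat.succ_ne_zero o)).trans h)
      rw [h1, IsRoot, eval_monomial, one_pow, mul_one] at h2
      exact mem_support_iff.mp ht h2
    · have := ih v hv0 hvd
      rw [hsup, card_erase_of_mem ht] at this
      omega

lemma lt_card_support_of_comp [CharZero K] (u : K[X]) (y : ℕ)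
    (h1 : (u.comp (X + C 1)).coeff y ≠ 0) (h2 : ∀ y' < y, (u.comp (X + C 1)).coeff y' = 0) :
    y < u.support.card := by
  apply lt_card_support
  · rintro rfl
    simp at h1
  · obtain ⟨w, hw⟩ := X_pow_dvd_iff.mpr h2
    refine ⟨w.comp (X - C 1), ?_⟩
    have := congrArg (fun p : K[X] => p.comp (X - C 1)) hw
    simpa [comp_assoc] using this

lemma exists_spread [CharZero K] (u : K[X]) (y : ℕ)
    (h1 : (u.comp (X + C 1)).coeff y ≠ 0) (h2 : ∀ y' < y, (u.comp (X + C 1)).coeff y' = 0) :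
    ∃ b₁ b₂, u.coeff b₁ ≠ 0 ∧ u.coeff b₂ ≠ 0 ∧ b₁ + y ≤ b₂ := by
  have h := lt_card_support_of_comp u y h1 h2
  have hne : u.support.Nonempty := card_pos.mp (by omega)
  refine ⟨u.support.min' hne, u.support.max' hne, mem_support_iff.mp (min'_mem _ _),
    mem_support_iff.mp (max'_mem _ _), ?_⟩
  have h3 : u.support ⊆ Icc (u.support.min' hne) (u.support.max' hne) := fun i hi =>
    mem_Icc.mpr ⟨min'_le _ _ hi, le_max' _ _ hi⟩
  have h4 := card_le_card h3
  rw [Nat.card_Icc] at h4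
  omega

lemma coeff_sh_row (α : K) (f : K[X][Y]) (k : ℕ) :
    (sh α 0 f).coeff k = (f.coeff k).comp (X + C α) := by
  rw [sh, C_0, C_0, add_zero, coeff_sub2_Y]

lemma swap_sh (α β : K) (f : K[X][Y]) :
    Bivariate.swap (sh α β f) = sh β α (Bivariate.swap f) := by
  induction f using Polynomial.induction_on' with
  | add p q hp hq => simp only [map_add, hp, hq]
  | monomial n p =>
    induction p using Polynomial.induction_on' with
    | add p q hp hq => simp only [map_add, hp, hq]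
    | monomial l c =>
      rw [Bivariate.swap_monomial_monomial, monomial_monomial_eq, monomial_monomial_eq]
      simp only [map_mul, map_pow, sh_C, sh_Y, C_comp, X_comp, map_add, Bivariate.swap_C_C,
        Bivariate.swap_X, Bivariate.swap_Y]
      ring

lemma cf_sh_col (β : K) (f : K[X][Y]) (i k : ℕ) :
    cf (sh 0 β f) i k = (((Bivariate.swap f).coeff i).comp (X + C β)).coeff k := by
  rw [← cf_swap, swap_sh, cf, coeff_sh_row]

/-- The monomial change of coordinates. -/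
noncomputable def mc (p q r t o₁ o₂ : ℕ) (f : K[X][Y]) : K[X][Y] :=
  ∑ k ∈ f.support, ∑ i ∈ (f.coeff k).support,
    monomial (t * k + o₂ - r * i) (monomial (p * i + o₁ - q * k) (cf f i k))

lemma exists_truncation {R : Type} [CommRing R] (I : Ideal R) {m : ℕ} (hm : 0 < m)
    (ev : R →+* K) (hI : ∀ g, g ∈ I ↔ ev g = 0) (σ : K →+* R) (hσ : ∀ c, ev (σ c) = c) :
    ∃ (S : Type) (_ : CommRing S) (mk : R →+* S) (ρ : S →+* K), (∀ g, ρ (mk g) = ev g) ∧
      RingHom.ker ρ ^ m = ⊥ ∧ (∀ g, ev g ≠ 0 → IsUnit (mk g)) ∧ ∀ g, mk g = 0 → g ∈ I ^ m := by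
  let ρ : R ⧸ I ^ m →+* K := Ideal.Quotient.lift (I ^ m) ev (fun g hg =>
    (hI g).mp (Ideal.pow_le_self hm.ne' hg))
  refine ⟨R ⧸ I ^ m, inferInstance, Ideal.Quotient.mk (I ^ m), ρ, fun g => rfl, ?_, ?_,
    fun g hg => Ideal.Quotient.eq_zero_iff_mem.mp hg⟩
  · have h1 : RingHom.ker ρ ≤ Ideal.map (Ideal.Quotient.mk (I ^ m)) I := by
      intro s hs
      obtain ⟨g, rfl⟩ := Ideal.Quotient.mk_surjective s
      exact Ideal.mem_map_of_mem _ ((hI g).mpr hs)
    have h2 := Ideal.pow_right_mono h1 m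
    rw [← Ideal.map_pow, Ideal.map_quotient_self] at h2
    exact le_bot_iff.mp h2
  · intro g hg
    have h1 : IsNilpotent (Ideal.Quotient.mk (I ^ m) (g - σ (ev g))) := by
      refine ⟨m, ?_⟩
      rw [← map_pow, Ideal.Quotient.eq_zero_iff_mem]
      exact Ideal.pow_mem_pow ((hI _).mpr (by simp [hσ])) m
    have h2 : IsUnit (Ideal.Quotient.mk (I ^ m) (σ (ev g))) :=
      ((isUnit_iff_ne_zero.mpr hg).map σ).map _
    have := h1.isUnit_add_left_of_commute h2 (Commute.all _ _)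
    rwa [← map_add, add_sub_cancel] at this

lemma van_mc {p q r t o₁ o₂ m : ℕ} {f : K[X][Y]}
    (hf : ∀ i k, cf f i k ≠ 0 → q * k ≤ o₁ ∧ r * i ≤ o₂) {x z τ η : K} (hτ : τ ≠ 0) (hη : η ≠ 0)
    (hx : x * η ^ r = τ ^ p) (hz : z * τ ^ q = η ^ t) (h : Van m x z f) :
    Van m τ η (mc p q r t o₁ o₂ f) := by
  rcases Nat.eq_zero_or_pos m with rfl | hm
  · exact van_order_zero _ _ _
  obtain ⟨S, _, mk, ρ, hρ', hker, hunit', hmk⟩ := exists_truncation (mx τ η) hm
    (evalEvalRingHom τ η) (fun g => mem_mx_iff) ((C : K[X] →+* K[X][Y]).comp C)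
    (fun c => by simp)
  have hρ : ∀ g, ρ (mk g) = g.evalEval τ η := hρ'
  have hunit : ∀ g : K[X][Y], g.evalEval τ η ≠ 0 → IsUnit (mk g) := hunit'
  obtain ⟨τi, hτi⟩ := (hunit (C X) (by rw [evalEval_C, eval_X]; exact hτ)).exists_right_inv
  obtain ⟨ηi, hηi⟩ := (hunit Y (by rw [evalEval_X]; exact hη)).exists_right_inv
  have hρτ : τ * ρ τi = 1 := by
    have := congrArg ρ hτi
    rwa [map_mul, hρ, evalEval_C, eval_X, map_one] at this
  have hρη : η * ρ ηi = 1 := by
    have := congrArg ρ hηi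
    rwa [map_mul, hρ, evalEval_X, map_one] at this
  let ψ : K[X][Y] →+* S :=
    eval₂RingHom (eval₂RingHom ((mk.comp C).comp C) (mk (C X) ^ p * ηi ^ r)) (τi ^ q * mk Y ^ t)
  have hψC : ∀ c : K, ψ (C (C c)) = mk (C (C c)) := by intro c; simp [ψ]
  have hψX : ψ (C X) = mk (C X) ^ p * ηi ^ r := by simp [ψ]
  have hψY : ψ Y = τi ^ q * mk Y ^ t := by simp [ψ]
  have h1 : ψ f ∈ RingHom.ker ρ ^ m := by
    apply van_transfer ψ (RingHom.ker ρ) _ _ h
    · rw [RingHom.mem_ker, C_sub, map_sub, hψC, hψX, map_sub, map_mul, map_pow, map_pow, hρ, hρ,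
        evalEval_C, evalEval_C, eval_X, eval_C, ← hx, mul_assoc, ← mul_pow, hρη]
      simp
    · rw [RingHom.mem_ker, map_sub, hψC, hψY, map_sub, map_mul, map_pow, map_pow, hρ, hρ,
        evalEval_C, evalEval_X, eval_C, ← hz, mul_comm z, ← mul_assoc, ← mul_pow,
        mul_comm (ρ τi), hρτ]
      simp
  rw [hker, Ideal.mem_bot] at h1
  have h2 : mk (mc p q r t o₁ o₂ f) = mk (C X) ^ o₁ * mk Y ^ o₂ * ψ f := by
    conv_rhs => rw [as_sum_cf f]
    simp only [mc, map_sum, Finset.mul_sum]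
    apply Finset.sum_congr rfl
    intro k _
    apply Finset.sum_congr rfl
    intro i hi
    obtain ⟨h3, h4⟩ := hf i k (mem_support_iff.mp hi)
    rw [monomial_monomial_eq, monomial_monomial_eq]
    simp only [map_mul, map_pow, hψC, hψX, hψY]
    have e1 : mk (C X) ^ (p * i + o₁ - q * k) = mk (C X) ^ (p * i + o₁) * τi ^ (q * k) := by
      have : p * i + o₁ = (p * i + o₁ - q * k) + q * k := by omega
      conv_rhs => rw [this, pow_add, mul_assoc, ← mul_pow, hτi, one_pow, mul_one]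
    have e2 : mk Y ^ (t * k + o₂ - r * i) = mk Y ^ (t * k + o₂) * ηi ^ (r * i) := by
      have : t * k + o₂ = (t * k + o₂ - r * i) + r * i := by omega
      conv_rhs => rw [this, pow_add, mul_assoc, ← mul_pow, hηi, one_pow, mul_one]
    rw [e1, e2]
    ring
  rw [h1, mul_zero] at h2
  exact hmk _ h2

lemma exists_of_cf_mc {p q r t o₁ o₂ : ℕ} {f : K[X][Y]} {a b : ℕ}
    (h : cf (mc p q r t o₁ o₂ f) a b ≠ 0) :
    ∃ i k, cf f i k ≠ 0 ∧ p * i + o₁ - q * k = a ∧ t * k + o₂ - r * i = b := by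
  rw [mc, cf_sum] at h
  obtain ⟨k, _, hk⟩ := exists_ne_zero_of_sum_ne_zero h
  rw [cf_sum] at hk
  obtain ⟨i, _, hi⟩ := exists_ne_zero_of_sum_ne_zero hk
  rw [cf_monomial] at hi
  split_ifs at hi with h1
  · exact ⟨i, k, hi, h1.1, h1.2⟩
  · exact absurd rfl hi

lemma mc_step {p q r t o₁ o₂ i k i' k' a b y : ℕ} (hpt : p * t = q * r + 1)
    (h1 : a + q * k = p * i + o₁) (h2 : b + r * i = t * k + o₂)
    (h3 : a + q * k' = p * i' + o₁) (h4 : b + y + r * i' = t * k' + o₂) :
    i' = i + q * y ∧ k' = k + p * y := by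
  zify at *
  constructor
  · linear_combination (-t) * (h3 - h1) - q * (h4 - h2) - (i' - i) * hpt
  · linear_combination (-r) * (h3 - h1) - p * (h4 - h2) - (k' - k) * hpt

lemma cf_mc {p q r t o₁ o₂ : ℕ} (hpt : p * t = q * r + 1) {f : K[X][Y]}
    (hf : ∀ i k, cf f i k ≠ 0 → q * k ≤ o₁ ∧ r * i ≤ o₂) {i k : ℕ} (hik : cf f i k ≠ 0) :
    cf (mc p q r t o₁ o₂ f) (p * i + o₁ - q * k) (t * k + o₂ - r * i) = cf f i k := by
  obtain ⟨h1, h2⟩ := hf i k hik
  have key : ∀ i' k', cf f i' k' ≠ 0 → p * i' + o₁ - q * k' = p * i + o₁ - q * k →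
      t * k' + o₂ - r * i' = t * k + o₂ - r * i → i' = i ∧ k' = k := by
    intro i' k' h3 h4 h5
    obtain ⟨h6, h7⟩ := hf i' k' h3
    have := mc_step (i := i) (k := k) (i' := i') (k' := k') (a := p * i + o₁ - q * k)
      (b := t * k + o₂ - r * i) (y := 0) (o₁ := o₁) (o₂ := o₂) hpt
      (by omega) (by omega) (by omega) (by omega)
    simpa using this
  rw [mc, cf_sum, Finset.sum_eq_single k]
  · rw [cf_sum, Finset.sum_eq_single i]
    · rw [cf_monomial, if_pos ⟨rfl, rfl⟩]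
    · intro i' hi' hne
      rw [cf_monomial, if_neg]
      exact fun h => hne (key i' k (mem_support_iff.mp hi') h.1 h.2).1
    · intro h
      exact absurd (mem_support_iff.mpr hik) h
  · intro k' _ hne
    rw [cf_sum]
    apply Finset.sum_eq_zero
    intro i' hi'
    rw [cf_monomial, if_neg]
    exact fun h => hne (key i' k' (mem_support_iff.mp hi') h.1 h.2).2
  · intro h
    exfalso
    apply hik
    rw [cf, notMem_support_iff.mp h, coeff_zero]

/-- The image of a diagram under the monomial change of coordinates. -/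
def mcD (p q r t o₁ o₂ : ℕ) (D : ℕ → ℕ → Prop) (a b : ℕ) : Prop :=
  ∃ i k, D i k ∧ a + q * k = p * i + o₁ ∧ b + r * i = t * k + o₂

theorem emp_mc {p q r t o₁ o₂ : ℕ} (hpt : p * t = q * r + 1) {D : ℕ → ℕ → Prop}
    (hD : ∀ i k, D i k → q * k ≤ o₁ ∧ r * i ≤ o₂) {m : ι → ℕ} {x z τ η : ι → K}
    (hτ : ∀ j, τ j ≠ 0) (hη : ∀ j, η j ≠ 0) (hx : ∀ j, x j * η j ^ r = τ j ^ p)
    (hz : ∀ j, z j * τ j ^ q = η j ^ t) (h : Emp (mcD p q r t o₁ o₂ D) m τ η) : Emp D m x z := by
  intro f hf hv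
  have hf' : ∀ i k, cf f i k ≠ 0 → q * k ≤ o₁ ∧ r * i ≤ o₂ := fun i k h => hD i k (hf i k h)
  have h0 : mc p q r t o₁ o₂ f = 0 := by
    apply h
    · intro a b hab
      obtain ⟨i, k, h1, h2, h3⟩ := exists_of_cf_mc hab
      obtain ⟨h4, h5⟩ := hf' i k h1
      exact ⟨i, k, hf i k h1, by omega, by omega⟩
    · intro j
      exact van_mc hf' (hτ j) (hη j) (hx j) (hz j) (hv j)
  by_contra hne
  obtain ⟨i, k, hik⟩ := exists_cf_ne_zero hne
  have := cf_mc hpt hf' hik
  rw [h0, cf_zero] at this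
  exact hik this.symm

lemma Bdd.mcD {p q r t o₁ o₂ : ℕ} {D : ℕ → ℕ → Prop} (h : Bdd D) :
    Bdd (mcD p q r t o₁ o₂ D) := by
  obtain ⟨N, hN⟩ := h
  refine ⟨p * N + o₁ + t * N + o₂ + 1, ?_⟩
  rintro a b ⟨i, k, h1, h2, h3⟩
  obtain ⟨h4, h5⟩ := hN i k h1
  have h6 : p * i ≤ p * N := Nat.mul_le_mul_left _ h4.le
  have h7 : t * k ≤ t * N := Nat.mul_le_mul_left _ h5.le
  constructor <;> omega

/-- The rows seen along the binomial curve: the row `y` consists of the lines in direction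
`(q, p)` that contain two points of `D` at least `y` steps apart. -/
def rowD (p q o₁ : ℕ) (D : ℕ → ℕ → Prop) (a y : ℕ) : Prop :=
  ∃ i k y', y ≤ y' ∧ D i k ∧ D (i + q * y') (k + p * y') ∧ a + q * k = p * i + o₁

theorem emp_binomial [CharZero K] {p q r t o₁ o₂ : ℕ} (hpt : p * t = q * r + 1)
    {D : ℕ → ℕ → Prop} {m : ι → ℕ} {a b : ι → K[X]}
    (h : Emp (rowD p q o₁ D) m (fun j => (a j).eval 0) (fun j => (b j).eval 0)) :
    Emp (mcD p q r t o₁ o₂ D) m a (fun j => X * b j + 1) := by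
  have := emp_initial (D := mcD p q r t o₁ o₂ D) (0 : K) 1 0 1 ?_ h
  · simpa using this
  intro f hf a₀ y h1 h2
  rw [cf_sh_col] at h1
  obtain ⟨b₁, b₂, h3, h4, h5⟩ := exists_spread _ y h1 (fun y' hy' => by
    rw [← cf_sh_col]
    exact h2 a₀ y' (by omega))
  have h6 : cf f a₀ b₁ ≠ 0 := by rwa [← cf_swap]
  have h7 : cf f a₀ b₂ ≠ 0 := by rwa [← cf_swap]
  obtain ⟨i, k, e1, e2, e3⟩ := hf _ _ h6
  obtain ⟨i', k', e4, e5, e6⟩ := hf _ _ h7
  obtain ⟨e7, e8⟩ := mc_step (y := b₂ - b₁) hpt e2 e3 e5 (by omega)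
  exact ⟨i, k, b₂ - b₁, by omega, e1, by rw [← e7, ← e8]; exact e4, e2⟩

/-- Compressing each row to an initial segment. -/
theorem emp_compress [CharZero K] {D : ℕ → ℕ → Prop} {N : ℕ → ℕ}
    (hN : ∀ k, ∀ s : Finset ℕ, (∀ i ∈ s, D i k) → s.card ≤ N k) {m : ι → ℕ} {a b : ι → K}
    (h : Emp (fun i k => i < N k) m a b) :
    Emp D m (fun j => X * C (a j) + 1) (fun j => (C (b j) : K[X])) := by
  have := emp_initial (D := D) (D' := fun i k => i < N k) (1 : K) 0 1 0 ?_
    (m := m) (a := fun j => C (a j)) (b := fun j => C (b j)) (by simpa using h)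
  · simpa using this
  intro f hf i k h1 h2
  rw [cf, coeff_sh_row] at h1
  have h3 := lt_card_support_of_comp _ i h1 (fun i' hi' => by
    have := h2 i' k (by omega)
    rwa [cf, coeff_sh_row] at this)
  exact h3.trans_le (hN k _ (fun i hi => hf i k (mem_support_iff.mp hi)))

end Pool.Agent.Lib.MP_6e81d8_ag.H88
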