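import Mathlib
import Pool.Agent.Lib.MP_6e81d8_ag.H88Mono

/-!
Elementary transformations of a ruled surface at all the points at once.
-/

set_option autoImplicit false

namespace Pool.Agent.Lib.MP_6e81d8_ag.H88

open Polynomial Finset
open scoped Polynomial.Bivariate

section Weights

variable {A : Type*} [CommRing A]

/-- A bound for the weighted degree. -/
def Bd (w₁ w₂ c : ℕ) (G : A[X][Y]) : Prop := ∀ i k, cf G i k ≠ 0 → w₁ * i + w₂ * k ≤ c

variable {w₁ w₂ c c' : ℕ} {G G' : A[X][Y]}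

lemma Bd.mono (h : Bd w₁ w₂ c G) (hc : c ≤ c') : Bd w₁ w₂ c' G :=
  fun i k hik => (h i k hik).trans hc

lemma Bd.add (h : Bd w₁ w₂ c G) (h' : Bd w₁ w₂ c G') : Bd w₁ w₂ c (G + G') := by
  intro i k hik
  rw [cf_add] at hik
  by_cases h1 : cf G i k = 0
  · rw [h1, zero_add] at hik
    exact h' i k hik
  · exact h i k h1

lemma Bd.neg (h : Bd w₁ w₂ c G) : Bd w₁ w₂ c (-G) := by
  intro i k hik
  apply h
  intro h0
  apply hik
  simp only [cf, coeff_neg, neg_eq_zero] at h0 ⊢
  exact h0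

lemma Bd.mul (h : Bd w₁ w₂ c G) (h' : Bd w₁ w₂ c' G') : Bd w₁ w₂ (c + c') (G * G') := by
  intro i k hik
  rw [cf_mul] at hik
  obtain ⟨x, hx, hik⟩ := exists_ne_zero_of_sum_ne_zero hik
  obtain ⟨y, hy, hik⟩ := exists_ne_zero_of_sum_ne_zero hik
  rw [HasAntidiagonal.mem_antidiagonal] at hx hy
  have h1 := h _ _ (left_ne_zero_of_mul hik)
  have h2 := h' _ _ (right_ne_zero_of_mul hik)
  rw [← hx, ← hy, mul_add, mul_add]
  omega

lemma bd_C {p : A[X]} (h : w₁ * p.natDegree ≤ c) : Bd w₁ w₂ c (C p) := by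
  intro i k hik
  rw [cf, coeff_C] at hik
  split_ifs at hik with hk
  · have := Nat.mul_le_mul_left w₁ (le_natDegree_of_ne_zero hik)
    rw [hk]
    omega
  · simp at hik

lemma bd_Y : Bd w₁ w₂ w₂ (Y : A[X][Y]) := by
  intro i k hik
  rw [cf, coeff_X] at hik
  split_ifs at hik with hk
  · rw [coeff_one] at hik
    split_ifs at hik with hi
    · rw [hi, ← hk]
      omega
    · simp at hik
  · simp at hik

lemma Bd.pow (h : Bd w₁ w₂ c G) (k : ℕ) : Bd w₁ w₂ (c * k) (G ^ k) := by
  induction k with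
  | zero =>
    rw [pow_zero, ← C_1]
    exact bd_C (by simp)
  | succ k ih =>
    rw [pow_succ, Nat.mul_succ]
    exact ih.mul h

lemma bd_sum {κ : Type*} (s : Finset κ) {f : κ → A[X][Y]} (h : ∀ j ∈ s, Bd w₁ w₂ c (f j)) :
    Bd w₁ w₂ c (∑ j ∈ s, f j) := by
  intro i k hik
  rw [cf_sum] at hik
  obtain ⟨j, hj, hik⟩ := exists_ne_zero_of_sum_ne_zero hik
  exact h j hj i k hik

lemma homog_shift_aux {R L : Type*} [CommRing R] [Field L] (ι : R →+* L)
    (hι : Function.Injective ι) (φ : A →+* R) (f : A[X]) {W : ℕ}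
    (hf : f.natDegree ≤ W) (a : A) (u v : R) (hv : v ≠ 0) :
    ∑ k ∈ range (W + 1), φ (f.coeff k) * (u + φ a * v) ^ k * v ^ (W - k)
      = ∑ k ∈ range (W + 1), φ ((f.comp (X + C a)).coeff k) * u ^ k * v ^ (W - k) := by
  have hv' : ι v ≠ 0 := fun h => hv (hι (by rw [h, map_zero]))
  have key : ∀ (g : A[X]) (u : R), g.natDegree ≤ W →
      ι (∑ k ∈ range (W + 1), φ (g.coeff k) * u ^ k * v ^ (W - k))
        = ι v ^ W * g.eval₂ (ι.comp φ) (ι u / ι v) := by
    intro g u hg
    rw [eval₂_eq_sum_range' _ (Nat.lt_succ_of_le hg), map_sum, Finset.mul_sum]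
    apply Finset.sum_congr rfl
    intro k hk
    have hk' : k ≤ W := Nat.lt_succ_iff.mp (mem_range.mp hk)
    have : ι v ^ W = ι v ^ (W - k) * ι v ^ k := by rw [← pow_add, Nat.sub_add_cancel hk']
    rw [this]
    simp only [map_mul, map_pow, RingHom.comp_apply, div_pow]
    field_simp
  apply hι
  have hdeg : (f.comp (X + C a)).natDegree ≤ W := by
    refine natDegree_comp_le.trans ?_
    have : (X + C a : A[X]).natDegree ≤ 1 := by compute_degree
    calc f.natDegree * (X + C a : A[X]).natDegree ≤ W * 1 := Nat.mul_le_mul hf this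
      _ = W := mul_one W
  rw [key f _ hf, key _ _ hdeg, eval₂_comp]
  congr 2
  simp only [eval₂_add, eval₂_X, eval₂_C, map_add, map_mul, RingHom.comp_apply]
  field_simp

lemma homog_shift {R : Type*} [CommRing R] [IsDomain R] (φ : A →+* R) (f : A[X]) {W : ℕ}
    (hf : f.natDegree ≤ W) (a : A) (u v : R) (hv : v ≠ 0) :
    ∑ k ∈ range (W + 1), φ (f.coeff k) * (u + φ a * v) ^ k * v ^ (W - k)
      = ∑ k ∈ range (W + 1), φ ((f.comp (X + C a)).coeff k) * u ^ k * v ^ (W - k) :=
  homog_shift_aux (algebraMap R (FractionRing R)) (IsFractionRing.injective R _) φ f hf a u v hv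

end Weights

variable {K : Type} [Field K] {ι : Type*}

/-- The trapezoid `k ≤ W`, `i + ε * k ≤ c`. -/
def trap (W c ε : ℕ) (i k : ℕ) : Prop := k ≤ W ∧ i + ε * k ≤ c

lemma bdd_trap (W c ε : ℕ) : Bdd (trap W c ε) :=
  ⟨W + c + 1, fun i k h => ⟨by have := h.2; omega, by have := h.1; omega⟩⟩

theorem exists_elementary [Fintype ι] {m μ W α β σ e ε : ℕ} (hW : W = m + μ)
    (hn : Fintype.card ι + ε = 2 * e + σ) (hε : ε ≤ e)
    (hβ : α + W * e ≤ β + m * Fintype.card ι) {x : ι → K} (hx : Function.Injective x) :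
    ∃ A B P : K[X], P ≠ 0 ∧ ∀ f : K[X][Y], Sup (trap W α σ) f →
      (∀ j, Van m (x j) (A.eval (x j)) f) → ∃ g : K[X][Y], Sup (trap W β ε) g ∧
        (∀ j, Van μ (x j) (x j ^ e) g) ∧ (g = 0 → f = 0) ∧
        C (P ^ m) * g = ∑ k ∈ range (W + 1),
          C (f.coeff k) * (C A * Y + C B) ^ k * (Y - C (X ^ e)) ^ (W - k) := by
  classical
  set P : K[X] := ∏ j, (X - C (x j)) with hP
  have hPm : P.Monic := monic_prod_of_monic _ _ (fun j _ => monic_X_sub_C _)
  have hPd : P.natDegree = Fintype.card ι := by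
    rw [hP, natDegree_prod_of_monic _ _ (fun j _ => monic_X_sub_C _)]
    simp
  set A : K[X] := P /ₘ X ^ e with hA
  set B : K[X] := P %ₘ X ^ e with hB
  have hAB : B + X ^ e * A = P := modByMonic_add_div P (X ^ e)
  have hAd : A.natDegree + ε ≤ e + σ := by
    rw [hA, natDegree_divByMonic _ (monic_X_pow e), natDegree_X_pow, hPd]
    omega
  have hBd : B.natDegree ≤ e := by
    have := natDegree_modByMonic_le P (monic_X_pow (R := K) e)
    rwa [natDegree_X_pow] at this
  refine ⟨A, B, P, hPm.ne_zero, fun f hf hv => ?_⟩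
  have hfW : f.natDegree ≤ W := by
    rw [natDegree_le_iff_coeff_eq_zero]
    intro k hk
    ext i
    by_contra h0
    exact absurd (hf i k h0).1 (by omega)
  set f' : K[X][Y] := f.comp (Y + C A) with hf'
  have hf'v : ∀ j, Van m (x j) 0 f' := by
    intro j
    have := van_transfer (compRingHom (Y + C A : K[X][Y])) (mx (x j) 0)
      (a := x j) (b := A.eval (x j)) ?_ ?_ (hv j)
    · exact this
    · rw [coe_compRingHom_apply, C_comp]
      exact X_mem_mx _ _
    · rw [mem_mx_iff]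
      simp [evalEval]
  have hdvd : ∀ k, P ^ (m - k) ∣ f'.coeff k := by
    intro k
    rw [hP, ← Finset.prod_pow]
    apply Finset.prod_dvd_of_coprime
    · intro i _ j _ hij
      exact (pairwise_coprime_X_sub_C hx hij).pow
    · intro j _
      exact van_row_dvd (hf'v j) k
  choose u hu using hdvd
  set l : K[X][Y] := Y - C (X ^ e) with hl
  have hl0 : l ≠ 0 := X_sub_C_ne_zero _
  set g : K[X][Y] := ∑ k ∈ range (W + 1), C (u k) * C P ^ (k - m) * l ^ (W - k) with hg
  have hG1 : C (P ^ m) * g = ∑ k ∈ range (W + 1), C (f'.coeff k) * C P ^ k * l ^ (W - k) := by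
    rw [hg, Finset.mul_sum]
    apply Finset.sum_congr rfl
    intro k _
    have : m + (k - m) = (m - k) + k := by omega
    rw [hu k, C_mul, C_pow, C_pow]
    calc C P ^ m * (C (u k) * C P ^ (k - m) * l ^ (W - k))
        = C P ^ (m + (k - m)) * C (u k) * l ^ (W - k) := by rw [pow_add]; ring
      _ = _ := by rw [this, pow_add]; ring
  have hG2 : C (P ^ m) * g
      = ∑ k ∈ range (W + 1), C (f.coeff k) * (C A * Y + C B) ^ k * l ^ (W - k) := by
    rw [hG1, hf', ← homog_shift C f hfW A (C P) l hl0]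
    have : (C P + C A * l : K[X][Y]) = C A * Y + C B := by
      rw [← hAB, hl, C_add, C_mul]
      ring
    rw [this]
  have hb1 : Bd 0 1 W (C (P ^ m) * g) := by
    rw [hG2]
    apply bd_sum
    intro k hk
    have hk' : k ≤ W := Nat.lt_succ_iff.mp (mem_range.mp hk)
    have h1 : Bd 0 1 1 (C A * Y + C B : K[X][Y]) :=
      (((bd_C (c := 0) (by simp)).mul bd_Y).mono (by simp)).add (bd_C (by simp))
    have h2 : Bd 0 1 1 l := by
      rw [hl, sub_eq_add_neg]
      exact bd_Y.add (bd_C (by simp)).neg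
    exact (((bd_C (c := 0) (by simp)).mul (h1.pow k)).mul (h2.pow (W - k))).mono (by omega)
  have hb2 : Bd 1 ε (α + W * e) (C (P ^ m) * g) := by
    rw [hG2]
    apply bd_sum
    intro k hk
    have hk' : k ≤ W := Nat.lt_succ_iff.mp (mem_range.mp hk)
    by_cases hfk : f.coeff k = 0
    · rw [hfk, C_0, zero_mul, zero_mul]
      intro i k h0
      exact absurd (cf_zero i k) h0
    have h0 : (f.coeff k).natDegree + σ * k ≤ α := (hf _ k (leadingCoeff_ne_zero.mpr hfk)).2
    have h1 : Bd 1 ε (e + σ) (C A * Y + C B : K[X][Y]) :=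
      (((bd_C (c := A.natDegree) (by simp)).mul bd_Y).mono hAd).add (bd_C (by omega))
    have h2 : Bd 1 ε e l := by
      rw [hl, sub_eq_add_neg]
      exact (bd_Y.mono hε).add (bd_C (by simp)).neg
    refine (((bd_C (c := (f.coeff k).natDegree) (by simp)).mul (h1.pow k)).mul
      (h2.pow (W - k))).mono ?_
    obtain ⟨z, rfl⟩ := Nat.exists_eq_add_of_le hk'
    rw [Nat.add_sub_cancel_left]
    nlinarith
  refine ⟨g, ?_, ?_, fun hg0 => ?_, hG2⟩
  · intro i k hik
    have h1 : g.coeff k ≠ 0 := by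
      intro h0
      apply hik
      rw [cf, h0, coeff_zero]
    have h2 : P ^ m * g.coeff k ≠ 0 := mul_ne_zero (pow_ne_zero _ hPm.ne_zero) h1
    have h3 : cf (C (P ^ m) * g) (P ^ m * g.coeff k).natDegree k ≠ 0 := by
      rw [cf, coeff_C_mul]
      exact leadingCoeff_ne_zero.mpr h2
    have h4 := hb1 _ _ h3
    have h5 := hb2 _ _ h3
    rw [natDegree_mul (pow_ne_zero _ hPm.ne_zero) h1, natDegree_pow, hPd] at h5
    have h6 : i ≤ (g.coeff k).natDegree := le_natDegree_of_ne_zero hik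
    exact ⟨by omega, by omega⟩
  · intro j
    rw [hg]
    apply van_sum
    intro k hk
    have hk' : k ≤ W := Nat.lt_succ_iff.mp (mem_range.mp hk)
    have h1 : (C P : K[X][Y]) ∈ mx (x j) (x j ^ e) := by
      apply C_mem_mx
      rw [hP, eval_prod]
      exact Finset.prod_eq_zero (mem_univ j) (by simp)
    have h2 : l ∈ mx (x j) (x j ^ e) := Y_sub_C_mem_mx (by simp)
    rw [mul_assoc]
    have h3 : μ ≤ k - m + (W - k) := by omega
    exact (((van_pow h1 (k - m)).mul (van_pow h2 (W - k))).mono h3).mul_left _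
  have hf'W : f'.natDegree ≤ W := by
    refine natDegree_comp_le.trans ?_
    rw [natDegree_X_add_C, mul_one]
    exact hfW
  have hf'0 : f' = 0 := by
    rw [hg0, mul_zero] at hG1
    have h1 := congrArg (fun p : K[X][Y] => p.comp (Y + C (X ^ e))) hG1
    simp only [zero_comp, Polynomial.sum_comp, mul_comp, pow_comp, C_comp, hl, sub_comp, X_comp,
      add_sub_cancel_right] at h1
    ext1 k
    rw [coeff_zero]
    by_cases hk : k ≤ W
    · have h2 := congrArg (fun p : K[X][Y] => p.coeff (W - k)) h1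
      simp only [coeff_zero, finsetSum_coeff, ← C_pow, ← C_mul, coeff_C_mul_X_pow] at h2
      rw [Finset.sum_eq_single k, if_pos rfl] at h2
      · exact (mul_eq_zero.mp h2.symm).resolve_right (pow_ne_zero _ hPm.ne_zero)
      · intro k' hk' hne
        have := mem_range.mp hk'
        rw [if_neg (by omega)]
      · intro h
        exact absurd (mem_range.mpr (by omega)) h
    · exact coeff_eq_zero_of_natDegree_lt (by omega)
  have h1 := congrArg (fun p : K[X][Y] => p.comp (Y - C A)) hf'0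
  simpa [hf', comp_assoc] using h1

theorem emp_elementary [Fintype ι] {m μ W α β σ e ε : ℕ} (hW : W = m + μ)
    (hn : Fintype.card ι + ε = 2 * e + σ) (hε : ε ≤ e)
    (hβ : α + W * e ≤ β + m * Fintype.card ι) {x : ι → K} (hx : Function.Injective x)
    (h : Emp (trap W β ε) (fun _ => μ) x (fun j => x j ^ e)) :
    ∃ y : ι → K, Emp (trap W α σ) (fun _ => m) x y := by
  obtain ⟨A, B, P, -, H⟩ := exists_elementary hW hn hε hβ hx
  refine ⟨fun j => A.eval (x j), fun f hf hv => ?_⟩
  obtain ⟨g, h1, h2, h3, -⟩ := H f hf hv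
  exact h3 (h g h1 h2)

end Pool.Agent.Lib.MP_6e81d8_ag.H88
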