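import Mathlib
import Pool.Agent.Lib.MP_6e81d8_ag.H88ET

/-!
Killing the rows of a trapezoid with points on the zero section and on the section at infinity.
-/

set_option autoImplicit false

namespace Pool.Agent.Lib.MP_6e81d8_ag.H88

open Polynomial Finset
open scoped Polynomial.Bivariate

variable {K : Type} [Field K] {ι : Type*}

lemma row_eq_zero [Fintype ι] {x : ι → K} (hx : Function.Injective x) (hx0 : ∀ j, x j ≠ 0)
    (o : ι → ℕ) (lo : ℕ) (g : K[X]) (hg : ∀ i, g.coeff i ≠ 0 → lo ≤ i ∧ i < lo + ∑ j, o j)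
    (hd : ∀ j, (X - C (x j)) ^ o j ∣ g) : g = 0 := by
  classical
  by_contra hne
  have h1 : ∏ j, (X - C (x j)) ^ o j ∣ g := by
    apply Finset.prod_dvd_of_coprime
    · intro i _ j _ hij
      exact (pairwise_coprime_X_sub_C hx hij).pow
    · intro j _
      exact hd j
  have h2 : X ^ lo ∣ g := by
    rw [X_pow_dvd_iff]
    intro i hi
    by_contra h
    exact absurd (hg i h).1 (by omega)
  have h3 : IsCoprime (X ^ lo : K[X]) (∏ j, (X - C (x j)) ^ o j) := by
    apply IsCoprime.prod_right
    intro j _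
    apply IsCoprime.pow
    have := isCoprime_X_sub_C_of_isUnit_sub (a := (0 : K)) (b := x j)
      (by simpa using hx0 j)
    simpa using this
  have h4 := natDegree_le_of_dvd (h3.mul_dvd h2 h1) hne
  have hm : (∏ j, (X - C (x j)) ^ o j : K[X]).Monic :=
    monic_prod_of_monic _ _ (fun j _ => (monic_X_sub_C _).pow _)
  rw [(monic_X_pow lo).natDegree_mul hm, natDegree_X_pow,
    natDegree_prod_of_monic _ _ (fun j _ => (monic_X_sub_C _).pow _)] at h4
  simp only [natDegree_pow, natDegree_X_sub_C, mul_one] at h4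
  have h5 := (hg _ (leadingCoeff_ne_zero.mpr hne)).2
  omega

/-- The increments of the row weights. -/
def inc (μ s : ℕ) : ℕ := if s < μ then 1 else (μ + 2) ^ (s - μ + 1)

lemma one_le_inc (μ s : ℕ) : 1 ≤ inc μ s := by
  unfold inc
  split_ifs
  · exact le_rfl
  · exact Nat.one_le_pow _ _ (by omega)

lemma inc_le {μ h s : ℕ} (hs : s < μ + h) : inc μ s ≤ (μ + 2) ^ h := by
  unfold inc
  split_ifs
  · exact Nat.one_le_pow _ _ (by omega)
  · exact Nat.pow_le_pow_right (by omega) (by omega)

lemma le_inc {μ h s : ℕ} (hs : μ + h ≤ s) : (μ + 2) ^ (h + 1) ≤ inc μ s := by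
  unfold inc
  rw [if_neg (by omega)]
  exact Nat.pow_le_pow_right (by omega) (by omega)

lemma sum_range_le_of {f : ℕ → ℕ} {a u c : ℕ} (h : ∀ s, a ≤ s → s < a + u → f s ≤ c) :
    ∑ s ∈ range (a + u), f s ≤ ∑ s ∈ range a, f s + u * c := by
  induction u with
  | zero => simp
  | succ u ih =>
    have h1 := ih (fun s h1 h2 => h s h1 (by omega))
    have h2 := h (a + u) (by omega) (by omega)
    rw [← add_assoc, sum_range_succ, Nat.succ_mul]
    omega

lemma le_sum_range_of {f : ℕ → ℕ} {a u c : ℕ} (h : ∀ s, a ≤ s → c ≤ f s) :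
    ∑ s ∈ range a, f s + u * c ≤ ∑ s ∈ range (a + u), f s := by
  induction u with
  | zero => simp
  | succ u ih =>
    have h2 := h (a + u) (by omega)
    rw [← add_assoc, sum_range_succ, Nat.succ_mul]
    omega

/-- The order of vanishing that a point forces on the row `y`. -/
def ordg (μ : ℕ) (o : Option ℕ) (y : ℕ) : ℕ :=
  match o with
  | none => μ - y
  | some h => if y ≤ μ + h then y - h else 0

theorem emp_game_cert [CharZero K] [Fintype ι] {D : ℕ → ℕ → Prop} (hD : Bdd D) {μ W : ℕ}
    (lo : ℕ → ℕ) (typ : ι → Option ℕ)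
    (hrow : ∀ a y, D a y → y ≤ W ∧ lo y ≤ a ∧ a < lo y + ∑ j, ordg μ (typ j) y)
    {x : ι → K} (hx : Function.Injective x) (hx0 : ∀ j, x j ≠ 0) :
    ∃ b : ι → K, Emp D (fun _ => μ) x b := by
  classical
  let v : ι → ℕ := fun j => match typ j with
    | none => 0
    | some h => (μ + 2) ^ h + 1
  let U : ι → ℕ → Finset ℕ := fun j k => match typ j with
    | none => range k
    | some h => if h < k ∧ k ≤ μ + h then Ioc k (μ + h) else (range (W + 1)).erase k
  have H := emp_speeds (K := K) (D := D) W (fun i k h => (hrow i k h).1) (fun _ => μ) x v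
    (fun t => ∑ s ∈ range t, inc μ s) U ?_ ?_ ?_
  · have : Infinite K := CharZero.infinite K
    obtain ⟨t, -, ht⟩ := emp_specialise hD H one_ne_zero
    exact ⟨_, by simpa using ht⟩
  · intro j k
    simp only [U]
    rcases typ j with _ | h
    · simp
    · dsimp only
      split_ifs <;> simp
  · intro j k k' hk hk' hne
    simp only [U, v]
    rcases typ j with _ | h
    · dsimp only
      intro hU
      rw [mem_range] at hU
      obtain ⟨u, rfl⟩ := Nat.exists_eq_add_of_le (not_lt.mp hU)
      have := le_sum_range_of (f := inc μ) (a := k) (u := u) (c := 1) (fun s _ => one_le_inc μ s)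
      omega
    · dsimp only
      split_ifs with hc
      · intro hU
        rw [mem_Ioc] at hU
        have hE : 1 ≤ (μ + 2) ^ h := Nat.one_le_pow _ _ (by omega)
        rcases lt_or_gt_of_ne hne with hlt | hgt
        · obtain ⟨u, rfl⟩ := Nat.exists_eq_add_of_le hlt.le
          have h1 := sum_range_le_of (f := inc μ) (a := k') (u := u) (c := (μ + 2) ^ h)
            (fun s _ hs => inc_le (by omega))
          have h2 : 1 ≤ u := by omega
          nlinarith
        · obtain ⟨z, hz⟩ := Nat.exists_eq_add_of_le hc.2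
          obtain ⟨u, rfl⟩ := Nat.exists_eq_add_of_le (show k + z ≤ k' by omega)
          have h1 := le_sum_range_of (f := inc μ) (a := k) (u := z) (c := 1)
            (fun s _ => one_le_inc μ s)
          have h2 := le_sum_range_of (f := inc μ) (a := k + z) (u := u) (c := (μ + 2) ^ (h + 1))
            (fun s hs => le_inc (by omega))
          have h3 : 1 ≤ u := by omega
          have h4 : z + 1 ≤ μ := by omega
          rw [pow_succ] at h2
          set E := (μ + 2) ^ h
          have h5 : E * z + E ≤ E * μ := by nlinarith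
          have h6 : E * μ ≤ u * (E * μ) := Nat.le_mul_of_pos_left _ h3
          have h7 : u ≤ u * E := Nat.le_mul_of_pos_right _ hE
          nlinarith
      · intro hU
        exact absurd (mem_erase.mpr ⟨hne, mem_range.mpr (by omega)⟩) hU
  · intro k _ g hg hd
    apply row_eq_zero hx hx0 (fun j => ordg μ (typ j) k) (lo k) g (fun i hi => (hrow i k (hg i hi)).2)
    intro j
    refine (pow_dvd_pow _ ?_).trans (hd j)
    simp only [U]
    rcases typ j with _ | h
    · simp [ordg]
    · simp only [ordg]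
      split_ifs with h1 h2 h2
      · rw [Nat.card_Ioc]
        omega
      · omega
      · omega
      · omega

lemma game_numerics {τ σ μ w α : ℕ} (hα : σ * (μ + w) ≤ α) (hw : 2 * w ≤ μ) (hμ : 1 ≤ μ)
    (hA : 2 * α * (μ + w + 1) + 4 * τ * w * (w + 1) + 2 * w * (μ + 1)
      ≤ (2 * τ + σ) * μ * (μ + 1) + σ * (μ + w) * (μ + w + 1)) :
    ∃ hh : ℕ → ℕ, ∀ y ≤ μ + w,
      α ≤ σ * y + (τ + σ) * (μ - y) + ∑ i ∈ range τ, ordg μ (some (hh i)) y := by
  classical
  obtain ⟨γ, rfl⟩ := Nat.exists_eq_add_of_le hα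
  obtain ⟨ν, rfl⟩ := Nat.exists_eq_add_of_le (show w ≤ μ by omega)
  have hν : 1 ≤ ν := by omega
  have hwν : w ≤ ν := by omega
  let N : ℕ → ℕ := fun l => γ + σ * (w - 1 - l)
  let c : ℕ → ℕ := fun l => min τ ((N l + ν - 1) / ν)
  let hh : ℕ → ℕ := fun i => ((range w).filter (fun l => i < c l)).card
  have hhw : ∀ i, hh i ≤ w := fun i => (card_filter_le _ _).trans (card_range w).le
  have hcanti : ∀ l l', l ≤ l' → c l' ≤ c l := by
    intro l l' h
    apply min_le_min le_rfl
    apply Nat.div_le_div_right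
    have : σ * (w - 1 - l') ≤ σ * (w - 1 - l) := Nat.mul_le_mul_left _ (by omega)
    simp only [N]
    omega
  have hge : ∀ i l, l < w → i < c l → l + 1 ≤ hh i := by
    intro i l hl hi
    have : range (l + 1) ⊆ (range w).filter (fun l => i < c l) := by
      intro l' hl'
      rw [mem_range] at hl'
      exact mem_filter.mpr ⟨mem_range.mpr (by omega), hi.trans_le (hcanti _ _ (by omega))⟩
    simpa using card_le_card this
  set H := ∑ i ∈ range τ, hh i with hH
  have hH1 : H ≤ ∑ l ∈ range w, c l := by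
    simp only [hH, hh, card_filter]
    rw [sum_comm]
    apply sum_le_sum
    intro l _
    rw [← card_filter]
    have : (range τ).filter (fun i => i < c l) ⊆ range (c l) := fun i hi =>
      mem_range.mpr (mem_filter.mp hi).2
    simpa using card_le_card this
  set T := ∑ l ∈ range w, N l with hT
  have hT1 : 2 * T + σ * w = 2 * w * γ + σ * w * w := by
    have h1 : T = w * γ + σ * ∑ l ∈ range w, l := by
      simp only [hT, N, sum_add_distrib, ← mul_sum]
      rw [sum_range_reflect (fun l => l) w]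
      simp
    have h2 := sum_range_id_mul_two w
    rcases w with _ | w
    · simp [h1]
    · rw [Nat.add_sub_cancel] at h2
      rw [h1]
      nlinarith
  have hH2 : H * ν ≤ T + w * ν := by
    calc H * ν ≤ (∑ l ∈ range w, c l) * ν := Nat.mul_le_mul_right _ hH1
      _ = ∑ l ∈ range w, c l * ν := sum_mul _ _ _
      _ ≤ ∑ l ∈ range w, (N l + ν) := by
          apply sum_le_sum
          intro l _
          have h1 : c l * ν ≤ (N l + ν - 1) / ν * ν := Nat.mul_le_mul_right _ (min_le_right _ _)
          have h2 := Nat.div_mul_le_self (N l + ν - 1) ν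
          omega
      _ = T + w * ν := by rw [sum_add_distrib]; simp [hT]
  have hE0 : T + 2 * τ * w * (w + 1) + w * (w + ν + 1) + (w + ν + 1) * (γ + σ * w)
      ≤ (w + ν + 1) * (τ * (w + ν)) := by nlinarith
  have hE1 : γ + σ * w ≤ τ * (w + ν) :=
    Nat.le_of_mul_le_mul_left (le_trans (Nat.le_add_left _ _) hE0) (by omega)
  obtain ⟨E, hE⟩ := Nat.exists_eq_add_of_le hE1
  have hE2 : T + 2 * τ * w * (w + 1) + w * (w + ν + 1) ≤ (w + ν + 1) * E := by
    rw [hE] at hE0
    nlinarith
  have hT2 : T ≤ 2 * τ * w * ν := by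
    have h1 : T ≤ w * (γ + σ * w) := by nlinarith [Nat.zero_le (σ * w * w), Nat.zero_le (σ * w)]
    have h2 : w * (γ + σ * w) ≤ w * (τ * (w + ν)) := Nat.mul_le_mul_left _ hE1
    have h3 : w * (τ * (w + ν)) ≤ w * (τ * (ν + ν)) :=
      Nat.mul_le_mul_left _ (Nat.mul_le_mul_left _ (by omega))
    nlinarith
  have hHE : H ≤ E := by
    have h1 : (w + ν + 1) * (H * ν) ≤ (w + ν + 1) * (T + w * ν) := Nat.mul_le_mul_left _ hH2
    have h2 : ν * (T + 2 * τ * w * (w + 1) + w * (w + ν + 1)) ≤ ν * ((w + ν + 1) * E) :=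
      Nat.mul_le_mul_left _ hE2
    have h3 : (w + 1) * T ≤ (w + 1) * (2 * τ * w * ν) := Nat.mul_le_mul_left _ hT2
    have h4 : ((w + ν + 1) * ν) * H ≤ ((w + ν + 1) * ν) * E := by nlinarith
    exact Nat.le_of_mul_le_mul_left h4 (Nat.mul_pos (by omega) hν)
  refine ⟨hh, fun y hy => ?_⟩
  have hall : (∀ i < τ, y ≤ w + ν + hh i) →
      τ * y ≤ ∑ i ∈ range τ, ordg (w + ν) (some (hh i)) y + H := by
    intro h
    rw [hH, ← sum_add_distrib]
    have : ∑ _i ∈ range τ, y ≤ ∑ i ∈ range τ, (ordg (w + ν) (some (hh i)) y + hh i) := by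
      apply sum_le_sum
      intro i hi
      simp only [ordg, if_pos (h i (mem_range.mp hi))]
      omega
    simpa using this
  by_cases hyμ : y ≤ w + ν
  · have h1 := hall (fun i _ => by omega)
    obtain ⟨z, hz⟩ := Nat.exists_eq_add_of_le hyμ
    generalize ∑ i ∈ range τ, ordg (w + ν) (some (hh i)) y = S at h1 ⊢
    rw [hz, Nat.add_sub_cancel_left]
    rw [hz] at hE
    nlinarith
  · obtain ⟨l, rfl⟩ := Nat.exists_eq_add_of_lt (not_le.mp hyμ)
    have hl : l < w := by omega
    obtain ⟨z, hz⟩ := Nat.exists_eq_add_of_lt hl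
    have hN : N l = γ + σ * z := by
      simp only [N]
      rw [show w - 1 - l = z by omega]
    have hgoal : N l ≤ ∑ i ∈ range τ, ordg (w + ν) (some (hh i)) (w + ν + l + 1) := by
      by_cases hc : τ ≤ (N l + ν - 1) / ν
      · have h0 : c l = τ := min_eq_left hc
        have h1 := hall (fun i hi => by have := hge i l hl (by omega); omega)
        have h2 : σ * z ≤ σ * w := Nat.mul_le_mul_left _ (by omega)
        nlinarith
      · have h0 : c l = (N l + ν - 1) / ν := min_eq_right (by omega)
        have h1 : N l ≤ c l * ν := by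
          rw [h0]
          have := Nat.lt_div_mul_add (a := N l + ν - 1) hν
          omega
        have h2 : ∑ _i ∈ range (c l), ν
            ≤ ∑ i ∈ range (c l), ordg (w + ν) (some (hh i)) (w + ν + l + 1) := by
          apply sum_le_sum
          intro i hi
          have h3 := hge i l hl (mem_range.mp hi)
          have h4 := hhw i
          simp only [ordg]
          rw [if_pos (by omega)]
          omega
        have h3 : ∑ i ∈ range (c l), ordg (w + ν) (some (hh i)) (w + ν + l + 1)
            ≤ ∑ i ∈ range τ, ordg (w + ν) (some (hh i)) (w + ν + l + 1) :=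
          sum_le_sum_of_subset (range_subset_range.mpr (min_le_left _ _))
        rw [sum_const, card_range, smul_eq_mul] at h2
        omega
    rw [hN] at hgoal
    have h5 : σ * (w + ν + w) = σ * (w + ν + l + 1) + σ * z := by
      rw [← mul_add]
      congr 1
      omega
    omega

theorem emp_game [CharZero K] {D : ℕ → ℕ → Prop} (hD : Bdd D) {n τ σ μ w α : ℕ}
    (hn : n = 2 * τ + σ) (hα : σ * (μ + w) ≤ α) (hw : 2 * w ≤ μ) (hμ : 1 ≤ μ)
    (hA : 2 * α * (μ + w + 1) + 4 * τ * w * (w + 1) + 2 * w * (μ + 1)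
      ≤ n * μ * (μ + 1) + σ * (μ + w) * (μ + w + 1))
    (lo : ℕ → ℕ) (hrow : ∀ a y, D a y → y ≤ μ + w ∧ lo y ≤ a ∧ a + σ * y < lo y + α)
    {x : Fin n → K} (hx : Function.Injective x) (hx0 : ∀ j, x j ≠ 0) :
    ∃ b : Fin n → K, Emp D (fun _ => μ) x b := by
  obtain ⟨hh, H⟩ := game_numerics hα hw hμ (hn ▸ hA)
  apply emp_game_cert hD (W := μ + w) lo
    (fun j : Fin n => if j.val < τ then some (hh j.val) else none) _ hx hx0
  intro a y hay
  obtain ⟨h1, h2, h3⟩ := hrow a y hay
  refine ⟨h1, h2, ?_⟩
  have h4 := H y h1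
  have h5 : ∑ j : Fin n, ordg μ (if j.val < τ then some (hh j.val) else none) y
      = (τ + σ) * (μ - y) + ∑ i ∈ range τ, ordg μ (some (hh i)) y := by
    rw [Fin.sum_univ_eq_sum_range (fun i => ordg μ (if i < τ then some (hh i) else none) y) n,
      show n = τ + (τ + σ) by omega, sum_range_add, add_comm]
    congr 1
    · rw [sum_congr rfl (g := fun _ => μ - y)]
      · simp
      · intro i _
        rw [if_neg (by omega)]
        rfl
    · apply sum_congr rfl
      intro i hi
      rw [if_pos (mem_range.mp hi)]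
  omega

end Pool.Agent.Lib.MP_6e81d8_ag.H88
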