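import Mathlib
import Pool.Agent.Lib.MP_6e81d8_ag.H88Game

/-!
The two degenerations along binomial curves.
-/

set_option autoImplicit false

namespace Pool.Agent.Lib.MP_6e81d8_ag.H88

open Polynomial Finset
open scoped Polynomial.Bivariate

lemma exists_avoid {K : Type} [Field K] {ι : Type*} [Fintype ι] (u : ι → K[X])
    (h0 : ∀ j, (u j).eval 0 ≠ 0) :
    ∃ E : K[X], E ≠ 0 ∧ ∀ t, E.eval t ≠ 0 → ∀ j, (u j).eval t ≠ 0 := by
  refine ⟨∏ j, u j, ?_, ?_⟩
  · rw [Finset.prod_ne_zero_iff]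
    intro j _ h
    apply h0 j
    rw [h, eval_zero]
  · intro t ht j
    rw [eval_prod, Finset.prod_ne_zero_iff] at ht
    exact ht j (mem_univ j)

lemma exists_avoid_inj {K : Type} [Field K] {ι : Type*} [Fintype ι] (u : ι → K[X])
    (h0 : ∀ j, (u j).eval 0 ≠ 0) (h1 : Function.Injective (fun j => (u j).eval 0)) :
    ∃ E : K[X], E ≠ 0 ∧ ∀ t, E.eval t ≠ 0 → (∀ j, (u j).eval t ≠ 0) ∧
      Function.Injective (fun j => (u j).eval t) := by
  classical
  obtain ⟨E₁, hE₁, H₁⟩ := exists_avoid u h0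
  obtain ⟨E₂, hE₂, H₂⟩ := exists_avoid
    (fun z : {z : ι × ι // z.1 ≠ z.2} => u z.1.1 - u z.1.2) (fun z h => by
      rw [eval_sub, sub_eq_zero] at h
      exact z.2 (h1 h))
  refine ⟨E₁ * E₂, mul_ne_zero hE₁ hE₂, fun t ht => ?_⟩
  rw [eval_mul] at ht
  refine ⟨H₁ t (left_ne_zero_of_mul ht), fun i j hij => ?_⟩
  by_contra hne
  apply H₂ t (right_ne_zero_of_mul ht) ⟨(i, j), hne⟩
  rw [eval_sub, sub_eq_zero]
  exact hij

lemma exists_one_add_pow {K : Type} [Field K] (c : K) (N : ℕ) :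
    ∃ b : K[X], (1 + X * C c) ^ N = X * b + 1 ∧ b.eval 0 = N * c := by
  induction N with
  | zero => exact ⟨0, by simp, by simp⟩
  | succ N ih =>
    obtain ⟨b, h1, h2⟩ := ih
    refine ⟨b + C c + X * b * C c, ?_, ?_⟩
    · rw [pow_succ, h1]
      ring
    · simp [h2]
      ring

lemma exists_bezout {p q : ℕ} (hp : 1 ≤ p) (hq : 1 ≤ q) (h : Nat.Coprime p q) :
    ∃ t r, p * t = q * r + 1 := by
  have h1 := Nat.ModEq.pow_totient h
  have h2 : 0 < q.totient := Nat.totient_pos.mpr hq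
  have h3 : 1 ≤ p ^ q.totient := Nat.one_le_pow _ _ hp
  obtain ⟨r, hr⟩ := (Nat.modEq_iff_dvd' h3).mp h1.symm
  refine ⟨p ^ (q.totient - 1), r, ?_⟩
  rw [← pow_succ', Nat.sub_add_cancel h2]
  omega

theorem level_two {n μ w W β ε e p q τ : ℕ} (hp : 1 ≤ p) (hq : 1 ≤ q) (hcop : Nat.Coprime p q)
    (hW₁ : p * (μ + w) ≤ W) (hW₂ : W < p * (μ + w + 1)) (hqW : q * W + p * (ε * W) ≤ p * β)
    (hn : n = 2 * τ + (2 * p * q + ε * p ^ 2)) (hN : n ≤ q + p * e) (hw : 2 * w ≤ μ) (hμ : 1 ≤ μ)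
    (hA : 2 * W * β + 2 * (p * β + q * W) + 2 * (μ + w + 1) + 4 * τ * w * (w + 1)
      + 2 * w * (μ + 1) ≤ n * μ * (μ + 1) + ε * W ^ 2) :
    ∃ x : Fin n → ℂ, Function.Injective x ∧
      Emp (trap W β ε) (fun _ => μ) x (fun j => x j ^ e) := by
  obtain ⟨t, r, hpt⟩ := exists_bezout hp hq hcop
  obtain ⟨a₀, ha₀⟩ := Nat.exists_eq_add_of_le hW₁
  have hc : ε * W + q * (μ + w) ≤ β := by
    apply Nat.le_of_mul_le_mul_left _ hp
    have : q * (p * (μ + w)) ≤ q * W := Nat.mul_le_mul_left _ hW₁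
    nlinarith
  obtain ⟨c₀, hc₀⟩ := Nat.exists_eq_add_of_le hc
  have hrow : ∀ a y, rowD p q (q * W) (trap W β ε) a y → y ≤ μ + w ∧ p * q * y ≤ a ∧
      a + (2 * p * q + ε * p ^ 2) * y < p * q * y + (p * β + q * W + 1) := by
    rintro a y ⟨i, k, y', hy, -, ⟨h1, h2⟩, h3⟩
    have h4 : p * y ≤ p * y' := Nat.mul_le_mul_left _ hy
    obtain ⟨z, rfl⟩ := Nat.exists_eq_add_of_le hy
    refine ⟨?_, ?_, ?_⟩
    · have : p * y < p * (μ + w + 1) := by omega
      exact Nat.lt_succ_iff.mp (Nat.lt_of_mul_lt_mul_left this)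
    · have h5 : q * (k + p * (y + z)) ≤ q * W := Nat.mul_le_mul_left _ h1
      nlinarith [Nat.zero_le (p * i), Nat.zero_le (q * p * z)]
    · have h5 : p * (i + q * (y + z) + ε * (k + p * (y + z))) ≤ p * β := Nat.mul_le_mul_left _ h2
      nlinarith [Nat.zero_le (q * k), Nat.zero_le (q * p * z), Nat.zero_le (p * ε * k),
        Nat.zero_le (p * ε * p * z)]
  have hbdd : Bdd (rowD p q (q * W) (trap W β ε)) := by
    refine ⟨p * β + q * W + 1 + (μ + w + 1), fun a y h => ?_⟩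
    obtain ⟨h1, -, h3⟩ := hrow a y h
    refine ⟨?_, by omega⟩
    nlinarith [Nat.zero_le (p * q * y), Nat.zero_le (ε * p ^ 2 * y)]
  set N := q + p * e with hNdef
  have hN0 : N ≠ 0 := by omega
  have hω := Complex.isPrimitiveRoot_exp N hN0
  set ω := Complex.exp (2 * Real.pi * Complex.I / N)
  let x₀ : Fin n → ℂ := fun j => ω ^ j.val
  have hx₀N : ∀ j, x₀ j ^ N = 1 := by
    intro j
    simp only [x₀]
    rw [← pow_mul, mul_comm, pow_mul, hω.pow_eq_one, one_pow]
  have hx₀0 : ∀ j, x₀ j ≠ 0 := by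
    intro j h
    have := hx₀N j
    rw [h, zero_pow hN0] at this
    exact zero_ne_one this
  have hx₀inj : Function.Injective x₀ := by
    intro i j hij
    exact Fin.ext (hω.pow_inj (by omega) (by omega) hij)
  have hexp : (t + e * r) * p = N * r + 1 := by
    rw [hNdef]
    nlinarith
  have hτinj : Function.Injective (fun j => x₀ j ^ (t + e * r)) := by
    intro i j hij
    apply hx₀inj
    have := congrArg (fun z : ℂ => z ^ p) hij
    simp only [← pow_mul, hexp] at this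
    simpa only [pow_succ, pow_mul, hx₀N, one_pow, one_mul] using this
  have hα : (2 * p * q + ε * p ^ 2) * (μ + w) ≤ p * β + q * W + 1 := by
    rw [hc₀, ha₀]
    nlinarith [Nat.zero_le (p * ε * a₀), Nat.zero_le (p * c₀), Nat.zero_le (q * a₀)]
  have hA' : 2 * (p * β + q * W + 1) * (μ + w + 1) + 4 * τ * w * (w + 1) + 2 * w * (μ + 1)
      ≤ n * μ * (μ + 1) + (2 * p * q + ε * p ^ 2) * (μ + w) * (μ + w + 1) := by
    have key : 2 * W * β + (2 * p * q + ε * p ^ 2) * (μ + w) ^ 2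
        = 2 * (p * β + q * W) * (μ + w) + ε * W ^ 2 + a₀ * (2 * c₀ + ε * a₀) := by
      rw [hc₀, ha₀]
      ring
    nlinarith [Nat.zero_le (a₀ * (2 * c₀ + ε * a₀)),
      Nat.zero_le ((2 * p * q + ε * p ^ 2) * (μ + w))]
  obtain ⟨b, hb⟩ := emp_game (K := ℂ) hbdd hn hα hw hμ hA'
    (fun y => p * q * y) hrow hτinj (fun j => pow_ne_zero _ (hx₀0 j))
  · choose bb hbb₁ hbb₂ using fun j => exists_one_add_pow (b j / N) N
    let u : Fin n → ℂ[X] := fun j => C (x₀ j) * (1 + X * C (b j / N))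
    have hu0 : ∀ j, (u j).eval 0 = x₀ j := by
      intro j
      simp [u]
    have huN : ∀ j, X * bb j + 1 = u j ^ N := by
      intro j
      simp only [u]
      rw [mul_pow, ← C_pow, hx₀N, C_1, one_mul, hbb₁]
    have hN' : (N : ℂ) ≠ 0 := Nat.cast_ne_zero.mpr hN0
    have H1 := emp_binomial (K := ℂ) (o₂ := r * β) hpt (a := fun j => u j ^ (t + e * r))
      (b := bb) (D := trap W β ε) (o₁ := q * W) (m := fun _ => μ) (by
        have e1 : (fun j => (u j ^ (t + e * r)).eval 0) = fun j => x₀ j ^ (t + e * r) := by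
          funext j
          rw [eval_pow, hu0]
        have e2 : (fun j => (bb j).eval 0) = b := by
          funext j
          rw [hbb₂]
          field_simp
        rw [e1, e2]
        exact hb)
    obtain ⟨E, hE, HE⟩ := exists_avoid_inj u (fun j => by rw [hu0]; exact hx₀0 j)
      (by simpa only [hu0] using hx₀inj)
    obtain ⟨s, hs, H2⟩ := emp_specialise (bdd_trap W β ε).mcD H1 hE
    obtain ⟨h1, h2⟩ := HE s hs
    refine ⟨fun j => (u j).eval s, h2, ?_⟩
    simp only [huN, eval_pow] at H2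
    refine emp_mc hpt ?_ (fun j => pow_ne_zero _ (h1 j)) (fun j => pow_ne_zero _ (h1 j)) ?_ ?_ H2
    · rintro i k ⟨h3, h4⟩
      exact ⟨Nat.mul_le_mul_left _ h3, Nat.mul_le_mul_left _ (by omega)⟩
    · intro j
      rw [← pow_mul, ← pow_mul, hexp, pow_succ']
    · intro j
      rw [← pow_mul, ← pow_mul, ← pow_add]
      congr 1
      rw [hNdef]
      nlinarith

lemma reduce_line (q : ℕ) (k : ℕ) : ∀ i : ℕ, ∃ i' k', i' + k' ≤ i + k ∧
    i' + q * k = i + q * k' ∧ (k' = 0 ∨ i' < q) := by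
  induction k with
  | zero => exact fun i => ⟨i, 0, le_rfl, rfl, Or.inl rfl⟩
  | succ k ih =>
    intro i
    by_cases h : i < q
    · exact ⟨i, k + 1, le_rfl, rfl, Or.inr h⟩
    · obtain ⟨i', k', h1, h2, h3⟩ := ih (i - q)
      refine ⟨i', k', by omega, ?_, h3⟩
      rw [Nat.mul_succ]
      omega

lemma card_lines {q d' o : ℕ} (hq : q ≤ d') (S : Finset ℕ)
    (hS : ∀ a ∈ S, ∃ i k, i + k ≤ d' ∧ a + q * k = i + o) :
    2 * S.card + q * (q - 1) ≤ 2 * (q + 1) * d' + 2 := by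
  classical
  have h1 : S ⊆ (range (d' + 1)).image (fun i => i + o) ∪
      ((range q).sigma (fun i => Icc 1 (d' - i))).image (fun z => z.1 + o - q * z.2) := by
    intro a ha
    obtain ⟨i, k, h1, h2⟩ := hS a ha
    obtain ⟨i', k', h3, h4, h5⟩ := reduce_line q k i
    rw [mem_union, mem_image, mem_image]
    by_cases hk : k' = 0
    · left
      subst hk
      exact ⟨i', mem_range.mpr (by omega), by omega⟩
    · right
      refine ⟨⟨i', k'⟩, ?_, by dsimp only; omega⟩
      simp only [mem_sigma, mem_range, mem_Icc]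
      omega
  have h2 := (card_le_card h1).trans ((card_union_le _ _).trans
    (add_le_add card_image_le card_image_le))
  rw [card_range, card_sigma] at h2
  simp only [Nat.card_Icc, Nat.add_sub_cancel] at h2
  have h3 : ∑ i ∈ range q, (d' - i) + ∑ i ∈ range q, i = q * d' := by
    rw [← sum_add_distrib, sum_congr rfl (g := fun _ => d')]
    · simp
    · intro i hi
      have := mem_range.mp hi
      omega
  have h4 := sum_range_id_mul_two q
  nlinarith

theorem level_one {n m d q W α : ℕ} (hm : q ≤ m) (hW : d < m + (q + 1) * (W + 1))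
    (hα : (q + 1) * (2 * d + 3) ≤ 2 * (α + 1) + (q + 1) ^ 2) {x y : Fin n → ℂ}
    (h : Emp (trap W α ((q + 1) ^ 2)) (fun _ => m) x y) :
    ∃ a b : Fin (n + 1) → ℂ, Emp (fun i k => i + k ≤ d) (fun _ => m) a b := by
  let D₀ : ℕ → ℕ → Prop := fun i k => m ≤ i + k ∧ i + k ≤ d
  have hD₀ : Bdd D₀ := ⟨d + 1, fun i k h => ⟨by have := h.2; omega, by have := h.2; omega⟩⟩
  have hpt : 1 * 1 = q * 0 + 1 := by simp
  have hD₂ : Bdd (rowD 1 q (q * d) D₀) := by
    refine ⟨d + q * d + 1, ?_⟩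
    rintro a y ⟨i, k, y', h1, h2, h3, h4⟩
    have h5 := h2.2
    have h6 := h3.2
    constructor <;> omega
  have H1 := emp_compress (K := ℂ) (D := rowD 1 q (q * d) D₀)
    (N := fun k => if k ≤ W then α + 1 - (q + 1) ^ 2 * k else 0) ?_ (m := fun _ => m)
    (a := x) (b := y) (h.mono ?_)
  · obtain ⟨E, hE, HE⟩ := exists_avoid (fun j => X * C (x j) + 1) (by simp)
    obtain ⟨s, hs, H2⟩ := emp_specialise hD₂ H1 hE
    have hτ := HE s hs
    set τ : Fin n → ℂ := fun j => (X * C (x j) + 1).eval s with hτdef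
    have H3 := emp_binomial (K := ℂ) (o₂ := 0) hpt (a := fun j => C (τ j))
      (b := fun j => C (y j)) (D := D₀) (o₁ := q * d) (m := fun _ => m) (by simpa using H2)
    obtain ⟨E', hE', HE'⟩ := exists_avoid (fun j => X * C (y j) + 1) (by simp)
    obtain ⟨s', hs', H4⟩ := emp_specialise hD₀.mcD H3 hE'
    have hη := HE' s' hs'
    set η : Fin n → ℂ := fun j => (X * C (y j) + 1).eval s' with hηdef
    simp only [eval_C] at H4
    have H5 : Emp D₀ (fun _ => m) τ (fun j => η j / τ j ^ q) := by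
      refine emp_mc hpt ?_ hτ hη (fun j => by rw [pow_zero, mul_one, pow_one]) ?_ H4
      · intro i k hik
        exact ⟨Nat.mul_le_mul_left _ (by have := hik.2; omega), by simp⟩
      · intro j
        rw [pow_one, div_mul_cancel₀ _ (pow_ne_zero _ (hτ j))]
    refine ⟨Fin.cons 0 τ, Fin.cons 0 (fun j => η j / τ j ^ q), fun f hf hv => ?_⟩
    apply H5 f
    · intro i k hik
      refine ⟨?_, hf i k hik⟩
      by_contra hlt
      have h0 := hv 0
      simp only [Fin.cons_zero] at h0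
      exact hik (van_origin_iff.mp h0 i k (by omega))
    · intro j
      simpa using hv j.succ
  · intro k S hS
    rcases S.eq_empty_or_nonempty with rfl | ⟨a₀, ha₀⟩
    · simp
    have key : ∀ a ∈ S, ∃ i k', m ≤ i + k' ∧ i + k' + (q + 1) * k ≤ d ∧
        a + q * k' = i + q * d := by
      intro a ha
      obtain ⟨i, k', y', h1, h2, h3, h4⟩ := hS a ha
      refine ⟨i, k', h2.1, ?_, by omega⟩
      have h5 := h3.2
      have h6 : (q + 1) * k ≤ (q + 1) * y' := Nat.mul_le_mul_left _ h1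
      nlinarith
    obtain ⟨i₀, k₀, h1, h2, -⟩ := key a₀ ha₀
    have hk : k ≤ W := by
      have : (q + 1) * k < (q + 1) * (W + 1) := by omega
      exact Nat.lt_succ_iff.mp (Nat.lt_of_mul_lt_mul_left this)
    obtain ⟨d', hd'⟩ := Nat.exists_eq_add_of_le (show (q + 1) * k ≤ d by omega)
    have h3 := card_lines (q := q) (d' := d') (o := q * d) (by omega) S (fun a ha => by
      obtain ⟨i, k', -, h4, h5⟩ := key a ha
      exact ⟨i, k', by omega, h5⟩)
    simp only [if_pos hk]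
    have h4 : q * (q - 1) + q = q * q := by
      rcases q with _ | q
      · simp
      · rw [Nat.add_sub_cancel]
        ring
    have h5 : S.card + (q + 1) ^ 2 * k ≤ α + 1 := by
      rw [hd'] at hα
      nlinarith
    omega
  · intro i k hik
    split_ifs at hik with hk
    · exact ⟨hk, by omega⟩
    · omega

end Pool.Agent.Lib.MP_6e81d8_ag.H88
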