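import Mathlib

/-!
The inequalities between the parameters of the two degenerations.
-/

set_option autoImplicit false

namespace Pool.Agent.Lib.MP_6e81d8_ag.H88

lemma final_ineq {s m κ M w τ W n S F : ℝ} (h1 : 400 * κ ≤ s) (h2 : 1 ≤ κ) (h3 : 50 * s ≤ m)
    (h4 : 2 * m ≤ s * M) (h5 : s * M ≤ 6 * m) (h6 : 0 ≤ w) (h7 : s * w ≤ s + 14 * κ * M)
    (h8 : 2 * w ≤ M - 1) (h10 : 0 ≤ W) (h11 : W ≤ 2 * m) (h12 : 0 ≤ n)
    (h13 : n ≤ 2 * s ^ 2) (h14 : F ≤ 32 * s * m)
    (h15 : 2 * τ * M ^ 2 ≤ S + n * M + 130 * κ * M * W)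
    (h16 : 140 * s ^ 4 * m + 5000000 * κ ^ 3 * m ^ 2 ≤ s ^ 3 * S) :
    2 * F + 2 * (M + w) + 4 * τ * w * (w + 1) + 2 * w * M ≤ S := by
  have hs : 400 ≤ s := by linarith
  have hs0 : 0 < s := by linarith
  have hm : 20000 ≤ m := by linarith
  have hM : 1 ≤ M := by linarith
  have hM0 : 0 < M := by linarith
  set u := M / s with hu
  set z := m / s with hz
  have huM : M = u * s := by rw [hu]; field_simp
  have hzm : m = z * s := by rw [hz]; field_simp
  have hu0 : 0 ≤ u := by positivity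
  have hz0 : 50 ≤ z := by rw [hz, le_div_iff₀ hs0]; linarith
  have hMz : M ≤ 6 * z := by
    apply le_of_mul_le_mul_left _ hs0
    rw [hzm] at h5
    linarith
  set y := κ ^ 3 * z ^ 2 / s with hy
  have hy0 : 0 ≤ y := by positivity
  have hys : y * s = κ ^ 3 * z ^ 2 := by rw [hy]; field_simp
  have hS : 140 * s * m + 5000000 * y ≤ S := by
    apply le_of_mul_le_mul_left _ (pow_pos hs0 3)
    have : s ^ 3 * (140 * s * m + 5000000 * y) = 140 * s ^ 4 * m + 5000000 * (y * s) * s ^ 2 := by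
      ring
    rw [this, hys]
    have : κ ^ 3 * m ^ 2 = κ ^ 3 * z ^ 2 * s ^ 2 := by rw [hzm]; ring
    linarith
  have hsm : 0 ≤ s * m := by positivity
  have hS0 : 0 ≤ S := by linarith only [hS, hsm, hy0]
  have hw : w ≤ 1 + 14 * κ * u := by
    apply le_of_mul_le_mul_left _ hs0
    rw [huM] at h7
    linarith
  have hzsm : 12 * z ≤ s * m := by
    rw [hzm]
    nlinarith only [mul_le_mul hs hs (by norm_num) hs0.le, hz0]
  have hκ3 : κ ≤ κ ^ 3 := le_self_pow₀ h2 (by norm_num)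
  have huz : u * s ≤ 6 * z := by linarith
  have hb : 2 * w * M ≤ s * m + 1008 * y := by
    have e1 : 2 * w * M ≤ 2 * M + 28 * κ * u * M := by
      linarith only [mul_le_mul_of_nonneg_right hw hM0.le]
    have e2 : κ * u * M ≤ 36 * y := by
      apply le_of_mul_le_mul_left _ hs0
      have e3 : (u * s) * M ≤ (6 * z) * (6 * z) := mul_le_mul huz hMz hM0.le (by linarith)
      have e4 : κ * ((u * s) * M) ≤ κ ^ 3 * ((6 * z) * (6 * z)) :=
        mul_le_mul hκ3 e3 (by positivity) (by positivity)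
      linarith only [e4, hys]
    linarith
  have hww : w * (w + 1) ≤ 4 + 784 * κ ^ 2 * u ^ 2 := by
    have e1 : w * (w + 1) ≤ (1 + 14 * κ * u) * (1 + 14 * κ * u + 1) :=
      mul_le_mul hw (by linarith) (by linarith) (by positivity)
    linarith only [e1, sq_nonneg (1 - 28 * κ * u)]
  have hww' : 4 * (w * (w + 1)) ≤ M ^ 2 := by nlinarith only [h6, h8]
  have hww0 : 0 ≤ w * (w + 1) := by positivity
  have hR : 2 * (w * (w + 1)) * (n + 130 * κ * W) ≤ M * (3 * s * m + 2446080 * y) := by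
    have e1 : n + 130 * κ * W ≤ 2 * s ^ 2 + 260 * κ * m := by
      linarith only [h13, mul_le_mul_of_nonneg_left h11 (show 0 ≤ κ by linarith)]
    have e2 : 2 * (w * (w + 1)) * (n + 130 * κ * W)
        ≤ 2 * (4 + 784 * κ ^ 2 * u ^ 2) * (2 * s ^ 2 + 260 * κ * m) :=
      mul_le_mul (by linarith) e1 (by positivity) (by positivity)
    have e3 : 16 * s ^ 2 ≤ M * (s * m) := by
      linarith only [mul_le_mul_of_nonneg_right hM hsm, mul_le_mul_of_nonneg_left h3 hs0.le,
        sq_nonneg s]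
    have e4 : 2080 * κ * m ≤ M * (s * m) := by
      have : 2080 * κ ≤ M * s := by linarith only [h4, h3, h1, h2]
      linarith only [mul_le_mul_of_nonneg_right this (show 0 ≤ m by linarith)]
    have e5 : 3136 * κ ^ 2 * u ^ 2 * s ^ 2 ≤ M * (s * m) := by
      have e6 : 3136 * κ ^ 2 * M ≤ s * m := by
        have e7 : 160000 * κ ^ 2 ≤ s ^ 2 := by
          linarith only [pow_le_pow_left₀ (show 0 ≤ 400 * κ by linarith) h1 2]
        have e8 : κ ^ 2 * M ≤ κ ^ 2 * (6 * z) := mul_le_mul_of_nonneg_left hMz (by positivity)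
        have e9 : 160000 * κ ^ 2 * z ≤ s ^ 2 * z := mul_le_mul_of_nonneg_right e7 (by linarith)
        have e10 : 0 ≤ κ ^ 2 * z := by positivity
        rw [hzm]
        linarith only [e8, e9, e10]
      calc 3136 * κ ^ 2 * u ^ 2 * s ^ 2 = (u * s) * (3136 * κ ^ 2 * (u * s)) := by ring
        _ = M * (3136 * κ ^ 2 * M) := by rw [← huM]
        _ ≤ M * (s * m) := mul_le_mul_of_nonneg_left e6 hM0.le
    have e6 : 407680 * κ ^ 3 * u ^ 2 * m ≤ M * (2446080 * y) := by
      have e7 : u * m ≤ 6 * z ^ 2 := by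
        rw [hzm]
        linarith only [mul_le_mul_of_nonneg_right huz (show 0 ≤ z by linarith)]
      have e8 : κ ^ 3 * u * (u * m) ≤ κ ^ 3 * u * (6 * z ^ 2) :=
        mul_le_mul_of_nonneg_left e7 (by positivity)
      have e9 : M * y = u * (κ ^ 3 * z ^ 2) := by rw [huM, ← hys]; ring
      linarith only [e8, e9]
    linarith only [e2, e3, e4, e5, e6]
  have hc : 4 * τ * w * (w + 1) ≤ S / 2 + (3 * s * m + 2446080 * y) := by
    apply le_of_mul_le_mul_left _ (pow_pos hM0 2)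
    have e1 : 2 * (w * (w + 1)) * (2 * τ * M ^ 2)
        ≤ 2 * (w * (w + 1)) * (S + n * M + 130 * κ * M * W) :=
      mul_le_mul_of_nonneg_left h15 (by positivity)
    have e2 : 4 * (w * (w + 1)) * S ≤ M ^ 2 * S := mul_le_mul_of_nonneg_right hww' hS0
    have e3 := mul_le_mul_of_nonneg_left hR hM0.le
    linarith only [e1, e2, e3]
  linarith only [hc, hb, hS, h14, hzsm, hMz, h8, hy0, hsm, hz0]

end Pool.Agent.Lib.MP_6e81d8_ag.H88
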