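import Mathlib
import Pool.Agent.Lib.MP_6e81d8_ag.H88Level
import Pool.Agent.Lib.MP_6e81d8_ag.H88Coprime
import Pool.Agent.Lib.MP_6e81d8_ag.H88Num

/-!
Choice of the parameters.
-/

set_option autoImplicit false

namespace Pool.Agent.Lib.MP_6e81d8_ag.H88

lemma area_bound {n m d s W μ ρ α β e ε : ℝ} (hd : d = m + s * W + ρ) (hρ : 0 ≤ ρ)
    (hW : W = m + μ) (hα : 2 * (α + 1) + s ^ 2 = s * (2 * d + 3)) (hn : n + ε = 2 * e + s ^ 2)
    (hβ : β + m * n = α + W * e) (hε : ε ≤ 1) (hβ0 : 0 ≤ β) (hW0 : 0 ≤ W) (hs : 3 ≤ s)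
    (hm : s ≤ m) :
    (n + 1) * m * (m + 1) - (d + 1) * (d + 2) - 2 * s * m
      ≤ n * μ * (μ + 1) + ε * W ^ 2 - 2 * W * β := by
  have key : n * μ * (μ + 1) + ε * W ^ 2 - 2 * W * β
      = n * m * (m + 1) - (d + 1) * (d + 2) + (m + ρ - s + 1) * (m + ρ - s + 2)
        + (2 * W + 2 * β + 2 - ε * W) := by
    have h1 : μ = W - m := by linarith
    have h2 : ρ = d - m - s * W := by linarith
    rw [h1, h2]
    linear_combination (-2 * (W + 1)) * hβ - (W + 1) * hα + W * (W + 1) * hn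
  have h1 : (m - s + 1) * (m - s + 2) ≤ (m + ρ - s + 1) * (m + ρ - s + 2) :=
    mul_le_mul (by linarith) (by linarith) (by linarith) (by linarith)
  have h2 : ε * W ≤ W := by nlinarith
  have h3 : 3 * s ≤ s * s := by nlinarith
  rw [key]
  nlinarith

lemma area_bound' {n m s W μ ε : ℝ} (hW : W = m + μ) (hn : s ^ 2 ≤ n) (hs : 400 ≤ s)
    (hm : 50 * s ≤ m) (h1 : 3 * m ≤ s * (μ + 1)) (h2 : s * μ ≤ 5 * m) (hε : 0 ≤ ε) (hμ : 0 ≤ μ) :
    4 * m ^ 2 ≤ n * μ * (μ + 1) + ε * W ^ 2 - 2 * W * (2 * W) := by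
  have h3 : 80 * μ ≤ m := by nlinarith
  have h4 : s ^ 2 * (μ * (μ + 1)) ≤ n * (μ * (μ + 1)) :=
    mul_le_mul_of_nonneg_right hn (by positivity)
  have h5 : (2.98 * m) * (3 * m) ≤ (s * μ) * (s * (μ + 1)) :=
    mul_le_mul (by linarith) h1 (by linarith) (by positivity)
  have h6 : W ^ 2 ≤ (1.0125 * m) ^ 2 := pow_le_pow_left₀ (by linarith) (by linarith) 2
  have h7 : 0 ≤ ε * W ^ 2 := by positivity
  nlinarith

lemma beta_bound {n m s W μ ε β : ℝ} (hW : W = m + μ) (hn : n ≤ (s + 7) ^ 2) (hs : 400 ≤ s)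
    (hm : 50 * s ≤ m) (h2 : s * μ ≤ 5 * m) (hε : ε ≤ 1) (hμ : 0 ≤ μ)
    (hS : 0 ≤ n * μ * (μ + 1) + ε * W ^ 2 - 2 * W * β) : β ≤ 16 * W := by
  have hW0 : 0 < W := by linarith
  have h3 : n ≤ 1.04 * s ^ 2 := by nlinarith
  have h4 : n * (μ * (μ + 1)) ≤ 1.04 * s ^ 2 * (μ * (μ + 1)) :=
    mul_le_mul_of_nonneg_right h3 (by positivity)
  have h5 : (s * μ) * (s * (μ + 1)) ≤ (5 * m) * (5.02 * m) :=
    mul_le_mul h2 (by linarith) (by positivity) (by linarith)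
  have h6 : m ^ 2 ≤ W ^ 2 := pow_le_pow_left₀ (by linarith) (by linarith) 2
  have h7 : ε * W ^ 2 ≤ W ^ 2 := by nlinarith
  apply le_of_mul_le_mul_left _ hW0
  nlinarith

lemma count_bound {n m d s W μ ρ α β e ε p κ : ℝ} (hd : d = m + s * W + ρ) (hρ : 0 ≤ ρ)
    (hW : W = m + μ) (hα : 2 * (α + 1) + s ^ 2 = s * (2 * d + 3)) (hn : n + ε = 2 * e + s ^ 2)
    (hβ : α + W * e ≤ β + m * n) (hε : 0 ≤ ε) (hβW : β ≤ 16 * W) (hW2 : W ≤ 2 * m)
    (hs : 400 * κ ≤ s) (hκ : 1 ≤ κ) (hm : 50 * s ≤ m) (hM : s * (μ + 1) ≤ 6 * m) (hμ : 0 ≤ μ)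
    (he0 : 0 ≤ e) (he : e ≤ 8 * s) (hp : W ≤ (p + 2 * κ) * (μ + 1)) :
    n ≤ p * e := by
  have hM0 : 0 < μ + 1 := by linarith
  have hs0 : 0 ≤ s := by linarith
  have hm0 : 0 ≤ m := by linarith
  have h1 : W * e ≤ (p + 2 * κ) * (μ + 1) * e := mul_le_mul_of_nonneg_right hp he0
  have h2 : κ * ((μ + 1) * e) ≤ κ * (48 * m) := by
    apply mul_le_mul_of_nonneg_left _ (by linarith)
    nlinarith
  have h3 : 400 * κ * m ≤ s * m := mul_le_mul_of_nonneg_right hs hm0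
  have h4 : 400 * m ≤ s * m := mul_le_mul_of_nonneg_right (by linarith) hm0
  have h5 : s * (50 * s) ≤ s * m := mul_le_mul_of_nonneg_left hm hs0
  have h6 : 0 ≤ s * ρ := by positivity
  have h7 : 0 ≤ ε * W := mul_nonneg hε (by linarith)
  have h8 : 2 * α + 2 + s ^ 2 = 2 * s * m + 2 * s ^ 2 * W + 2 * s * ρ + 3 * s := by
    rw [hd] at hα
    linarith
  have h9 : n * W + ε * W = 2 * (W * e) + s ^ 2 * W := by linear_combination W * hn
  have h10 : n * W = n * μ + m * n := by rw [hW]; ring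
  apply le_of_mul_le_mul_left _ hM0
  nlinarith

lemma tau_bound {n W M ε β p q κ τ : ℝ} (hn : n = 2 * τ + (2 * p * q + ε * p ^ 2))
    (hW : 0 < W) (hM : 0 ≤ M) (hε : 0 ≤ ε) (hβ : β ≤ 16 * W) (hb : 0 ≤ β - ε * W) (hp0 : 0 ≤ p)
    (hκ : 0 ≤ κ) (hp1 : p * M ≤ W) (hp2 : W ≤ (p + 2 * κ) * M)
    (hq : p * (β - ε * W) ≤ (q + κ) * W) :
    2 * τ * M ^ 2 ≤ (n * (M - 1) * M + ε * W ^ 2 - 2 * W * β) + n * M + 130 * κ * M * W := by
  have hpM : 0 ≤ p * M := by positivity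
  have h1 : W ^ 2 - 4 * κ * M * W ≤ (p * M) ^ 2 := by
    have h2 : 0 ≤ κ * M := by positivity
    nlinarith [mul_nonneg (sub_nonneg.mpr hp1) (sub_nonneg.mpr hp1)]
  have h2 : 0 ≤ 2 * (β - ε * W) + ε * W := by positivity
  have h3 := mul_le_mul_of_nonneg_right h1 h2
  have h4 : 2 * p * M ^ 2 * (p * (β - ε * W)) ≤ 2 * p * M ^ 2 * ((q + κ) * W) :=
    mul_le_mul_of_nonneg_left hq (by positivity)
  have h5 : κ * W * M * (p * M) ≤ κ * W * M * W := mul_le_mul_of_nonneg_left hp1 (by positivity)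
  have h6 : κ * M * W * β ≤ κ * M * W * (16 * W) := mul_le_mul_of_nonneg_left hβ (by positivity)
  have h7 : 0 ≤ κ * M * W * (ε * W) := by positivity
  apply le_of_mul_le_mul_left _ hW
  rw [hn]
  nlinarith

lemma sigma_bound {n W M ε β p q : ℝ} (hW : 0 < W) (hM : 1 ≤ M) (hn : 0 ≤ n) (hp : 0 < p)
    (hq : 0 ≤ q) (hε : 0 ≤ ε) (hp1 : p * M ≤ W) (hqW : q * W + p * (ε * W) ≤ p * β)
    (hS : 0 ≤ n * (M - 1) * M + ε * W ^ 2 - 2 * W * β) : 2 * p * q + ε * p ^ 2 ≤ n := by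
  have h0 : 0 ≤ 2 * p * q + ε * p ^ 2 := by positivity
  have h1 : (p * M) ^ 2 ≤ W ^ 2 := pow_le_pow_left₀ (by positivity) hp1 2
  have h2 := mul_le_mul_of_nonneg_left h1 h0
  have h3 : 2 * p * W * (q * W + p * (ε * W)) ≤ 2 * p * W * (p * β) :=
    mul_le_mul_of_nonneg_left hqW (by positivity)
  have h4 := mul_le_mul_of_nonneg_left hS (sq_nonneg p)
  have h5 : 0 ≤ p ^ 2 * (n * M) := by positivity
  have h6 : 0 < (p * M) ^ 2 := by positivity
  apply le_of_mul_le_mul_right _ h6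
  nlinarith

theorem core {n m d s κ : ℕ} (hs : s % 2 = 0) (hd1 : (s + 4) * m ≤ d) (hd2 : d < (s + 6) * m)
    (hn : n + 1 ≤ (s + 7) ^ 2) (hm : 50 * s ≤ m) (hκ : 400 * κ ≤ s)
    (hκ' : 2 + 5 * Real.log s < κ)
    (hS : (d + 1) * (d + 2) * s ^ 3 + 142 * s ^ 4 * m + 5000000 * κ ^ 3 * m ^ 2
      ≤ (n + 1) * m * (m + 1) * s ^ 3) :
    ∃ a b : Fin (n + 1) → ℂ, Emp (fun i k => i + k ≤ d) (fun _ => m) a b := by
  have hκ1 : 1 ≤ κ := by
    have h1 := Real.log_natCast_nonneg s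
    have : (0 : ℝ) < κ := by linarith
    exact_mod_cast this
  have hs400 : 400 ≤ s := by omega
  have hs0 : 0 < s := by omega
  obtain ⟨W, ρ, hd, hρ⟩ : ∃ W ρ, d = m + s * W + ρ ∧ ρ < s := by
    refine ⟨(d - m) / s, (d - m) % s, ?_, Nat.mod_lt _ hs0⟩
    have := Nat.div_add_mod (d - m) s
    have : m ≤ d := by nlinarith only [hd1, Nat.zero_le (s * m)]
    omega
  obtain ⟨μ, hW⟩ : ∃ μ, W = m + μ := by
    apply Nat.exists_eq_add_of_le
    have : s * m < s * (W + 1) := by nlinarith only [hd, hρ, hd1]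
    exact Nat.lt_succ_iff.mp (Nat.lt_of_mul_lt_mul_left this)
  have hM1 : 3 * m ≤ s * (μ + 1) := by rw [hW] at hd; nlinarith only [hd, hρ, hd1]
  have hM2 : s * μ ≤ 5 * m := by rw [hW] at hd; nlinarith only [hd, hd2]
  have hM3 : s * (μ + 1) ≤ 6 * m := by nlinarith only [hM2, hm]
  have hμ : 149 ≤ μ := by
    have : s * 150 ≤ s * (μ + 1) := by omega
    have := Nat.le_of_mul_le_mul_left this hs0
    omega
  have hμ80 : 80 * μ ≤ m := by
    have := Nat.mul_le_mul_right μ hs400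
    omega
  have hμm : μ ≤ m := by omega
  obtain ⟨α, hα⟩ : ∃ α, 2 * (α + 1) + s ^ 2 = s * (2 * d + 3) := by
    obtain ⟨s', hs'⟩ : ∃ s', s = 2 * s' := ⟨s / 2, by omega⟩
    have h1 : s + 1 ≤ 2 * d + 3 := by omega
    obtain ⟨z, hz⟩ := Nat.exists_eq_add_of_le h1
    have h2 : 1 ≤ s' * (z + 1) := Nat.mul_pos (by omega) (by omega)
    refine ⟨s' * (z + 1) - 1, ?_⟩
    rw [Nat.sub_add_cancel h2, hz]
    rw [hs']
    ring
  have hS1 : (d + 1) * (d + 2) ≤ (n + 1) * m * (m + 1) :=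
    Nat.le_of_mul_le_mul_right (by omega) (pow_pos hs0 3)
  have hn1 : s ^ 2 + 2 ≤ n := by
    by_contra hcon
    have h1 : ((s + 4) * m) * ((s + 4) * m) ≤ (d + 1) * (d + 2) :=
      Nat.mul_le_mul (by omega) (by omega)
    have h2 : (n + 1) * m * (m + 1) ≤ (s ^ 2 + 2) * m * (m + 1) :=
      Nat.mul_le_mul_right _ (Nat.mul_le_mul_right _ (by omega))
    have h3 : m * ((s + 4) * (s + 4) * m) ≤ m * ((s ^ 2 + 2) * (m + 1)) := by
      nlinarith only [h1, h2, hS1]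
    have h4 := Nat.le_of_mul_le_mul_left h3 (by omega)
    have h5 : s * (50 * s) ≤ s * m := Nat.mul_le_mul_left _ hm
    nlinarith only [h4, h5, hm, hs400]
  have hss : 400 * s ≤ s * s := Nat.mul_le_mul_right s hs400
  have hn2 : n ≤ 2 * s ^ 2 := by nlinarith only [hn, hss, hs400]
  obtain ⟨ε, e, hε, hεn, hne⟩ : ∃ ε e, ε ≤ 1 ∧ ε % 2 = n % 2 ∧ n + ε = 2 * e + s ^ 2 := by
    have h1 : s ^ 2 % 2 = 0 := by
      rw [Nat.pow_mod, hs]
    exact ⟨n % 2, (n + n % 2 - s ^ 2) / 2, by omega, by omega, by omega⟩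
  have he1 : 1 ≤ e := by omega
  have he2 : e ≤ 8 * s := by nlinarith only [hn, hne, hε, hs400]
  obtain ⟨β, hβ1, hβ2, hβ3⟩ : ∃ β, α + W * e ≤ β + m * n ∧ 2 * W ≤ β ∧
      (β = 2 * W ∨ β + m * n = α + W * e) :=
    ⟨max (α + W * e - m * n) (2 * W), by omega, by omega, by omega⟩
  have hsR : (400 : ℝ) ≤ s := by exact_mod_cast hs400
  have hmR : (50 : ℝ) * s ≤ m := by exact_mod_cast hm
  have hκR : (400 : ℝ) * κ ≤ s := by exact_mod_cast hκ
  have hκ1R : (1 : ℝ) ≤ κ := by exact_mod_cast hκ1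
  have hdR : (d : ℝ) = m + s * W + ρ := by exact_mod_cast hd
  have hWR : (W : ℝ) = m + μ := by exact_mod_cast hW
  have hαR : 2 * ((α : ℝ) + 1) + s ^ 2 = s * (2 * d + 3) := by exact_mod_cast hα
  have hneR : (n : ℝ) + ε = 2 * e + s ^ 2 := by exact_mod_cast hne
  have hεR : (ε : ℝ) ≤ 1 := by exact_mod_cast hε
  have hM1R : (3 : ℝ) * m ≤ s * (μ + 1) := by exact_mod_cast hM1
  have hM2R : (s : ℝ) * μ ≤ 5 * m := by exact_mod_cast hM2
  have hM3R : (s : ℝ) * (μ + 1) ≤ 6 * m := by exact_mod_cast hM3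
  have hW0 : 0 < W := by omega
  have hW0R : (0 : ℝ) < W := by exact_mod_cast hW0
  have hW2R : (W : ℝ) ≤ 2 * m := by exact_mod_cast (by omega : W ≤ 2 * m)
  set S : ℝ := n * μ * (μ + 1) + ε * W ^ 2 - 2 * W * β with hSdef
  have hS2 : 140 * (s : ℝ) ^ 4 * m + 5000000 * κ ^ 3 * m ^ 2 ≤ s ^ 3 * S := by
    have hs3 : (0 : ℝ) ≤ s ^ 3 := by positivity
    rcases hβ3 with h | h
    · have h1 := area_bound' (n := n) (ε := ε) hWR
        (by exact_mod_cast (by omega : s ^ 2 ≤ n)) hsR hmR hM1R hM2R (Nat.cast_nonneg _)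
        (Nat.cast_nonneg _)
      have h2 : (β : ℝ) = 2 * W := by exact_mod_cast h
      replace h1 : 4 * (m : ℝ) ^ 2 ≤ S := by rw [hSdef, h2]; exact h1
      have h3 := mul_le_mul_of_nonneg_left h1 hs3
      have h4 : (400 * (κ : ℝ)) ^ 3 ≤ s ^ 3 := pow_le_pow_left₀ (by positivity) hκR 3
      have h5 := mul_le_mul_of_nonneg_right h4 (sq_nonneg (m : ℝ))
      have h6 : (s : ℝ) ^ 3 * m * (50 * s) ≤ s ^ 3 * m * m :=
        mul_le_mul_of_nonneg_left hmR (by positivity)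
      have h7 : 0 ≤ (κ : ℝ) ^ 3 * m ^ 2 := by positivity
      have h8 : 0 ≤ (s : ℝ) ^ 4 * m := by positivity
      linarith
    · have h1 := area_bound hdR (Nat.cast_nonneg _) hWR hαR hneR (β := β) (by exact_mod_cast h)
        hεR (Nat.cast_nonneg _) hW0R.le (by linarith) (by linarith)
      rw [← hSdef] at h1
      have h3 := mul_le_mul_of_nonneg_left h1 hs3
      have h4 : ((d : ℝ) + 1) * (d + 2) * s ^ 3 + 142 * s ^ 4 * m + 5000000 * κ ^ 3 * m ^ 2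
        ≤ (n + 1) * m * (m + 1) * s ^ 3 := by exact_mod_cast hS
      linarith
  have hS0 : 0 ≤ S := by
    have h1 : (0 : ℝ) < s ^ 3 := by positivity
    have h2 : (0 : ℝ) ≤ 140 * (s : ℝ) ^ 4 * m + 5000000 * κ ^ 3 * m ^ 2 := by positivity
    exact nonneg_of_mul_nonneg_right (h2.trans hS2) h1
  have hβR : (β : ℝ) ≤ 16 * W := beta_bound (n := n) hWR
    (by exact_mod_cast (by omega : n ≤ (s + 7) ^ 2)) hsR hmR hM2R hεR (Nat.cast_nonneg _) hS0
  obtain ⟨P, hP1, hP2⟩ : ∃ P, P * (μ + 1) ≤ W ∧ W < (P + 1) * (μ + 1) :=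
    ⟨W / (μ + 1), Nat.div_mul_le_self _ _, by
      have := Nat.lt_div_mul_add (a := W) (show 0 < μ + 1 by omega)
      linarith⟩
  have hP3 : s ≤ 6 * (P + 1) := by
    have : s * (μ + 1) ≤ 6 * (P + 1) * (μ + 1) := by nlinarith only [hM3, hP2, hW]
    exact Nat.le_of_mul_le_mul_right this (by omega)
  have hP5 : 2 * P ≤ s := by
    have : 2 * P * (μ + 1) ≤ s * (μ + 1) := by nlinarith only [hM1, hP1, hW, hμ80]
    exact Nat.le_of_mul_le_mul_right this (by omega)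
  obtain ⟨j, hj, hcop⟩ := exists_coprime_window (κ := κ) (p₀ := 2 * ((P + 1) / 2) + 1 - 2 * κ)
    (P := s) (by omega) (by omega) hκ'
  set p := 2 * ((P + 1) / 2) + 1 - 2 * κ + 2 * j with hpdef
  have hp1 : p ≤ P := by omega
  have hp2 : P + 1 ≤ p + 2 * κ := by omega
  have hp3 : p % 2 = 1 := by omega
  have hp4 : s ≤ 7 * p := by omega
  have hp0 : 0 < p := by omega
  have hpM : p * (μ + 1) ≤ W := (Nat.mul_le_mul_right _ hp1).trans hP1
  have hpM' : W < (p + 2 * κ) * (μ + 1) := hP2.trans_le (Nat.mul_le_mul_right _ hp2)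
  have hεW : ε * W ≤ 1 * W := Nat.mul_le_mul_right W hε
  obtain ⟨b, hb⟩ : ∃ b, β = ε * W + b := Nat.exists_eq_add_of_le (by omega)
  have hbW : W ≤ b := by omega
  obtain ⟨Q, hQ1, hQ2⟩ : ∃ Q, Q * W ≤ p * b ∧ p * b < (Q + 1) * W :=
    ⟨p * b / W, Nat.div_mul_le_self _ _, by
      have := Nat.lt_div_mul_add (a := p * b) hW0
      linarith⟩
  have hQ3 : p ≤ Q := by
    have : p * W < (Q + 1) * W := (Nat.mul_le_mul_left _ hbW).trans_lt hQ2
    exact Nat.lt_succ_iff.mp (Nat.lt_of_mul_lt_mul_right this)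
  obtain ⟨i, hi, hcop'⟩ := hcop (Q + 1 - κ)
  set q := Q + 1 - κ + i with hqdef
  have hq1 : q ≤ Q := by omega
  have hq2 : Q + 1 ≤ q + κ := by omega
  have hq0 : 1 ≤ q := by omega
  have hqW : q * W + p * (ε * W) ≤ p * β := by
    have := Nat.mul_le_mul_right W hq1
    rw [hb, mul_add]
    omega
  have hqW' : p * b ≤ (q + κ) * W := hQ2.le.trans (Nat.mul_le_mul_right _ hq2)
  clear_value p q
  obtain ⟨w, hw1, hw2⟩ : ∃ w, p * (μ + w) ≤ W ∧ W < p * (μ + w + 1) := by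
    have h1 : μ ≤ W / p := by
      rw [Nat.le_div_iff_mul_le hp0]
      nlinarith only [hpM]
    obtain ⟨w, hw⟩ := Nat.exists_eq_add_of_le h1
    refine ⟨w, ?_, ?_⟩
    · rw [← hw]
      exact Nat.mul_div_le _ _
    · rw [← hw]
      exact Nat.lt_mul_div_succ _ hp0
  have hw3 : s * w ≤ s + 14 * κ * (μ + 1) := by
    have h1 : p * w ≤ p + 2 * κ * (μ + 1) := by nlinarith only [hw1, hpM']
    rcases w with _ | w
    · simp
    · have h2 : s * w ≤ 7 * p * w := Nat.mul_le_mul_right _ hp4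
      nlinarith only [h1, h2]
  have hw4 : 2 * w ≤ μ := by
    have h1 : 400 * κ * (μ + 1) ≤ s * (μ + 1) := Nat.mul_le_mul_right _ hκ
    have h2 : s * 149 ≤ s * μ := Nat.mul_le_mul_left _ hμ
    have : s * (2 * w) ≤ s * μ := by nlinarith only [h1, h2, hw3]
    exact Nat.le_of_mul_le_mul_left this hs0
  have hpR : (0 : ℝ) < p := by exact_mod_cast hp0
  have hpMR : (p : ℝ) * (μ + 1) ≤ W := by exact_mod_cast hpM
  have hpM'R : (W : ℝ) ≤ (p + 2 * κ) * (μ + 1) := by exact_mod_cast hpM'.le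
  have hμ0 : (0 : ℝ) ≤ μ := Nat.cast_nonneg _
  have hσ : 2 * p * q + ε * p ^ 2 ≤ n := by
    have := sigma_bound (n := n) (M := μ + 1) (ε := ε) (β := β) (q := q) hW0R (by linarith)
      (Nat.cast_nonneg _) hpR (Nat.cast_nonneg _) (Nat.cast_nonneg _) hpMR
      (by exact_mod_cast hqW) (by rw [add_sub_cancel_right]; exact hS0)
    exact_mod_cast this
  obtain ⟨τ, hτ⟩ : ∃ τ, n = 2 * τ + (2 * p * q + ε * p ^ 2) := by
    have h1 : (ε * p ^ 2) % 2 = ε % 2 := by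
      rw [Nat.mul_mod, Nat.pow_mod, hp3]
      simp
    have h2 : 2 * p * q = 2 * (p * q) := mul_assoc _ _ _
    exact ⟨(n - (2 * p * q + ε * p ^ 2)) / 2, by omega⟩
  have hN : n ≤ q + p * e := by
    have := count_bound (p := p) hdR (Nat.cast_nonneg _) hWR hαR hneR (β := β)
      (by exact_mod_cast hβ1) (Nat.cast_nonneg _) hβR hW2R hκR hκ1R hmR hM3R hμ0
      (Nat.cast_nonneg _) (by exact_mod_cast he2) hpM'R
    have h2 : n ≤ p * e := by exact_mod_cast this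
    omega
  have hbR : (β : ℝ) - ε * W = b := by
    rw [hb]
    push_cast
    ring
  have hτR := tau_bound (n := n) (τ := τ) (M := μ + 1) (q := q) (by exact_mod_cast hτ) hW0R
    (by linarith) (Nat.cast_nonneg ε) hβR (by rw [hbR]; exact Nat.cast_nonneg _) hpR.le
    (Nat.cast_nonneg κ) hpMR hpM'R (by rw [hbR]; exact_mod_cast hqW')
  rw [add_sub_cancel_right, ← hSdef] at hτR
  have hF : p * β + q * W ≤ 32 * s * m := by
    have h1 : β ≤ 16 * W := by exact_mod_cast hβR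
    have h2 : (2 * p) * β ≤ s * (32 * m) := Nat.mul_le_mul (by omega) (by omega)
    nlinarith only [h2, hqW, Nat.zero_le (p * (ε * W))]
  have hfin := final_ineq (w := w) (F := p * β + q * W) hκR hκ1R hmR (by linarith only [hM1R, hmR, hsR]) hM3R
    (Nat.cast_nonneg _)
    (by exact_mod_cast hw3) (by rw [add_sub_cancel_right]; exact_mod_cast hw4) hW0R.le hW2R
    (Nat.cast_nonneg _) (by exact_mod_cast hn2) (by exact_mod_cast hF) hτR hS2
  have hA : 2 * W * β + 2 * (p * β + q * W) + 2 * (μ + w + 1) + 4 * τ * w * (w + 1)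
      + 2 * w * (μ + 1) ≤ n * μ * (μ + 1) + ε * W ^ 2 := by
    have : (2 : ℝ) * W * β + 2 * (p * β + q * W) + 2 * (μ + w + 1) + 4 * τ * w * (w + 1)
      + 2 * w * (μ + 1) ≤ n * μ * (μ + 1) + ε * W ^ 2 := by
      rw [hSdef] at hfin
      linarith
    exact_mod_cast this
  obtain ⟨x, hx, H1⟩ := level_two (e := e) hp0 hq0 hcop' hw1 hw2 hqW hτ hN hw4 (by omega) hA
  obtain ⟨y, H2⟩ := emp_elementary (α := α) (σ := s ^ 2) hW (by rw [Fintype.card_fin]; exact hne)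
    (by omega) (by rw [Fintype.card_fin]; exact hβ1) hx H1
  obtain ⟨q₁, rfl⟩ : ∃ q₁, s = q₁ + 1 := ⟨s - 1, by omega⟩
  exact level_one (by omega) (by rw [hd, mul_add]; omega) hα.ge H2

end Pool.Agent.Lib.MP_6e81d8_ag.H88
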