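import Mathlib
import Pool.Agent.Lib.MP_6e81d8_ag.H88Level

/-!
Upper bounds for the dimension of a linear system, through additional simple points.
-/

set_option autoImplicit false
set_option maxHeartbeats 400000

namespace Pool.Agent.Lib.MP_6e81d8_ag.H88

open Polynomial Finset
open scoped Polynomial.Bivariate

variable {K : Type} [Field K] {ι : Type}

/-- The polynomials with monomials in `D` vanishing to order `m j` at each `(a j, b j)`. -/
noncomputable def Sol (D : ℕ → ℕ → Prop) (m : ι → ℕ) (a b : ι → K) : Submodule K K[X][Y] where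
  carrier := {f | Sup D f ∧ ∀ j, Van (m j) (a j) (b j) f}
  zero_mem' := ⟨fun i k h => absurd (cf_zero i k) h, fun j => van_zero _ _ _⟩
  add_mem' := by
    rintro f g ⟨hf1, hf2⟩ ⟨hg1, hg2⟩
    refine ⟨fun i k h => ?_, fun j => (hf2 j).add (hg2 j)⟩
    rw [cf_add] at h
    by_cases h1 : cf f i k = 0
    · rw [h1, zero_add] at h
      exact hg1 i k h
    · exact hf1 i k h1
  smul_mem' := by
    rintro c f ⟨hf1, hf2⟩
    have : c • f = C (C c) * f := by rw [Algebra.smul_def, coe_algebraMap_eq_CC]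
    rw [this]
    refine ⟨fun i k h => ?_, fun j => (hf2 j).mul_left _⟩
    rw [cf_CC_mul] at h
    exact hf1 i k (right_ne_zero_of_mul h)

/-- The linear system has dimension at most `v`. -/
def Few (D : ℕ → ℕ → Prop) (m : ι → ℕ) (a b : ι → K) (v : ℕ) : Prop :=
  Module.Finite K (Sol D m a b) ∧ Module.finrank K (Sol D m a b) ≤ v

lemma Few.mono {D : ℕ → ℕ → Prop} {m : ι → ℕ} {a b : ι → K} {v v' : ℕ} (h : Few D m a b v)
    (hv : v ≤ v') : Few D m a b v' := ⟨h.1, h.2.trans hv⟩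

lemma Few.of_le {ι' : Type} {D D' : ℕ → ℕ → Prop} {m : ι → ℕ} {a b : ι → K} {m' : ι' → ℕ}
    {a' b' : ι' → K} {v : ℕ} (h : Few D m a b v) (hle : Sol D' m' a' b' ≤ Sol D m a b) :
    Few D' m' a' b' v := by
  have := h.1
  exact ⟨Submodule.finiteDimensional_of_le hle, (Submodule.finrank_mono hle).trans h.2⟩

lemma finrank_le_of_ker {V : Type*} [AddCommGroup V] [Module K V] (T T' : Submodule K V)
    [Module.Finite K T'] {κ : Type} [Fintype κ] (Λ : V →ₗ[K] (κ → K))
    (h : ∀ f ∈ T, Λ f = 0 → f ∈ T') :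
    Module.Finite K T ∧ Module.finrank K T ≤ Module.finrank K T' + Fintype.card κ := by
  let Λ' : T →ₗ[K] (κ → K) := Λ.comp T.subtype
  let ι' : LinearMap.ker Λ' →ₗ[K] T' := LinearMap.codRestrict T'
    (T.subtype.comp (LinearMap.ker Λ').subtype) (fun f => h _ f.1.2 f.2)
  have hι : Function.Injective ι' := by
    intro f g hfg
    have : (f.1.1 : V) = g.1.1 := congrArg (fun z : T' => (z : V)) hfg
    exact Subtype.ext (Subtype.ext this)
  have h1 : Module.Finite K (LinearMap.ker Λ') := Module.Finite.of_injective ι' hι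
  have h2 : Module.Finite K T := by
    have h3 : Module.Finite K (T ⧸ LinearMap.ker Λ') :=
      Module.Finite.equiv (LinearMap.quotKerEquivRange Λ').symm
    exact Module.Finite.of_submodule_quotient (LinearMap.ker Λ')
  refine ⟨h2, ?_⟩
  have h3 := LinearMap.finrank_range_add_finrank_ker Λ'
  have h4 := LinearMap.finrank_le_finrank_of_injective hι
  have h5 : Module.finrank K (LinearMap.range Λ') ≤ Fintype.card κ := by
    rw [← Module.finrank_fintype_fun_eq_card K]
    exact Submodule.finrank_le _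
  omega

lemma van_one_iff {a b : K} {f : K[X][Y]} : Van 1 a b f ↔ f.evalEval a b = 0 := by
  have : mx a b ^ 1 = mx a b := pow_one _
  rw [Van, this, mem_mx_iff]

lemma few_of_emp_aux {D : ℕ → ℕ → Prop} {v : ℕ} {m : ι ⊕ Fin v → ℕ} {a b : ι ⊕ Fin v → K}
    (hm : ∀ l, m (Sum.inr l) ≤ 1) (h : Emp D m a b) :
    Few D (fun j => m (Sum.inl j)) (fun j => a (Sum.inl j)) (fun j => b (Sum.inl j)) v := by
  have := finrank_le_of_ker
    (Sol D (fun j => m (Sum.inl j)) (fun j => a (Sum.inl j)) (fun j => b (Sum.inl j))) ⊥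
    (LinearMap.pi (fun l : Fin v =>
      (aevalAeval (R := K) (a (Sum.inr l)) (b (Sum.inr l))).toLinearMap)) ?_
  · simpa [Few] using this
  intro f hf h0
  rw [Submodule.mem_bot]
  apply h f hf.1
  rintro (j | l)
  · exact hf.2 j
  · apply Van.mono (hm l)
    have h1 := congrFun h0 l
    simp only [LinearMap.pi_apply, AlgHom.toLinearMap_apply, coe_aevalAeval_eq_evalEval,
      Pi.zero_apply] at h1
    exact van_one_iff.mpr h1

lemma few_of_emp {D : ℕ → ℕ → Prop} {v : ℕ} {m : ι ⊕ Fin v → ℕ} {a b : ι ⊕ Fin v → K}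
    (h : Emp D m a b) (hm : ∀ l, m (Sum.inr l) ≤ 1) {m₀ : ι → ℕ} {a₀ b₀ : ι → K}
    (h1 : ∀ j, m (Sum.inl j) = m₀ j) (h2 : ∀ j, a (Sum.inl j) = a₀ j)
    (h3 : ∀ j, b (Sum.inl j) = b₀ j) : Few D m₀ a₀ b₀ v := by
  have := few_of_emp_aux hm h
  rwa [funext h1, funext h2, funext h3] at this

lemma Emp.few {D : ℕ → ℕ → Prop} {m : ι → ℕ} {a b : ι → K} (h : Emp D m a b) :
    Few D m a b 0 := by
  have : Sol D m a b = ⊥ := by
    rw [eq_bot_iff]
    exact fun f hf => h f hf.1 hf.2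
  unfold Few
  rw [this]
  exact ⟨inferInstance, by simp⟩

lemma Few.extend {D D' : ℕ → ℕ → Prop} {m : ι → ℕ} {a b : ι → K} {v : ℕ} (h : Few D' m a b v)
    (Z : Finset (ℕ × ℕ)) (hZ : ∀ i k, D i k → D' i k ∨ (i, k) ∈ Z) :
    Few D m a b (v + Z.card) := by
  have := h.1
  have h1 := finrank_le_of_ker (Sol D m a b) (Sol D' m a b)
    (LinearMap.pi (fun z : Z => (lcoeff K z.1.1).comp ((lcoeff K[X] z.1.2).restrictScalars K))) ?_
  · rw [Fintype.card_coe] at h1
    exact ⟨h1.1, h1.2.trans (Nat.add_le_add_right h.2 _)⟩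
  intro f hf h0
  refine ⟨fun i k hik => (hZ i k (hf.1 i k hik)).resolve_right fun hz => hik ?_, hf.2⟩
  exact congrFun h0 ⟨(i, k), hz⟩

lemma exists_evalEval_ne_zero [Infinite K] {E : K[X][Y]} (hE : E ≠ 0) :
    ∃ c e : K, E.evalEval c e ≠ 0 := by
  obtain ⟨c, hc⟩ := exists_eval_ne_zero (leadingCoeff_ne_zero.mpr hE)
  have h1 : E.map (evalRingHom c) ≠ 0 := by
    intro h
    have := congrArg (fun p : K[X] => p.coeff E.natDegree) h
    simp only [coeff_map, coe_evalRingHom, coeff_zero] at this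
    exact hc this
  obtain ⟨e, he⟩ := exists_eval_ne_zero h1
  exact ⟨c, e, by rwa [map_evalRingHom_eval] at he⟩

lemma exists_points [Infinite K] {E : K[X][Y]} (hE : E ≠ 0) (v : ℕ) :
    ∀ T : Submodule K K[X][Y], Module.Finite K T → Module.finrank K T ≤ v →
      ∃ c e : Fin v → K, (∀ l, E.evalEval (c l) (e l) ≠ 0) ∧
        ∀ f ∈ T, (∀ l, f.evalEval (c l) (e l) = 0) → f = 0 := by
  induction v with
  | zero =>
    intro T _ hT
    refine ⟨Fin.elim0, Fin.elim0, fun l => l.elim0, fun f hf _ => ?_⟩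
    rwa [Submodule.finrank_eq_zero.mp (Nat.le_zero.mp hT), Submodule.mem_bot] at hf
  | succ v ih =>
    intro T _ hT
    by_cases h0 : T = ⊥
    · obtain ⟨c, e, h⟩ := exists_evalEval_ne_zero hE
      refine ⟨fun _ => c, fun _ => e, fun _ => h, fun f hf _ => ?_⟩
      rwa [h0, Submodule.mem_bot] at hf
    · obtain ⟨f₀, hf₀, hne⟩ := Submodule.exists_mem_ne_zero_of_ne_bot h0
      obtain ⟨c, e, h⟩ := exists_evalEval_ne_zero (mul_ne_zero hE hne)
      rw [evalEval_mul] at h
      let T' := T ⊓ LinearMap.ker (aevalAeval (R := K) c e).toLinearMap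
      have hlt : T' < T := by
        refine lt_of_le_of_ne inf_le_left fun heq => ?_
        have : f₀ ∈ T' := heq ▸ hf₀
        have h2 := this.2
        simp only [SetLike.mem_coe, LinearMap.mem_ker, AlgHom.toLinearMap_apply,
          coe_aevalAeval_eq_evalEval] at h2
        exact right_ne_zero_of_mul h h2
      have h1 := Submodule.finrank_lt_finrank_of_lt hlt
      obtain ⟨c', e', h2, h3⟩ := ih T' (Submodule.finiteDimensional_of_le hlt.le) (by omega)
      refine ⟨Fin.cons c c', Fin.cons e e', ?_, fun f hf hv => ?_⟩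
      · intro l
        refine Fin.cases ?_ (fun l => ?_) l
        · exact left_ne_zero_of_mul h
        · exact h2 l
      · apply h3 f ⟨hf, ?_⟩ (fun l => hv l.succ)
        simp only [SetLike.mem_coe, LinearMap.mem_ker, AlgHom.toLinearMap_apply,
          coe_aevalAeval_eq_evalEval]
        exact hv 0

lemma Few.exists_emp [Infinite K] {D : ℕ → ℕ → Prop} {m : ι → ℕ} {a b : ι → K} {v : ℕ}
    (h : Few D m a b v) {E : K[X][Y]} (hE : E ≠ 0) :
    ∃ c e : Fin v → K, (∀ l, E.evalEval (c l) (e l) ≠ 0) ∧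
      Emp D (Sum.elim m (fun _ => 1)) (Sum.elim a c) (Sum.elim b e) := by
  obtain ⟨c, e, h1, h2⟩ := exists_points hE v _ h.1 h.2
  refine ⟨c, e, h1, fun f hf hv => h2 f ⟨hf, fun j => hv (Sum.inl j)⟩ fun l => ?_⟩
  exact van_one_iff.mp (hv (Sum.inr l))

theorem few_mc [Infinite K] {p q r t o₁ o₂ : ℕ} (hpt : p * t = q * r + 1) {D : ℕ → ℕ → Prop}
    (hD : ∀ i k, D i k → q * k ≤ o₁ ∧ r * i ≤ o₂) {m : ι → ℕ} {x z τ η : ι → K}
    (hτ : ∀ j, τ j ≠ 0) (hη : ∀ j, η j ≠ 0) (hx : ∀ j, x j * η j ^ r = τ j ^ p)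
    (hz : ∀ j, z j * τ j ^ q = η j ^ t) {v : ℕ} (h : Few (mcD p q r t o₁ o₂ D) m τ η v) :
    Few D m x z v := by
  obtain ⟨c, e, h1, h2⟩ := h.exists_emp (E := C X * Y)
    (mul_ne_zero (C_ne_zero.mpr X_ne_zero) X_ne_zero)
  simp only [evalEval_mul, evalEval_C, eval_X, evalEval_X] at h1
  have hc : ∀ l, c l ≠ 0 := fun l => left_ne_zero_of_mul (h1 l)
  have he : ∀ l, e l ≠ 0 := fun l => right_ne_zero_of_mul (h1 l)
  have h3 := emp_mc hpt hD (x := Sum.elim x (fun l => c l ^ p / e l ^ r))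
    (z := Sum.elim z (fun l => e l ^ t / c l ^ q)) ?_ ?_ ?_ ?_ h2
  · exact few_of_emp h3 (fun _ => le_rfl) (fun _ => rfl) (fun _ => rfl) (fun _ => rfl)
  · rintro (j | l)
    exacts [hτ j, hc l]
  · rintro (j | l)
    exacts [hη j, he l]
  · rintro (j | l)
    exacts [hx j, div_mul_cancel₀ _ (pow_ne_zero _ (he l))]
  · rintro (j | l)
    exacts [hz j, div_mul_cancel₀ _ (pow_ne_zero _ (hc l))]

theorem few_binomial [CharZero K] [Fintype ι] {p q r t o₁ o₂ : ℕ} (hpt : p * t = q * r + 1)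
    {D : ℕ → ℕ → Prop} (hD : Bdd D) {m : ι → ℕ} {a b : ι → K[X]} {v : ℕ}
    (h : Few (rowD p q o₁ D) m (fun j => (a j).eval 0) (fun j => (b j).eval 0) v)
    {E : K[X]} (hE : E ≠ 0) :
    ∃ s : K, E.eval s ≠ 0 ∧ Few (mcD p q r t o₁ o₂ D) m (fun j => (a j).eval s)
      (fun j => (X * b j + 1).eval s) v := by
  have : Infinite K := CharZero.infinite K
  obtain ⟨c, e, -, h2⟩ := h.exists_emp one_ne_zero
  have h3 := emp_binomial (o₂ := o₂) hpt (D := D) (o₁ := o₁) (m := Sum.elim m (fun _ => 1))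
    (a := Sum.elim a (fun l => C (c l))) (b := Sum.elim b (fun l => C (e l))) (by
      convert h2 using 2 <;> rename_i j <;> rcases j with j | l <;> simp)
  obtain ⟨s, hs, h4⟩ := emp_specialise hD.mcD h3 hE
  exact ⟨s, hs, few_of_emp h4 (fun _ => le_rfl) (fun _ => rfl) (fun _ => rfl) (fun _ => rfl)⟩

theorem few_compress [CharZero K] [Fintype ι] {D : ℕ → ℕ → Prop} (hD : Bdd D) {N : ℕ → ℕ}
    (hN : ∀ k, ∀ s : Finset ℕ, (∀ i ∈ s, D i k) → s.card ≤ N k) {m : ι → ℕ} {a b : ι → K}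
    {v : ℕ} (h : Few (fun i k => i < N k) m a b v) {E : K[X]} (hE : E ≠ 0) :
    ∃ s : K, E.eval s ≠ 0 ∧ Few D m (fun j => (X * C (a j) + 1).eval s) b v := by
  have : Infinite K := CharZero.infinite K
  obtain ⟨c, e, -, h2⟩ := h.exists_emp one_ne_zero
  obtain ⟨s, hs, h4⟩ := emp_specialise hD (emp_compress hN h2) hE
  exact ⟨s, hs, few_of_emp h4 (fun _ => le_rfl) (fun _ => rfl) (fun _ => rfl) (fun _ => eval_C)⟩

theorem few_elementary [Infinite K] [Fintype ι] {m μ W α β σ e ε : ℕ} (hW : W = m + μ)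
    (hn : Fintype.card ι + ε = 2 * e + σ) (hε : ε ≤ e)
    (hβ : α + W * e ≤ β + m * Fintype.card ι) {x : ι → K} (hx : Function.Injective x) {v : ℕ}
    (h : Few (trap W β ε) (fun _ => μ) x (fun j => x j ^ e) v) :
    ∃ y : ι → K, Few (trap W α σ) (fun _ => m) x y v := by
  obtain ⟨A, B, P, hP, H⟩ := exists_elementary hW hn hε hβ hx
  obtain ⟨c, z, h1, h2⟩ := h.exists_emp (E := C P * (Y - C (X ^ e)))
    (mul_ne_zero (C_ne_zero.mpr hP) (X_sub_C_ne_zero _))
  simp only [evalEval_mul, evalEval_C, evalEval_sub, evalEval_X, eval_pow, eval_X] at h1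
  refine ⟨fun j => A.eval (x j), ?_⟩
  have h3 : Emp (trap W α σ) (Sum.elim (fun _ => m) (fun _ : Fin v => 1)) (Sum.elim x c)
      (Sum.elim (fun j => A.eval (x j))
        (fun l => (A.eval (c l) * z l + B.eval (c l)) / (z l - c l ^ e))) := by
    intro f hf hv
    obtain ⟨g, g1, g2, g3, g4⟩ := H f hf (fun j => hv (Sum.inl j))
    apply g3
    apply h2 g g1
    rintro (j | l)
    · exact g2 j
    · have h4 := hv (Sum.inr l)
      simp only [Sum.elim_inr] at h4 ⊢
      rw [van_one_iff] at h4 ⊢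
      have hl := right_ne_zero_of_mul (h1 l)
      have hfW : f.natDegree < W + 1 := by
        rw [Nat.lt_succ_iff, natDegree_le_iff_coeff_eq_zero]
        intro k hk
        ext i
        by_contra h0
        exact absurd (hf i k h0).1 (by omega)
      rw [evalEval, eval_eq_sum_range' hfW, eval_finsetSum] at h4
      have h5 := congrArg (evalEval (c l) (z l)) g4
      rw [evalEval_mul, evalEval_C, eval_pow, evalEval_finsetSum] at h5
      have h6 : ∑ k ∈ range (W + 1), (C (f.coeff k) * (C A * Y + C B) ^ k *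
          (Y - C (X ^ e)) ^ (W - k) : K[X][Y]).evalEval (c l) (z l) = 0 := by
        rw [← mul_zero ((z l - c l ^ e) ^ W), ← h4, Finset.mul_sum]
        apply Finset.sum_congr rfl
        intro k hk
        have hk' : k ≤ W := Nat.lt_succ_iff.mp (mem_range.mp hk)
        have : (z l - c l ^ e) ^ W = (z l - c l ^ e) ^ (W - k) * (z l - c l ^ e) ^ k := by
          rw [← pow_add, Nat.sub_add_cancel hk']
        rw [this]
        simp only [evalEval_mul, evalEval_pow, evalEval_add, evalEval_sub, evalEval_C, evalEval_X,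
          eval_pow, eval_X, eval_mul, eval_C, div_pow]
        field_simp
      rw [h6] at h5
      exact (mul_eq_zero.mp h5).resolve_left (pow_ne_zero _ (left_ne_zero_of_mul (h1 l)))
  exact few_of_emp h3 (fun _ => le_rfl) (fun _ => rfl) (fun _ => rfl) (fun _ => rfl)

end Pool.Agent.Lib.MP_6e81d8_ag.H88
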