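import Mathlib
import Pool.Agent.Lib.MP_6e81d8_ag.H88Game

/-!
Filling the rows of a trapezoid exactly: every point imposes independent conditions.
-/

set_option autoImplicit false
set_option maxHeartbeats 400000

namespace Pool.Agent.Lib.MP_6e81d8_ag.H88

open Polynomial Finset
open scoped Polynomial.Bivariate

variable {K : Type} [Field K] {ι : Type*}

/-- The order of vanishing that a point of type `t` forces on the row `y`. -/
def ordf (μ w t y : ℕ) : ℕ :=
  match t with
  | 0 => μ - y
  | 1 => if w ≤ y then μ + w - y else 0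
  | h + 2 => if w ≤ y then (if y ≤ μ + h then y - h else μ + w - y) else 0

lemma sum_range_rev (n : ℕ) : 2 * ∑ i ∈ range (n + 1), (n - i) = n * (n + 1) := by
  have h1 := sum_range_reflect (fun i => i) (n + 1)
  have h2 := sum_range_id_mul_two (n + 1)
  simp only [Nat.add_sub_cancel] at h1 h2
  rw [h1]
  linarith

lemma sum_ordf {μ w t : ℕ} (hw : w ≤ μ) (ht : t ≤ w + 2) :
    μ * (μ + 1) ≤ 2 * ∑ y ∈ range (μ + w + 1), ordf μ w t y := by
  match t, ht with
  | 0, _ =>
    rw [← sum_range_rev]
    exact Nat.mul_le_mul_left _ (sum_le_sum_of_subset (range_subset_range.mpr (by omega)))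
  | 1, _ =>
    rw [← sum_range_rev, show μ + w + 1 = w + (μ + 1) by omega, sum_range_add _ w (μ + 1)]
    apply Nat.mul_le_mul_left
    refine le_trans (le_of_eq ?_) (Nat.le_add_left _ _)
    apply sum_congr rfl
    intro i _
    simp only [ordf]
    rw [if_pos (by omega)]
    omega
  | h + 2, ht =>
    obtain ⟨z, rfl⟩ := Nat.exists_eq_add_of_le (show h ≤ w by omega)
    obtain ⟨ν, rfl⟩ := Nat.exists_eq_add_of_le hw
    have h1 := sum_range_id_mul_two (h + z + ν + 1)
    rw [Nat.add_sub_cancel, show h + z + ν + 1 = z + (h + ν + 1) by omega, sum_range_add] at h1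
    rw [show h + z + ν + (h + z) + 1 = (h + z) + (h + ν + 1) + z by omega, sum_range_add,
      sum_range_add]
    have h2 : ∑ x ∈ range (h + ν + 1), ordf (h + z + ν) (h + z) (h + 2) (h + z + x)
        = ∑ x ∈ range (h + ν + 1), (z + x) := by
      apply sum_congr rfl
      intro i hi
      have := mem_range.mp hi
      simp only [ordf]
      rw [if_pos (by omega), if_pos (by omega)]
      omega
    have h3 : ∑ x ∈ range z, ordf (h + z + ν) (h + z) (h + 2) (h + z + (h + ν + 1) + x)
        = ∑ x ∈ range z, x := by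
      rw [← sum_range_reflect (fun i => i) z]
      apply sum_congr rfl
      intro i hi
      have := mem_range.mp hi
      simp only [ordf]
      rw [if_pos (by omega), if_neg (by omega)]
      omega
    rw [h2, h3]
    nlinarith [Nat.zero_le (∑ x ∈ range (h + z), ordf (h + z + ν) (h + z) (h + 2) x)]

theorem emp_fill_cert [CharZero K] [Fintype ι] {μ w : ℕ} (hw : w ≤ μ) (hμ : 1 ≤ μ)
    (lo : ℕ → ℕ) (typ : ι → ℕ) (htyp : ∀ j, typ j ≤ w + 2)
    {x : ι → K} (hx : Function.Injective x) (hx0 : ∀ j, x j ≠ 0) :
    ∃ b : ι → K, Emp (fun a y => y ≤ μ + w ∧ lo y ≤ a ∧ a < lo y + ∑ j, ordf μ w (typ j) y)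
      (fun _ => μ) x b := by
  classical
  set G := 2 + ∑ s ∈ range (μ + w), inc μ s with hG
  let f : ℕ → ℕ := fun s => if s < w then 1 else G + inc μ s
  let v : ι → ℕ := fun j => match typ j with
    | 0 => 0
    | 1 => G
    | h + 2 => G + ((μ + 2) ^ h + 1)
  let U : ι → ℕ → Finset ℕ := fun j k => match typ j with
    | 0 => range k
    | 1 => if w ≤ k then Ico w k else (range (μ + w + 1)).erase k
    | h + 2 => if w ≤ k ∧ h < k then (if k ≤ μ + h then Ioc k (μ + h) else Ico w k)
        else (range (μ + w + 1)).erase k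
  have hf1 : ∀ s, 1 ≤ f s := by
    intro s
    simp only [f]
    split_ifs <;> omega
  have hf2 : ∀ s, w ≤ s → f s = G + inc μ s := fun s hs => if_neg (by omega)
  have hlow : ∀ k' k V, k' < w → w ≤ k → k ≤ μ + w → G ≤ V →
      V * k' + ∑ s ∈ range k, f s < V * k + ∑ s ∈ range k', f s := by
    intro k' k V h1 h2 h3 h4
    obtain ⟨u, rfl⟩ := Nat.exists_eq_add_of_le h1.le
    obtain ⟨z, rfl⟩ := Nat.exists_eq_add_of_le h2
    have h5 := sum_range_le_of (f := f) (a := k') (u := u) (c := 1)
      (fun s _ hs => le_of_eq (if_pos hs))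
    have h6 : ∑ s ∈ range (k' + u + z), f s
        = ∑ s ∈ range (k' + u), f s + (z * G + ∑ s ∈ range z, inc μ (k' + u + s)) := by
      rw [sum_range_add, sum_congr rfl (fun s _ => hf2 (k' + u + s) (by omega)), sum_add_distrib]
      simp
    have h7 : ∑ s ∈ range z, inc μ (k' + u + s) + 2 ≤ G := by
      have h8 : ∑ s ∈ range (k' + u + z), inc μ s ≤ ∑ s ∈ range (μ + (k' + u)), inc μ s :=
        sum_le_sum_of_subset (range_subset_range.mpr h3)
      rw [sum_range_add] at h8
      omega
    have h8 : 1 ≤ u := by omega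
    have h9 : G * (u + z) ≤ V * (u + z) := Nat.mul_le_mul_right _ h4
    have h10 : (G - 1) * 1 ≤ (G - 1) * u := Nat.mul_le_mul_left _ h8
    have h11 : G * u = (G - 1) * u + u := by
      conv_lhs => rw [show G = (G - 1) + 1 by omega]
      ring
    nlinarith
  have hup : ∀ k k' V, k < k' → (∀ s, k ≤ s → V < f s) →
      V * k' + ∑ s ∈ range k, f s < V * k + ∑ s ∈ range k', f s := by
    intro k k' V h1 h2
    obtain ⟨u, rfl⟩ := Nat.exists_eq_add_of_le h1.le
    have := le_sum_range_of (f := f) (a := k) (u := u) (c := V + 1) h2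
    have h3 : 1 ≤ u := by omega
    nlinarith
  have hD : Bdd (fun a y => y ≤ μ + w ∧ lo y ≤ a ∧ a < lo y + ∑ j, ordf μ w (typ j) y) := by
    refine ⟨μ + w + 1 + ∑ y ∈ range (μ + w + 1), (lo y + ∑ j, ordf μ w (typ j) y), ?_⟩
    rintro a y ⟨h1, -, h3⟩
    have := single_le_sum (f := fun y => lo y + ∑ j, ordf μ w (typ j) y)
      (fun _ _ => Nat.zero_le _) (mem_range.mpr (show y < μ + w + 1 by omega))
    constructor <;> omega
  have H := emp_speeds (K := K)
    (D := fun a y => y ≤ μ + w ∧ lo y ≤ a ∧ a < lo y + ∑ j, ordf μ w (typ j) y) (μ + w)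
    (fun i k h => h.1) (fun _ => μ) x v (fun t => ∑ s ∈ range t, f s) U ?_ ?_ ?_
  · have : Infinite K := CharZero.infinite K
    obtain ⟨t, -, ht⟩ := emp_specialise hD H one_ne_zero
    exact ⟨_, by simpa using ht⟩
  · intro j k
    simp only [U]
    split
    · simp
    · split_ifs <;> simp
    · split_ifs <;> simp
  · intro j k k' hk hk' hne
    have ht := htyp j
    simp only [U, v]
    match typ j, ht with
    | 0, _ =>
      dsimp only
      intro hU
      rw [mem_range] at hU
      exact hup k k' 0 (by omega) (fun s _ => hf1 s)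
    | 1, _ =>
      dsimp only
      split_ifs with hc
      · intro hU
        rw [mem_Ico] at hU
        by_cases h1 : k' < w
        · exact hlow k' k G h1 hc hk le_rfl
        · refine hup k k' G (by omega) (fun s hs => ?_)
          have := one_le_inc μ s
          rw [hf2 s (by omega)]
          omega
      · intro hU
        exact absurd (mem_erase.mpr ⟨hne, mem_range.mpr (by omega)⟩) hU
    | h + 2, ht =>
      dsimp only
      have hE : 1 ≤ (μ + 2) ^ h := Nat.one_le_pow _ _ (by omega)
      split_ifs with hc hc'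
      · intro hU
        rw [mem_Ioc] at hU
        rcases lt_or_gt_of_ne hne with hlt | hgt
        · obtain ⟨u, rfl⟩ := Nat.exists_eq_add_of_le hlt.le
          have h1 := sum_range_le_of (f := f) (a := k') (u := u) (c := G + (μ + 2) ^ h)
            (fun s _ hs => by
              have := inc_le (μ := μ) (h := h) (s := s) (by omega)
              simp only [f]
              split_ifs <;> omega)
          have h2 : 1 ≤ u := by omega
          nlinarith
        · obtain ⟨z, hz⟩ := Nat.exists_eq_add_of_le hc'
          obtain ⟨u, rfl⟩ := Nat.exists_eq_add_of_le (show k + z ≤ k' by omega)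
          have h1 := le_sum_range_of (f := f) (a := k) (u := z) (c := G + 1)
            (fun s hs => by
              have := one_le_inc μ s
              rw [hf2 s (by omega)]
              omega)
          have h2 := le_sum_range_of (f := f) (a := k + z) (u := u) (c := G + (μ + 2) ^ (h + 1))
            (fun s hs => by
              have := le_inc (μ := μ) (h := h) (s := s) (by omega)
              rw [hf2 s (by omega)]
              omega)
          have h3 : 1 ≤ u := by omega
          have h4 : z + 1 ≤ μ := by omega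
          rw [pow_succ] at h2
          generalize (μ + 2) ^ h = E at *
          have h5 : E * z + E ≤ E * μ := by nlinarith only [h4]
          have h6 : E * μ ≤ u * (E * μ) := Nat.le_mul_of_pos_left _ h3
          have h7 : u ≤ u * E := Nat.le_mul_of_pos_right _ hE
          nlinarith only [h1, h2, h5, h6, h7, hE]
      · intro hU
        rw [mem_Ico] at hU
        by_cases h1 : k' < w
        · exact hlow k' k _ h1 hc.1 hk (Nat.le_add_right _ _)
        · refine hup k k' _ (by omega) (fun s hs => ?_)
          have := le_inc (μ := μ) (h := h) (s := s) (by omega)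
          rw [hf2 s (by omega), pow_succ] at *
          nlinarith only [this, hE, hμ]
      · intro hU
        exact absurd (mem_erase.mpr ⟨hne, mem_range.mpr (by omega)⟩) hU
  · intro k _ g hg hd
    apply row_eq_zero hx hx0 (fun j => ordf μ w (typ j) k) (lo k) g (fun i hi => (hg i hi).2)
    intro j
    refine (pow_dvd_pow _ ?_).trans (hd j)
    have ht := htyp j
    simp only [U]
    match typ j, ht with
    | 0, _ => simp [ordf]
    | 1, _ =>
      simp only [ordf]
      split_ifs with h1
      · rw [Nat.card_Ico]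
        omega
      · omega
    | h + 2, ht =>
      simp only [ordf]
      by_cases h1 : w ≤ k
      · by_cases h2 : h < k
        · rw [if_pos h1, if_pos (show w ≤ k ∧ h < k from ⟨h1, h2⟩)]
          split_ifs with h3
          · rw [Nat.card_Ioc]
            omega
          · rw [Nat.card_Ico]
            omega
        · rw [if_pos h1, if_pos (by omega)]
          omega
      · rw [if_neg h1]
        omega

lemma fill_numerics {τ σ μ w α : ℕ} (hσ : 2 * τ ≤ σ) (hw : w ≤ μ) (hμ : 1 ≤ μ)
    (hα : σ * (μ + w) ≤ α)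
    (hA : (2 * τ + σ) * μ * (μ + 1) + σ * (μ + w) * (μ + w + 1) + 4 * τ * w ^ 2 + 4 * w * μ
      ≤ 2 * α * (μ + w + 1)) :
    ∃ (j : ℕ) (hh : ℕ → ℕ), j ≤ τ ∧ (∀ i, hh i ≤ w) ∧ ∀ y ≤ μ + w,
      ∑ i ∈ range τ, ordf μ w (hh i + 2) y + j * ordf μ w 1 y + (τ + σ - j) * ordf μ w 0 y
        + σ * y ≤ α := by
  classical
  obtain ⟨γ, rfl⟩ := Nat.exists_eq_add_of_le hα
  set E := τ * μ - (γ + σ * w) with hEdef
  set T := ∑ l ∈ range w, (γ + σ * (w - 1 - l)) with hT
  have hS := sum_range_reflect (fun l => l) w
  have hS2 : 2 * ∑ l ∈ range w, l + w = w * w := by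
    have h2 := sum_range_id_mul_two w
    rcases w with _ | w
    · simp
    · rw [Nat.add_sub_cancel] at h2
      nlinarith only [h2]
  have hT1 : T = w * γ + σ * ∑ l ∈ range w, l := by
    simp only [hT, sum_add_distrib, ← mul_sum]
    rw [hS]
    simp
  have hE1 : E = 0 ∨ (γ + σ * w + E = τ * μ ∧
      (μ + 1) * E + 2 * τ * w ^ 2 + 2 * w * μ ≤ T) := by
    by_cases h : τ * μ ≤ γ + σ * w
    · left
      omega
    · right
      have h1 : γ + σ * w + E = τ * μ := by omega
      refine ⟨h1, ?_⟩
      have h2 := congrArg (fun z => σ * z) hS2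
      have h3 := congrArg (fun z => (μ + 1) * z) h1
      nlinarith only [hA, h2, h3, hT1]
  have hE2 : τ * μ ≤ γ + σ * w + E := by omega
  have hE3 : E ≤ τ * w := by
    rcases hE1 with h | ⟨h1, h2⟩
    · omega
    · have h3 : T ≤ w * (γ + σ * w) := by
        have h4 : σ * ∑ l ∈ range w, l ≤ σ * (w * w) := Nat.mul_le_mul_left _ (by omega)
        nlinarith only [hT1, h4]
      have h4 : w * (γ + σ * w) ≤ w * (τ * μ) := Nat.mul_le_mul_left _ (by omega)
      have h5 : (μ + 1) * E ≤ (μ + 1) * (τ * w) := by
        nlinarith only [h2, h3, h4, Nat.zero_le (τ * w ^ 2), Nat.zero_le (w * μ),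
          Nat.zero_le (τ * w)]
      exact Nat.le_of_mul_le_mul_left h5 (by omega)
  obtain ⟨j, hj1, hj2, hj3⟩ : ∃ j, E ≤ j * μ ∧ j * μ ≤ E + μ - 1 ∧ (E = 0 → j = 0) := by
    refine ⟨(E + μ - 1) / μ, ?_, Nat.div_mul_le_self _ _, fun h => ?_⟩
    · have := Nat.lt_div_mul_add (a := E + μ - 1) hμ
      omega
    · rw [h]
      exact Nat.div_eq_of_lt (by omega)
  have hjτ : j ≤ τ := by
    have h1 : τ * w ≤ τ * μ := Nat.mul_le_mul_left _ hw
    have h2 : j * μ < (τ + 1) * μ := by
      rw [add_mul]
      omega
    exact Nat.lt_succ_iff.mp (Nat.lt_of_mul_lt_mul_right h2)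
  obtain ⟨ρ, hρ⟩ := Nat.exists_eq_add_of_le (show j + τ ≤ σ by omega)
  let c : ℕ → ℕ := fun l => min τ ((γ + ρ * (w - 1 - l)) / μ)
  let hh : ℕ → ℕ := fun i => ((range w).filter (fun l => i < c l)).card
  have hhw : ∀ i, hh i ≤ w := fun i => (card_filter_le _ _).trans (card_range w).le
  have hcanti : ∀ l l', l ≤ l' → c l' ≤ c l := by
    intro l l' h
    apply min_le_min le_rfl
    apply Nat.div_le_div_right
    have : ρ * (w - 1 - l') ≤ ρ * (w - 1 - l) := Nat.mul_le_mul_left _ (by omega)
    omega
  have hle : ∀ i l, c l ≤ i → hh i ≤ l := by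
    intro i l hi
    have : (range w).filter (fun l => i < c l) ⊆ range l := by
      intro l' hl'
      rw [mem_range]
      by_contra h
      have := hcanti l l' (by omega)
      have := (mem_filter.mp hl').2
      omega
    simpa using card_le_card this
  set H := ∑ i ∈ range τ, hh i with hH
  have hH1 : H = ∑ l ∈ range w, c l := by
    simp only [hH, hh, card_filter]
    rw [sum_comm]
    apply sum_congr rfl
    intro l _
    rw [← card_filter]
    have : (range τ).filter (fun i => i < c l) = range (c l) := by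
      ext i
      have : c l ≤ τ := min_le_left _ _
      simp only [mem_filter, mem_range]
      omega
    rw [this, card_range]
  have hHE : E + j * w ≤ H := by
    rcases hE1 with h | ⟨h1, h2⟩
    · rw [h, hj3 h]
      simp
    · have h3 : ∑ l ∈ range w, (γ + ρ * (w - 1 - l)) ≤ ∑ l ∈ range w, (c l * μ + μ) := by
        apply sum_le_sum
        intro l _
        have h4 : ρ * (w - 1 - l) ≤ σ * w := Nat.mul_le_mul (by omega) (by omega)
        have h5 : (γ + ρ * (w - 1 - l)) / μ ≤ τ := Nat.div_le_of_le_mul (by
          rw [mul_comm μ τ]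
          omega)
        simp only [c, min_eq_right h5]
        exact (Nat.lt_div_mul_add hμ).le
      simp only [sum_add_distrib, ← mul_sum, ← sum_mul, sum_const, card_range, smul_eq_mul] at h3
      rw [hS, ← hH1] at h3
      generalize ∑ l ∈ range w, l = S at *
      have h4 : (j + τ) * (2 * S) ≤ (τ + τ) * (w * w) := Nat.mul_le_mul (by omega) (by omega)
      have h5 : w * (j * μ) ≤ w * (τ * w + μ) := Nat.mul_le_mul_left _ (by omega)
      have h6 : μ * (E + j * w) ≤ μ * H := by
        rw [hρ] at hT1
        nlinarith only [h2, h3, h4, h5, hT1, Nat.zero_le E]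
      exact Nat.le_of_mul_le_mul_left h6 hμ
  refine ⟨j, hh, hjτ, hhw, fun y hy => ?_⟩
  obtain ⟨a', ha'⟩ := Nat.exists_eq_add_of_le (show j ≤ τ + σ by omega)
  rw [show τ + σ - j = a' by omega]
  by_cases h1 : y < w
  · have h2 : ∑ i ∈ range τ, ordf μ w (hh i + 2) y = 0 := by
      apply sum_eq_zero
      intro i _
      simp only [ordf]
      rw [if_neg (by omega)]
    obtain ⟨z, hz⟩ := Nat.exists_eq_add_of_le (show y ≤ μ by omega)
    rw [h2]
    simp only [ordf]
    rw [if_neg (by omega), show μ - y = z by omega]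
    have h3 : j * y ≤ τ * y := Nat.mul_le_mul_right _ hjτ
    have h4 := congrArg (fun t => t * z) ha'
    rw [hz] at hE2 hj1 ⊢
    nlinarith only [h3, h4, hE2, hj1]
  · by_cases h2 : y ≤ μ
    · have h3 : ∑ i ∈ range τ, ordf μ w (hh i + 2) y + H = τ * y := by
        rw [hH, ← sum_add_distrib, sum_congr rfl (g := fun _ => y)]
        · simp
        · intro i _
          have := hhw i
          simp only [ordf]
          rw [if_pos (by omega), if_pos (by omega)]
          omega
      obtain ⟨z, hz⟩ := Nat.exists_eq_add_of_le h2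
      generalize ∑ i ∈ range τ, ordf μ w (hh i + 2) y = S at *
      simp only [ordf]
      rw [if_pos (by omega), show μ - y = z by omega, show μ + w - y = z + w by omega]
      have h4 := congrArg (fun t => t * z) ha'
      rw [hz] at hE2 ⊢
      nlinarith only [h3, h4, hE2, hHE]
    · obtain ⟨l, rfl⟩ := Nat.exists_eq_add_of_lt (not_le.mp h2)
      obtain ⟨z, hz⟩ := Nat.exists_eq_add_of_lt (show l < w by omega)
      have h3 : ∑ i ∈ range τ, ordf μ w (hh i + 2) (μ + l + 1)
          ≤ ∑ i ∈ range τ, ((if i < c l then μ else 0) + z) := by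
        apply sum_le_sum
        intro i _
        simp only [ordf]
        rw [if_pos (by omega)]
        by_cases h4 : i < c l
        · rw [if_pos h4]
          split_ifs <;> omega
        · have := hle i l (by omega)
          rw [if_neg h4, if_neg (by omega)]
          omega
      have h4 : ∑ i ∈ range τ, (if i < c l then μ else 0) ≤ c l * μ := by
        rw [← sum_filter, sum_const, smul_eq_mul]
        apply Nat.mul_le_mul_right
        have : (range τ).filter (fun i => i < c l) ⊆ range (c l) := fun i hi =>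
          mem_range.mpr (mem_filter.mp hi).2
        simpa using card_le_card this
      have h5 : c l * μ ≤ γ + ρ * z := by
        have h6 : c l * μ ≤ (γ + ρ * (w - 1 - l)) / μ * μ :=
          Nat.mul_le_mul_right _ (min_le_right _ _)
        rw [show w - 1 - l = z by omega] at h6
        exact h6.trans (Nat.div_mul_le_self _ _)
      rw [sum_add_distrib, sum_const, card_range, smul_eq_mul] at h3
      generalize ∑ i ∈ range τ, ordf μ w (hh i + 2) (μ + l + 1) = S at *
      simp only [ordf]
      rw [if_pos (by omega), show μ - (μ + l + 1) = 0 by omega,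
        show μ + w - (μ + l + 1) = z by omega]
      have h6 : σ * (μ + w) = σ * (μ + l + 1) + σ * z := by
        rw [← mul_add]
        congr 1
        omega
      have h7 := congrArg (fun t => t * z) hρ
      simp only [add_mul] at h7
      omega

theorem exists_fill [CharZero K] {n τ σ μ w α : ℕ} (hn : n = 2 * τ + σ) (hσ : 2 * τ ≤ σ)
    (hw : w ≤ μ) (hμ : 1 ≤ μ) (hα : σ * (μ + w) ≤ α)
    (hA : n * μ * (μ + 1) + σ * (μ + w) * (μ + w + 1) + 4 * τ * w ^ 2 + 4 * w * μ
      ≤ 2 * α * (μ + w + 1))
    (lo : ℕ → ℕ) {x : Fin n → K} (hx : Function.Injective x) (hx0 : ∀ j, x j ≠ 0) :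
    ∃ (N : ℕ → ℕ) (b : Fin n → K), (∀ y ≤ μ + w, N y + σ * y ≤ α) ∧
      n * μ * (μ + 1) ≤ 2 * ∑ y ∈ range (μ + w + 1), N y ∧
      Emp (fun a y => y ≤ μ + w ∧ lo y ≤ a ∧ a < lo y + N y) (fun _ => μ) x b := by
  obtain ⟨j, hh, hj, hhw, H⟩ := fill_numerics hσ hw hμ hα (hn ▸ hA)
  let typ : ℕ → ℕ := fun i => if i < τ then hh i + 2 else if i < τ + j then 1 else 0
  have htyp : ∀ i, typ i ≤ w + 2 := by
    intro i
    have := hhw i
    simp only [typ]
    split_ifs <;> omega
  obtain ⟨b, hb⟩ := emp_fill_cert hw hμ lo (fun i : Fin n => typ i.val) (fun i => htyp _) hx hx0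
  refine ⟨fun y => ∑ i : Fin n, ordf μ w (typ i.val) y, b, fun y hy => ?_, ?_, hb⟩
  · have h1 : ∑ i : Fin n, ordf μ w (typ i.val) y = ∑ i ∈ range τ, ordf μ w (hh i + 2) y
        + j * ordf μ w 1 y + (τ + σ - j) * ordf μ w 0 y := by
      rw [Fin.sum_univ_eq_sum_range (fun i => ordf μ w (typ i) y) n,
        show n = τ + j + (τ + σ - j) by omega, sum_range_add, sum_range_add]
      congr 1
      · congr 1
        · apply sum_congr rfl
          intro i hi
          simp only [typ, if_pos (mem_range.mp hi)]
        · rw [sum_congr rfl (g := fun _ => ordf μ w 1 y)]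
          · simp
          · intro i hi
            have := mem_range.mp hi
            simp only [typ]
            rw [if_neg (by omega), if_pos (by omega)]
      · rw [sum_congr rfl (g := fun _ => ordf μ w 0 y)]
        · simp
        · intro i _
          simp only [typ]
          rw [if_neg (by omega), if_neg (by omega)]
    dsimp only
    rw [h1]
    exact H y hy
  · rw [sum_comm, mul_sum]
    have : ∑ _i : Fin n, μ * (μ + 1)
        ≤ ∑ i : Fin n, 2 * ∑ y ∈ range (μ + w + 1), ordf μ w (typ i.val) y :=
      sum_le_sum (fun i _ => sum_ordf hw (htyp _))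
    simpa [mul_assoc] using this

end Pool.Agent.Lib.MP_6e81d8_ag.H88
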