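import Mathlib
import Pool.Agent.Lib.MP_6e81d8_ag.H88Few
import Pool.Agent.Lib.MP_6e81d8_ag.H88Fill

/-!
The two degenerations along binomial curves, for systems of positive virtual dimension.
-/

set_option autoImplicit false
set_option maxHeartbeats 400000

namespace Pool.Agent.Lib.MP_6e81d8_ag.H88

open Polynomial Finset
open scoped Polynomial.Bivariate

/-- The rows `k < R`, the row `k` being the interval of length `N k` starting at `lo k`. -/
def rowsF (R : ℕ) (lo N : ℕ → ℕ) : Finset (ℕ × ℕ) :=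
  ((range R).sigma (fun k => Ico (lo k) (lo k + N k))).image (fun z => (z.2, z.1))

lemma mem_rowsF {R : ℕ} {lo N : ℕ → ℕ} {i k : ℕ} :
    (i, k) ∈ rowsF R lo N ↔ k < R ∧ lo k ≤ i ∧ i < lo k + N k := by
  simp only [rowsF, mem_image, mem_sigma, mem_range, mem_Ico, Prod.mk.injEq]
  constructor
  · rintro ⟨⟨k', i'⟩, h, rfl, rfl⟩
    exact h
  · intro h
    exact ⟨⟨k, i⟩, h, rfl, rfl⟩

lemma card_rowsF (R : ℕ) (lo N : ℕ → ℕ) : (rowsF R lo N).card = ∑ k ∈ range R, N k := by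
  rw [rowsF, card_image_of_injective, card_sigma]
  · simp
  · rintro ⟨k, i⟩ ⟨k', i'⟩ h
    simp only [Prod.mk.injEq] at h
    obtain ⟨rfl, rfl⟩ := h
    rfl

lemma sum_trap {W β ε : ℕ} (h : ε * W ≤ β) :
    2 * ∑ k ∈ range (W + 1), (β + 1 - ε * k) + ε * W * (W + 1) = 2 * (W + 1) * (β + 1) := by
  have h1 : ∑ k ∈ range (W + 1), (β + 1 - ε * k) + ε * ∑ k ∈ range (W + 1), k
      = (W + 1) * (β + 1) := by
    rw [mul_sum, ← sum_add_distrib, sum_congr rfl (g := fun _ => β + 1)]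
    · simp
    · intro k hk
      have : ε * k ≤ ε * W := Nat.mul_le_mul_left _ (Nat.lt_succ_iff.mp (mem_range.mp hk))
      omega
  have h2 := congrArg (fun z => ε * z) (sum_range_id_mul_two (W + 1))
  simp only [Nat.add_sub_cancel] at h2
  nlinarith only [h1, h2]

lemma exists_rowD_finset {p q W β ε : ℕ} (hp : 1 ≤ p) (hq : 1 ≤ q) (h : ε * W ≤ β) :
    ∃ s : Finset (ℕ × ℕ), (∀ a y, rowD p q (q * W) (trap W β ε) a y → (a, y) ∈ s) ∧
      2 * s.card + ε * W * (W + 1) ≤ 2 * (W + 1) * (β + 1) := by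
  refine ⟨(rowsF (W + 1) (fun _ => 0) (fun k => β + 1 - ε * k)).image
    (fun z => (p * z.1 + q * W - q * z.2, min (z.1 / q) (z.2 / p))), ?_, ?_⟩
  · rintro a y ⟨i, k, y', hy, -, ⟨h1, h2⟩, h3⟩
    set j := min (i / q) (k / p) with hj
    have h4 : q * j ≤ i := (Nat.mul_le_mul_left _ (min_le_left _ _)).trans (Nat.mul_div_le _ _)
    have h5 : p * j ≤ k := (Nat.mul_le_mul_left _ (min_le_right _ _)).trans (Nat.mul_div_le _ _)
    obtain ⟨i₀, hi₀⟩ := Nat.exists_eq_add_of_le h4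
    obtain ⟨k₀, hk₀⟩ := Nat.exists_eq_add_of_le h5
    have h6 : i₀ / q = 0 ∨ k₀ / p = 0 := by
      have h7 : i / q = j + i₀ / q := by rw [hi₀, Nat.mul_add_div hq]
      have h8 : k / p = j + k₀ / p := by rw [hk₀, Nat.mul_add_div hp]
      omega
    rw [mem_image]
    have h9 : q * y ≤ q * y' := Nat.mul_le_mul_left _ hy
    have h10 : p * y ≤ p * y' := Nat.mul_le_mul_left _ hy
    refine ⟨(q * y + i₀, p * y + k₀), ?_, ?_⟩
    · rw [mem_rowsF]
      have h11 : ε * (p * y + k₀) ≤ ε * (k + p * y') := Nat.mul_le_mul_left _ (by omega)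
      omega
    · simp only [Prod.mk.injEq]
      constructor
      · rw [hi₀, hk₀] at h3
        have : a + q * (p * y + k₀) = p * (q * y + i₀) + q * W := by nlinarith only [h3]
        omega
      · rw [Nat.mul_add_div hq, Nat.mul_add_div hp]
        generalize i₀ / q = A at h6 ⊢
        generalize k₀ / p = B at h6 ⊢
        omega
  · have h1 := card_image_le (s := rowsF (W + 1) (fun _ => 0) (fun k => β + 1 - ε * k))
      (f := fun z => (p * z.1 + q * W - q * z.2, min (z.1 / q) (z.2 / p)))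
    rw [card_rowsF] at h1
    have h2 := sum_trap h
    omega

lemma middle_mem_rowD {p q r t W β ε a y : ℕ} (hp : 1 ≤ p) (hq : 1 ≤ q)
    (hpt : p * t = q * r + 1) (hW : p * (y + 1) ≤ W) (hβ : ε * W + q * (y + 1) ≤ β)
    (h1 : p * q * (y + 1) ≤ a) (h2 : a + (p * q + ε * p ^ 2) * (y + 1) ≤ p * β + q * W) :
    rowD p q (q * W) (trap W β ε) a y := by
  obtain ⟨k₀, hk1, hk2⟩ : ∃ k₀, q * W ≤ a + q * k₀ ∧ (k₀ = 0 ∨ a + q * k₀ < q * W + q) := by
    by_cases h : q * W ≤ a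
    · exact ⟨0, by omega, Or.inl rfl⟩
    · refine ⟨(q * W - a + q - 1) / q, ?_, Or.inr ?_⟩
      · have := Nat.lt_mul_div_succ (q * W - a + q - 1) hq
        rw [mul_add] at this
        omega
      · have := Nat.mul_div_le (q * W - a + q - 1) q
        omega
  obtain ⟨u, hu⟩ := Nat.exists_eq_add_of_le hk1
  set j := (u * r) % p with hj
  have hjp : j < p := Nat.mod_lt _ hp
  have hdvd : p ∣ u + q * j := by
    have h3 := Nat.div_add_mod (u * r) p
    rw [← hj] at h3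
    have h4 : p * (u * t) = p * (q * (u * r / p)) + (u + q * j) := by
      have h5 := congrArg (fun z => u * z) hpt
      have h6 := congrArg (fun z => q * z) h3
      nlinarith only [h5, h6]
    exact (Nat.dvd_add_right (Dvd.intro _ rfl)).mp (h4 ▸ Dvd.intro _ rfl)
  obtain ⟨i, hi⟩ := hdvd
  have h3 : q * (j + 1) ≤ q * p := Nat.mul_le_mul_left _ hjp
  have key : k₀ + j + p * y ≤ W ∧ i + q * y + ε * (k₀ + j + p * y) ≤ β := by
    rcases hk2 with rfl | hk2
    · refine ⟨by nlinarith only [hW, hjp], Nat.le_of_mul_le_mul_left ?_ hp⟩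
      have h4 : p * ε * (j + 1) ≤ p * ε * p := Nat.mul_le_mul_left _ hjp
      nlinarith only [h2, h3, h4, hu, hi, Nat.zero_le (p * ε)]
    · have h4 : k₀ + p * (y + 1) ≤ W := by
        have : q * (k₀ + p * (y + 1)) < q * (W + 1) := by nlinarith only [hk2, h1]
        exact Nat.lt_succ_iff.mp (Nat.lt_of_mul_lt_mul_left this)
      have h5 : k₀ + j + p * y ≤ W := by nlinarith only [h4, hjp]
      have h6 : i < q := by
        have : p * i < p * q := by nlinarith only [hk2, hu, hi, h3]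
        exact Nat.lt_of_mul_lt_mul_left this
      have h7 : ε * (k₀ + j + p * y) ≤ ε * W := Nat.mul_le_mul_left _ h5
      exact ⟨h5, by nlinarith only [h6, h7, hβ]⟩
  refine ⟨i, k₀ + j, y, le_rfl, ⟨by omega, ?_⟩, key, by nlinarith only [hu, hi]⟩
  have : ε * (k₀ + j) ≤ ε * (k₀ + j + p * y) := Nat.mul_le_mul_left _ (by omega)
  omega

theorem level_two_geom {n μ W β ε e p q t r : ℕ} (hq : 1 ≤ q) (hpt : p * t = q * r + 1)
    (hN : n ≤ q + p * e) :
    ∃ τ₀ : Fin n → ℂ, Function.Injective τ₀ ∧ (∀ j, τ₀ j ≠ 0) ∧ ∀ (b : Fin n → ℂ) (v : ℕ),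
      Few (rowD p q (q * W) (trap W β ε)) (fun _ => μ) τ₀ b v →
        ∃ x : Fin n → ℂ, Function.Injective x ∧
          Few (trap W β ε) (fun _ => μ) x (fun j => x j ^ e) v := by
  set N := q + p * e with hNdef
  have hN0 : N ≠ 0 := by omega
  have hω := Complex.isPrimitiveRoot_exp N hN0
  set ω := Complex.exp (2 * Real.pi * Complex.I / N)
  let x₀ : Fin n → ℂ := fun j => ω ^ j.val
  have hx₀N : ∀ j, x₀ j ^ N = 1 := by
    intro j
    simp only [x₀]
    rw [← pow_mul, mul_comm, pow_mul, hω.pow_eq_one, one_pow]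
  have hx₀0 : ∀ j, x₀ j ≠ 0 := by
    intro j h
    have := hx₀N j
    rw [h, zero_pow hN0] at this
    exact zero_ne_one this
  have hx₀inj : Function.Injective x₀ := by
    intro i j hij
    exact Fin.ext (hω.pow_inj (by omega) (by omega) hij)
  have hexp : (t + e * r) * p = N * r + 1 := by
    rw [hNdef]
    nlinarith only [hpt]
  have hτinj : Function.Injective (fun j => x₀ j ^ (t + e * r)) := by
    intro i j hij
    apply hx₀inj
    have := congrArg (fun z : ℂ => z ^ p) hij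
    simp only [← pow_mul, hexp] at this
    simpa only [pow_succ, pow_mul, hx₀N, one_pow, one_mul] using this
  refine ⟨_, hτinj, fun j => pow_ne_zero _ (hx₀0 j), fun b v hb => ?_⟩
  choose bb hbb₁ hbb₂ using fun j => exists_one_add_pow (b j / N) N
  let u : Fin n → ℂ[X] := fun j => C (x₀ j) * (1 + X * C (b j / N))
  have hu0 : ∀ j, (u j).eval 0 = x₀ j := by
    intro j
    simp [u]
  have huN : ∀ j, X * bb j + 1 = u j ^ N := by
    intro j
    simp only [u]
    rw [mul_pow, ← C_pow, hx₀N, C_1, one_mul, hbb₁]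
  have hN' : (N : ℂ) ≠ 0 := Nat.cast_ne_zero.mpr hN0
  obtain ⟨E, hE, HE⟩ := exists_avoid_inj u (fun j => by rw [hu0]; exact hx₀0 j)
    (by simpa only [hu0] using hx₀inj)
  obtain ⟨s, hs, H2⟩ := few_binomial (K := ℂ) (o₂ := r * β) hpt (bdd_trap W β ε)
    (a := fun j => u j ^ (t + e * r)) (b := bb) (o₁ := q * W) (m := fun _ => μ) (v := v) (by
      have e1 : (fun j => (u j ^ (t + e * r)).eval 0) = fun j => x₀ j ^ (t + e * r) := by
        funext j
        rw [eval_pow, hu0]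
      have e2 : (fun j => (bb j).eval 0) = b := by
        funext j
        rw [hbb₂]
        field_simp
      rw [e1, e2]
      exact hb) hE
  obtain ⟨h1, h2⟩ := HE s hs
  refine ⟨fun j => (u j).eval s, h2, ?_⟩
  simp only [huN, eval_pow] at H2
  refine few_mc hpt ?_ (fun j => pow_ne_zero _ (h1 j)) (fun j => pow_ne_zero _ (h1 j)) ?_ ?_ H2
  · rintro i k ⟨h3, h4⟩
    exact ⟨Nat.mul_le_mul_left _ h3, Nat.mul_le_mul_left _ (by omega)⟩
  · intro j
    rw [← pow_mul, ← pow_mul, hexp, pow_succ']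
  · intro j
    rw [← pow_mul, ← pow_mul, ← pow_add]
    congr 1
    rw [hNdef]
    nlinarith only [hpt]

theorem level_two_reg {n μ w W β ε e p q τ v : ℕ} (hp : 1 ≤ p) (hq : 1 ≤ q)
    (hcop : Nat.Coprime p q) (hW₁ : p * (μ + w + 1) ≤ W) (hW₂ : W < p * (μ + w + 2))
    (hqW : q * W + p * (ε * W) ≤ p * β) (hε : ε ≤ 1)
    (hn : n = 2 * τ + (2 * p * q + ε * p ^ 2)) (hτ : 4 * τ ≤ n) (hN : n ≤ q + p * e)
    (hw : w ≤ μ) (hμ : 1 ≤ μ)
    (hA : n * μ * (μ + 1) + ε * W ^ 2 + p * (2 * β + p) + n * (μ + w + 1) + 4 * τ * w ^ 2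
      + 4 * w * μ ≤ 2 * W * β)
    (hv : 2 * (W + 1) * (β + 1) ≤ 2 * v + n * μ * (μ + 1) + ε * W * (W + 1)) :
    ∃ x : Fin n → ℂ, Function.Injective x ∧
      Few (trap W β ε) (fun _ => μ) x (fun j => x j ^ e) v := by
  obtain ⟨t, r, hpt⟩ := exists_bezout hp hq hcop
  obtain ⟨τ₀, hinj, h0, H⟩ := level_two_geom (μ := μ) (W := W) (β := β) (ε := ε) hq hpt hN
  obtain ⟨a₀, ha₀⟩ := Nat.exists_eq_add_of_le hW₁
  have hc : ε * W + q * (μ + w + 1) ≤ β := by
    apply Nat.le_of_mul_le_mul_left _ hp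
    have : q * (p * (μ + w + 1)) ≤ q * W := Nat.mul_le_mul_left _ hW₁
    nlinarith only [this, hqW]
  obtain ⟨c₀, hc₀⟩ := Nat.exists_eq_add_of_le hc
  set σ := 2 * p * q + ε * p ^ 2 with hσ
  have hα : σ * (μ + w + 1) ≤ p * β + q * W := by
    rw [hc₀, ha₀, hσ]
    nlinarith only [Nat.zero_le (p * ε * a₀), Nat.zero_le (p * c₀), Nat.zero_le (q * a₀)]
  obtain ⟨α, hα'⟩ : ∃ α, α + σ = p * β + q * W + 1 :=
    ⟨p * β + q * W + 1 - σ, by rw [mul_add] at hα; omega⟩
  have key : 2 * W * β + σ * (μ + w + 1) ^ 2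
      = 2 * (p * β + q * W) * (μ + w + 1) + ε * W ^ 2 + a₀ * (2 * c₀ + ε * a₀) := by
    rw [hc₀, ha₀, hσ]
    ring
  have h1 : a₀ * (2 * c₀ + ε * a₀) ≤ p * (2 * β + p) := by
    have h2 : a₀ ≤ p := by nlinarith only [hW₂, ha₀]
    have h3 : ε * a₀ ≤ 1 * p := Nat.mul_le_mul hε h2
    exact Nat.mul_le_mul h2 (by omega)
  have h2 : σ * (μ + w + 1) ≤ n * (μ + w + 1) := Nat.mul_le_mul_right _ (by omega)
  have h3 := congrArg (fun z => z * (μ + w + 1)) hα'
  obtain ⟨N, b, hN1, hN2, hb⟩ := exists_fill (K := ℂ) (α := α) (w := w) hn (by omega) hw hμ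
    (by rw [mul_add] at hα; omega) (by nlinarith only [hA, key, h1, h2, h3])
    (fun y => p * q * (y + 1)) hinj h0
  obtain ⟨s, hs1, hs2⟩ := exists_rowD_finset (W := W) (β := β) (ε := ε) hp hq (by omega)
  have hsub : rowsF (μ + w + 1) (fun y => p * q * (y + 1)) N ⊆ s := by
    rintro ⟨a, y⟩ hay
    rw [mem_rowsF] at hay
    obtain ⟨h4, h5, h6⟩ := hay
    have h7 := hN1 y (by omega)
    apply hs1
    apply middle_mem_rowD hp hq hpt
      ((Nat.mul_le_mul_left _ (by omega)).trans hW₁) _ h5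
    · rw [hσ] at h7 hα'
      nlinarith only [h6, h7, hα']
    · have : q * (y + 1) ≤ q * (μ + w + 1) := Nat.mul_le_mul_left _ (by omega)
      omega
  apply H b v
  refine (hb.few.extend (s \ rowsF (μ + w + 1) (fun y => p * q * (y + 1)) N) ?_).mono ?_
  · intro a y hay
    by_cases h4 : (a, y) ∈ rowsF (μ + w + 1) (fun y => p * q * (y + 1)) N
    · left
      rw [mem_rowsF] at h4
      exact ⟨by omega, h4.2⟩
    · exact Or.inr (mem_sdiff.mpr ⟨hs1 a y hay, h4⟩)
  · rw [card_sdiff_of_subset hsub, card_rowsF]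
    omega

theorem level_one_reg {n m m' d q W α v : ℕ} (hm : q ≤ m') (hW : d < m' + (q + 1) * (W + 1))
    (hα : (q + 1) * (2 * d + 3) ≤ 2 * (α + 1) + (q + 1) ^ 2) {x y : Fin n → ℂ}
    (h : Few (trap W α ((q + 1) ^ 2)) (fun _ => m) x y v) :
    ∃ a b : Fin n → ℂ, Few (fun i k => m' ≤ i + k ∧ i + k ≤ d) (fun _ => m) a b v := by
  let D₀ : ℕ → ℕ → Prop := fun i k => m' ≤ i + k ∧ i + k ≤ d
  have hD₀ : Bdd D₀ := ⟨d + 1, fun i k h => ⟨by have := h.2; omega, by have := h.2; omega⟩⟩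
  have hpt : 1 * 1 = q * 0 + 1 := by simp
  have hD₂ : Bdd (rowD 1 q (q * d) D₀) := by
    refine ⟨d + q * d + 1, ?_⟩
    rintro a y ⟨i, k, y', h1, h2, h3, h4⟩
    have h5 := h2.2
    have h6 := h3.2
    constructor <;> omega
  have hcount : ∀ k, ∀ S : Finset ℕ, (∀ i ∈ S, rowD 1 q (q * d) D₀ i k) →
      S.card ≤ (fun k => if k ≤ W then α + 1 - (q + 1) ^ 2 * k else 0) k := by
    intro k S hS
    rcases S.eq_empty_or_nonempty with rfl | ⟨a₀, ha₀⟩
    · simp
    have key : ∀ a ∈ S, ∃ i k', m' ≤ i + k' ∧ i + k' + (q + 1) * k ≤ d ∧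
        a + q * k' = i + q * d := by
      intro a ha
      obtain ⟨i, k', y', h1, h2, h3, h4⟩ := hS a ha
      refine ⟨i, k', h2.1, ?_, by omega⟩
      have h5 := h3.2
      have h6 : (q + 1) * k ≤ (q + 1) * y' := Nat.mul_le_mul_left _ h1
      nlinarith only [h5, h6]
    obtain ⟨i₀, k₀, h1, h2, -⟩ := key a₀ ha₀
    have hk : k ≤ W := by
      have : (q + 1) * k < (q + 1) * (W + 1) := by omega
      exact Nat.lt_succ_iff.mp (Nat.lt_of_mul_lt_mul_left this)
    obtain ⟨d', hd'⟩ := Nat.exists_eq_add_of_le (show (q + 1) * k ≤ d by omega)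
    have h3 := card_lines (q := q) (d' := d') (o := q * d) (by omega) S (fun a ha => by
      obtain ⟨i, k', -, h4, h5⟩ := key a ha
      exact ⟨i, k', by omega, h5⟩)
    simp only [if_pos hk]
    have h4 : q * (q - 1) + q = q * q := by
      rcases q with _ | q
      · simp
      · rw [Nat.add_sub_cancel]
        ring
    have h5 : S.card + (q + 1) ^ 2 * k ≤ α + 1 := by
      rw [hd'] at hα
      nlinarith only [hα, h3, h4]
    omega
  have h' : Few (fun i k => i < (fun k => if k ≤ W then α + 1 - (q + 1) ^ 2 * k else 0) k)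
      (fun _ => m) x y v := by
    apply h.of_le
    rintro f ⟨hf, hv⟩
    refine ⟨fun i k hik => ?_, hv⟩
    have h1 := hf i k hik
    dsimp only at h1
    split_ifs at h1 with hk
    · exact ⟨hk, by omega⟩
    · omega
  obtain ⟨E, hE, HE⟩ := exists_avoid (fun j => X * C (x j) + 1) (by simp)
  obtain ⟨s, hs, H2⟩ := few_compress hD₂ hcount h' hE
  have hτ := HE s hs
  set τ : Fin n → ℂ := fun j => (X * C (x j) + 1).eval s with hτdef
  obtain ⟨E', hE', HE'⟩ := exists_avoid (fun j => X * C (y j) + 1) (by simp)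
  obtain ⟨s', hs', H4⟩ := few_binomial (K := ℂ) (o₂ := 0) hpt hD₀ (a := fun j => C (τ j))
    (b := fun j => C (y j)) (o₁ := q * d) (m := fun _ => m) (v := v)
    (by simpa only [eval_C] using H2) hE'
  have hη := HE' s' hs'
  set η : Fin n → ℂ := fun j => (X * C (y j) + 1).eval s' with hηdef
  simp only [eval_C] at H4
  refine ⟨τ, fun j => η j / τ j ^ q, ?_⟩
  refine few_mc hpt ?_ hτ hη (fun j => by rw [pow_zero, mul_one, pow_one]) ?_ H4
  · intro i k hik
    exact ⟨Nat.mul_le_mul_left _ (by have := hik.2; omega), by simp⟩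
  · intro j
    rw [pow_one, div_mul_cancel₀ _ (pow_ne_zero _ (hτ j))]

lemma exists_band (m m' : ℕ) (h : m ≤ m') : ∃ Z : Finset (ℕ × ℕ),
    (∀ i k, m ≤ i + k → i + k < m' → (i, k) ∈ Z) ∧ 2 * Z.card + m * (m + 1) = m' * (m' + 1) := by
  have hc : ∀ u, 2 * (rowsF u (fun _ => 0) (fun k => u - k)).card = u * (u + 1) := by
    intro u
    rw [card_rowsF, ← sum_range_rev, sum_range_succ]
    simp
  have hsub : rowsF m (fun _ => 0) (fun k => m - k) ⊆ rowsF m' (fun _ => 0) (fun k => m' - k) := by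
    rintro ⟨i, k⟩ hik
    rw [mem_rowsF] at hik ⊢
    omega
  refine ⟨rowsF m' (fun _ => 0) (fun k => m' - k) \ rowsF m (fun _ => 0) (fun k => m - k), ?_, ?_⟩
  · intro i k h1 h2
    rw [mem_sdiff, mem_rowsF, mem_rowsF]
    omega
  · have h1 := hc m
    have h2 := hc m'
    have h3 := card_le_card hsub
    rw [card_sdiff_of_subset hsub]
    omega

theorem add_origin {n m m' d v v' : ℕ} (hm : m ≤ m') {a b : Fin n → ℂ}
    (h : Few (fun i k => m' ≤ i + k ∧ i + k ≤ d) (fun _ => m) a b v)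
    (hv : 2 * v + m' * (m' + 1) ≤ 2 * v' + m * (m + 1)) :
    ∃ a b : Fin (n + 1) → ℂ, Few (fun i k => i + k ≤ d) (fun _ => m) a b v' := by
  obtain ⟨Z, hZ1, hZ2⟩ := exists_band m m' hm
  have h1 := h.extend (D := fun i k => m ≤ i + k ∧ i + k ≤ d) Z (fun i k hik => by
    by_cases h2 : m' ≤ i + k
    · exact Or.inl ⟨h2, hik.2⟩
    · exact Or.inr (hZ1 i k hik.1 (by omega)))
  refine ⟨Fin.cons 0 a, Fin.cons 0 b, (h1.of_le ?_).mono (by omega)⟩
  rintro f ⟨hf, hv⟩
  refine ⟨fun i k hik => ⟨?_, hf i k hik⟩, fun j => by simpa using hv j.succ⟩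
  by_contra hlt
  have h0 := hv 0
  simp only [Fin.cons_zero] at h0
  exact hik (van_origin_iff.mp h0 i k (by omega))

end Pool.Agent.Lib.MP_6e81d8_ag.H88
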