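import Mathlib
import Pool.Agent.Lib.MP_6e81d8_ag.H88Core
import Pool.Agent.Lib.MP_6e81d8_ag.H88Reg

/-!
Choice of the parameters for systems of positive virtual dimension.
-/

set_option autoImplicit false
set_option maxHeartbeats 1000000

namespace Pool.Agent.Lib.MP_6e81d8_ag.H88

lemma area_id {n m m' d s W μ α β e ε : ℝ} (hd : d + 1 = m' + s * (W + 1))
    (hW : W = m + μ) (hα : 2 * (α + 1) + s ^ 2 = s * (2 * d + 3)) (hn : n + ε = 2 * e + s ^ 2)
    (hβ : β + m * n = α + W * e) :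
    2 * (W + 1) * (β + 1) - ε * W * (W + 1) - n * μ * (μ + 1)
      = (d + 1) * (d + 2) - m' * (m' + 1) - n * m * (m + 1) := by
  have h1 : μ = W - m := by linarith
  have h2 : m' = d + 1 - s * (W + 1) := by linarith
  rw [h1, h2]
  linear_combination (2 * (W + 1)) * hβ + (W + 1) * hα - W * (W + 1) * hn

lemma beta_lower {n m s W μ ε β : ℝ} (hW : W = m + μ) (hn : s ^ 2 ≤ n) (hs : 400 ≤ s)
    (hm : 50 * s ≤ m) (h1 : 3 * m ≤ s * (μ + 2)) (h2 : s * μ ≤ 5 * m) (hε : 0 ≤ ε) (hμ : 0 ≤ μ)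
    (hY : 0 ≤ 2 * (W + 1) * (β + 1) - ε * W * (W + 1) - n * μ * (μ + 1)) : 2 * W ≤ β := by
  by_contra hcon
  have h3 : 80 * μ ≤ m := by nlinarith
  have h4 : s ^ 2 * (μ * (μ + 1)) ≤ n * (μ * (μ + 1)) :=
    mul_le_mul_of_nonneg_right hn (by positivity)
  have h5 : (2.96 * m) * (2.98 * m) ≤ (s * μ) * (s * (μ + 1)) :=
    mul_le_mul (by linarith) (by linarith) (by linarith) (by positivity)
  have hW0 : 0 ≤ W := by linarith
  have h6 : (W + 1) * (β + 1) ≤ (1.02 * m) * (2.04 * m) := by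
    have : (W + 1) * (β + 1) ≤ (W + 1) * (2.04 * m) :=
      mul_le_mul_of_nonneg_left (by linarith) (by linarith)
    have : (W + 1) * (2.04 * m) ≤ (1.02 * m) * (2.04 * m) :=
      mul_le_mul_of_nonneg_right (by linarith) (by linarith)
    linarith
  have h7 : 0 ≤ ε * W * (W + 1) := by positivity
  have h8 : 0 < m * m := mul_pos (by linarith) (by linarith)
  linarith

lemma beta_upper {n m s W μ ε β : ℝ} (hW : W = m + μ) (hn : n ≤ (s + 7) ^ 2) (hs : 400 ≤ s)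
    (hm : 50 * s ≤ m) (h2 : s * μ ≤ 5 * m) (hε : ε ≤ 1) (hμ : 0 ≤ μ) (hβ : 0 ≤ β)
    (hY : 2 * (W + 1) * (β + 1) - ε * W * (W + 1) - n * μ * (μ + 1) ≤ 4 * m ^ 2) :
    β ≤ 16 * W := by
  have hW0 : 0 < W := by linarith
  have h3 : n ≤ 1.04 * s ^ 2 := by nlinarith
  have h4 : n * (μ * (μ + 1)) ≤ 1.04 * s ^ 2 * (μ * (μ + 1)) :=
    mul_le_mul_of_nonneg_right h3 (by positivity)
  have h5 : (s * μ) * (s * (μ + 1)) ≤ (5 * m) * (5.02 * m) :=
    mul_le_mul h2 (by linarith) (by positivity) (by linarith)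
  have h6 : m ^ 2 ≤ W ^ 2 := pow_le_pow_left₀ (by linarith) (by linarith) 2
  have h7 : ε * (W * (W + 1)) ≤ 1 * (W * (W + 1)) :=
    mul_le_mul_of_nonneg_right hε (by positivity)
  apply le_of_mul_le_mul_left _ hW0
  nlinarith [sq_nonneg W]

lemma final_ineq_reg {s m κ M w τ W n S β p z : ℝ} (h1 : 400 * κ ≤ s) (h2 : 1 ≤ κ)
    (h3 : 50 * s ≤ m) (h4 : 2 * m ≤ s * M) (h5 : s * M ≤ 5 * m) (h6 : 0 ≤ w)
    (h7 : s * w ≤ s + 14 * κ * M) (h8 : 2 * w ≤ M - 1) (h9 : 0 ≤ τ) (h10 : 0 ≤ W)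
    (h11 : W ≤ 2 * m) (h12 : 0 ≤ n) (h13 : n ≤ 2 * s ^ 2) (hp0 : 0 ≤ p) (hp : 2 * p ≤ s)
    (hβ0 : 0 ≤ β) (hβ : β ≤ 16 * W) (hz : z ≤ 3 * s * m)
    (h15 : 2 * τ * M ^ 2 ≤ n * M + 130 * κ * M * W)
    (h16 : 210 * s ^ 4 * m + 10000000 * κ ^ 3 * m ^ 2 ≤ s ^ 3 * S) :
    p * (2 * β + p) + n * (M + w) + 4 * τ * w ^ 2 + 4 * w * (M - 1) + (2 * W + 2 * β + 2) + z
      ≤ S := by
  have hs : 400 ≤ s := by linarith
  have hs0 : 0 < s := by linarith
  have hm0 : 0 ≤ m := by linarith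
  have hM0 : 0 ≤ M := by linarith
  set y := κ ^ 3 * m ^ 2 / s ^ 3 with hy
  have hy0 : 0 ≤ y := by positivity
  have hys : s ^ 3 * y = κ ^ 3 * m ^ 2 := by rw [hy]; field_simp
  have hsm : 0 ≤ s * m := by positivity
  have hS : 210 * s * m + 10000000 * y ≤ S := by
    apply le_of_mul_le_mul_left _ (pow_pos hs0 3)
    linarith only [h16, hys]
  have hS0 : 140 * s ^ 4 * m + 5000000 * κ ^ 3 * m ^ 2 ≤ s ^ 3 * (140 * s * m + 5000000 * y) := by
    linarith only [hys]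
  have e1 := final_ineq (τ := τ) (F := 32 * s * m) h1 h2 h3 h4 (by linarith) h6 h7 h8 h10 h11
    h12 h13 le_rfl (by linarith only [h15, hsm, hy0]) hS0
  have e2 := final_ineq (τ := 0) (F := 32 * s * m) h1 h2 h3 h4 (by linarith) h6 h7 h8 h10 h11
    h12 h13 le_rfl (by
      have : 0 ≤ n * M + 130 * κ * M * W := by positivity
      linarith only [this, hsm, hy0]) hS0
  have e3 : (2 * p) * (2 * β + p) ≤ s * (66 * m) :=
    mul_le_mul hp (by linarith) (by positivity) hs0.le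
  have e4 : n * (M + w) ≤ (2 * s ^ 2) * (1.5 * M) :=
    mul_le_mul h13 (by linarith) (by positivity) (by positivity)
  have e5 : s * (s * M) ≤ s * (5 * m) := mul_le_mul_of_nonneg_left h5 hs0.le
  have e6 : 400 * m ≤ s * m := mul_le_mul_of_nonneg_right hs hm0
  have e7 : 0 ≤ τ * w := by positivity
  linarith only [e1, e2, e3, e4, e5, e6, e7, hS, hz, hβ, h11, h6, hM0, hs, h3]

theorem core_reg {n m d s κ v : ℕ} (hs : s % 2 = 0) (hd1 : (s + 4) * m ≤ d)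
    (hd2 : d < (s + 6) * m) (hm : 50 * s ≤ m) (hκ : 400 * κ ≤ s)
    (hκ' : 2 + 5 * Real.log s < κ)
    (hS : (n + 1) * m * (m + 1) * s ^ 3 + 210 * s ^ 4 * m + 10000000 * κ ^ 3 * m ^ 2
      ≤ (d + 1) * (d + 2) * s ^ 3)
    (hS' : (d + 1) * (d + 2) ≤ (n + 1) * m * (m + 1) + 4 * m ^ 2)
    (hv : (d + 1) * (d + 2) ≤ 2 * v + (n + 1) * m * (m + 1)) :
    ∃ a b : Fin (n + 1) → ℂ, Few (fun i k => i + k ≤ d) (fun _ => m) a b v := by
  have hκ1 : 1 ≤ κ := by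
    have h1 := Real.log_natCast_nonneg s
    have : (0 : ℝ) < κ := by linarith
    exact_mod_cast this
  have hs400 : 400 ≤ s := by omega
  have hs0 : 0 < s := by omega
  have hm0 : 0 < m := by omega
  obtain ⟨W, ρ, hd, hρ⟩ : ∃ W ρ, d + 1 = m + ρ + s * (W + 1) ∧ ρ < s := by
    have h1 : m + s ≤ d := by nlinarith only [hd1, hm, Nat.zero_le (s * m)]
    refine ⟨(d + 1 - m - s) / s, (d + 1 - m - s) % s, ?_, Nat.mod_lt _ hs0⟩
    have := Nat.div_add_mod (d + 1 - m - s) s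
    rw [mul_add]
    omega
  obtain ⟨μ, hW⟩ : ∃ μ, W = m + μ := by
    apply Nat.exists_eq_add_of_le
    have : s * m < s * (W + 1) := by nlinarith only [hd, hρ, hd1, hm]
    exact Nat.lt_succ_iff.mp (Nat.lt_of_mul_lt_mul_left this)
  have hM1 : 3 * m ≤ s * (μ + 2) := by rw [hW] at hd; nlinarith only [hd, hρ, hd1]
  have hM3 : s * (μ + 1) ≤ 5 * m := by rw [hW] at hd; nlinarith only [hd, hd2]
  have hM2 : s * μ ≤ 5 * m := by nlinarith only [hM3]
  have hM4 : 5 * m ≤ 2 * (s * (μ + 1)) := by nlinarith only [hM1, hm]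
  have hμ : 148 ≤ μ := by
    have : s * 150 ≤ s * (μ + 2) := by omega
    have := Nat.le_of_mul_le_mul_left this hs0
    omega
  have hμ80 : 80 * μ ≤ m := by
    have := Nat.mul_le_mul_right μ hs400
    omega
  obtain ⟨α, hα⟩ : ∃ α, 2 * (α + 1) + s ^ 2 = s * (2 * d + 3) := by
    obtain ⟨s', hs'⟩ : ∃ s', s = 2 * s' := ⟨s / 2, by omega⟩
    have h0 : s * 1 ≤ s * (W + 1) := Nat.mul_le_mul_left _ (by omega)
    have h1 : s + 1 ≤ 2 * d + 3 := by omega
    obtain ⟨z, hz⟩ := Nat.exists_eq_add_of_le h1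
    have h2 : 1 ≤ s' * (z + 1) := Nat.mul_pos (by omega) (by omega)
    refine ⟨s' * (z + 1) - 1, ?_⟩
    rw [Nat.sub_add_cancel h2, hz]
    rw [hs']
    ring
  have hS1 : (n + 1) * m * (m + 1) + 210 * s * m ≤ (d + 1) * (d + 2) :=
    Nat.le_of_mul_le_mul_right (by nlinarith only [hS, Nat.zero_le (κ ^ 3 * m ^ 2)])
      (pow_pos hs0 3)
  have hn : n + 1 ≤ (s + 7) ^ 2 := by
    have h1 : (d + 1) * (d + 2) ≤ ((s + 6) * m) * ((s + 6) * (m + 1)) :=
      Nat.mul_le_mul (by omega) (by rw [mul_add]; omega)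
    have h2 : (n + 1) * (m * (m + 1)) ≤ (s + 6) ^ 2 * (m * (m + 1)) := by
      nlinarith only [h1, hS1, Nat.zero_le (s * m)]
    have h3 := Nat.le_of_mul_le_mul_right h2 (Nat.mul_pos hm0 (by omega))
    exact h3.trans (Nat.pow_le_pow_left (by omega) 2)
  have hn1 : s ^ 2 + 2 ≤ n := by
    by_contra hcon
    have h1 : ((s + 4) * m) * ((s + 4) * m) ≤ (d + 1) * (d + 2) :=
      Nat.mul_le_mul (by omega) (by omega)
    have h2 : (n + 1) * m * (m + 1) ≤ (s ^ 2 + 2) * m * (m + 1) :=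
      Nat.mul_le_mul_right _ (Nat.mul_le_mul_right _ (by omega))
    have h3 : m * ((s + 4) * (s + 4) * m) ≤ m * ((s ^ 2 + 2) * (m + 1) + 4 * m) := by
      nlinarith only [h1, h2, hS']
    have h4 := Nat.le_of_mul_le_mul_left h3 (by omega)
    have h5 : s * (50 * s) ≤ s * m := Nat.mul_le_mul_left _ hm
    nlinarith only [h4, h5, hm, hs400]
  have hss : 400 * s ≤ s * s := Nat.mul_le_mul_right s hs400
  have hn2 : n ≤ 2 * s ^ 2 := by nlinarith only [hn, hss, hs400]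
  obtain ⟨ε, e, hε, hεn, hne⟩ : ∃ ε e, ε ≤ 1 ∧ ε % 2 = n % 2 ∧ n + ε = 2 * e + s ^ 2 := by
    have h1 : s ^ 2 % 2 = 0 := by
      rw [Nat.pow_mod, hs]
    exact ⟨n % 2, (n + n % 2 - s ^ 2) / 2, by omega, by omega, by omega⟩
  have he1 : 1 ≤ e := by omega
  have he2 : e ≤ 8 * s := by nlinarith only [hn, hne, hε, hs400]
  obtain ⟨z, hz⟩ : ∃ z, (m + ρ) * (m + ρ + 1) = 2 * z + m * (m + 1) := by
    obtain ⟨a, ha⟩ := Nat.even_mul_succ_self (m + ρ)
    obtain ⟨b, hb⟩ := Nat.even_mul_succ_self m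
    have : m * (m + 1) ≤ (m + ρ) * (m + ρ + 1) := Nat.mul_le_mul (by omega) (by omega)
    exact ⟨a - b, by omega⟩
  have hz1 : 2 * z ≤ 3 * s * m := by
    have h1 : ρ * (2 * m + ρ + 1) ≤ s * (3 * m) := Nat.mul_le_mul hρ.le (by omega)
    nlinarith only [h1, hz]
  have hsR : (400 : ℝ) ≤ s := by exact_mod_cast hs400
  have hmR : (50 : ℝ) * s ≤ m := by exact_mod_cast hm
  have hκR : (400 : ℝ) * κ ≤ s := by exact_mod_cast hκ
  have hκ1R : (1 : ℝ) ≤ κ := by exact_mod_cast hκ1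
  have hdR : (d : ℝ) + 1 = m + ρ + s * (W + 1) := by exact_mod_cast hd
  have hWR : (W : ℝ) = m + μ := by exact_mod_cast hW
  have hαR : 2 * ((α : ℝ) + 1) + s ^ 2 = s * (2 * d + 3) := by exact_mod_cast hα
  have hneR : (n : ℝ) + ε = 2 * e + s ^ 2 := by exact_mod_cast hne
  have hεR : (ε : ℝ) ≤ 1 := by exact_mod_cast hε
  have hM1R : (3 : ℝ) * m ≤ s * (μ + 2) := by exact_mod_cast hM1
  have hM2R : (s : ℝ) * μ ≤ 5 * m := by exact_mod_cast hM2
  have hM3R : (s : ℝ) * (μ + 1) ≤ 5 * m := by exact_mod_cast hM3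
  have hzR : ((m : ℝ) + ρ) * (m + ρ + 1) = 2 * z + m * (m + 1) := by exact_mod_cast hz
  have hz1R : (2 : ℝ) * z ≤ 3 * s * m := by exact_mod_cast hz1
  have hS1R : ((n : ℝ) + 1) * m * (m + 1) + 210 * s * m ≤ (d + 1) * (d + 2) := by
    exact_mod_cast hS1
  have hW0 : 0 < W := by omega
  have hW0R : (0 : ℝ) < W := by exact_mod_cast hW0
  have hW2R : (W : ℝ) ≤ 2 * m := by exact_mod_cast (by omega : W ≤ 2 * m)
  have hμ0 : (0 : ℝ) ≤ μ := Nat.cast_nonneg _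
  have hsmR : (0 : ℝ) ≤ s * m := by positivity
  obtain ⟨β, hβ1, hβ2⟩ : ∃ β, β + m * n = α + W * e ∧ 2 * W ≤ β := by
    have h1 := area_id (β := (α : ℝ) + W * e - m * n) hdR hWR hαR hneR (by ring)
    have h2 := beta_lower (β := (α : ℝ) + W * e - m * n) (n := n) (ε := ε) hWR
      (by exact_mod_cast (by omega : s ^ 2 ≤ n)) hsR hmR hM1R hM2R (Nat.cast_nonneg _) hμ0
      (by rw [h1]; linarith only [hzR, hz1R, hS1R, hsmR])
    have h3 : 2 * W + m * n ≤ α + W * e := by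
      have : (2 : ℝ) * W + m * n ≤ α + W * e := by linarith only [h2]
      exact_mod_cast this
    exact ⟨α + W * e - m * n, by omega, by omega⟩
  have hY := area_id (β := β) hdR hWR hαR hneR (by exact_mod_cast hβ1)
  have hβR : (β : ℝ) ≤ 16 * W := beta_upper (n := n) hWR
    (by exact_mod_cast (by omega : n ≤ (s + 7) ^ 2)) hsR hmR hM2R hεR hμ0 (Nat.cast_nonneg _) (by
      have h1 : ((d : ℝ) + 1) * (d + 2) ≤ (n + 1) * m * (m + 1) + 4 * m ^ 2 := by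
        exact_mod_cast hS'
      have h2 : (0 : ℝ) ≤ z := Nat.cast_nonneg _
      rw [hY]
      linarith only [h1, h2, hzR])
  obtain ⟨P, hP1, hP2⟩ : ∃ P, P * (μ + 1) ≤ W ∧ W < (P + 1) * (μ + 1) :=
    ⟨W / (μ + 1), Nat.div_mul_le_self _ _, by
      have := Nat.lt_div_mul_add (a := W) (show 0 < μ + 1 by omega)
      linarith⟩
  have hP3 : s ≤ 6 * (P + 1) := by
    have : s * (μ + 1) ≤ 6 * (P + 1) * (μ + 1) := by nlinarith only [hM3, hP2, hW]
    exact Nat.le_of_mul_le_mul_right this (by omega)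
  have hP5 : 2 * P ≤ s := by
    have : 2 * P * (μ + 1) ≤ s * (μ + 1) := by nlinarith only [hM4, hP1, hW, hμ80]
    exact Nat.le_of_mul_le_mul_right this (by omega)
  obtain ⟨j, hj, hcop⟩ := exists_coprime_window (κ := κ) (p₀ := 2 * ((P + 1) / 2) + 1 - 2 * κ)
    (P := s) (by omega) (by omega) hκ'
  set p := 2 * ((P + 1) / 2) + 1 - 2 * κ + 2 * j with hpdef
  have hp1 : p ≤ P := by omega
  have hp2 : P + 1 ≤ p + 2 * κ := by omega
  have hp3 : p % 2 = 1 := by omega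
  have hp4 : s ≤ 7 * p := by omega
  have hp0 : 0 < p := by omega
  clear_value p
  have hpM : p * (μ + 1) ≤ W := (Nat.mul_le_mul_right _ hp1).trans hP1
  have hpM' : W < (p + 2 * κ) * (μ + 1) := hP2.trans_le (Nat.mul_le_mul_right _ hp2)
  have hεW : ε * W ≤ 1 * W := Nat.mul_le_mul_right W hε
  obtain ⟨b, hb⟩ : ∃ b, β = ε * W + b := Nat.exists_eq_add_of_le (by omega)
  have hbW : W ≤ b := by omega
  obtain ⟨Q, hQ1, hQ2⟩ : ∃ Q, Q * W ≤ p * b ∧ p * b < (Q + 1) * W :=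
    ⟨p * b / W, Nat.div_mul_le_self _ _, by
      have := Nat.lt_div_mul_add (a := p * b) hW0
      linarith⟩
  have hQ3 : p ≤ Q := by
    have : p * W < (Q + 1) * W := (Nat.mul_le_mul_left _ hbW).trans_lt hQ2
    exact Nat.lt_succ_iff.mp (Nat.lt_of_mul_lt_mul_right this)
  have hp5 : 4 * (ε * p ^ 2) ≤ s ^ 2 := by
    have h1 : ε * p ^ 2 ≤ 1 * p ^ 2 := Nat.mul_le_mul_right _ hε
    have h2 : (2 * p) ^ 2 ≤ s ^ 2 := Nat.pow_le_pow_left (by omega) 2
    nlinarith only [h1, h2]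
  obtain ⟨Q', hQ'1, hQ'2⟩ : ∃ Q', 2 * p * Q' + ε * p ^ 2 ≤ n ∧
      n < 2 * p * (Q' + 1) + ε * p ^ 2 := by
    refine ⟨(n - ε * p ^ 2) / (2 * p), ?_, ?_⟩
    · have := Nat.mul_div_le (n - ε * p ^ 2) (2 * p)
      omega
    · have := Nat.lt_mul_div_succ (n - ε * p ^ 2) (show 0 < 2 * p by omega)
      omega
  have hQ'3 : κ ≤ Q' := by
    have h1 : 2 * p * (Q' + 1) ≤ s * (Q' + 1) := Nat.mul_le_mul_right _ (by omega)
    have h2 : s * (3 * s) < s * (4 * (Q' + 1)) := by nlinarith only [h1, hQ'2, hp5, hn1]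
    have := Nat.lt_of_mul_lt_mul_left h2
    omega
  obtain ⟨i, hi, hcop'⟩ := hcop (min Q Q' + 1 - κ)
  set q := min Q Q' + 1 - κ + i with hqdef
  have hq1 : q ≤ Q := by omega
  have hq1' : q ≤ Q' := by omega
  have hq2 : Q + 1 ≤ q + κ ∨ Q' + 1 ≤ q + κ := by omega
  have hq0 : 1 ≤ q := by omega
  clear_value q
  have hqW : q * W + p * (ε * W) ≤ p * β := by
    have := Nat.mul_le_mul_right W hq1
    rw [hb, mul_add]
    omega
  obtain ⟨w, hw1, hw2⟩ : ∃ w, p * (μ + w + 1) ≤ W ∧ W < p * (μ + w + 2) := by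
    have h1 : μ + 1 ≤ W / p := by
      rw [Nat.le_div_iff_mul_le hp0, mul_comm]
      exact hpM
    obtain ⟨w, hw⟩ := Nat.exists_eq_add_of_le h1
    refine ⟨w, ?_, ?_⟩
    · rw [show μ + w + 1 = W / p by omega]
      exact Nat.mul_div_le _ _
    · rw [show μ + w + 2 = W / p + 1 by omega]
      exact Nat.lt_mul_div_succ _ hp0
  have hw3 : s * w ≤ 14 * κ * (μ + 1) := by
    have h1 : p * w ≤ 2 * κ * (μ + 1) := by nlinarith only [hw1, hpM']
    have h2 : s * w ≤ 7 * p * w := Nat.mul_le_mul_right _ hp4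
    nlinarith only [h1, h2]
  have hw4 : 2 * w ≤ μ := by
    have h1 : 400 * κ * (μ + 1) ≤ s * (μ + 1) := Nat.mul_le_mul_right _ hκ
    have h2 : s * 148 ≤ s * μ := Nat.mul_le_mul_left _ hμ
    have : s * (2 * w) ≤ s * μ := by nlinarith only [h1, h2, hw3]
    exact Nat.le_of_mul_le_mul_left this hs0
  have hpR : (0 : ℝ) < p := by exact_mod_cast hp0
  have hpMR : (p : ℝ) * (μ + 1) ≤ W := by exact_mod_cast hpM
  have hpM'R : (W : ℝ) ≤ (p + 2 * κ) * (μ + 1) := by exact_mod_cast hpM'.le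
  have hσ : 2 * p * q + ε * p ^ 2 ≤ n := by
    have : 2 * p * q ≤ 2 * p * Q' := Nat.mul_le_mul_left _ hq1'
    omega
  obtain ⟨τ, hτ⟩ : ∃ τ, n = 2 * τ + (2 * p * q + ε * p ^ 2) := by
    have h1 : (ε * p ^ 2) % 2 = ε % 2 := by
      rw [Nat.mul_mod, Nat.pow_mod, hp3]
      simp
    have h2 : 2 * p * q = 2 * (p * q) := mul_assoc _ _ _
    exact ⟨(n - (2 * p * q + ε * p ^ 2)) / 2, by omega⟩
  have hN : n ≤ q + p * e := by
    have := count_bound (p := p) (ρ := (s : ℝ) - 1 + ρ) (d := d) (by linarith only [hdR])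
      (by linarith only [hsR, (Nat.cast_nonneg ρ : (0 : ℝ) ≤ ρ)]) hWR hαR hneR (β := β)
      (by exact_mod_cast hβ1.ge) (Nat.cast_nonneg _) hβR hW2R hκR hκ1R hmR
      (by linarith only [hM3R, hmR, hsR]) hμ0 (Nat.cast_nonneg _) (by exact_mod_cast he2) hpM'R
    have h2 : n ≤ p * e := by exact_mod_cast this
    omega
  have hεWR : (0 : ℝ) ≤ ε * W := by positivity
  have h400 : (400 : ℝ) * m ≤ s * m := mul_le_mul_of_nonneg_right hsR (Nat.cast_nonneg _)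
  have hτR : 2 * (τ : ℝ) * (μ + 1) ^ 2 ≤ n * (μ + 1) + 130 * κ * (μ + 1) * W := by
    rcases hq2 with h | h
    · have hbR : (β : ℝ) - ε * W = b := by
        rw [hb]
        push_cast
        ring
      have hqW' : p * b ≤ (q + κ) * W := hQ2.le.trans (Nat.mul_le_mul_right _ h)
      have := tau_bound (n := n) (τ := τ) (M := μ + 1) (q := q) (by exact_mod_cast hτ) hW0R
        (by linarith) (Nat.cast_nonneg ε) hβR (by rw [hbR]; exact Nat.cast_nonneg _) hpR.le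
        (Nat.cast_nonneg κ) hpMR hpM'R (by rw [hbR]; exact_mod_cast hqW')
      rw [add_sub_cancel_right] at this
      linarith only [this, hY, hzR, hz1R, hS1R, hβR, hW2R, hεWR, h400, hmR, hsR]
    · have h1 : 2 * p * (Q' + 1) ≤ 2 * p * (q + κ) := Nat.mul_le_mul_left _ h
      have h2 : τ ≤ p * κ := by nlinarith only [h1, hQ'2, hτ]
      have h3 : τ * (μ + 1) ≤ κ * W := by
        have h4 := Nat.mul_le_mul_right (μ + 1) h2
        have h5 := Nat.mul_le_mul_left κ hpM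
        nlinarith only [h4, h5]
      have h4 : (τ : ℝ) * (μ + 1) ≤ κ * W := by exact_mod_cast h3
      have h5 := mul_le_mul_of_nonneg_right h4 (show (0 : ℝ) ≤ μ + 1 by linarith)
      have h6 : (0 : ℝ) ≤ n * (μ + 1) := by positivity
      have h7 : (0 : ℝ) ≤ κ * W * (μ + 1) := by positivity
      linarith only [h5, h6, h7]
  have hτ4 : 4 * τ ≤ n := by
    have h1 : 2 * τ * (μ + 1) ^ 2 ≤ n * (μ + 1) + 130 * κ * (μ + 1) * W := by exact_mod_cast hτR
    have h2 : (μ + 1) * (2 * τ * (μ + 1)) ≤ (μ + 1) * (n + 130 * κ * W) := by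
      nlinarith only [h1]
    have h3 := Nat.le_of_mul_le_mul_left h2 (by omega)
    have h4 : κ * W ≤ κ * (s * (μ + 1)) := Nat.mul_le_mul_left _ (by omega)
    have h5 : 400 * κ * (s * (μ + 1)) ≤ s * (s * (μ + 1)) := Nat.mul_le_mul_right _ hκ
    have h6 : s ^ 2 * (μ + 1) ≤ n * (μ + 1) := Nat.mul_le_mul_right _ (by omega)
    have h7 : n * 149 ≤ n * (μ + 1) := Nat.mul_le_mul_left _ (by omega)
    have h8 : (μ + 1) * (4 * τ) ≤ (μ + 1) * n := by nlinarith only [h3, h4, h5, h6, h7]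
    exact Nat.le_of_mul_le_mul_left h8 (by omega)
  have hfin := final_ineq_reg (w := w) (z := 2 * z) (p := p) (β := β)
    (S := ((d : ℝ) + 1) * (d + 2) - (n + 1) * m * (m + 1)) hκR hκ1R hmR
    (by linarith only [hM1R, hmR, hsR]) hM3R (Nat.cast_nonneg _)
    (by exact_mod_cast (by omega : s * w ≤ s + 14 * κ * (μ + 1)))
    (by rw [add_sub_cancel_right]; exact_mod_cast hw4) (Nat.cast_nonneg _) hW0R.le hW2R
    (Nat.cast_nonneg _) (by exact_mod_cast hn2) hpR.le (by exact_mod_cast (by omega : 2 * p ≤ s))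
    (Nat.cast_nonneg _) hβR hz1R hτR (by
      have : ((n : ℝ) + 1) * m * (m + 1) * s ^ 3 + 210 * s ^ 4 * m + 10000000 * κ ^ 3 * m ^ 2
        ≤ (d + 1) * (d + 2) * s ^ 3 := by exact_mod_cast hS
      linarith only [this])
  have hA : n * μ * (μ + 1) + ε * W ^ 2 + p * (2 * β + p) + n * (μ + w + 1) + 4 * τ * w ^ 2
      + 4 * w * μ ≤ 2 * W * β := by
    have : (n : ℝ) * μ * (μ + 1) + ε * W ^ 2 + p * (2 * β + p) + n * (μ + w + 1) + 4 * τ * w ^ 2
      + 4 * w * μ ≤ 2 * W * β := by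
      linarith only [hfin, hY, hzR, hεWR]
    exact_mod_cast this
  obtain ⟨v₀, hv₀⟩ : ∃ v₀, v = v₀ + z := by
    refine ⟨v - z, ?_⟩
    have : 3 * s * m ≤ 210 * s * m := Nat.mul_le_mul_right _ (by omega)
    omega
  have hv' : 2 * (W + 1) * (β + 1) ≤ 2 * v₀ + n * μ * (μ + 1) + ε * W * (W + 1) := by
    have h1 : ((d : ℝ) + 1) * (d + 2) ≤ 2 * (v₀ + z) + (n + 1) * m * (m + 1) := by
      rw [hv₀] at hv
      exact_mod_cast hv
    have : (2 : ℝ) * (W + 1) * (β + 1) ≤ 2 * v₀ + n * μ * (μ + 1) + ε * W * (W + 1) := by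
      linarith only [h1, hY, hzR]
    exact_mod_cast this
  obtain ⟨x, hx, H1⟩ := level_two_reg (e := e) hp0 hq0 hcop' hw1 hw2 hqW hε hτ hτ4 hN
    (by omega) (by omega) hA hv'
  obtain ⟨y, H2⟩ := few_elementary (α := α) (σ := s ^ 2) hW (by rw [Fintype.card_fin]; exact hne)
    (by omega) (by rw [Fintype.card_fin]; exact hβ1.ge) hx H1
  obtain ⟨q₁, rfl⟩ : ∃ q₁, s = q₁ + 1 := ⟨s - 1, by omega⟩
  obtain ⟨a, b', H3⟩ := level_one_reg (m' := m + ρ) (d := d) (by omega) (by omega) hα.ge H2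
  exact add_origin (Nat.le_add_right m ρ) H3 (by omega)

end Pool.Agent.Lib.MP_6e81d8_ag.H88
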