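import Mathlib
import Pool.Agent.Lib.MP_6e81d8_ag.H88CoreReg
import Pool.Agent.Lib.MP_6e81d8_ag.H16.Generic

/-!
Homogeneous systems whose virtual dimension is not too close to zero have the expected dimension.
-/

set_option autoImplicit false
set_option maxHeartbeats 1000000

namespace Pool.Agent.Lib.MP_6e81d8_ag.H88

open Polynomial Finset
open scoped Polynomial.Bivariate

lemma bd_symm {d : ℕ} {f : MvPolynomial (Fin 2) ℂ} (hf : f.totalDegree ≤ d) :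
    Bd 1 1 d ((Bivariate.equivMvPolynomial ℂ).symm f) := by
  rw [f.as_sum, map_sum]
  apply bd_sum
  intro e he
  have h1 : e 0 + e 1 ≤ d := by
    have := MvPolynomial.le_totalDegree he
    rw [Finsupp.sum_fintype _ _ (fun _ => rfl), Fin.sum_univ_two] at this
    omega
  rw [← H16.ex_self e, H16.monomial_ex, map_mul, map_mul, map_pow, map_pow,
    Bivariate.equivMvPolynomial_symm_C, Bivariate.equivMvPolynomial_symm_X_0,
    Bivariate.equivMvPolynomial_symm_X_1]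
  exact (((bd_C (c := 0) (by simp)).mul ((bd_C (c := 1) (by simp)).pow (e 0))).mul
    (bd_Y.pow (e 1))).mono (by omega)

lemma van_symm {m : ℕ} {p : Fin 2 → ℂ} {f : MvPolynomial (Fin 2) ℂ}
    (hf : f ∈ RingHom.ker (MvPolynomial.eval p) ^ m) :
    Van m (p 0) (p 1) ((Bivariate.equivMvPolynomial ℂ).symm f) := by
  let ψ : MvPolynomial (Fin 2) ℂ →+* ℂ[X][Y] :=
    (Bivariate.equivMvPolynomial ℂ).symm.toRingEquiv.toRingHom
  have hψ : ∀ g, ψ g = (Bivariate.equivMvPolynomial ℂ).symm g := fun _ => rfl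
  have h0 : (evalEvalRingHom (p 0) (p 1)).comp ψ = MvPolynomial.eval p := by
    apply MvPolynomial.ringHom_ext
    · intro r
      simp [hψ]
    · intro i
      fin_cases i <;> simp [hψ]
  have h1 : Ideal.map ψ (RingHom.ker (MvPolynomial.eval p)) ≤ mx (p 0) (p 1) := by
    rw [Ideal.map_le_iff_le_comap]
    intro g hg
    rw [Ideal.mem_comap, mem_mx_iff]
    rw [RingHom.mem_ker, ← h0] at hg
    exact hg
  have h2 := Ideal.mem_map_of_mem ψ hf
  rw [Ideal.map_pow] at h2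
  exact Ideal.pow_right_mono h1 m h2

theorem generic_few {n d v : ℕ} {m : Fin n → ℕ} {a b : Fin n → ℂ}
    (h : Few (fun i k => i + k ≤ d) m a b v) :
    ∃ F : MvPolynomial (Fin n × Fin 2) ℂ, F ≠ 0 ∧ ∀ p : Fin n → Fin 2 → ℂ,
      MvPolynomial.eval (fun ij : Fin n × Fin 2 => p ij.1 ij.2) F ≠ 0 →
      Module.finrank ℂ (H16.Sys d m p) ≤ v := by
  obtain ⟨c, e, -, h1⟩ := h.exists_emp one_ne_zero
  have hD : Bdd (fun i k => i + k ≤ d) := ⟨d + 1, fun i k h => ⟨by omega, by omega⟩⟩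
  have h2 := emp_generic (A := MvPolynomial (Fin n × Fin 2) ℂ)
    (MvPolynomial.eval (fun ij : Fin n × Fin 2 => ![a ij.1, b ij.1] ij.2)) MvPolynomial.C
    (fun x => MvPolynomial.eval_C x) hD (m := Sum.elim m (fun _ : Fin v => 1))
    (a := Sum.elim (fun j => MvPolynomial.X (j, 0)) (fun l => MvPolynomial.C (c l)))
    (b := Sum.elim (fun j => MvPolynomial.X (j, 1)) (fun l => MvPolynomial.C (e l))) (by
      convert h1 using 2 <;> rename_i j <;> rcases j with j | l <;> simp)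
  obtain ⟨F, hF, H⟩ := emp_open hD h2
  refine ⟨F, hF, fun p hp => ?_⟩
  have h3 : Few (fun i k => i + k ≤ d) m (fun j => p j 0) (fun j => p j 1) v :=
    few_of_emp (H ℂ _ hp) (fun _ => le_rfl) (fun _ => rfl) (fun _ => by simp) (fun _ => by simp)
  have h4 := h3.1
  refine le_trans ?_ h3.2
  let Φ : H16.Sys d m p →ₗ[ℂ] Sol (fun i k => i + k ≤ d) m (fun j => p j 0) (fun j => p j 1) :=
    LinearMap.codRestrict _
      ((Bivariate.equivMvPolynomial ℂ).symm.toLinearMap.comp (H16.Sys d m p).subtype) (by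
        rintro ⟨f, hf1, hf2⟩
        refine ⟨fun i k hik => ?_, fun j => ?_⟩
        · have := bd_symm ((MvPolynomial.mem_restrictTotalDegree _ _ _).mp hf1) i k hik
          omega
        · simp only [Submodule.coe_iInf, Set.mem_iInter, SetLike.mem_coe] at hf2
          exact van_symm (hf2 j))
  apply LinearMap.finrank_le_finrank_of_injective (f := Φ)
  intro f g hfg
  exact Subtype.ext ((Bivariate.equivMvPolynomial ℂ).symm.injective
    (congrArg (fun z : Sol (fun i k => i + k ≤ d) m (fun j => p j 0) (fun j => p j 1) =>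
      (z : ℂ[X][Y])) hfg))

lemma choose_s {m d : ℕ} (hm : 0 < m) (h : 4 * m ≤ d) :
    ∃ s, s % 2 = 0 ∧ (s + 4) * m ≤ d ∧ d < (s + 6) * m := by
  have h1 : 4 ≤ d / m := (Nat.le_div_iff_mul_le hm).mpr h
  refine ⟨2 * ((d / m - 4) / 2), by omega, ?_, ?_⟩
  · exact (Nat.le_div_iff_mul_le hm).mp (by omega)
  · exact (Nat.div_lt_iff_lt_mul hm).mp (by omega)

lemma threshold_le {s κ m R L a b : ℝ} (hs : 0 ≤ s) (h1 : s ≤ R) (h2 : R ≤ 2 * s) (hR : 0 < R)
    (hκ0 : 0 ≤ κ) (hκ : κ ≤ 6 * L) (hm : 0 ≤ m) (ha : 0 ≤ a) (hb : 0 ≤ b) :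
    a * s ^ 4 * m + b * κ ^ 3 * m ^ 2 ≤ s ^ 3 * (a * R * m + 1728 * b * (m ^ 2 * L ^ 3 / R ^ 3)) := by
  have h3 : a * s ^ 3 * m * s ≤ a * s ^ 3 * m * R := mul_le_mul_of_nonneg_left h1 (by positivity)
  have h4 : κ ^ 3 ≤ (6 * L) ^ 3 := pow_le_pow_left₀ hκ0 hκ 3
  have h5 : R ^ 3 ≤ (2 * s) ^ 3 := pow_le_pow_left₀ hR.le h2 3
  have hL : 0 ≤ L := by linarith
  set y := m ^ 2 * L ^ 3 / R ^ 3 with hy
  have hy0 : 0 ≤ y := by positivity
  have hyR : y * R ^ 3 = m ^ 2 * L ^ 3 := by rw [hy]; field_simp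
  have h6 := mul_le_mul_of_nonneg_left h4 (show 0 ≤ b * m ^ 2 by positivity)
  have h7 := mul_le_mul_of_nonneg_left h5 (show 0 ≤ b * y by positivity)
  have h8 : b * (y * R ^ 3) = b * (m ^ 2 * L ^ 3) := by rw [hyR]
  linarith

lemma exists_kappa {n : ℕ} (hn : 10 ^ 16 ≤ n) :
    10 ^ 8 ≤ Real.sqrt n ∧ 10 ^ 10 * Real.log n ^ 3 ≤ 0.64 * Real.sqrt n ^ 3 ∧
      ∃ κ : ℕ, 2 + 5 * Real.log n < κ ∧ κ ≤ 6 * Real.log n ∧ 400 * κ + 8 ≤ Real.sqrt n := by
  have hnR : (10 : ℝ) ^ 16 ≤ n := by exact_mod_cast hn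
  have hR : (10 : ℝ) ^ 8 ≤ Real.sqrt n := Real.le_sqrt_of_sq_le (by norm_num at hnR ⊢; exact hnR)
  set R := Real.sqrt n with hRdef
  set Q := Real.sqrt R with hQdef
  have hQ : (10 : ℝ) ^ 4 ≤ Q := Real.le_sqrt_of_sq_le (by norm_num at hR ⊢; exact hR)
  have hQR : Q ^ 2 = R := Real.sq_sqrt (by linarith [show (0 : ℝ) ≤ 10 ^ 8 by positivity])
  have hRn : R ^ 2 = n := Real.sq_sqrt (Nat.cast_nonneg n)
  have hQ0 : 0 < Q := lt_of_lt_of_le (by positivity) hQ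
  have hL1 : Real.log n ≤ 4 * Q := by
    have h1 : (n : ℝ) = Q ^ 4 := by rw [← hRn, ← hQR]; ring
    have h2 := Real.log_le_sub_one_of_pos hQ0
    rw [h1, Real.log_pow]
    push_cast
    linarith
  have hL2 : 3 ≤ Real.log n := by
    have h1 : Real.log (2 ^ 5) ≤ Real.log n :=
      Real.log_le_log (by positivity) (le_trans (by norm_num) hnR)
    rw [Real.log_pow] at h1
    have := Real.log_two_gt_d9
    push_cast at h1
    linarith
  refine ⟨hR, ?_, ⌊2 + 5 * Real.log n⌋₊ + 1, ?_, ?_, ?_⟩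
  · have h1 : Real.log n ^ 3 ≤ (4 * Q) ^ 3 := pow_le_pow_left₀ (by linarith) hL1 3
    have h2 : ((10 : ℝ) ^ 4) ^ 3 ≤ Q ^ 3 := pow_le_pow_left₀ (by positivity) hQ 3
    have h3 := mul_le_mul_of_nonneg_right h2 (show 0 ≤ Q ^ 3 by positivity)
    rw [← hQR]
    nlinarith only [h1, h3]
  · push_cast
    exact Nat.lt_floor_add_one _
  · push_cast
    have := Nat.floor_le (show 0 ≤ 2 + 5 * Real.log n by linarith)
    linarith
  · push_cast
    have h1 := Nat.floor_le (show 0 ≤ 2 + 5 * Real.log n by linarith)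
    have h2 := mul_le_mul_of_nonneg_right hQ hQ0.le
    rw [← hQR]
    nlinarith only [h1, h2, hL1, hQ, hL2]

lemma s_facts {n m d s : ℕ} (hn : 10 ^ 16 ≤ n) (hm : 100 * Real.sqrt n ≤ m)
    (hd1 : (s + 4) * m ≤ d) (h1 : d ^ 2 ≤ n * m * (m + 1) + 4 * m ^ 2)
    (h2 : Nat.sqrt n ≤ s + 6) :
    (s : ℝ) ≤ Real.sqrt n ∧ Real.sqrt n ≤ s + 7 ∧ 50 * s ≤ m ∧ Real.log s ≤ Real.log n := by
  obtain ⟨hR, -, -⟩ := exists_kappa hn
  have hRn : Real.sqrt n ^ 2 = n := Real.sq_sqrt (Nat.cast_nonneg n)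
  have h3 : Real.sqrt n ≤ s + 7 := by
    have h4 := Real.real_sqrt_lt_nat_sqrt_succ (a := n)
    have h5 : ((Nat.sqrt n : ℕ) : ℝ) ≤ s + 6 := by exact_mod_cast h2
    linarith
  set R := Real.sqrt n
  have hm0 : (0 : ℝ) < m := by linarith [show (0 : ℝ) < 10 ^ 8 by positivity]
  have h4 : (s : ℝ) ≤ R := by
    by_contra hcon
    have hcon' := (not_le.mp hcon).le
    have h5 : (((s : ℝ) + 4) * m) ^ 2 ≤ n * m * (m + 1) + 4 * m ^ 2 := by
      have : ((s + 4) * m) ^ 2 ≤ n * m * (m + 1) + 4 * m ^ 2 :=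
        (Nat.pow_le_pow_left hd1 2).trans h1
      exact_mod_cast this
    have h6 : ((R + 4) * m) ^ 2 ≤ (((s : ℝ) + 4) * m) ^ 2 :=
      pow_le_pow_left₀ (by positivity) (by nlinarith only [hcon', hm0]) 2
    rw [← hRn] at h5
    have h7 : m * ((R + 4) ^ 2 * m) ≤ m * (R ^ 2 * (m + 1) + 4 * m) := by linarith only [h5, h6]
    have h8 := le_of_mul_le_mul_left h7 hm0
    have h9 : R * (100 * R) ≤ R * m := mul_le_mul_of_nonneg_left hm (by positivity)
    nlinarith only [h8, h9, hm0, sq_nonneg R]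
  refine ⟨h4, h3, ?_, ?_⟩
  · have : (50 : ℝ) * s ≤ m := by linarith [show (0 : ℝ) < 10 ^ 8 by positivity]
    exact_mod_cast this
  · apply Real.log_le_log (by linarith [show (100 : ℝ) < 10 ^ 8 by norm_num])
    rw [← hRn]
    nlinarith only [h4, hR]

theorem neg_side_aux {n m d : ℕ} (hn : 10 ^ 16 ≤ n) (hm : 100 * Real.sqrt n ≤ m)
    (hd : m * (Nat.sqrt n - 1) ≤ d)
    (hT : ((d : ℝ) + 1) * (d + 2) + (142 * Real.sqrt n * m
      + 1728 * 5000000 * (m ^ 2 * Real.log n ^ 3 / Real.sqrt n ^ 3)) ≤ n * m * (m + 1)) :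
    ∃ a b : Fin n → ℂ, Emp (fun i k => i + k ≤ d) (fun _ => m) a b := by
  obtain ⟨hR, -, κ, hκ1, hκ2, hκ3⟩ := exists_kappa hn
  have hr : 10 ^ 8 ≤ Nat.sqrt n := Nat.le_sqrt'.mpr (by norm_num at hn ⊢; exact hn)
  have hR0 : 0 < Real.sqrt n := lt_of_lt_of_le (by positivity) hR
  have hm0 : 0 < m := by
    have : (0 : ℝ) < m := by linarith
    exact_mod_cast this
  have hL0 : 0 ≤ Real.log n := Real.log_natCast_nonneg n
  obtain ⟨s, hs, hd1, hd2⟩ := choose_s hm0 (d := d)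
    (le_trans (by rw [mul_comm]; exact Nat.mul_le_mul_left _ (by omega)) hd)
  have h1 : Nat.sqrt n ≤ s + 6 := by
    have : m * (Nat.sqrt n - 1) < m * (s + 6) := by rw [mul_comm m (s + 6)]; omega
    have := Nat.lt_of_mul_lt_mul_left this
    omega
  have h2 : (d + 1) * (d + 2) ≤ n * m * (m + 1) := by
    have h3 : (0 : ℝ) ≤ 142 * Real.sqrt n * m
      + 1728 * 5000000 * (m ^ 2 * Real.log n ^ 3 / Real.sqrt n ^ 3) := by positivity
    have : ((d : ℝ) + 1) * (d + 2) ≤ n * m * (m + 1) := by linarith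
    exact_mod_cast this
  obtain ⟨h3, h4, h5, h6⟩ := s_facts hn hm hd1 (by nlinarith only [h2, Nat.zero_le (m ^ 2)]) h1
  have h7 := threshold_le (s := s) (κ := κ) (m := m) (a := 142) (b := 5000000) (Nat.cast_nonneg _)
    h3 (by linarith [show (100 : ℝ) < 10 ^ 8 by norm_num]) hR0 (Nat.cast_nonneg _) hκ2
    (Nat.cast_nonneg _) (by norm_num) (by norm_num)
  obtain ⟨n₁, rfl⟩ : ∃ n₁, n = n₁ + 1 := ⟨n - 1, by omega⟩
  apply core (κ := κ) hs hd1 hd2 _ h5 _ (by linarith) _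
  · have h8 := Nat.lt_succ_sqrt' (n₁ + 1)
    exact h8.le.trans (Nat.pow_le_pow_left (by omega) 2)
  · have : (400 : ℝ) * κ ≤ s := by linarith
    exact_mod_cast this
  · have h8 := mul_le_mul_of_nonneg_left hT (show (0 : ℝ) ≤ (s : ℝ) ^ 3 by positivity)
    have : ((d : ℝ) + 1) * (d + 2) * s ^ 3 + 142 * s ^ 4 * m + 5000000 * κ ^ 3 * m ^ 2
      ≤ ((n₁ + 1 : ℕ) : ℝ) * m * (m + 1) * s ^ 3 := by linarith only [h7, h8]
    exact_mod_cast this

lemma small_term {n m : ℕ} (hn : 10 ^ 16 ≤ n) :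
    10 ^ 10 * ((m : ℝ) ^ 2 * Real.log n ^ 3 / Real.sqrt n ^ 3) ≤ 0.64 * m ^ 2 := by
  obtain ⟨hR, h1, -⟩ := exists_kappa hn
  have hR0 : 0 < Real.sqrt n := lt_of_lt_of_le (by positivity) hR
  rw [← mul_div_assoc, div_le_iff₀ (by positivity)]
  have := mul_le_mul_of_nonneg_left h1 (sq_nonneg (m : ℝ))
  linarith

theorem neg_side {n m d : ℕ} (hn : 10 ^ 16 ≤ n) (hm : 100 * Real.sqrt n ≤ m)
    (hT : ((d : ℝ) + 1) * (d + 2) + (142 * Real.sqrt n * m
      + 1728 * 5000000 * (m ^ 2 * Real.log n ^ 3 / Real.sqrt n ^ 3)) ≤ n * m * (m + 1)) :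
    ∃ a b : Fin n → ℂ, Emp (fun i k => i + k ≤ d) (fun _ => m) a b := by
  by_cases hd : m * (Nat.sqrt n - 1) ≤ d
  · exact neg_side_aux hn hm hd hT
  · obtain ⟨hR, -, -⟩ := exists_kappa hn
    have hr : 10 ^ 8 ≤ Nat.sqrt n := Nat.le_sqrt'.mpr (by norm_num at hn ⊢; exact hn)
    obtain ⟨a, b, h⟩ := neg_side_aux hn hm (d := m * (Nat.sqrt n - 1)) le_rfl (by
      obtain ⟨r, hr'⟩ : ∃ r, Nat.sqrt n = r + 1 := ⟨Nat.sqrt n - 1, by omega⟩
      have h1 : ((r : ℝ) + 1) ^ 2 ≤ n := by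
        have := Nat.sqrt_le' n
        rw [hr'] at this
        exact_mod_cast this
      have h2 : (10 : ℝ) ≤ r := by exact_mod_cast (by omega : 10 ≤ r)
      have h3 := small_term (m := m) hn
      have hm1 : (100 : ℝ) ≤ m := by linarith [show (1 : ℝ) < 10 ^ 8 by norm_num]
      have h4 := mul_le_mul_of_nonneg_right hm (show (0 : ℝ) ≤ m by linarith)
      have h5 := mul_le_mul_of_nonneg_right h1 (show (0 : ℝ) ≤ m * (m + 1) by positivity)
      have h6 := mul_le_mul_of_nonneg_right hm1 (show (0 : ℝ) ≤ m * r by positivity)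
      have h7 := mul_le_mul_of_nonneg_right h2 (show (0 : ℝ) ≤ m * m by positivity)
      have h8 := mul_le_mul_of_nonneg_right hm1 (show (0 : ℝ) ≤ m by linarith)
      have h9 : (0 : ℝ) ≤ m * (r + 1) ^ 2 := by positivity
      have h10 : (0 : ℝ) ≤ (m : ℝ) ^ 2 * Real.log n ^ 3 / Real.sqrt n ^ 3 := by
        have := Real.log_natCast_nonneg n
        positivity
      rw [hr', Nat.add_sub_cancel]
      push_cast
      nlinarith only [h3, h4, h5, h6, h7, h8, h9, h10, hm1])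
    exact ⟨a, b, h.mono (fun i k hik => by omega)⟩

theorem pos_side {n m d v : ℕ} (hn : 10 ^ 16 ≤ n) (hm : 100 * Real.sqrt n ≤ m)
    (hT : (n : ℝ) * m * (m + 1) + (210 * Real.sqrt n * m
      + 1728 * 10000000 * (m ^ 2 * Real.log n ^ 3 / Real.sqrt n ^ 3)) ≤ (d + 1) * (d + 2))
    (hv : (d + 1) * (d + 2) ≤ 2 * v + n * m * (m + 1)) :
    ∃ a b : Fin n → ℂ, Few (fun i k => i + k ≤ d) (fun _ => m) a b v := by
  classical
  obtain ⟨hR, -, κ, hκ1, hκ2, hκ3⟩ := exists_kappa hn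
  have hR0 : 0 < Real.sqrt n := lt_of_lt_of_le (by positivity) hR
  have hRn : Real.sqrt n ^ 2 = n := Real.sq_sqrt (Nat.cast_nonneg n)
  have hm1 : (100 : ℝ) ≤ m := by linarith [show (1 : ℝ) < 10 ^ 8 by norm_num]
  have hm0 : 100 ≤ m := by exact_mod_cast hm1
  have hL0 : 0 ≤ Real.log n := Real.log_natCast_nonneg n
  set T : ℝ := 210 * Real.sqrt n * m
      + 1728 * 10000000 * (m ^ 2 * Real.log n ^ 3 / Real.sqrt n ^ 3) with hTdef
  have hT0 : 0 ≤ T := by positivity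
  have hT1 : T ≤ 3.3 * m ^ 2 := by
    have h3 := small_term (m := m) hn
    have h4 := mul_le_mul_of_nonneg_right hm (show (0 : ℝ) ≤ m by linarith)
    nlinarith only [h3, h4, hTdef, sq_nonneg (m : ℝ)]
  have hex : ∃ d : ℕ, (n : ℝ) * m * (m + 1) + T ≤ (d + 1) * (d + 2) := ⟨d, hT⟩
  set d₀ := Nat.find hex with hd₀
  have h1 : (n : ℝ) * m * (m + 1) + T ≤ (d₀ + 1) * (d₀ + 2) := Nat.find_spec hex
  have h2 : d₀ ≤ d := Nat.find_min' hex hT
  have h1' : n * m * (m + 1) ≤ (d₀ + 1) * (d₀ + 2) := by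
    have : (n : ℝ) * m * (m + 1) ≤ (d₀ + 1) * (d₀ + 2) := by linarith
    exact_mod_cast this
  have hr : 10 ^ 8 ≤ Nat.sqrt n := Nat.le_sqrt'.mpr (by norm_num at hn ⊢; exact hn)
  have h3 : Nat.sqrt n * m < d₀ + 2 := by
    have h4 : Nat.sqrt n ^ 2 * (m * m) ≤ n * (m * (m + 1)) :=
      Nat.mul_le_mul (Nat.sqrt_le' n) (Nat.mul_le_mul_left _ (by omega))
    apply Nat.mul_self_lt_mul_self_iff.mp
    nlinarith only [h4, h1']
  have h4 : 10 ^ 8 * m ≤ Nat.sqrt n * m := Nat.mul_le_mul_right _ hr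
  have h5 : (d₀ : ℝ) * (d₀ + 1) < n * m * (m + 1) + T := by
    obtain ⟨d₁, hd₁⟩ : ∃ d₁, d₀ = d₁ + 1 := ⟨d₀ - 1, by omega⟩
    have := Nat.find_min hex (m := d₁) (by omega)
    rw [hd₁]
    push_cast
    linarith only [not_le.mp this]
  have h6 : (d₀ : ℝ) ≤ 2 * Real.sqrt n * m := by
    apply (pow_le_pow_iff_left₀ (by positivity) (by positivity) two_ne_zero).mp
    have h7 : (1 : ℝ) ≤ n := by exact_mod_cast (by omega : 1 ≤ n)
    have h8 : (10 : ℝ) * m ^ 2 ≤ n * m ^ 2 := mul_le_mul_of_nonneg_right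
      (by exact_mod_cast (by omega : 10 ≤ n)) (sq_nonneg _)
    have h9 : (n : ℝ) * m * 1 ≤ n * m * m :=
      mul_le_mul_of_nonneg_left (by linarith) (by positivity)
    have h10 : (0 : ℝ) ≤ d₀ := Nat.cast_nonneg _
    rw [mul_pow, mul_pow, hRn]
    nlinarith only [h5, hT1, h8, h9, h10, sq_nonneg (m : ℝ)]
  have h7 : (d₀ + 1) * (d₀ + 2) ≤ n * m * (m + 1) + 4 * m ^ 2 := by
    have h8 := mul_le_mul_of_nonneg_right hm (show (0 : ℝ) ≤ m by linarith)
    have h9 := mul_le_mul_of_nonneg_right hm1 (show (0 : ℝ) ≤ m by linarith)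
    have : ((d₀ : ℝ) + 1) * (d₀ + 2) ≤ n * m * (m + 1) + 4 * m ^ 2 := by
      nlinarith only [h5, hT1, h6, h8, h9, hm1]
    exact_mod_cast this
  obtain ⟨s, hs, hd1, hd2⟩ := choose_s (show 0 < m by omega) (d := d₀) (by omega)
  have h8 : Nat.sqrt n ≤ s + 6 := by
    have : Nat.sqrt n * m < (s + 7) * m := by nlinarith only [h3, hd2, hm0]
    have := Nat.lt_of_mul_lt_mul_right this
    omega
  obtain ⟨h9, h10, h11, h12⟩ := s_facts hn hm hd1 (by nlinarith only [h7]) h8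
  have h13 := threshold_le (s := s) (κ := κ) (m := m) (a := 210) (b := 10000000)
    (Nat.cast_nonneg _) h9 (by linarith [show (100 : ℝ) < 10 ^ 8 by norm_num]) hR0
    (Nat.cast_nonneg _) hκ2 (Nat.cast_nonneg _) (by norm_num) (by norm_num)
  rw [← hTdef] at h13
  obtain ⟨v₀, hv₀⟩ : ∃ v₀, (d₀ + 1) * (d₀ + 2) = 2 * v₀ + n * m * (m + 1) := by
    obtain ⟨a, ha⟩ := Nat.even_mul_succ_self (d₀ + 1)
    obtain ⟨b, hb⟩ := (Nat.even_mul_succ_self m).mul_left n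
    rw [← mul_assoc] at hb
    rw [show d₀ + 1 + 1 = d₀ + 2 by omega] at ha
    exact ⟨a - b, by omega⟩
  clear_value T d₀
  obtain ⟨n₁, rfl⟩ : ∃ n₁, n = n₁ + 1 := ⟨n - 1, by omega⟩
  obtain ⟨a, b, H⟩ := core_reg (κ := κ) (v := v₀) hs hd1 hd2 h11
    (by
      have : (400 : ℝ) * κ ≤ s := by linarith
      exact_mod_cast this)
    (by linarith)
    (by
      have h8 := mul_le_mul_of_nonneg_left h1 (show (0 : ℝ) ≤ (s : ℝ) ^ 3 by positivity)
      have : ((n₁ + 1 : ℕ) : ℝ) * m * (m + 1) * s ^ 3 + 210 * s ^ 4 * m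
        + 10000000 * κ ^ 3 * m ^ 2 ≤ ((d₀ : ℝ) + 1) * (d₀ + 2) * s ^ 3 := by
        linarith only [h13, h8]
      exact_mod_cast this) h7 hv₀.le
  obtain ⟨Z, hZ1, hZ2⟩ := exists_band (d₀ + 1) (d + 1) (by omega)
  refine ⟨a, b, (H.extend Z (fun i k hik => ?_)).mono ?_⟩
  · by_cases h : i + k ≤ d₀
    · exact Or.inl h
    · exact Or.inr (hZ1 i k (by omega) (by omega))
  · rw [show d₀ + 1 + 1 = d₀ + 2 by omega, show d + 1 + 1 = d + 2 by omega] at hZ2
    omega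

theorem homogeneous {n m d : ℕ} (hn : 10 ^ 16 ≤ n) (hm : 100 * Real.sqrt n ≤ m)
    (h : 200 * m * Real.sqrt n + 10 ^ 10 * m ^ 2 * Real.log n ^ 3 / Real.sqrt n ^ 3
      ≤ |((d * (d + 3) / 2 : ℕ) : ℝ) - n * ((m * (m + 1) / 2 : ℕ) : ℝ)|) :
    ∃ F : MvPolynomial (Fin n × Fin 2) ℂ, F ≠ 0 ∧ ∀ p : Fin n → Fin 2 → ℂ,
      MvPolynomial.eval (fun ij : Fin n × Fin 2 => p ij.1 ij.2) F ≠ 0 →
      (Module.finrank ℂ (H16.Sys d (fun _ => m) p) : ℤ) - 1
        = max (-1) (((d * (d + 3) / 2 : ℕ) : ℤ) - n * ((m * (m + 1) / 2 : ℕ) : ℤ)) := by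
  obtain ⟨hR, -, -⟩ := exists_kappa hn
  obtain ⟨A, hA⟩ : ∃ A, (d + 1) * (d + 2) = 2 * A + 2 ∧ d * (d + 3) / 2 = A := by
    obtain ⟨a, ha⟩ := Nat.even_mul_succ_self (d + 1)
    have : (d + 1) * (d + 1 + 1) = d * (d + 3) + 2 := by ring
    exact ⟨d * (d + 3) / 2, by rw [show d + 2 = d + 1 + 1 by omega]; omega, rfl⟩
  obtain ⟨B, hB⟩ : ∃ B, m * (m + 1) = 2 * B ∧ m * (m + 1) / 2 = B := by
    obtain ⟨b, hb⟩ := Nat.even_mul_succ_self m
    exact ⟨b, by omega, by omega⟩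
  rw [hA.2, hB.2] at h ⊢
  have hAR : ((d : ℝ) + 1) * (d + 2) = 2 * A + 2 := by exact_mod_cast hA.1
  have hBR : (n : ℝ) * m * (m + 1) = 2 * (n * B) := by
    have : (m : ℝ) * (m + 1) = 2 * B := by exact_mod_cast hB.1
    rw [mul_assoc, this]
    ring
  have hBN : n * m * (m + 1) = 2 * (n * B) := by exact_mod_cast hBR
  have hy : (0 : ℝ) ≤ (m : ℝ) ^ 2 * Real.log n ^ 3 / Real.sqrt n ^ 3 := by
    have := Real.log_natCast_nonneg n
    positivity
  have hy' : (10 : ℝ) ^ 10 * m ^ 2 * Real.log n ^ 3 / Real.sqrt n ^ 3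
      = 10 ^ 10 * ((m : ℝ) ^ 2 * Real.log n ^ 3 / Real.sqrt n ^ 3) := by ring
  have hmR : (1 : ℝ) ≤ Real.sqrt n * m := by
    have h1 : (1 : ℝ) ≤ Real.sqrt n := le_trans (by norm_num) hR
    nlinarith only [h1, hm]
  rw [hy'] at h
  rcases le_abs'.mp h with h1 | h1
  · obtain ⟨a, b, H⟩ := neg_side (d := d) hn hm (by linarith only [h1, hAR, hBR, hy, hmR])
    obtain ⟨F, hF, H'⟩ := generic_few H.few
    refine ⟨F, hF, fun p hp => ?_⟩
    have h2 : A + 1 ≤ n * B := by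
      have : (A : ℝ) + 1 ≤ n * B := by linarith only [h1, hy, hmR]
      exact_mod_cast this
    have h3 : (A : ℤ) + 1 ≤ n * B := by exact_mod_cast h2
    rw [Nat.le_zero.mp (H' p hp), max_eq_left (by linarith)]
    simp
  · have h2 : n * B ≤ A := by
      have : (n : ℝ) * B ≤ A := by linarith only [h1, hy, hmR]
      exact_mod_cast this
    obtain ⟨a, b, H⟩ := pos_side (d := d) (v := A + 1 - n * B) hn hm
      (by linarith only [h1, hAR, hBR, hy, hmR]) (by omega)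
    obtain ⟨F, hF, H'⟩ := generic_few H
    refine ⟨F, hF, fun p hp => ?_⟩
    have h3 := H' p hp
    have h4 := H16.always_lower d (fun _ : Fin n => m) p
    rw [sum_const, card_univ, Fintype.card_fin, smul_eq_mul, ← mul_assoc] at h4
    have h5 : Module.finrank ℂ (H16.Sys d (fun _ => m) p) + n * B = A + 1 := by omega
    have h6 : (Module.finrank ℂ (H16.Sys d (fun _ => m) p) : ℤ) + n * B = A + 1 := by
      exact_mod_cast h5
    have h7 : (n : ℤ) * B ≤ A := by exact_mod_cast h2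
    rw [max_eq_right (by linarith)]
    linarith

end Pool.Agent.Lib.MP_6e81d8_ag.H88
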