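import Pool.Agent.Lib.MP_6e81d8_ag.Final
import Pool.Agent.Lib.MP_6e81d8_ag.H88Final

set_option autoImplicit false
set_option maxHeartbeats 400000
set_option maxSynthPendingDepth 3

namespace Pool.Agent.Lib.MP_6e81d8_ag

open Polynomial Finset Module

theorem Bd.reindex {ι : Type} {E : Submodule ℂ R} {m n ρ : ℕ}
    (h : Bd (fun _ : Fin n => m) E univ ρ) {μ : ι → ℕ} {S : Finset ι} (hS : S.card = n)
    (hμ : ∀ i ∈ S, m ≤ μ i) : Bd μ E S ρ := by
  classical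
  obtain ⟨p, Ψ, h⟩ := h
  let e : S ≃ Fin n := S.equivFinOfCardEq hS
  refine ⟨fun i => if hi : i ∈ S then p (e ⟨i, hi⟩) else 0, Ψ, fun F hF hV hΨ =>
    h F hF (fun j _ => ?_) hΨ⟩
  have h1 := hV (e.symm j) (e.symm j).2
  simp only [(e.symm j).2, dif_pos, Subtype.coe_eta, Equiv.apply_symm_apply] at h1
  exact h1.mono (hμ _ (e.symm j).2)

theorem mx_eq (p : ℂ × ℂ) : mx p = H88.mx p.1 p.2 := by
  ext F
  rw [mem_mx, H88.mem_mx_iff, ev_eq]

theorem bd_of_few {D : ℕ → ℕ → Prop} {n m v : ℕ} {a b : Fin n → ℂ}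
    (h : H88.Few D (fun _ => m) a b v) {E : Submodule ℂ R} (hE : ∀ F ∈ E, H88.Sup D F) :
    Bd (fun _ : Fin n => m) E univ v := by
  have := h.1
  obtain ⟨_, Ψ, hΨ⟩ := bd_of_finrank (fun _ : Unit => 0) (H88.Sol D (fun _ => m) a b) ∅ h.2
  refine ⟨fun i => (a i, b i), Ψ, fun F hF hV h0 => hΨ F ⟨hE F hF, fun j => ?_⟩ (by simp) h0⟩
  have h1 := hV j (mem_univ j)
  rw [Van, mx_eq] at h1
  exact h1

theorem Bd.add_simple {ι : Type} {μ : ι → ℕ} {E : Submodule ℂ R} [FiniteDimensional ℂ E]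
    {S : Finset ι} {a v : ℕ} (h : Bd μ E S (v + a)) :
    Bd (Sum.elim μ fun _ : Fin v => 1) E (S.disjSum univ) a := by
  obtain ⟨p, Ψ, h⟩ := h
  let V : Submodule ℂ R := E ⊓ sol μ S p
  have hV : finrank ℂ V ≤ v + a := by
    have : Function.Injective (Ψ ∘ₗ V.subtype) := by
      rw [injective_iff_map_eq_zero]
      intro F hF
      exact Subtype.ext (h F F.2.1 (mem_sol.mp F.2.2) hF)
    simpa using LinearMap.finrank_le_finrank_of_injective this
  obtain ⟨c, e, -, h2⟩ := H88.exists_points (E := (1 : R)) one_ne_zero (v + a) V inferInstance hV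
  refine ⟨Sum.elim p fun j => (c (Fin.castAdd a j), e (Fin.castAdd a j)),
    LinearMap.pi fun j => (ev (c (Fin.natAdd v j), e (Fin.natAdd v j))).toLinearMap,
    fun F hF hV h0 => h2 F ⟨hF, mem_sol.mpr fun i hi => hV (Sum.inl i) (by simpa using hi)⟩ ?_⟩
  intro l
  refine Fin.addCases (fun j => ?_) (fun j => ?_) l
  · have h3 := hV (Sum.inr j) (by simp)
    simp only [Sum.elim_inr, Van, pow_one, mem_mx, ev_eq] at h3
    exact h3
  · have h3 : ev (c (Fin.natAdd v j), e (Fin.natAdd v j)) F = 0 := congrFun h0 j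
    rw [ev_eq] at h3
    exact h3

theorem exists_beta {m μ N σ e α W : ℕ} {z : ℤ} (hW : W = m + μ) (hN : N = 2 * e + σ)
    (h : 2 * ((W : ℤ) + 1) * (α + 1) = σ * W * (W + 1) + N * m * (m + 1) + 2 * z)
    (hz : 0 < (N : ℤ) * μ * (μ + 1) + 2 * z) :
    ∃ β : ℕ, α + W * e = β + m * N ∧
      2 * ((W : ℤ) + 1) * (β + 1) = N * μ * (μ + 1) + 2 * z := by
  have h1 : 2 * ((W : ℤ) + 1) * (α + W * e - m * N + 1) = N * μ * (μ + 1) + 2 * z := by
    subst hW hN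
    push_cast at h ⊢
    linear_combination h
  have h2 : (0 : ℤ) < α + W * e - m * N + 1 := by
    rw [← h1] at hz
    exact (pos_iff_pos_of_mul_pos hz).mp (by positivity)
  obtain ⟨β, hβ⟩ := Int.eq_ofNat_of_zero_le (show (0 : ℤ) ≤ α + W * e - m * N by omega)
  refine ⟨β, ?_, by rw [← hβ]; exact h1⟩
  have : (α : ℤ) + W * e = β + m * N := by omega
  exact_mod_cast this

theorem strip_emp {m μ N σ e α W t x : ℕ} (hW : W = m + μ) (hN : N = 2 * e + σ) (hev : N % 2 = 0)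
    (hσ : σ ≤ e) (h1 : t ^ 2 ≤ μ) (h2 : μ ≤ 7 * t ^ 2) (h3 : t ^ 3 ≤ m) (h4 : m ≤ 2 * t ^ 3)
    (h5 : 1000 ≤ t) (h6 : 1000 * t ≤ N)
    (hA : 2 * (W + 1) * (α + 1) + 2 * x = σ * W * (W + 1) + N * m * (m + 1))
    (hx1 : 100000 * (N * t ^ 2) ≤ x) (hx2 : x ≤ N * m) :
    ∃ a b : Fin N → ℂ, H88.Few (H88.trap W α σ) (fun _ => m) a b 0 := by
  have ht2 : 1000 * t ≤ t ^ 2 := by nlinarith only [h5]
  have ht3 : 1000 * t ^ 2 ≤ t ^ 3 := by
    linarith only [Nat.mul_le_mul_right (t ^ 2) h5]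
  have hμ0 : 0 < μ := by omega
  have hW3 : W + 1 ≤ 3 * t ^ 3 := by omega
  have hNt : 1000 * t ^ 3 ≤ N * t ^ 2 := by
    linarith only [Nat.mul_le_mul_right (t ^ 2) h6]
  have k1 : N * μ * t ^ 2 ≤ N * μ * (μ + 1) := Nat.mul_le_mul_left _ (by omega)
  have k2 : 4 * x ≤ N * μ * t ^ 2 := by
    have a1 : N * m ≤ N * (2 * t ^ 3) := Nat.mul_le_mul_left _ h4
    have a2 : N * t ^ 2 * t ^ 2 ≤ N * μ * t ^ 2 :=
      Nat.mul_le_mul_right _ (Nat.mul_le_mul_left _ h1)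
    have a3 : N * t ^ 3 * 1000 ≤ N * t ^ 3 * t := Nat.mul_le_mul_left _ h5
    linarith only [a1, a2, a3, hx2, Nat.zero_le (N * t ^ 3)]
  have k3 : 1000 * t ^ 3 * μ ≤ N * μ * t ^ 2 := by
    linarith only [Nat.mul_le_mul_right μ hNt]
  obtain ⟨β, hβ1, hβ2⟩ := exists_beta (z := -(x : ℤ)) (α := α) hW hN
    (by have : (2 * (W + 1) * (α + 1) + 2 * x : ℤ) = σ * W * (W + 1) + N * m * (m + 1) := by
          exact_mod_cast hA
        linarith)
    (by have : 2 * x < N * μ * (μ + 1) := by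
          have : 0 < t ^ 3 * μ := by positivity
          linarith only [this, k1, k2, k3]
        have : (2 * x : ℤ) < N * μ * (μ + 1) := by exact_mod_cast this
        linarith)
  replace hβ2 : 2 * (W + 1) * (β + 1) + 2 * x = N * μ * (μ + 1) := by
    have : (2 * (W + 1) * (β + 1) + 2 * x : ℤ) = N * μ * (μ + 1) := by linarith
    exact_mod_cast this
  have hβ3 : 2 * μ ≤ β := by
    by_contra hc
    have a1 : (W + 1) * (β + 1) ≤ 3 * t ^ 3 * (2 * μ) := Nat.mul_le_mul hW3 (by omega)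
    have : 0 < t ^ 3 * μ := by positivity
    linarith only [this, k1, k2, k3, a1, hβ2]
  obtain ⟨p, hp1, hp2⟩ : ∃ p, p * μ ≤ W ∧ W < p * μ + μ :=
    ⟨W / μ, Nat.div_mul_le_self _ _, Nat.lt_div_mul_add hμ0⟩
  have hp3 : t < 7 * p := by
    have a1 : p * μ ≤ p * (7 * t ^ 2) := Nat.mul_le_mul_left _ h2
    have a2 : t * t ^ 2 < 7 * p * t ^ 2 := by linarith only [a1, hp2, hW, h3]
    exact Nat.lt_of_mul_lt_mul_right a2
  have hp4 : p ≤ 3 * t := by
    have a1 : p * t ^ 2 ≤ p * μ := Nat.mul_le_mul_left _ h1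
    have a2 : p * t ^ 2 ≤ 3 * t * t ^ 2 := by linarith only [a1, hp1, hW3]
    exact Nat.le_of_mul_le_mul_right a2 (by positivity)
  have hp0 : 0 < p := by omega
  obtain ⟨w, hw1, hw2⟩ : ∃ w, p * (μ + w) ≤ W ∧ W < p * (μ + w + 1) := by
    have a1 : μ ≤ W / p := (Nat.le_div_iff_mul_le hp0).mpr (by rw [mul_comm]; exact hp1)
    obtain ⟨w, hw⟩ := Nat.exists_eq_add_of_le a1
    exact ⟨w, hw ▸ Nat.mul_div_le _ _, hw ▸ Nat.lt_mul_div_succ _ hp0⟩
  have hw3 : p * w < μ := by linarith only [hw1, hp2]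
  have hw4 : w < 49 * t := by
    have a1 : t * w ≤ 7 * p * w := Nat.mul_le_mul_right _ hp3.le
    have a2 : t * w < t * (49 * t) := by linarith only [a1, hw3, h2]
    exact Nat.lt_of_mul_lt_mul_left a2
  obtain ⟨τ, hτ⟩ : ∃ τ, N = 2 * τ + 2 * p := ⟨N / 2 - p, by omega⟩
  have hpβ : 2 * (p * β) ≤ 8 * (N * t ^ 2) := by
    have a1 : p * μ * β ≤ W * β := Nat.mul_le_mul_right _ hp1
    have a2 : μ * (2 * (p * β)) ≤ μ * (N * (μ + 1)) := by
      linarith only [a1, hβ2, Nat.zero_le x, Nat.zero_le W, Nat.zero_le β]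
    have a3 := Nat.le_of_mul_le_mul_left a2 hμ0
    have a4 : N * (μ + 1) ≤ N * (8 * t ^ 2) := Nat.mul_le_mul_left _ (by omega)
    linarith only [a3, a4]
  obtain ⟨y, hy, H⟩ := H88.level_two (n := N) (μ := μ) (w := w) (W := W) (β := β) (ε := 0)
    (e := e) (p := p) (q := 1) (τ := τ) hp0 le_rfl (Nat.coprime_one_right p) hw1 hw2
    (by have : p * (2 * μ) ≤ p * β := Nat.mul_le_mul_left _ hβ3
        have : 1 * μ ≤ p * μ := Nat.mul_le_mul_right _ hp0
        linarith)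
    (by omega) (by
      have : 3 * e ≤ p * e := Nat.mul_le_mul_right _ (by omega)
      omega) (by omega) hμ0 (by
      have a1 : 4 * τ * w * (w + 1) ≤ 2 * N * (49 * t) * (49 * t) :=
        Nat.mul_le_mul (Nat.mul_le_mul (by omega) hw4.le) hw4
      have a2 : 2 * w * (μ + 1) ≤ 2 * (49 * t) * (8 * t ^ 2) :=
        Nat.mul_le_mul (by omega) (by omega)
      have a3 : 2 * N * (49 * t) * (49 * t) = 4802 * (N * t ^ 2) := by ring
      have a4 : 2 * (49 * t) * (8 * t ^ 2) = 784 * t ^ 3 := by ring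
      have a5 : 2 * (W + 1) * (β + 1) = 2 * W * β + 2 * W + 2 * β + 2 := by ring
      omega)
  obtain ⟨y', H'⟩ := H88.few_elementary (α := α) (σ := σ) hW
    (by rw [Fintype.card_fin]; omega) (Nat.zero_le e) (by rw [Fintype.card_fin]; omega) hy H.few
  exact ⟨y, y', H'⟩

theorem exists_smooth {y : ℕ} (hy : 3 ≤ y) :
    ∃ q, y ≤ q ∧ 2 * q ≤ 3 * y ∧ ∀ j, Nat.Coprime (6 * j + 1) q := by
  have h1 := Nat.pow_log_le_self 2 (show (y - 1) / 2 ≠ 0 by omega)
  have h2 := Nat.lt_pow_succ_log_self (show 1 < 2 by omega) ((y - 1) / 2)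
  rw [pow_succ] at h2
  generalize Nat.log 2 ((y - 1) / 2) = a at h1 h2
  have c2 : ∀ j, Nat.Coprime (6 * j + 1) 2 := fun j =>
    ((Nat.Prime.coprime_iff_not_dvd Nat.prime_two).mpr (by omega)).symm
  have c3 : ∀ j, Nat.Coprime (6 * j + 1) 3 := fun j =>
    ((Nat.Prime.coprime_iff_not_dvd Nat.prime_three).mpr (by omega)).symm
  by_cases h : y ≤ 3 * 2 ^ a
  · exact ⟨3 * 2 ^ a, h, by omega, fun j => (c3 j).mul_right ((c2 j).pow_right a)⟩
  · refine ⟨2 ^ (a + 2), by rw [pow_add]; omega, by rw [pow_add]; omega,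
      fun j => (c2 j).pow_right _⟩

theorem strip_reg {m μ N σ e α W t y : ℕ} (hW : W = m + μ) (hN : N = 2 * e + σ) (hev : N % 2 = 0)
    (hσ : σ ≤ e) (h1 : t ^ 2 ≤ μ) (h2 : μ ≤ 7 * t ^ 2) (h3 : t ^ 3 ≤ m) (h4 : m ≤ 2 * t ^ 3)
    (h5 : 100000 ≤ t) (h6 : 1000 * t ≤ N)
    (hA : 2 * (W + 1) * (α + 1) = σ * W * (W + 1) + N * m * (m + 1) + 2 * y)
    (hy1 : 100000 * (N * t ^ 2) ≤ y) (hy2 : y ≤ N * m) :
    ∃ a b : Fin N → ℂ, H88.Few (H88.trap W α σ) (fun _ => m) a b y := by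
  have ht2 : 100000 * t ≤ t ^ 2 := by nlinarith only [h5]
  have ht3 : 100000 * t ^ 2 ≤ t ^ 3 := by
    linarith only [Nat.mul_le_mul_right (t ^ 2) h5]
  have hμ0 : 0 < μ := by omega
  have hW3 : W + 1 ≤ 3 * t ^ 3 := by omega
  have hNt : 1000 * t ^ 3 ≤ N * t ^ 2 := by
    linarith only [Nat.mul_le_mul_right (t ^ 2) h6]
  obtain ⟨β, hβ1, hβ2⟩ := exists_beta (z := (y : ℤ)) (α := α) hW hN (by exact_mod_cast hA)
    (by have : 0 < y := by omega
        positivity)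
  replace hβ2 : 2 * (W + 1) * (β + 1) = N * μ * (μ + 1) + 2 * y := by exact_mod_cast hβ2
  obtain ⟨P, hP1, hP2⟩ : ∃ P, P * (μ + 1) ≤ W ∧ W < P * (μ + 1) + (μ + 1) :=
    ⟨W / (μ + 1), Nat.div_mul_le_self _ _, Nat.lt_div_mul_add (by omega)⟩
  have hP3 : t < 8 * (P + 1) := by
    have a1 : (P + 1) * (μ + 1) ≤ (P + 1) * (8 * t ^ 2) := Nat.mul_le_mul_left _ (by omega)
    have a2 : t * t ^ 2 < 8 * (P + 1) * t ^ 2 := by
      linarith only [a1, hP2, hW, h3, Nat.zero_le μ]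
    exact Nat.lt_of_mul_lt_mul_right a2
  have hP4 : P ≤ 3 * t := by
    have a1 : P * t ^ 2 ≤ P * (μ + 1) := Nat.mul_le_mul_left _ (by omega)
    have a2 : P * t ^ 2 ≤ 3 * t * t ^ 2 := by linarith only [a1, hP1, hW3]
    exact Nat.le_of_mul_le_mul_right a2 (by positivity)
  obtain ⟨j, p, hpj, hp1, hp2⟩ : ∃ j p, p = 6 * j + 1 ∧ p ≤ P ∧ P ≤ p + 5 :=
    ⟨(P - 1) / 6, _, rfl, by omega, by omega⟩
  have hp0 : 0 < p := by omega
  have hp3 : t ≤ 9 * p := by omega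
  have hp4 : p * (μ + 1) ≤ W := (Nat.mul_le_mul_right _ hp1).trans hP1
  obtain ⟨w, hw1, hw2⟩ : ∃ w, p * (μ + w + 1) ≤ W ∧ W < p * (μ + w + 2) := by
    have a1 : μ + 1 ≤ W / p := (Nat.le_div_iff_mul_le hp0).mpr (by rw [mul_comm]; exact hp4)
    obtain ⟨w, hw⟩ := Nat.exists_eq_add_of_le a1
    rw [show μ + 1 + w = μ + w + 1 by ring] at hw
    exact ⟨w, hw ▸ Nat.mul_div_le _ _, by
      have := Nat.lt_mul_div_succ W hp0
      rwa [hw] at this⟩
  have hw3 : p * w < 48 * t ^ 2 := by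
    have a1 : P * (μ + 1) ≤ (p + 5) * (μ + 1) := Nat.mul_le_mul_right _ hp2
    linarith only [a1, hP2, hw1, h2, ht2, h5]
  have hw4 : w < 432 * t := by
    have a1 : t * w ≤ 9 * p * w := Nat.mul_le_mul_right _ hp3
    have a2 : t * w < t * (432 * t) := by linarith only [a1, hw3]
    exact Nat.lt_of_mul_lt_mul_left a2
  have hpβ : 2 * (p * β) ≤ 8 * (N * t ^ 2) := by
    have a1 : p * (μ + 1) * β ≤ W * β := Nat.mul_le_mul_right _ hp4
    have a2 : N * m ≤ N * (2 * t ^ 3) := Nat.mul_le_mul_left _ h4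
    have a3 : N * t * t ^ 2 ≤ N * t * (μ + 1) := Nat.mul_le_mul_left _ (by omega)
    have a4 : (μ + 1) * (2 * (p * β)) ≤ (μ + 1) * (N * μ + 4 * (N * t)) := by
      linarith only [a1, a2, a3, hβ2, hy2, Nat.zero_le W, Nat.zero_le β]
    have a5 := Nat.le_of_mul_le_mul_left a4 (by omega)
    have a6 : N * μ ≤ N * (7 * t ^ 2) := Nat.mul_le_mul_left _ h2
    have a7 : N * (100000 * t) ≤ N * t ^ 2 := Nat.mul_le_mul_left _ ht2
    linarith only [a5, a6, a7, Nat.zero_le (N * t)]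
  have hβ3 : β ≤ p * β := Nat.le_mul_of_pos_left _ hp0
  have a5 : 2 * (W + 1) * (β + 1) = 2 * W * β + 2 * W + 2 * β + 2 := by ring
  have hq0 := Nat.lt_div_mul_add (a := N) (show 0 < 4 * p by omega)
  have hq1 := Nat.div_mul_le_self N (4 * p)
  have hq2 : 2 ≤ N / (4 * p) := (Nat.le_div_iff_mul_le (by omega)).mpr (by omega)
  generalize N / (4 * p) = u at hq0 hq1 hq2
  obtain ⟨q, hq3, hq4, hq5⟩ := exists_smooth (y := u + 1) (by omega)
  have hq6 : N ≤ 4 * (p * q) := by linarith only [hq0, Nat.mul_le_mul_left p hq3]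
  have hq7 : 100 * (2 * (p * q)) ≤ 76 * N := by
    linarith only [hq1, Nat.mul_le_mul_left p hq4, hp1, hP4, h6]
  obtain ⟨τ, hτ⟩ : ∃ τ, N = 2 * τ + 2 * (p * q) := ⟨N / 2 - p * q, by omega⟩
  have hqW : q * W ≤ p * β := by
    have b1 : N * μ * μ ≤ N * μ * (μ + 1) := Nat.mul_le_mul_left _ (by omega)
    have b2 : N * μ * μ ≤ 2 * W * β := by omega
    have b3 : 100 * (μ + w + 2) ≤ 101 * μ := by omega
    have b4 : (100 * (μ + w + 2)) * (100 * (μ + w + 2)) ≤ (101 * μ) * (101 * μ) :=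
      Nat.mul_le_mul b3 b3
    have b5 := Nat.mul_le_mul hq7 b4
    have b6 : 2 * (p * q) * ((μ + w + 2) * (μ + w + 2)) ≤ 2 * W * β := by
      linarith only [b5, b2, Nat.zero_le (N * μ * μ)]
    have b7 : W * W ≤ (p * (μ + w + 2)) * (p * (μ + w + 2)) := Nat.mul_le_mul hw2.le hw2.le
    have b8 := Nat.mul_le_mul_left (2 * (p * q)) b7
    have b9 := Nat.mul_le_mul_left (p * p) b6
    have b10 : (2 * p * W) * (q * W) ≤ (2 * p * W) * (p * β) := by linarith only [b8, b9]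
    exact Nat.le_of_mul_le_mul_left b10 (by have : 0 < W := by omega
                                            positivity)
  obtain ⟨x, hx, H⟩ := H88.level_two_reg (n := N) (μ := μ) (w := w) (W := W) (β := β) (ε := 0)
    (e := e) (p := p) (q := q) (τ := τ) (v := y) hp0 (by omega) (hpj ▸ hq5 j) hw1 hw2
    (by omega) (by omega) (by rw [mul_assoc]; omega) (by omega)
    (by have : 3 * e ≤ p * e := Nat.mul_le_mul_right _ (by omega)
        omega) (by omega) hμ0 (by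
      have c1 : 4 * τ * w ^ 2 ≤ N * (432 * t) ^ 2 :=
        Nat.mul_le_mul (by omega) (Nat.pow_le_pow_left hw4.le 2)
      have c2 : 4 * w * μ ≤ 4 * (432 * t) * (7 * t ^ 2) := Nat.mul_le_mul (by omega) h2
      have c3 : N * (432 * t) ^ 2 = 186624 * (N * t ^ 2) := by ring
      have c4 : 4 * (432 * t) * (7 * t ^ 2) = 12096 * t ^ 3 := by ring
      have c5 : N * (μ + w + 1) ≤ N * (8 * t ^ 2) := Nat.mul_le_mul_left _ (by omega)
      have c6 : N * (8 * t ^ 2) = 8 * (N * t ^ 2) := by ring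
      have c7 : p * p ≤ (3 * t) * (3 * t) := Nat.mul_le_mul (by omega) (by omega)
      have c8 : (3 * t) * (3 * t) = 9 * t ^ 2 := by ring
      have c9 : p * (2 * β + p) = 2 * (p * β) + p * p := by ring
      omega) (by omega)
  obtain ⟨y', H'⟩ := H88.few_elementary (α := α) (σ := σ) hW
    (by rw [Fintype.card_fin]; omega) (Nat.zero_le e) (by rw [Fintype.card_fin]; omega) hx H
  exact ⟨x, y', H'⟩

end Pool.Agent.Lib.MP_6e81d8_ag
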