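import Pool.Agent.Lib.MP_efa40c_ag.HN.Chain
import Pool.Agent.Lib.MP_efa40c_ag.HN.Proj

/-!
Independence of the conditions imposed by general multiple points on plane curves, above the
degree given by the square root of the number of points.
-/

set_option autoImplicit false

namespace Pool.Agent.Lib.MP_6e81d8_ag.H56

open MvPolynomial Finset Pool.Agent.Lib.MP_efa40c_ag.HN

lemma finrank_of_reg {n r d : ℕ} (hn : 1 ≤ n) {m : Fin r → ℕ} {p : Fin r → Fin n → ℂ}
    (h : Reg {t : Fin n →₀ ℕ | t.degree ≤ d} m p) :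
    Module.finrank ℂ ↥(restrictTotalDegree (Fin n) ℂ d ⊓
      ⨅ i : Fin r, ((RingHom.ker (eval (p i))) ^ (m i)).restrictScalars ℂ) +
      ∑ i, (n + m i - 1).choose n = (n + d).choose n := by
  have h0 : restrictTotalDegree (Fin n) ℂ d =
      restrictSupport ℂ ((low (Fin n) (d + 1) : Finset (Fin n →₀ ℕ)) : Set (Fin n →₀ ℕ)) := by
    rw [restrictTotalDegree]
    congr 1
    ext t
    simp only [Set.mem_ofPred_eq, mem_coe, mem_low, Nat.lt_succ_iff]
    rfl
  have h1 : Module.finrank ℂ (restrictTotalDegree (Fin n) ℂ d) = (n + d).choose n := by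
    rw [h0, Module.finrank_eq_card_basis (basisRestrictSupport ℂ _)]
    simp only [Finset.coe_sort_coe, Fintype.card_coe, card_low n _ hn]
    rfl
  let L : restrictTotalDegree (Fin n) ℂ d →ₗ[ℂ] (Cond (Fin n) m → ℂ) :=
    jet m p ∘ₗ Submodule.subtype _
  have hr : LinearMap.range L = ⊤ := by
    rw [eq_top_iff]
    intro y _
    obtain ⟨G, hG, hy⟩ := h y
    exact ⟨⟨G, hG⟩, hy⟩
  have hk : LinearMap.ker L = (restrictTotalDegree (Fin n) ℂ d ⊓
      ⨅ i : Fin r, ((RingHom.ker (eval (p i))) ^ (m i)).restrictScalars ℂ).comap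
      (restrictTotalDegree (Fin n) ℂ d).subtype := by
    ext F
    rw [LinearMap.mem_ker, show L F = jet m p F from rfl, jet_eq_zero]
    simp [Van, Submodule.mem_iInf]
  have h2 := L.finrank_range_add_finrank_ker
  rw [hr, hk, finrank_top, Module.finrank_fintype_fun_eq_card, Fintype.card_sigma,
    (Submodule.comapSubtypeEquivOfLe inf_le_left).finrank_eq, h1] at h2
  simp only [Fintype.card_coe, card_low n _ hn] at h2
  omega

theorem regular {r d μ : ℕ} {m : Fin r → ℕ} (hm : ∀ i, m i ≤ μ) (hd : 3 * μ ≤ d)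
    (h : (∑ i, m i) * (μ + 1) ^ 2 ≤ μ * (d + 3) ^ 2) :
    Gen fun p : Fin r → Fin 2 → ℂ => ((Module.finrank ℂ ↥(restrictTotalDegree (Fin 2) ℂ d ⊓
      ⨅ i : Fin r, ((RingHom.ker (eval (p i))) ^ (m i)).restrictScalars ℂ) : ℤ) - 1) =
      ((d * (d + 3) / 2 : ℕ) : ℤ) - ∑ i : Fin r, ((m i * (m i + 1) / 2 : ℕ) : ℤ) := by
  have h0 : (0 : ℝ) < μ + 1 := by positivity
  have h1 : (3 : ℝ) * μ ≤ d := by exact_mod_cast hd
  refine (affine_reg (n := 1) le_rfl (ν := (d + 3) / (μ + 1)) (d := d) ?_ hm ?_ ?_).mono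
    fun p hp => ?_
  · rw [le_div_iff₀ h0]
    linarith
  · rw [div_pow, div_mul_eq_mul_div, le_div_iff₀ (by positivity), mul_comm _ (μ : ℝ)]
    exact_mod_cast h
  · rw [Nat.cast_one, div_mul_cancel₀ _ h0.ne']
    linarith
  · have h2 := finrank_of_reg (n := 2) (by norm_num) hp
    have h3 : (2 + d).choose 2 = d * (d + 3) / 2 + 1 := by
      rw [Nat.choose_two_right, show (2 + d) * (2 + d - 1) = d * (d + 3) + 2 by
        rw [show 2 + d - 1 = d + 1 by omega]; ring]
      omega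
    have h4 : ∀ i, (2 + m i - 1).choose 2 = m i * (m i + 1) / 2 := fun i => by
      rw [Nat.choose_two_right, show 2 + m i - 1 = m i + 1 by omega, Nat.add_sub_cancel, mul_comm]
    simp only [h3, h4] at h2
    rw [← Nat.cast_sum]
    omega

end Pool.Agent.Lib.MP_6e81d8_ag.H56
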