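import Mathlib
import Pool.Agent.Lib.MP_6e81d8_ag.H88Final

set_option autoImplicit false

namespace Pool.Agent.Lib.MP_6e81d8_ag.H88NagataWindow

theorem result :
  ∀ (n m d : ℕ), 10 ^ 16 ≤ n → 100 * Real.sqrt n ≤ m →
    200 * m * Real.sqrt n + 10 ^ 10 * m ^ 2 * Real.log n ^ 3 / Real.sqrt n ^ 3
      ≤ |((d * (d + 3) / 2 : ℕ) : ℝ) - n * ((m * (m + 1) / 2 : ℕ) : ℝ)| →
    ∃ F : MvPolynomial (Fin n × Fin 2) ℂ, F ≠ 0 ∧
      ∀ p : Fin n → Fin 2 → ℂ,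
        MvPolynomial.eval (fun ij : Fin n × Fin 2 => p ij.1 ij.2) F ≠ 0 →
        ((Module.finrank ℂ
            ↥(MvPolynomial.restrictTotalDegree (Fin 2) ℂ d ⊓
              ⨅ i : Fin n,
                ((RingHom.ker (MvPolynomial.eval (p i))) ^ m).restrictScalars ℂ) : ℤ) - 1)
          = max (-1) (((d * (d + 3) / 2 : ℕ) : ℤ) - n * ((m * (m + 1) / 2 : ℕ) : ℤ)) :=
  fun _ _ _ hn hm h => Pool.Agent.Lib.MP_6e81d8_ag.H88.homogeneous hn hm h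

end Pool.Agent.Lib.MP_6e81d8_ag.H88NagataWindow
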