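import Pool.Agent.Lib.MP_6e81d8_ag.Homog

set_option autoImplicit false
set_option maxHeartbeats 400000
set_option maxSynthPendingDepth 3

namespace Pool.Agent.Lib.MP_6e81d8_ag

open Polynomial Finset Module

theorem mass_const (n m : ℕ) : mass (fun _ : Fin n => m) univ = n * tri m := by simp [mass]

theorem hom_large {n m d : ℕ} (hn : 10 ^ 30 ≤ n) (hm1 : n ≤ 16 * m)
    (hm : 10 ^ 14 * (m : ℝ) * Real.log n ^ 3 ≤ √n ^ 5) :
    Bd (fun _ : Fin n => m) (Dsp (d + 1) (d + 1)) univ (tri (d + 1) - n * tri m) := by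
  by_cases hd : |((d : ℝ) + 1) * (d + 2) - n * m * (m + 1)| ≤ n * m / 1000
  · exact hom_core hn hm1 hm hd
  have hsb := slack_bound (n' := n) hn le_rfl (by omega) hm
  have hnR : (10 : ℝ) ^ 30 ≤ n := by exact_mod_cast hn
  have hR : √(n : ℝ) ^ 2 = n := Real.sq_sqrt (Nat.cast_nonneg n)
  have hm100 : 100 * √(n : ℝ) ≤ m := by
    have c2 : (10 : ℝ) ^ 15 ≤ √n := Real.le_sqrt_of_sq_le (by linarith only [hnR])
    have c3 : (n : ℝ) ≤ 16 * m := by exact_mod_cast hm1
    nlinarith only [c2, c3, hR]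
  have c1 : 0 ≤ √(n : ℝ) * m := by positivity
  have c2 : 0 ≤ (m : ℝ) ^ 2 * Real.log n ^ 3 / √(n : ℝ) ^ 3 := by
    have := Real.log_natCast_nonneg n
    positivity
  rw [not_le, lt_abs] at hd
  rcases hd with hd | hd
  · obtain ⟨a, b, H⟩ := H88.pos_side (n := n) (m := m) (d := d) (v := tri (d + 1) - n * tri m)
      (by omega) hm100 (by linarith only [hsb, hd]) (by
        have h1 := two_tri (d + 1)
        have h2 := two_tri m
        rw [mul_assoc n, ← h2, show d + 2 = d + 1 + 1 by ring, ← h1, mul_left_comm n 2]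
        omega)
    exact bd_of_few H sup_Dsp
  · obtain ⟨a, b, H⟩ := H88.neg_side (n := n) (m := m) (d := d) (by omega) hm100
      (by linarith only [hsb, hd, c1, c2])
    exact bd_of_few (H.few.mono (Nat.zero_le _)) sup_Dsp

theorem hom_small {n m d : ℕ} (hn : 10 ^ 30 ≤ n) (hm0 : 0 < m) (hm1 : 16 * m ≤ n) :
    Bd (fun _ : Fin n => m) (Dsp (d + 1) (d + 1)) univ (tri (d + 1) - n * tri m) := by
  have hT : 1 ≤ tri m := tri_mono (a := 1) hm0
  obtain ⟨d₀, -, -, h1, h2⟩ := exists_step (f := fun z => n * tri m < tri (z + 1)) (a := 0)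
    (b := n * tri m) (by simp only [tri]; nlinarith) (by simp only [tri]; omega) (Nat.zero_le _)
  have key : ∀ d', d₀ ≤ d' →
      Bd (fun _ : Fin n => m) (Dsp (d' + 1) (d' + 1)) univ (tri (d' + 1) - n * tri m) := by
    intro d' hd'
    have a1 := two_tri (d₀ + 1 + 1)
    have a2 := two_tri m
    have a3 : n * (m * m) ≤ (d₀ + 3) * (d₀ + 3) := by
      have : n * (m * m) ≤ n * (2 * tri m) := Nat.mul_le_mul_left _ (by nlinarith only [a2])
      nlinarith only [this, a1, h2]
    have a4 : 1000 * m ≤ d₀ + 3 := by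
      refine Nat.mul_self_le_mul_self_iff.mp ?_
      have : 10 ^ 30 * (m * m) ≤ n * (m * m) := Nat.mul_le_mul_right _ hn
      nlinarith only [this, a3]
    have a5 : 14 * m ^ 3 ≤ d' * (d' - m) := by
      have b1 : (99 * (d₀ + 3)) * (99 * (d₀ + 3)) ≤ (100 * d') * (100 * (d' - m)) :=
        Nat.mul_le_mul (by omega) (by omega)
      have b2 : 16 * m * (m * m) ≤ n * (m * m) := Nat.mul_le_mul_right _ hm1
      nlinarith only [b1, b2, a3, Nat.zero_le (m ^ 3)]
    have := free_first n d' (fun _ => m) (by omega) (fun _ _ _ => le_rfl) (fun _ => hm0)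
      (fun _ _ _ _ _ _ => by omega) a5
    rwa [mass_const] at this
  rcases le_total d₀ d with h | h
  · exact key d h
  · have h3 := key d₀ le_rfl
    have h4 := tri_mono (show d + 1 ≤ d₀ + 1 by omega)
    rw [show tri (d₀ + 1) - n * tri m = 0 by omega] at h3
    rw [show tri (d + 1) - n * tri m = 0 by omega]
    refine Bd.mono (rows_mono fun b f hf => mem_lt.mpr fun a ha => mem_lt.mp hf a ?_) subset_rfl h3
    omega

theorem homogeneous_exact {n m d : ℕ} (hn : 10 ^ 30 ≤ n) (hm0 : 0 < m)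
    (hm : 10 ^ 14 * (m : ℝ) * Real.log n ^ 3 ≤ √n ^ 5) :
    ∃ F : MvPolynomial (Fin n × Fin 2) ℂ, F ≠ 0 ∧
      ∀ p : Fin n → Fin 2 → ℂ,
        MvPolynomial.eval (fun ij : Fin n × Fin 2 => p ij.1 ij.2) F ≠ 0 →
        ((Module.finrank ℂ
            ↥(MvPolynomial.restrictTotalDegree (Fin 2) ℂ d ⊓
              ⨅ i : Fin n,
                ((RingHom.ker (MvPolynomial.eval (p i))) ^ m).restrictScalars ℂ) : ℤ) - 1)
          = max (-1) (((d * (d + 3) / 2 : ℕ) : ℤ) - n * ((m * (m + 1) / 2 : ℕ) : ℤ)) := by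
  have h : Bd (fun _ : Fin n => m) (Dsp (d + 1) (d + 1)) univ
      (tri (d + 1) - mass (fun _ : Fin n => m) univ) := by
    rw [mass_const]
    rcases le_total n (16 * m) with h | h
    · exact hom_large hn h hm
    · exact hom_small hn hm0 h
  have := expected_of_bd _ h
  simpa only [sum_const, card_univ, Fintype.card_fin, nsmul_eq_mul] using this

end Pool.Agent.Lib.MP_6e81d8_ag
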