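import Pool.Agent.Lib.MP_6e81d8_ag.HomSel

set_option autoImplicit false
set_option maxHeartbeats 400000

namespace Pool.Agent.Lib.MP_6e81d8_ag

theorem step_bounds {n M R T I : ℝ} (hR0 : 0 < R) (hM : 1000 ≤ M) (hR : R ^ 2 = n) (hT0 : 0 < T)
    (hT1 : T ^ 3 ≤ M) (hT2 : M ≤ 1.001 * T ^ 3) (hI1 : 5 * T * I ≤ n)
    (hI2 : 0.9995 * n ≤ 5 * T * I) :
    0 < 8 * I * (M * (M + 1)) ∧
    4.08 * ((M * R) ^ 5 * R) ≤ (8 * I * (M * (M + 1))) ^ 3 ∧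
    (8 * I * (M * (M + 1))) ^ 3 ≤ 4.12 * ((M * R) ^ 5 * R) ∧
    8 * I * (M * (M + 1)) ≤ 1.604 * (M * R * R * T ^ 2) := by
  have hM0 : 0 < M := by linarith
  have hn : 0 < n := by rw [← hR]; positivity
  have hI0 : 0 < I := by
    by_contra h
    have : 5 * T * I ≤ 0 := mul_nonpos_of_nonneg_of_nonpos (by positivity) (by linarith)
    linarith
  obtain ⟨B, hB⟩ : ∃ B, B = 8 * I * (M * (M + 1)) := ⟨_, rfl⟩
  rw [← hB]
  have hB0 : 0 < B := by rw [hB]; positivity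
  have hu : (M * R) ^ 2 = n * M ^ 2 := by rw [← hR]; ring
  have h1 : 1.599 * (M * R) ^ 2 ≤ B * T := by
    have a1 : (0.9995 * n) * (M * M) ≤ (5 * T * I) * (M * (M + 1)) :=
      mul_le_mul hI2 (by nlinarith) (by positivity) (by positivity)
    have a2 : 0 ≤ n * M ^ 2 := by positivity
    rw [hu, hB]
    linarith
  have h2 : B * T ≤ 1.602 * (M * R) ^ 2 := by
    have a1 : (5 * T * I) * (M * (M + 1)) ≤ n * (M * (1.001 * M)) :=
      mul_le_mul hI1 (mul_le_mul_of_nonneg_left (by linarith) hM0.le) (by positivity) hn.le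
    have a2 : 0 ≤ n * M ^ 2 := by positivity
    rw [hu, hB]
    linarith
  have h3 := pow_le_pow_left₀ (by positivity) h1 3
  have h4 := pow_le_pow_left₀ (by positivity) h2 3
  have hB3 : 0 < B ^ 3 := by positivity
  have h5 := mul_le_mul_of_nonneg_left hT1 hB3.le
  have h6 := mul_le_mul_of_nonneg_left hT2 hB3.le
  have h7 : 0 ≤ (M * R) ^ 6 := by positivity
  refine ⟨hB0, le_of_mul_le_mul_right ?_ hM0, le_of_mul_le_mul_right ?_ hM0,
    le_of_mul_le_mul_right ?_ hM0⟩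
  · linarith
  · linarith
  · have a1 := mul_le_mul_of_nonneg_left hT2 hB0.le
    have a2 := mul_le_mul_of_nonneg_right h2 (sq_nonneg T)
    have a3 : 0 ≤ (M * R) ^ 2 * T ^ 2 := by positivity
    linarith

theorem degree_bounds {n M R d : ℝ} (hR1 : 1000 ≤ R) (hM : 100000 ≤ M) (hR : R ^ 2 = n)
    (hd0 : 0 ≤ d) (hd : |(d + 1) * (d + 2) - n * M * (M + 1)| ≤ n * M / 1000) :
    3.999 * (M * R) ^ 2 ≤ (2 * d + 3) ^ 2 ∧ (2 * d + 3) ^ 2 ≤ 4.001 * (M * R) ^ 2 ∧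
    1.999 * (M * R) ≤ 2 * d + 3 ∧ 2 * d + 3 ≤ 2.001 * (M * R) := by
  have hn : 1 ≤ n := by nlinarith
  have hu : (M * R) ^ 2 = n * M * M := by rw [← hR]; ring
  have h0 : 1 ≤ n * M := by nlinarith
  have h1 : n * M * 100000 ≤ n * M * M := mul_le_mul_of_nonneg_left hM (by linarith)
  rw [abs_le] at hd
  have h2 : 3.999 * (M * R) ^ 2 ≤ (2 * d + 3) ^ 2 := by rw [hu]; linarith [hd.1]
  have h3 : (2 * d + 3) ^ 2 ≤ 4.001 * (M * R) ^ 2 := by rw [hu]; linarith [hd.2]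
  have h4 : 0 ≤ M * R := by positivity
  refine ⟨h2, h3, ?_, ?_⟩
  · refine (pow_le_pow_iff_left₀ (by positivity) (by positivity) two_ne_zero).mp ?_
    linarith [sq_nonneg (M * R)]
  · refine (pow_le_pow_iff_left₀ (by positivity) (by positivity) two_ne_zero).mp ?_
    linarith [sq_nonneg (M * R)]

theorem exists_scale {n m : ℕ} {R : ℝ} (hR0 : 0 ≤ R) (hR : R ^ 2 = n) (hn : 10 ^ 30 ≤ n)
    (hm1 : n ≤ 16 * m) (hm2 : 10 ^ 14 * (m : ℝ) ≤ R ^ 5) :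
    10 ^ 15 ≤ R ∧ ∃ j t : ℕ, 0.249 * R ≤ 2 * j ∧ 2 * j ≤ 0.25 * R ∧ t ^ 3 ≤ m ∧ 10 ^ 8 ≤ t ∧
      (m : ℝ) ≤ 1.001 * t ^ 3 ∧ 10000 * t ≤ n := by
  have hnR : (10 : ℝ) ^ 30 ≤ n := by exact_mod_cast hn
  have h1 : 10 ^ 15 ≤ R := by
    refine (pow_le_pow_iff_left₀ (by positivity) hR0 two_ne_zero).mp ?_
    rw [hR]
    linarith
  obtain ⟨t, ht1, ht2⟩ := exists_cube m
  have ht3 : 10 ^ 8 ≤ t := by
    by_contra hc
    have := Nat.pow_le_pow_left (show t + 1 ≤ 10 ^ 8 by omega) 3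
    omega
  have ht4 : (10 : ℝ) ^ 8 ≤ t := by exact_mod_cast ht3
  refine ⟨h1, ⌊R / 8⌋₊, t, ?_, ?_, ht1, ht3, ?_, ?_⟩
  · have := Nat.lt_floor_add_one (R / 8)
    linarith
  · have := Nat.floor_le (show 0 ≤ R / 8 by positivity)
    linarith
  · have a1 : (m : ℝ) < (t + 1) ^ 3 := by exact_mod_cast ht2
    have a2 : ((t : ℝ) + 1) ^ 3 ≤ (1.0001 * t) ^ 3 :=
      pow_le_pow_left₀ (by positivity) (by linarith) 3
    have a3 : (0 : ℝ) ≤ (t : ℝ) ^ 3 := by positivity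
    linarith
  · have a1 : (t : ℝ) ^ 3 ≤ m := by exact_mod_cast ht1
    have a2 : R ^ 5 * 1 ≤ R ^ 5 * R := mul_le_mul_of_nonneg_left (by linarith) (by positivity)
    have a3 : (n : ℝ) ^ 3 = R ^ 5 * R := by rw [← hR]; ring
    have a4 : (10000 * (t : ℝ)) ^ 3 ≤ (n : ℝ) ^ 3 := by
      have : (0 : ℝ) ≤ (t : ℝ) ^ 3 := by positivity
      linarith
    have a5 := (pow_le_pow_iff_left₀ (by positivity) (by positivity) three_ne_zero).mp a4
    exact_mod_cast a5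

theorem choose_params {n m d : ℕ} {R : ℝ} (hR0 : 0 ≤ R) (hR : R ^ 2 = n) (hn : 10 ^ 30 ≤ n)
    (hm1 : n ≤ 16 * m) (hm2 : 10 ^ 14 * (m : ℝ) ≤ R ^ 5)
    (hd : |((d : ℝ) + 1) * (d + 2) - n * m * (m + 1)| ≤ n * m / 1000) :
    ∃ s k N e t : ℕ, 1 ≤ s ∧ (k + 1) * s ≤ d ∧ N = 2 * e + s * s ∧ N % 2 = 0 ∧ s * s ≤ e ∧
      m + t ^ 2 + 1 ≤ k ∧ k ≤ m + 7 * t ^ 2 ∧ t ^ 3 ≤ m ∧ m ≤ 2 * t ^ 3 ∧ 10 ^ 8 ≤ t ∧
      1000 * t ≤ N ∧ 2 * N ≤ n ∧
      (2 * (d : ℝ) + 3) ^ 2 - 4 * N * (m * (m + 1)) + 8 * (n * m / 1000)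
        ≤ (2 * d + 3 - 2 * k * s) ^ 2 ∧
      (2 * (d : ℝ) + 3 - 2 * (k + 1) * s) ^ 2 + 8 * (n * m / 1000)
        ≤ (2 * d + 3) ^ 2 - 4 * N * (m * (m + 1)) ∧
      (2 * (d : ℝ) + 3 - 2 * k * s) ^ 2 - (2 * d + 3 - 2 * (k + 1) * s) ^ 2 ≤ 8 * (N * m) := by
  obtain ⟨hR1, j, t, hj1, hj2, ht1, ht2, ht3, ht4⟩ := exists_scale hR0 hR hn hm1 hm2
  obtain ⟨s, hs⟩ : ∃ s, s = 2 * j := ⟨_, rfl⟩
  have hsR : (s : ℝ) = 2 * j := by exact_mod_cast hs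
  rw [← hsR] at hj1 hj2
  have hM : (10 : ℝ) ^ 28 ≤ m := by exact_mod_cast (by omega : 10 ^ 28 ≤ m)
  have hT : (10 : ℝ) ^ 8 ≤ t := by exact_mod_cast ht2
  have hT1 : (t : ℝ) ^ 3 ≤ m := by exact_mod_cast ht1
  have hT4 : 10000 * (t : ℝ) ≤ n := by exact_mod_cast ht4
  have hRp : 0 < R := by linarith
  have hM0 : (0 : ℝ) < m := by linarith
  have hT0 : (0 : ℝ) < t := by linarith
  have hn0 : (0 : ℝ) < n := by linarith
  obtain ⟨hD1, hD2, hD3, hD4⟩ := degree_bounds (by linarith) (by linarith) hR (Nat.cast_nonneg d) hd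
  obtain ⟨I, hI1, hI2⟩ : ∃ I : ℕ, 5 * (t : ℝ) * I ≤ n ∧ 0.9995 * (n : ℝ) ≤ 5 * t * I := by
    have a1 : ((5 * t * (n / (5 * t)) : ℕ) : ℝ) ≤ n := by exact_mod_cast Nat.mul_div_le n (5 * t)
    have a2 : (n : ℝ) < ((5 * t * (n / (5 * t) + 1) : ℕ) : ℝ) := by
      exact_mod_cast Nat.lt_mul_div_succ n (show 0 < 5 * t by omega)
    push_cast at a1 a2
    exact ⟨n / (5 * t), a1, by linarith⟩
  obtain ⟨hB0, hB1, hB2, hB3⟩ := step_bounds hRp (by linarith) hR hT0 hT1 ht3 hI1 hI2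
  obtain ⟨B, hB⟩ : ∃ B : ℝ, B = 8 * I * (m * (m + 1)) := ⟨_, rfl⟩
  obtain ⟨u, hu⟩ : ∃ u : ℝ, u = m * R := ⟨_, rfl⟩
  obtain ⟨D, hD⟩ : ∃ D : ℝ, D = 2 * d + 3 := ⟨_, rfl⟩
  rw [← hB] at hB0 hB1 hB2 hB3
  rw [← hu] at hB1 hB2 hB3 hD1 hD2 hD3 hD4
  rw [← hD] at hD1 hD2 hD3 hD4 ⊢
  have hu0 : 1000 ≤ u := by rw [hu]; nlinarith only [hM, hR1]
  have huR : u * R = n * m := by rw [hu, ← hR]; ring
  have hu2 : u ^ 2 = n * m ^ 2 := by rw [hu, ← hR]; ring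
  have hc : ∀ k : ℕ, m ≤ k → k ≤ m + 7 * t ^ 2 + 1 →
      1.49 * u ≤ D - 2 * k * s ∧ D - 2 * k * s ≤ 1.51 * u := by
    intro k h1 h2
    have a1 : (m : ℝ) ≤ k := by exact_mod_cast h1
    have a2 : (k : ℝ) ≤ m + 7 * t ^ 2 + 1 := by exact_mod_cast h2
    have a3 : (t : ℝ) ^ 2 * 10 ^ 8 ≤ t ^ 2 * t := mul_le_mul_of_nonneg_left hT (sq_nonneg _)
    have a4 : (k : ℝ) ≤ 1.001 * m := by linarith only [a2, a3, hT1, hM, sq_nonneg (t : ℝ)]
    have a5 : (m : ℝ) * (0.249 * R) ≤ k * s := mul_le_mul a1 hj1 (by positivity) (by positivity)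
    have a6 : (k : ℝ) * s ≤ (1.001 * m) * (0.25 * R) :=
      mul_le_mul a4 hj2 (by positivity) (by positivity)
    constructor
    · linarith only [a6, hD3, hu, hu0]
    · linarith only [a5, hD4, hu, hu0]
  obtain ⟨l1, l2⟩ := hc (m + t ^ 2 + 1) (by omega) (by omega)
  obtain ⟨g1, g2⟩ := hc (m + 7 * t ^ 2 + 1) (by omega) le_rfl
  obtain ⟨cl, hcl⟩ : ∃ c : ℝ, c = D - 2 * (m + t ^ 2 + 1 : ℕ) * s := ⟨_, rfl⟩
  obtain ⟨ch, hch⟩ : ∃ c : ℝ, c = D - 2 * (m + 7 * t ^ 2 + 1 : ℕ) * s := ⟨_, rfl⟩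
  rw [← hcl] at l1 l2
  rw [← hch] at g1 g2
  have hT2 : (0 : ℝ) < 8 * (m * (m + 1)) := by positivity
  have hcl2 : cl ^ 2 ≤ (1.51 * u) ^ 2 := pow_le_pow_left₀ (by linarith) l2 2
  have hch2 : (1.49 * u) ^ 2 ≤ ch ^ 2 := pow_le_pow_left₀ (by linarith) g1 2
  obtain ⟨h₀, hh1, hh2⟩ : ∃ h₀ : ℕ, D ^ 2 - cl ^ 2 ≤ h₀ * (8 * (m * (m + 1))) ∧
      h₀ * (8 * ((m : ℝ) * (m + 1))) < D ^ 2 - cl ^ 2 + 8 * (m * (m + 1)) := by
    have a0 : 0 ≤ (D ^ 2 - cl ^ 2) / (8 * (m * (m + 1))) :=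
      div_nonneg (by linarith only [hcl2, hD1, sq_nonneg u]) hT2.le
    refine ⟨⌈(D ^ 2 - cl ^ 2) / (8 * (m * (m + 1)))⌉₊, (div_le_iff₀ hT2).mp (Nat.le_ceil _), ?_⟩
    have := mul_lt_mul_of_pos_right (Nat.ceil_lt_add_one a0) hT2
    rwa [add_mul, div_mul_cancel₀ _ hT2.ne', one_mul] at this
  obtain ⟨A, hA⟩ : ∃ A : ℝ, A = D ^ 2 - h₀ * (8 * (m * (m + 1))) := ⟨_, rfl⟩
  have hA1 : A ≤ cl ^ 2 := by linarith only [hA, hh1]
  have hA2 : ch ^ 2 < A - 3 * B := by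
    have a1 : cl - ch = 12 * (t ^ 2 * s) := by rw [hcl, hch]; push_cast; ring
    have a2 : (t : ℝ) ^ 2 * (0.249 * R) ≤ t ^ 2 * s := mul_le_mul_of_nonneg_left hj1 (sq_nonneg _)
    have a3 : (12 * (t ^ 2 * (0.249 * R))) * (2.98 * u) ≤ (cl - ch) * (cl + ch) :=
      mul_le_mul (by linarith only [a1, a2]) (by linarith only [l1, g1]) (by linarith only [hu0])
        (by rw [a1]; positivity)
    have a4 : (t : ℝ) ^ 2 * (10000 * t) ≤ t ^ 2 * n := mul_le_mul_of_nonneg_left hT4 (sq_nonneg _)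
    have a5 : (m : ℝ) * (m + 1) ≤ m * (0.001 * (t ^ 2 * n)) :=
      mul_le_mul_of_nonneg_left (by linarith only [a4, ht3, hM, hT1]) hM0.le
    have a6 : u * R * t ^ 2 = m * (t ^ 2 * n) := by rw [huR]; ring
    have a7 : (0 : ℝ) < m * (t ^ 2 * n) := by positivity
    linarith only [a3, a5, a6, a7, hB3, hA, hh2]
  have hsel := select (D := 2 * d + 3) (s := s) (A := A) (B := B) (η := 8 * (n * m / 1000))
    (lo := 1.45 * u) (hi := 1.55 * u) hB0 (by linarith only [hu0])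
    (by linarith only [hA2, hch2, sq_nonneg u]) (by linarith only [hu0])
    (by linarith only [hA1, hcl2, sq_nonneg u]) ?_ ?_
  rotate_left
  · have a1 : 8 * (n * m / 1000) / (1.45 * u) = 8 / 1450 * R := by
      rw [← huR]; field_simp; norm_num
    have a2 := mul_le_mul_of_nonneg_right hB1 (show 0 ≤ u by linarith only [hu0])
    have a3 : 0 < u ^ 6 * R := by
      have : 0 < u := by linarith only [hu0]
      positivity
    rw [a1]
    linarith only [a2, a3]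
  · have a1 : 8 * (n * m / 1000) / (1.45 * u) = 8 / 1450 * R := by
      rw [← huR]; field_simp; norm_num
    have a2 := mul_le_mul_of_nonneg_right hB2 (show 0 ≤ u by linarith only [hu0])
    have a0 : 0 < u := by linarith only [hu0]
    have a3 : 0 < u ^ 6 * R := by positivity
    have a4 := mul_le_mul_of_nonneg_left hj1 (show 0 ≤ u ^ 6 by positivity)
    rw [a1]
    push_cast
    linarith only [a2, a3, a4]
  push Not at hsel
  obtain ⟨i, hi, hsel⟩ := hsel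
  have hi1 : (i : ℝ) * B ≤ 3 * B :=
    mul_le_mul_of_nonneg_right (by exact_mod_cast (by omega : i ≤ 3)) hB0.le
  have hi0 : 0 ≤ (i : ℝ) * B := by positivity
  obtain ⟨k, hk1, hk2, hk3, hk4⟩ := exists_step (f := fun k : ℕ => (D - 2 * k * s) ^ 2 < A - i * B)
    (a := m + t ^ 2 + 1) (b := m + 7 * t ^ 2 + 1)
    (by rw [← hcl]; linarith only [hA1, hi0]) (by rw [← hch]; linarith only [hA2, hi1]) (by omega)
  obtain ⟨p1, p2⟩ := hc k (by omega) (by omega)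
  obtain ⟨q1, q2⟩ := hc (k + 1) (by omega) (by omega)
  push_cast at hk4 q1 q2
  rw [not_lt] at hk3
  have s1 := hsel k (by
    have : (0 : ℝ) ≤ ((2 * d + 3 - 2 * k * s : ℤ) : ℝ) := by
      push_cast; linarith only [p1, hD, hu0]
    exact_mod_cast this)
  have s2 := hsel (k + 1) (by
    have : (0 : ℝ) ≤ ((2 * d + 3 - 2 * (k + 1) * s : ℤ) : ℝ) := by
      push_cast; linarith only [q1, hD, hu0]
    exact_mod_cast this)
  push_cast at s1 s2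
  rw [← hD, abs_of_nonneg (by linarith only [hk3])] at s1
  rw [← hD, abs_of_neg (by linarith only [hk4])] at s2
  obtain ⟨N, hN⟩ : ∃ N, N = 2 * (h₀ + i * I) := ⟨_, rfl⟩
  have hNR : A - i * B = D ^ 2 - 4 * N * (m * (m + 1)) := by rw [hA, hB, hN]; push_cast; ring
  have hN1 : 0.39 * (n : ℝ) ≤ N := by
    have a1 : (N : ℝ) * (m * (m + 1)) ≤ N * (m * (1.001 * m)) :=
      mul_le_mul_of_nonneg_left (mul_le_mul_of_nonneg_left (by linarith only [hM]) hM0.le)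
        (Nat.cast_nonneg N)
    refine le_of_mul_le_mul_right ?_ (show (0 : ℝ) < m ^ 2 by positivity)
    have a2 : (0 : ℝ) ≤ N * m ^ 2 := by positivity
    linarith only [a1, a2, hNR, hA1, hi0, hcl2, hD1, hu2]
  have hN2 : 2 * (N : ℝ) ≤ n := by
    have a1 : (N : ℝ) * (m * m) ≤ N * (m * (m + 1)) :=
      mul_le_mul_of_nonneg_left (mul_le_mul_of_nonneg_left (by linarith only []) hM0.le)
        (Nat.cast_nonneg N)
    refine le_of_mul_le_mul_right ?_ (show (0 : ℝ) < m ^ 2 by positivity)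
    linarith only [a1, hNR, hA2, hi1, hch2, hD2, hu2, sq_nonneg u]
  have hs3 : 3 * (s * s) ≤ N := by
    have a1 : (s : ℝ) * s ≤ (0.25 * R) * (0.25 * R) :=
      mul_le_mul hj2 hj2 (by positivity) (by positivity)
    have : 3 * ((s : ℝ) * s) ≤ N := by linarith only [a1, hR, hN1, hn0]
    exact_mod_cast this
  have hs4 : s * s = 2 * (j * s) := by rw [hs]; ring
  refine ⟨s, k, N, (N - s * s) / 2, t, ?_, ?_, by omega, by omega, by omega, hk1, by omega, ht1,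
    ?_, ht2, ?_, by exact_mod_cast hN2, by linarith only [s1, hNR], by linarith only [s2, hNR], ?_⟩
  · have : (1 : ℝ) ≤ s := by linarith only [hj1, hR1]
    exact_mod_cast this
  · have : ((k : ℝ) + 1) * s ≤ d := by linarith only [q1, hD, hu0]
    exact_mod_cast this
  · have : (m : ℝ) ≤ 2 * t ^ 3 := by linarith only [ht3, hT1, hM0]
    exact_mod_cast this
  · have : 1000 * (t : ℝ) ≤ N := by linarith only [hT4, hN1, hn0]
    exact_mod_cast this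
  · have a1 : (s : ℝ) * ((D - 2 * k * s) + (D - 2 * (k + 1) * s)) ≤ (0.25 * R) * (3.02 * u) :=
      mul_le_mul hj2 (by linarith only [p2, q2]) (by linarith only [p1, q1, hu0]) (by positivity)
    have a2 := mul_le_mul_of_nonneg_right hN1 hM0.le
    have a3 : (0 : ℝ) ≤ n * m := by positivity
    linarith only [a1, a2, a3, huR]

end Pool.Agent.Lib.MP_6e81d8_ag
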