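import Mathlib

set_option autoImplicit false
set_option maxHeartbeats 400000

namespace Pool.Agent.Lib.MP_6e81d8_ag

theorem third_id {a b c d B : ℝ} (h1 : a ^ 2 - b ^ 2 = B) (h2 : b ^ 2 - c ^ 2 = B)
    (h3 : c ^ 2 - d ^ 2 = B) :
    ((a - b) - 2 * (b - c) + (c - d)) * ((a + b) * (a + c) * (a + d) * (b + c) * (b + d) * (c + d))
      = 6 * B ^ 3 * (a + b + c + d) := by
  have e1 : ((c - d) - (b - c)) * ((c + d) * (b + c) * (b + d)) = 2 * B ^ 2 := by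
    linear_combination ((b + c) * (b + d) + B) * h3 + (B - (c + d) * (b + d)) * h2
  have e2 : ((b - c) - (a - b)) * ((b + c) * (a + b) * (a + c)) = 2 * B ^ 2 := by
    linear_combination ((a + b) * (a + c) + B) * h2 + (B - (b + c) * (a + c)) * h1
  linear_combination ((a + b) * (a + c) * (a + d)) * e1 - ((c + d) * (b + d) * (a + d)) * e2
    + 2 * B ^ 2 * (a + b + c + d) * (h1 + h2 + h3)

theorem near_sqrt {c f lo η : ℝ} (hc : 0 ≤ c) (hlo : 0 < lo) (hf : lo ≤ f)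
    (h : |c ^ 2 - f ^ 2| ≤ η) : |c - f| ≤ η / lo := by
  rw [le_div_iff₀ hlo]
  have e : c ^ 2 - f ^ 2 = (c - f) * (c + f) := by ring
  rw [e, abs_mul, abs_of_pos (show 0 < c + f by linarith)] at h
  exact (mul_le_mul_of_nonneg_left (by linarith) (abs_nonneg _)).trans h

theorem select {D s : ℤ} {A B η lo hi : ℝ} (hB : 0 < B) (hlo : 0 < lo) (h1 : lo ^ 2 ≤ A - 3 * B)
    (hhi : 0 < hi) (h2 : A ≤ hi ^ 2) (h3 : 8 * (η / lo) * (2 * hi) ^ 6 < 24 * B ^ 3 * lo)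
    (h4 : 24 * B ^ 3 * hi < (2 * s - 8 * (η / lo)) * (2 * lo) ^ 6) :
    ¬ ∀ i : ℕ, i < 4 → ∃ k : ℤ, 0 ≤ D - 2 * k * s ∧
      |((D - 2 * k * s : ℤ) : ℝ) ^ 2 - (A - i * B)| ≤ η := by
  intro h
  have key : ∀ i : ℕ, i < 4 → ∃ (k : ℤ) (f : ℝ), lo ≤ f ∧ f ≤ hi ∧ f ^ 2 = A - i * B ∧
      |(D : ℝ) - 2 * k * s - f| ≤ η / lo := by
    intro i hi'
    obtain ⟨k, hk, h5⟩ := h i hi'
    have h6 : (i : ℝ) ≤ 3 := by exact_mod_cast (by omega : i ≤ 3)
    have h7 : (0 : ℝ) ≤ i := Nat.cast_nonneg i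
    have h8 : lo ^ 2 ≤ A - i * B := by nlinarith
    have h9 : √(A - i * B) ^ 2 = A - i * B := Real.sq_sqrt (by nlinarith)
    have h10 : lo ≤ √(A - i * B) := Real.le_sqrt_of_sq_le h8
    refine ⟨k, _, h10, Real.sqrt_le_iff.mpr ⟨hhi.le, by nlinarith⟩, h9, ?_⟩
    have := near_sqrt (c := ((D - 2 * k * s : ℤ) : ℝ)) (η := η) (by exact_mod_cast hk) hlo h10
      (by rw [h9]; exact h5)
    simpa using this
  obtain ⟨k0, a, a1, a2, a3, a4⟩ := key 0 (by omega)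
  obtain ⟨k1, b, b1, b2, b3, b4⟩ := key 1 (by omega)
  obtain ⟨k2, c, c1, c2, c3, c4⟩ := key 2 (by omega)
  obtain ⟨k3, d, d1, d2, d3, d4⟩ := key 3 (by omega)
  push_cast at a3 b3 c3 d3
  have hid := third_id (a := a) (b := b) (c := c) (d := d) (B := B) (by linarith) (by linarith)
    (by linarith)
  obtain ⟨Δ, hΔ⟩ : ∃ Δ, Δ = (a - b) - 2 * (b - c) + (c - d) := ⟨_, rfl⟩
  obtain ⟨P, hP⟩ : ∃ P, P = (a + b) * (a + c) * (a + d) * (b + c) * (b + d) * (c + d) := ⟨_, rfl⟩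
  rw [← hΔ, ← hP] at hid
  have pa : 0 < a := hlo.trans_le a1
  have pb : 0 < b := hlo.trans_le b1
  have pc : 0 < c := hlo.trans_le c1
  have pd : 0 < d := hlo.trans_le d1
  have hP1 : (2 * lo) ^ 6 ≤ P := by
    rw [hP, show (2 * lo) ^ 6 = (2 * lo) * (2 * lo) * (2 * lo) * (2 * lo) * (2 * lo) * (2 * lo) by
      ring]
    gcongr <;> linarith
  have hP2 : P ≤ (2 * hi) ^ 6 := by
    rw [hP, show (2 * hi) ^ 6 = (2 * hi) * (2 * hi) * (2 * hi) * (2 * hi) * (2 * hi) * (2 * hi) by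
      ring]
    gcongr <;> linarith
  have hP0 : 0 < P := lt_of_lt_of_le (by positivity) hP1
  have hB3 : 0 < B ^ 3 := by positivity
  have hl : 24 * B ^ 3 * lo ≤ Δ * P := by
    have := mul_le_mul_of_nonneg_left (show 4 * lo ≤ a + b + c + d by linarith) hB3.le
    linarith only [this, hid]
  have hu : Δ * P ≤ 24 * B ^ 3 * hi := by
    have := mul_le_mul_of_nonneg_left (show a + b + c + d ≤ 4 * hi by linarith) hB3.le
    linarith only [this, hid]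
  have hΔ0 : 0 < Δ := by
    by_contra hc
    have : Δ * P ≤ 0 := mul_nonpos_of_nonpos_of_nonneg (by linarith) hP0.le
    linarith only [this, hl, mul_pos hB3 hlo]
  have g1 : 8 * (η / lo) < Δ := by
    refine lt_of_mul_lt_mul_right (a := (2 * hi) ^ 6) ?_ (by positivity)
    have := mul_le_mul_of_nonneg_left hP2 hΔ0.le
    linarith
  have g2 : Δ < 2 * s - 8 * (η / lo) := by
    refine lt_of_mul_lt_mul_right (a := (2 * lo) ^ 6) ?_ (by positivity)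
    have := mul_le_mul_of_nonneg_left hP1 hΔ0.le
    linarith
  rw [abs_le] at a4 b4 c4 d4
  have g3 : (0 : ℝ) < s * (-k0 + 3 * k1 - 3 * k2 + k3) := by
    linarith only [a4.1, a4.2, b4.1, b4.2, c4.1, c4.2, d4.1, d4.2, g1, hΔ]
  have g4 : (s : ℝ) * (-k0 + 3 * k1 - 3 * k2 + k3) < s := by
    linarith only [a4.1, a4.2, b4.1, b4.2, c4.1, c4.2, d4.1, d4.2, g2, hΔ]
  have g5 : (0 : ℤ) < s * (-k0 + 3 * k1 - 3 * k2 + k3) := by exact_mod_cast g3
  have g6 : s * (-k0 + 3 * k1 - 3 * k2 + k3) < s := by exact_mod_cast g4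
  generalize -k0 + 3 * k1 - 3 * k2 + k3 = z at g5 g6
  rcases le_or_gt z 0 with hz | hz <;> nlinarith only [g5, g6, hz]

theorem exists_step {f : ℕ → Prop} {a b : ℕ} (ha : ¬ f a) (hb : f b) (hab : a ≤ b) :
    ∃ k, a ≤ k ∧ k < b ∧ ¬ f k ∧ f (k + 1) := by
  induction b, hab using Nat.le_induction with
  | base => exact absurd hb ha
  | succ b hab ih =>
    by_cases h : f b
    · obtain ⟨k, h1, h2, h3⟩ := ih h
      exact ⟨k, h1, by omega, h3⟩
    · exact ⟨b, hab, by omega, h, hb⟩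

theorem exists_cube (m : ℕ) : ∃ t, t ^ 3 ≤ m ∧ m < (t + 1) ^ 3 := by
  obtain ⟨t, -, -, h1, h2⟩ := exists_step (f := fun t => m < t ^ 3) (a := 0) (b := m + 1)
    (by simp) (by nlinarith [Nat.zero_le (m ^ 3), Nat.zero_le (m ^ 2)]) (by omega)
  exact ⟨t, not_lt.mp h1, h2⟩

end Pool.Agent.Lib.MP_6e81d8_ag
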