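import Pool.Agent.Lib.MP_6e81d8_ag.HomJ
import Pool.Agent.Lib.MP_6e81d8_ag.HomPar

set_option autoImplicit false
set_option maxHeartbeats 400000
set_option maxSynthPendingDepth 3

namespace Pool.Agent.Lib.MP_6e81d8_ag

open Polynomial Finset Module

theorem sup_Dsp {d : ℕ} : ∀ F ∈ Dsp (d + 1) (d + 1), H88.Sup (fun i k => i + k ≤ d) F := by
  intro F hF i k h
  by_contra hc
  exact h (mem_lt.mp (mem_rows.mp hF k) i (by omega))

theorem sup_trap {l : ℕ → ℕ} {W α σ : ℕ} (h : ∀ b ≤ W, l b + σ * b = α + 1) :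
    ∀ F ∈ rows fun b => lt (tr (W + 1) l b), H88.Sup (H88.trap W α σ) F := by
  intro F hF i k h0
  have h1 : i < tr (W + 1) l k := by
    by_contra hc
    exact h0 (mem_lt.mp (mem_rows.mp hF k) i (by omega))
  have h2 : k < W + 1 := by
    by_contra hc
    rw [tr_of_le _ (by omega)] at h1
    omega
  rw [tr_of_lt _ h2] at h1
  have := h k (by omega)
  exact ⟨by omega, by omega⟩

theorem sum_lin {l : ℕ → ℕ} {W α σ : ℕ} (h : ∀ b ≤ W, l b + σ * b = α + 1) :
    2 * (W + 1) * (α + 1) = σ * W * (W + 1) + 2 * ∑ b ∈ range (W + 1), l b := by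
  induction W with
  | zero => have := h 0 le_rfl; simp at this ⊢; omega
  | succ W ih =>
    have h1 := ih fun b hb => h b (by omega)
    have h2 := h (W + 1) le_rfl
    rw [Finset.sum_range_succ]
    linarith

theorem slack_bound {n n' m : ℕ} (hn : 10 ^ 30 ≤ n) (h1 : n' ≤ n) (h2 : n ≤ 2 * n')
    (hm : 10 ^ 14 * (m : ℝ) * Real.log n ^ 3 ≤ √n ^ 5) :
    210 * √n' * m + 1728 * 10000000 * ((m : ℝ) ^ 2 * Real.log n' ^ 3 / √n' ^ 3)
      ≤ n * m / 1000 := by
  have hnR : (10 : ℝ) ^ 30 ≤ n := by exact_mod_cast hn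
  have h1R : (n' : ℝ) ≤ n := by exact_mod_cast h1
  have h2R : (n : ℝ) ≤ 2 * n' := by exact_mod_cast h2
  have hR : √(n : ℝ) ^ 2 = n := Real.sq_sqrt (Nat.cast_nonneg n)
  have a1 : √(n' : ℝ) ≤ √n := Real.sqrt_le_sqrt h1R
  have a2 : 0.7 * √(n : ℝ) ≤ √n' := Real.le_sqrt_of_sq_le (by rw [mul_pow, hR]; linarith)
  have a3 : (10 : ℝ) ^ 15 ≤ √n := Real.le_sqrt_of_sq_le (by linarith)
  have a4 : Real.log n' ≤ Real.log n := Real.log_le_log (by linarith) h1R
  have a5 : Real.log n' ^ 3 ≤ Real.log n ^ 3 := pow_le_pow_left₀ (Real.log_natCast_nonneg n') a4 3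
  generalize √(n : ℝ) = R at *
  generalize √(n' : ℝ) = R' at *
  have hR0 : 0 < R := by linarith
  have hR1 : 0 < R' := by linarith
  have hm0 : (0 : ℝ) ≤ m := Nat.cast_nonneg m
  have a6 : (0.7 * R) ^ 3 ≤ R' ^ 3 := pow_le_pow_left₀ (by positivity) a2 3
  have a7 : (m : ℝ) ^ 2 * Real.log n' ^ 3 / R' ^ 3 ≤ 3 / 10 ^ 14 * (n * m) := by
    rw [div_le_iff₀ (by positivity)]
    have b1 := mul_le_mul_of_nonneg_left a5 (sq_nonneg (m : ℝ))
    have b2 := mul_le_mul_of_nonneg_left hm hm0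
    have b3 := mul_le_mul_of_nonneg_left a6 (show 0 ≤ R ^ 2 * m by positivity)
    have b4 : 0 ≤ R ^ 5 * m := by positivity
    rw [← hR]
    linarith
  have a8 := mul_le_mul_of_nonneg_right a1 hm0
  have a9 := mul_le_mul_of_nonneg_right a3 (show 0 ≤ R * m by positivity)
  have a10 : 0 ≤ R * m := by positivity
  have a11 : (n : ℝ) * m = R * (R * m) := by rw [← hR]; ring
  linarith

theorem tri_sq (z : ℕ) : (8 * (tri z : ℝ) + 1) = (2 * z + 1) ^ 2 := by
  have : (2 * tri z : ℝ) = z * (z + 1) := by exact_mod_cast two_tri z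
  linarith

theorem hom_core {n m d : ℕ} (hn : 10 ^ 30 ≤ n) (hm1 : n ≤ 16 * m)
    (hm : 10 ^ 14 * (m : ℝ) * Real.log n ^ 3 ≤ √n ^ 5)
    (hd : |((d : ℝ) + 1) * (d + 2) - n * m * (m + 1)| ≤ n * m / 1000) :
    Bd (fun _ : Fin n => m) (Dsp (d + 1) (d + 1)) univ (tri (d + 1) - n * tri m) := by
  classical
  have hnR : (10 : ℝ) ^ 30 ≤ n := by exact_mod_cast hn
  have hR : √(n : ℝ) ^ 2 = n := Real.sq_sqrt (Nat.cast_nonneg n)
  have hL : 1 ≤ Real.log n := by
    rw [Real.le_log_iff_exp_le (by linarith)]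
    linarith [Real.exp_one_lt_d9]
  have hm0 : (0 : ℝ) ≤ m := Nat.cast_nonneg m
  obtain ⟨s, k, N, e, t, hs, hks, hN, hev, hσ, hk1, hk2, ht1, ht2, ht3, ht4, hNn, r1, r2, r3⟩ :=
    choose_params (Real.sqrt_nonneg n) hR hn hm1 (le_trans (by
      have := mul_le_mul_of_nonneg_left (one_le_pow₀ (n := 3) hL) hm0
      linarith) hm) hd
  obtain ⟨d0, hd0⟩ : ∃ d0, d = d0 + (k + 1) * s := ⟨d - (k + 1) * s, by omega⟩
  have hks' : (k + 1) * s = k * s + s := by ring
  have e0 : d + 1 - (k + 1) * s = d0 + 1 := by omega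
  have e1 : d + 1 - k * s = d0 + s + 1 := by omega
  obtain ⟨n', hn'⟩ : ∃ n', n = N + n' := ⟨n - N, by omega⟩
  have hdR : (d : ℝ) = d0 + (k + 1) * s := by exact_mod_cast hd0
  have hn'R : (n : ℝ) = N + n' := by exact_mod_cast hn'
  have q0 := tri_sq (d0 + 1)
  have q1 := tri_sq (d0 + s + 1)
  have q2 := tri_sq (d + 1)
  have q3 : 2 * (tri m : ℝ) = m * (m + 1) := by exact_mod_cast two_tri m
  push_cast at q0 q1 q2
  rw [show 2 * (d : ℝ) + 3 - 2 * k * s = 2 * (d0 + s + 1) + 1 by rw [hdR]; ring] at r1 r3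
  rw [show 2 * (d : ℝ) + 3 - 2 * (k + 1) * s = 2 * (d0 + 1) + 1 by rw [hdR]; ring] at r2 r3
  rw [show 2 * (d : ℝ) + 3 = 2 * (d + 1) + 1 by ring, ← q3] at r1 r2
  rw [← q1, ← q2] at r1
  rw [← q0, ← q2] at r2
  rw [← q1, ← q0] at r3
  rw [show ((d : ℝ) + 1) * (d + 2) = 2 * tri (d + 1) by linarith only [q2], mul_assoc, ← q3,
    abs_le] at hd
  have hnm : (0 : ℝ) ≤ n * m := by positivity
  obtain ⟨x, hx⟩ : ∃ x, N * tri m + tri (d0 + s + 1) = tri (d + 1) + x := by
    refine Nat.exists_eq_add_of_le ?_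
    have : (tri (d + 1) : ℝ) ≤ N * tri m + tri (d0 + s + 1) := by linarith only [r1, hnm]
    exact_mod_cast this
  obtain ⟨y, hy⟩ : ∃ y, tri (d + 1) = N * tri m + tri (d0 + 1) + y := by
    refine Nat.exists_eq_add_of_le ?_
    have : (N * tri m + tri (d0 + 1) : ℝ) ≤ tri (d + 1) := by linarith only [r2, hnm]
    exact_mod_cast this
  have hxR : (N * tri m + tri (d0 + s + 1) : ℝ) = tri (d + 1) + x := by exact_mod_cast hx
  have hyR : (tri (d + 1) : ℝ) = N * tri m + tri (d0 + 1) + y := by exact_mod_cast hy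
  have hx1 : n * m ≤ 1000 * x := by
    have : (n * m : ℝ) ≤ 1000 * x := by linarith only [r1, hxR]
    exact_mod_cast this
  have hy1 : n * m ≤ 1000 * y := by
    have : (n * m : ℝ) ≤ 1000 * y := by linarith only [r2, hyR]
    exact_mod_cast this
  have hxy : x + y ≤ N * m := by
    have : (x + y : ℝ) ≤ N * m := by linarith only [r3, hxR, hyR]
    exact_mod_cast this
  have hsl : 1000 * (100000 * (N * t ^ 2)) ≤ n * m := by
    have a1 : N * t ^ 2 * 10 ^ 8 ≤ N * t ^ 2 * t := Nat.mul_le_mul_left _ ht3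
    have a2 : N * t ^ 3 ≤ n * m := Nat.mul_le_mul (by omega) ht1
    linarith only [a1, a2]
  have hlin0 : ∀ b ≤ k, ell s (d + 1) (d + 1) b + s * s * b = sz s (d + 1) := fun b hb =>
    ell_lin le_rfl (le_trans (Nat.mul_le_mul_right s (by omega)) (show (k + 1) * s ≤ d + 1 by omega))
  have hP0 := sum_ell s (d + 1) (d + 1) k
  have hP1 := sum_ell s (d + 1) (d + 1) (k + 1)
  rw [e1, sz_self, sz_self] at hP0
  rw [e0, sz_self, sz_self] at hP1
  obtain ⟨α, hα⟩ : ∃ α, sz s (d + 1) = α + 1 := by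
    have : sz 1 1 ≤ sz s (d + 1) := sz_mono hs (by omega)
    rw [sz_self, tri, tri] at this
    exact ⟨sz s (d + 1) - 1, by omega⟩
  rw [hα] at hlin0
  have hT := two_tri m
  obtain ⟨W, rfl⟩ : ∃ W, k = W + 1 := ⟨k - 1, by omega⟩
  have hlin1 : ∀ b ≤ W, ell s (d + 1) (d + 1) b + s * s * b = α + 1 := fun b hb =>
    hlin0 b (by omega)
  obtain ⟨a0, b0, J0⟩ := strip_emp (m := m) (μ := W - m) (W := W) (α := α) (x := x) (t := t)
    (by omega) hN hev hσ (by omega) (by omega) ht1 ht2 (by omega) ht4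
    (by rw [sum_lin hlin1, mul_assoc N, ← hT]; linarith only [hP0, hx]) (by omega) (by omega)
  obtain ⟨a1, b1, J1⟩ := strip_reg (m := m) (μ := W + 1 - m) (W := W + 1) (α := α) (y := y) (t := t)
    (by omega) hN hev hσ (by omega) (by omega) ht1 ht2 (by omega) ht4
    (by rw [sum_lin hlin0, mul_assoc N, ← hT]; linarith only [hP1, hy]) (by omega) (by omega)
  have hsb := slack_bound (n' := n') hn (by omega) (by omega) hm
  have hx1R : (n * m : ℝ) ≤ 1000 * x := by exact_mod_cast hx1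
  have hy1R : (n * m : ℝ) ≤ 1000 * y := by exact_mod_cast hy1
  have hn16 : 10 ^ 16 ≤ n' := by omega
  have hm100 : 100 * √(n' : ℝ) ≤ m := by
    have c1 : √(n' : ℝ) ≤ √n := Real.sqrt_le_sqrt (by linarith only [hn'R, Nat.cast_nonneg (α := ℝ) N])
    have c2 : (10 : ℝ) ^ 15 ≤ √n := Real.le_sqrt_of_sq_le (by linarith only [hnR])
    have c3 : (n : ℝ) ≤ 16 * m := by exact_mod_cast hm1
    nlinarith only [c1, c2, c3, hR]
  have hq : (n' : ℝ) * m * (m + 1) = 2 * (n * tri m) - 2 * (N * tri m) := by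
    rw [mul_assoc, ← q3, hn'R]; ring
  obtain ⟨a2, b2, I0⟩ := H88.neg_side (n := n') (m := m) (d := d0) hn16 hm100 (by
    have c1 : 0 ≤ √(n' : ℝ) * m := by positivity
    have c2 : 0 ≤ (m : ℝ) ^ 2 * Real.log n' ^ 3 / √(n' : ℝ) ^ 3 := by
      have := Real.log_natCast_nonneg n'
      positivity
    linarith only [hsb, c1, c2, hq, q0, hyR, hy1R, hd.2])
  obtain ⟨v, hv⟩ : ∃ v, v = tri (d + 1) - n * tri m := ⟨_, rfl⟩
  have hnT : n * tri m = N * tri m + n' * tri m := by rw [hn', add_mul]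
  have hxv : n * tri m ≤ tri (d + 1) + x := by
    have : (n * tri m : ℝ) ≤ tri (d + 1) + x := by linarith only [hd.1, hx1R, hnm]
    exact_mod_cast this
  obtain ⟨a, ha⟩ : ∃ a, tri (d0 + s + 1) = n' * tri m + (v + a) :=
    ⟨tri (d0 + s + 1) - n' * tri m - v, by omega⟩
  obtain ⟨a3, b3, I1⟩ := H88.pos_side (n := n') (m := m) (d := d0 + s) (v := v + a) hn16 hm100
    (by push_cast
        linarith only [hsb, hq, q1, hxR, hx1R, hd.1])
    (by have := two_tri (d0 + s + 1)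
        rw [mul_assoc n', ← hT]
        linarith only [this, ha])
  obtain ⟨J, -, hJ⟩ := Finset.exists_subset_card_eq (s := (univ : Finset (Fin n))) (n := N)
    (by simp; omega)
  have hI : (univ \ J).card = n' := by
    rw [card_sdiff_of_subset (subset_univ J), hJ]; simp; omega
  have hμ : ∀ S : Finset (Fin n), ∀ i ∈ S.disjSum (∅ : Finset (Fin v)),
      m ≤ Sum.elim (fun _ : Fin n => m) (fun _ : Fin v => 1) i := by
    rintro S (i | j) hi
    · exact le_rfl
    · simp at hi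
  have hcut := main_cut (μ := Sum.elim (fun _ : Fin n => m) fun _ : Fin v => 1) (A := d + 1)
    (e := d + 1) (k := W + 1) (I := (univ \ J).disjSum univ) (J := J.disjSum ∅) (ρ := a) (ρ' := y)
    hs le_rfl (by omega) (by
      rw [Finset.disjoint_left]
      rintro (i | j) <;> simp)
    (by rw [Finset.sum_range_succ] at hP1; omega)
    (by
      rw [e0]
      exact Bd.mono le_rfl (disjSum_mono subset_rfl (empty_subset _))
        ((bd_of_few I0.few sup_Dsp).reindex (by simpa using hI) (hμ _)))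
    (by
      rw [e1]
      exact ((bd_of_few I1 sup_Dsp).reindex hI fun _ _ => le_rfl).add_simple)
    ((bd_of_few J0 (sup_trap hlin1)).reindex (by simpa using hJ) (hμ _))
    ((bd_of_few J1 (sup_trap hlin0)).reindex (by simpa using hJ) (hμ _))
  rw [← hv]
  refine Bd.of_extra ?_
  convert hcut using 1
  ext (i | j) <;> simp [em']

end Pool.Agent.Lib.MP_6e81d8_ag
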