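import Mathlib

set_option autoImplicit false

namespace Pool.Agent.Lib.MP_6e81d8_ag

open Polynomial Finset

/-- A polynomial matrix without kernel over `ℂ[X]` stays injective at some nonzero value. -/
theorem mat_spec {κ n : Type} [Fintype κ] [Fintype n] [DecidableEq n] [DecidableEq κ]
    (M : Matrix κ n ℂ[X]) (h : ∀ v : n → ℂ[X], M.mulVec v = 0 → v = 0) :
    ∃ t : ℂ, t ≠ 0 ∧ ∀ w : n → ℂ, (M.map (eval t)).mulVec w = 0 → w = 0 := by
  classical
  let K := FractionRing ℂ[X]
  let MK : Matrix κ n K := M.map (algebraMap ℂ[X] K)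
  have hinj : Function.Injective (algebraMap ℂ[X] K) := IsFractionRing.injective _ _
  have hK : ∀ w : n → K, MK.mulVec w = 0 → w = 0 := by
    intro w hw
    obtain ⟨q, hq⟩ := IsLocalization.exist_integer_multiples_of_finite (nonZeroDivisors ℂ[X]) w
    choose v hv using hq
    have hq0 : (algebraMap ℂ[X] K) q ≠ 0 := by
      intro h0
      exact nonZeroDivisors.ne_zero q.2 (hinj (by rw [h0, map_zero]))
    have h1 : M.mulVec v = 0 := by
      funext i
      apply hinj
      have h2 := congrFun hw i
      simp only [Matrix.mulVec, dotProduct, MK, Matrix.map_apply, Pi.zero_apply] at h2 ⊢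
      rw [map_sum, map_zero]
      have : ∀ j, (algebraMap ℂ[X] K) (M i j * v j)
          = (algebraMap ℂ[X] K) q * ((algebraMap ℂ[X] K) (M i j) * w j) := by
        intro j
        rw [map_mul, hv j, Algebra.smul_def]
        ring
      simp_rw [this]
      rw [← Finset.mul_sum, h2, mul_zero]
    have h3 := h v h1
    funext j
    have h4 := hv j
    rw [h3, Algebra.smul_def] at h4
    simp only [Pi.zero_apply, map_zero] at h4
    exact (mul_eq_zero.mp h4.symm).resolve_left hq0
  have hker : LinearMap.ker (Matrix.toLin' MK) = ⊥ := by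
    rw [LinearMap.ker_eq_bot']
    intro w hw
    exact hK w (by simpa using hw)
  obtain ⟨g, hg⟩ := LinearMap.exists_leftInverse_of_injective _ hker
  let LK : Matrix n κ K := LinearMap.toMatrix' g
  have hLM : LK * MK = 1 := by
    have := congrArg LinearMap.toMatrix' hg
    rw [LinearMap.toMatrix'_comp, LinearMap.toMatrix'_toLin', LinearMap.toMatrix'_id] at this
    exact this
  obtain ⟨q, hq⟩ := IsLocalization.exist_integer_multiples_of_finite (nonZeroDivisors ℂ[X])
    (fun ij : n × κ => LK ij.1 ij.2)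
  choose L hL using hq
  let L' : Matrix n κ ℂ[X] := fun i j => L (i, j)
  have hq0 : (q : ℂ[X]) ≠ 0 := nonZeroDivisors.ne_zero q.2
  have hLM' : L' * M = (q : ℂ[X]) • (1 : Matrix n n ℂ[X]) := by
    ext1 i j
    apply hinj
    have h2 := congrFun (congrFun hLM i) j
    simp only [Matrix.mul_apply, MK, Matrix.map_apply] at h2
    simp only [Matrix.mul_apply, Matrix.smul_apply, smul_eq_mul, map_sum, map_mul, L']
    have : ∀ k, (algebraMap ℂ[X] K) (L (i, k)) * (algebraMap ℂ[X] K) (M k j)
        = (algebraMap ℂ[X] K) q * (LK i k * (algebraMap ℂ[X] K) (M k j)) := by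
      intro k
      rw [hL (i, k), Algebra.smul_def]
      ring
    simp_rw [this]
    rw [← Finset.mul_sum, h2]
    congr 1
    by_cases hij : i = j
    · subst hij; simp
    · simp [hij]
  have hXq : (X * (q : ℂ[X])) ≠ 0 := mul_ne_zero X_ne_zero hq0
  obtain ⟨t, ht⟩ : ∃ t : ℂ, eval t (X * (q : ℂ[X])) ≠ 0 := by
    by_contra hc
    push Not at hc
    exact hXq (Polynomial.funext (by simpa using hc))
  rw [eval_mul, eval_X] at ht
  refine ⟨t, left_ne_zero_of_mul ht, fun w hw => ?_⟩
  have h5 : (L'.map (eval t)) * (M.map (eval t)) = (eval t (q : ℂ[X])) • (1 : Matrix n n ℂ) := by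
    have := congrArg (fun A : Matrix n n ℂ[X] => A.map (evalRingHom t)) hLM'
    simp only [Matrix.map_mul] at this
    refine this.trans ?_
    ext i j
    by_cases hij : i = j
    · subst hij; simp
    · simp [hij]
  have h6 : ((L'.map (eval t)) * (M.map (eval t))).mulVec w = 0 := by
    rw [← Matrix.mulVec_mulVec, hw, Matrix.mulVec_zero]
  rw [h5, Matrix.smul_mulVec, Matrix.one_mulVec] at h6
  exact (smul_eq_zero.mp h6).resolve_left (right_ne_zero_of_mul ht)

/-- Limit lemma: no formal solution with nonzero constant term implies injectivity for some `t`. -/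
theorem limit {E E' : Type} [AddCommGroup E] [Module ℂ E] [AddCommGroup E'] [Module ℂ E']
    [FiniteDimensional ℂ E] (D : ℕ) (Φ : ℕ → E →ₗ[ℂ] E') (hD : ∀ k, D ≤ k → Φ k = 0)
    (N : Submodule ℂ E')
    (h : ∀ F : ℕ → E, (∀ γ, ∑ k ∈ range (γ + 1), Φ k (F (γ - k)) ∈ N) → F 0 = 0) :
    ∃ t : ℂ, t ≠ 0 ∧ ∀ v : E, ∑ k ∈ range D, t ^ k • Φ k v ∈ N → v = 0 := by
  classical
  let Ψ : ℕ → E →ₗ[ℂ] (E' ⧸ N) := fun k => N.mkQ ∘ₗ Φ k
  let T : Submodule ℂ (E' ⧸ N) := (range D).sup fun k => LinearMap.range (Ψ k)
  have : FiniteDimensional ℂ T := Submodule.finiteDimensional_finset_sup _ _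
  have hT : ∀ k v, Ψ k v ∈ T := by
    intro k v
    by_cases hk : k < D
    · exact (Finset.le_sup (f := fun k => LinearMap.range (Ψ k)) (mem_range.mpr hk))
        (LinearMap.mem_range_self _ v)
    · simp [Ψ, hD k (not_lt.mp hk)]
  let Θ : ℕ → E →ₗ[ℂ] T := fun k => (Ψ k).codRestrict T (hT k)
  have hΘ0 : ∀ k, D ≤ k → Θ k = 0 := by
    intro k hk
    ext v
    simp [Θ, Ψ, hD k hk]
  let b := Module.finBasis ℂ E
  let c := Module.finBasis ℂ T
  let M : Matrix (Fin (Module.finrank ℂ T)) (Fin (Module.finrank ℂ E)) ℂ[X] :=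
    fun i j => ∑ k ∈ range D, monomial k (c.repr (Θ k (b j)) i)
  have hMc : ∀ i j k, (M i j).coeff k = c.repr (Θ k (b j)) i := by
    intro i j k
    simp only [M, finsetSum_coeff, coeff_monomial]
    rw [Finset.sum_ite_eq' (range D) k]
    split_ifs with hk
    · rfl
    · rw [hΘ0 k (by simpa using hk)]; simp
  have key : ∀ v : Fin (Module.finrank ℂ E) → ℂ[X], M.mulVec v = 0 → ∀ j, (v j).coeff 0 = 0 := by
    intro v hv
    let F : ℕ → E := fun a => ∑ j, (v j).coeff a • b j
    have hF : F 0 = 0 := by
      apply h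
      intro γ
      rw [← Submodule.Quotient.mk_eq_zero, ← Submodule.mkQ_apply, map_sum]
      have : ∑ k ∈ range (γ + 1), Θ k (F (γ - k)) = 0 := by
        apply c.repr.injective
        ext i
        have h2 := congrArg (fun p => p.coeff γ) (congrFun hv i)
        simp only [Matrix.mulVec, dotProduct, finsetSum_coeff, Pi.zero_apply, coeff_zero,
          coeff_mul, hMc] at h2
        simp only [F, map_sum, map_smul, Finsupp.coe_finsetSum, Finset.sum_apply,
          Finsupp.coe_smul, Pi.smul_apply, smul_eq_mul, map_zero, Finsupp.coe_zero, Pi.zero_apply]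
        rw [Finset.sum_comm, ← h2]
        refine Finset.sum_congr rfl fun j _ => ?_
        rw [Finset.Nat.sum_antidiagonal_eq_sum_range_succ
          (fun x y => c.repr (Θ x (b j)) i * (v j).coeff y)]
        refine Finset.sum_congr rfl fun k _ => mul_comm _ _
      have h3 := congrArg Subtype.val this
      simpa [Θ, Ψ] using h3
    intro j
    have := b.linearIndependent
    rw [Fintype.linearIndependent_iff] at this
    exact this _ hF j
  have hM : ∀ v : Fin (Module.finrank ℂ E) → ℂ[X], M.mulVec v = 0 → v = 0 := by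
    have : ∀ a : ℕ, ∀ v : Fin (Module.finrank ℂ E) → ℂ[X], M.mulVec v = 0 →
        ∀ j, (v j).coeff a = 0 := by
      intro a
      induction a with
      | zero => exact key
      | succ a ih =>
        intro v hv j
        have h0 := key v hv
        let v' : Fin (Module.finrank ℂ E) → ℂ[X] := fun j => (v j).divX
        have hv' : v = (X : ℂ[X]) • v' := by
          funext j
          have := X_mul_divX_add (v j)
          rw [h0 j] at this
          simpa [v'] using this.symm
        have : M.mulVec v' = 0 := by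
          rw [hv', Matrix.mulVec_smul] at hv
          exact (smul_eq_zero.mp hv).resolve_left X_ne_zero
        have h5 := ih v' this j
        simpa [v', coeff_divX] using h5
    intro v hv
    funext j
    ext a
    simpa using this a v hv j
  obtain ⟨t, ht, hw⟩ := mat_spec M hM
  refine ⟨t, ht, fun v hv => ?_⟩
  have h1 : ∑ k ∈ range D, t ^ k • Θ k v = 0 := by
    apply Subtype.ext
    rw [← Submodule.Quotient.mk_eq_zero, ← Submodule.mkQ_apply, map_sum] at hv
    simpa [Θ, Ψ] using hv
  have h2 := hw (b.repr v) (by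
    funext i
    have h3 := congrArg (fun x => c.repr x i) h1
    simp only [map_sum, map_smul, Finsupp.coe_finsetSum, Finset.sum_apply, Finsupp.coe_smul,
      Pi.smul_apply, smul_eq_mul, map_zero, Finsupp.coe_zero, Pi.zero_apply] at h3
    simp only [Matrix.mulVec, dotProduct, Matrix.map_apply, M, eval_finsetSum, eval_monomial,
      Pi.zero_apply, Finset.sum_mul]
    rw [Finset.sum_comm, ← h3]
    refine Finset.sum_congr rfl fun k _ => ?_
    conv_rhs => rw [← b.sum_repr v]
    simp only [map_sum, map_smul, Finsupp.coe_finsetSum, Finset.sum_apply, Finsupp.coe_smul,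
      Pi.smul_apply, smul_eq_mul, Finset.mul_sum]
    refine Finset.sum_congr rfl fun j _ => by ring)
  apply b.repr.injective
  ext j
  simpa using congrFun h2 j

/-- Injectivity of a polynomial family of linear conditions is a Zariski open condition. -/
theorem generic_inj {E κ σ : Type} [AddCommGroup E] [Module ℂ E] [FiniteDimensional ℂ E]
    [Fintype κ] (φ : (σ → ℂ) → κ → E →ₗ[ℂ] ℂ)
    (hφ : ∀ k v, ∃ P : MvPolynomial σ ℂ, ∀ q, φ q k v = MvPolynomial.eval q P)
    (q₀ : σ → ℂ) (h₀ : ∀ v, (∀ k, φ q₀ k v = 0) → v = 0) :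
    ∃ Δ : MvPolynomial σ ℂ, Δ ≠ 0 ∧ ∀ q, MvPolynomial.eval q Δ ≠ 0 →
      ∀ v, (∀ k, φ q k v = 0) → v = 0 := by
  classical
  let b := Module.finBasis ℂ E
  choose P hP using hφ
  let M : Matrix κ (Fin (Module.finrank ℂ E)) (MvPolynomial σ ℂ) := fun k j => P k (b j)
  have hM : ∀ q (w : Fin (Module.finrank ℂ E) → ℂ) k,
      (M.map (MvPolynomial.eval q)).mulVec w k = φ q k (∑ j, w j • b j) := by
    intro q w k
    simp only [Matrix.mulVec, dotProduct, Matrix.map_apply, M, map_sum, map_smul, smul_eq_mul,
      ← hP]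
    exact Finset.sum_congr rfl fun j _ => mul_comm _ _
  have hker : LinearMap.ker (Matrix.toLin' (M.map (MvPolynomial.eval q₀))) = ⊥ := by
    rw [LinearMap.ker_eq_bot']
    intro w hw
    have h1 := h₀ (∑ j, w j • b j) (fun k => by
      rw [← hM]; exact congrFun (by simpa using hw) k)
    have := b.linearIndependent
    rw [Fintype.linearIndependent_iff] at this
    funext j
    exact this _ h1 j
  obtain ⟨g, hg⟩ := LinearMap.exists_leftInverse_of_injective _ hker
  let L := LinearMap.toMatrix' g
  have hLM : L * M.map (MvPolynomial.eval q₀) = 1 := by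
    have := congrArg LinearMap.toMatrix' hg
    rw [LinearMap.toMatrix'_comp, LinearMap.toMatrix'_toLin', LinearMap.toMatrix'_id] at this
    exact this
  let LC : Matrix (Fin (Module.finrank ℂ E)) κ (MvPolynomial σ ℂ) := L.map MvPolynomial.C
  let A : Matrix (Fin (Module.finrank ℂ E)) (Fin (Module.finrank ℂ E)) (MvPolynomial σ ℂ) :=
    LC * M
  have hev : ∀ q, MvPolynomial.eval q A.det
      = (L * M.map (MvPolynomial.eval q) :
        Matrix (Fin (Module.finrank ℂ E)) (Fin (Module.finrank ℂ E)) ℂ).det := by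
    intro q
    rw [RingHom.map_det]
    congr 1
    ext i j
    simp [A, LC, Matrix.mul_apply]
  refine ⟨A.det, ?_, fun q hq v hv => ?_⟩
  · intro h0
    have := hev q₀
    rw [h0, hLM] at this
    simp at this
  · rw [hev] at hq
    have h1 : (L * M.map (MvPolynomial.eval q)).mulVec (b.repr v) = 0 := by
      rw [← Matrix.mulVec_mulVec]
      have : (M.map (MvPolynomial.eval q)).mulVec (b.repr v) = 0 := by
        funext k
        rw [hM, b.sum_repr v]
        exact hv k
      rw [this, Matrix.mulVec_zero]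
    have h2 := Matrix.eq_zero_of_mulVec_eq_zero hq h1
    apply b.repr.injective
    ext j
    simpa using congrFun h2 j

theorem exists_eval_ne {σ : Type} (Δ : MvPolynomial σ ℂ) (h : Δ ≠ 0) :
    ∃ q : σ → ℂ, MvPolynomial.eval q Δ ≠ 0 := by
  by_contra hc
  push Not at hc
  exact h (MvPolynomial.funext (by simpa using hc))

end Pool.Agent.Lib.MP_6e81d8_ag
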