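import Pool.Agent.Lib.MP_6e81d8_ag.Greedy

set_option autoImplicit false
set_option maxHeartbeats 400000
set_option maxSynthPendingDepth 3

namespace Pool.Agent.Lib.MP_6e81d8_ag

open Polynomial Finset Module

variable {ι : Type}

theorem qmoves [DecidableEq ι] {μ : ι → ℕ} (B : ℕ) {S : Finset ι} {ρ : ℕ} (Q : Finset ι) :
    ∀ n : ℕ → ℕ, (∀ b, B ≤ b → n b = 0) → Disjoint Q S →
      Good μ (fun b => n b - ∑ i ∈ Q, (μ i - b)) S ρ → Good μ n (Q ∪ S) ρ := by
  induction Q using Finset.induction_on with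
  | empty => intro n _ _ h; simpa using h
  | insert i Q hi ih =>
    intro n hn hd h
    rw [disjoint_insert_left] at hd
    rw [insert_union]
    refine pmove (r := fun b => μ i - b) B hn (by simp [hi, hd.1]) (fun b => Nat.sub_le _ _)
      (fun c b h1 h2 _ => Or.inl (by omega)) (ih _ (fun b hb => by simp [hn b hb]) hd.2 ?_)
    convert h using 2 with b
    rw [Finset.sum_insert hi, Nat.sub_sub]

theorem inv_inj (σ N : ℕ) (F : R) (h : inv σ N F = 0) : F = 0 := by
  ext1 b
  have := coeff_inv σ N F b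
  rw [h, coeff_zero, eq_comm, reflect_eq_zero_iff] at this
  exact this

theorem natDegree_lt_of_mem {n : ℕ} {f : ℂ[X]} (h : f ∈ lt n) (h0 : f ≠ 0) : f.natDegree < n :=
  (natDegree_lt_iff_degree_lt h0).mpr (mem_lt_degree.mp h)

theorem sw_inj (F : R) (hF : sw F = 0) : F = 0 := by rw [← sw_sw F, hF, map_zero]

theorem transpose {μ : ι → ℕ} {l : ℕ → ℕ} {K c : ℕ} (hK : ∀ b, K ≤ b → l b = 0)
    (hc : ∀ b, l b ≤ c) {S : Finset ι} {ρ : ℕ}
    (h : Good μ (tr c fun a => #{b ∈ range K | c ≤ l b + a}) S ρ) : Good μ l S ρ := by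
  let W : ℕ → Submodule ℂ ℂ[X] := fun a =>
    supp (if a < c then {b ∈ range K | c ≤ l b + a} else ∅)
  have h1 := h.rows W (fun _ => inferInstance) (fun a => (finrank_supp _).trans (by
    unfold tr; split_ifs <;> simp)) c (fun b hb => tr_of_le _ hb)
  let W2 : ℕ → Submodule ℂ ℂ[X] := fun b => supp (Ico (c - l b) c)
  have h2 : Bd μ (rows W2) S ρ := by
    refine Bd.of_map sw.toLinearMap (fun p => (p.2, p.1)) (fun G hG => mem_rows.mpr fun a => ?_)
      (fun F _ => sw_inj F) (fun ν p F _ => van_sw) h1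
    intro b hb
    refine (coeff_sw G a b).trans (mem_rows.mp hG b a fun ha => hb ?_)
    rw [mem_Ico] at ha
    have : b < K := by
      by_contra h3
      have := hK b (by omega)
      omega
    simp only [ha.2, if_true, mem_filter, mem_range]
    omega
  have : FiniteDimensional ℂ (rows W2) := finite_rows W2 (fun _ => inferInstance) K
    fun b hb => by simp [W2, hK b hb, supp_empty]
  refine Bd.of_map_ne (inv 0 (c - 1)) (fun p => (p.1⁻¹, p.2 * p.1⁻¹ ^ 0))
    (fun F hF => mem_rows.mpr fun b => ?_) (fun F _ => inv_inj _ _ F)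
    (fun ν p hp F hF => van_inv hp fun b hb => ?_) h2
  · intro a ha
    rw [coeff_inv, coeff_reflect]
    refine mem_lt.mp (mem_rows.mp hF b) _ ?_
    rw [mem_Ico] at ha
    have := hc b
    by_cases h3 : a ≤ c - 1 - 0 * b
    · rw [revAt_le h3]; omega
    · rw [revAt_eq_self_of_lt (by omega)]; omega
  · have := natDegree_lt_of_mem (mem_rows.mp hF b) hb
    have := hc b
    omega

theorem sum_transpose {l : ℕ → ℕ} (K : ℕ) {c : ℕ} (hc : ∀ b, l b ≤ c) :
    ∑ a ∈ range c, #{b ∈ range K | c ≤ l b + a} = ∑ b ∈ range K, l b := by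
  simp only [Finset.card_filter]
  rw [Finset.sum_comm]
  refine Finset.sum_congr rfl fun b _ => ?_
  rw [← Finset.card_filter]
  have : {a ∈ range c | c ≤ l b + a} = Ico (c - l b) c := by
    ext a
    simp only [mem_filter, mem_range, mem_Ico]
    omega
  rw [this, Nat.card_Ico]
  have := hc b
  omega

theorem exists_top [DecidableEq ι] (μ : ι → ℕ) (S : Finset ι) (σ : ℕ) (h : σ ≤ S.card) :
    ∃ Q ⊆ S, Q.card = σ ∧ ∀ i ∈ Q, ∀ j ∈ S \ Q, μ j ≤ μ i := by
  induction σ with
  | zero => exact ⟨∅, by simp, rfl, by simp⟩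
  | succ σ ih =>
    obtain ⟨Q, h1, h2, h3⟩ := ih (by omega)
    obtain ⟨x, hx, hmax⟩ := Finset.exists_max_image (S \ Q) μ (by
      rw [← Finset.card_pos, Finset.card_sdiff_of_subset h1]; omega)
    have hx' := mem_sdiff.mp hx
    refine ⟨insert x Q, insert_subset hx'.1 h1, by rw [card_insert_of_notMem hx'.2, h2], ?_⟩
    intro i hi j hj
    have hj' : j ∈ S \ Q := by
      rw [mem_sdiff] at hj ⊢
      exact ⟨hj.1, fun h => hj.2 (mem_insert_of_mem h)⟩
    rcases mem_insert.mp hi with rfl | hi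
    · exact hmax j hj'
    · exact h3 i hi j hj'

theorem mass_sdiff [DecidableEq ι] (μ : ι → ℕ) {Q S : Finset ι} (h : Q ⊆ S) :
    mass μ (S \ Q) + mass μ Q = mass μ S := Finset.sum_sdiff h

/-- Approximate theorem on a strip whose first `m` rows decrease linearly. -/
theorem strip [DecidableEq ι] {μ : ι → ℕ} {l : ℕ → ℕ} {m K σ lam : ℕ} (hm : 1 ≤ m) (hmK : m ≤ K)
    (hK : ∀ b, K ≤ b → l b = 0) (hlin : ∀ b < m, l b + σ * b = lam) (hσ : σ * m ≤ lam)
    (hup : ∀ b, m ≤ b → l b + σ * m ≤ lam) {S : Finset ι} (hS : ∀ i ∈ S, μ i ≤ m)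
    (h : ∑ b ∈ range K, l b + (m - 1) * K + 1 ≤ mass μ S + tri m ∨
      mass μ S + (m - 1) * K + 1 ≤ ∑ b ∈ range K, l b + tri m) :
    Good μ l S (∑ b ∈ range K, l b - mass μ S) := by
  have hg0 : tri m ≤ 1 + (m - 1) * K := by simpa [tri] using gamma_mono (w := 0) hm hmK
  have hfit : ∀ Q ⊆ S, Q.card ≤ σ → ∀ b, ∑ i ∈ Q, (μ i - b) ≤ l b := by
    intro Q hQ hc b
    have h1 : ∑ i ∈ Q, (μ i - b) ≤ Q.card * (m - b) := by
      simpa using Finset.sum_le_card_nsmul Q (fun i => μ i - b) (m - b)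
        fun i hi => Nat.sub_le_sub_right (hS i (hQ hi)) b
    by_cases hb : b < m
    · have h2 := hlin b hb
      have h3 : Q.card * (m - b) ≤ σ * (m - b) := Nat.mul_le_mul_right _ hc
      rw [Nat.mul_sub σ m b] at h3
      omega
    · rw [show m - b = 0 by omega] at h1
      omega
  have hsum : ∀ Q ⊆ S, Q.card ≤ σ →
      ∑ b ∈ range K, (l b - ∑ i ∈ Q, (μ i - b)) + mass μ Q = ∑ b ∈ range K, l b := by
    intro Q hQ hc
    have : mass μ Q = ∑ b ∈ range K, ∑ i ∈ Q, (μ i - b) := by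
      rw [Finset.sum_comm]
      exact Finset.sum_congr rfl fun i hi =>
        (sum_range_sub_tri _ K ((hS i (hQ hi)).trans hmK)).symm
    rw [this, ← Finset.sum_add_distrib]
    exact Finset.sum_congr rfl fun b _ => Nat.sub_add_cancel (hfit Q hQ hc b)
  by_cases hcard : S.card ≤ σ
  · have h1 := hsum S subset_rfl hcard
    have := qmoves (μ := μ) K (S := ∅) (ρ := ∑ b ∈ range K, l b - mass μ S) S l hK (by simp)
      (good_empty μ _ K (fun b hb => by simp [hK b hb]) _ (by omega))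
    simpa using this
  obtain ⟨Q, hQ, hQc, hQt⟩ := exists_top μ S σ (by omega)
  have h1 := hsum Q hQ hQc.le
  have h2 := mass_sdiff μ hQ
  have hQm : ∑ i ∈ Q, μ i ≤ σ * m := by
    simpa [hQc] using Finset.sum_le_card_nsmul Q μ m fun i hi => hS i (hQ hi)
  obtain ⟨l', hl'⟩ : ∃ l' : ℕ → ℕ, l' = fun b => l b - ∑ i ∈ Q, (μ i - b) := ⟨_, rfl⟩
  obtain ⟨c, hc⟩ : ∃ c, c = lam - ∑ i ∈ Q, μ i := ⟨_, rfl⟩
  obtain ⟨m', hm'⟩ : ∃ m', m' = max 1 ((S \ Q).sup μ) := ⟨_, rfl⟩
  have hm1 : 1 ≤ m' := by omega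
  have hm2 : m' ≤ m := by
    have : (S \ Q).sup μ ≤ m := Finset.sup_le fun j hj => hS j (mem_sdiff.mp hj).1
    omega
  have hm3 : ∀ j ∈ S \ Q, μ j ≤ m' := fun j hj => by
    have := Finset.le_sup (f := μ) hj
    omega
  have hK' : ∀ b, K ≤ b → l' b = 0 := fun b hb => by simp [hl', hK b hb]
  have hle : ∀ b, l' b ≤ c := by
    intro b
    by_cases hb : b < m
    · have h3 := hlin b hb
      have h4 : ∑ i ∈ Q, μ i ≤ ∑ i ∈ Q, (μ i - b) + σ * b := by
        have : σ * b = ∑ i ∈ Q, b := by simp [hQc]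
        rw [this, ← Finset.sum_add_distrib]
        exact Finset.sum_le_sum fun i _ => by omega
      simp only [hl']
      omega
    · have := hup b (by omega)
      simp only [hl']
      omega
  have hfull : ∀ b < m', l' b = c := by
    intro b hb
    have h3 := hlin b (by omega)
    have h4 : ∑ i ∈ Q, μ i = ∑ i ∈ Q, (μ i - b) + σ * b := by
      have : σ * b = ∑ i ∈ Q, b := by simp [hQc]
      rw [this, ← Finset.sum_add_distrib]
      refine Finset.sum_congr rfl fun i hi => ?_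
      have : (S \ Q).sup μ ≤ μ i := Finset.sup_le fun j hj => hQt i hi j hj
      omega
    simp only [hl']
    omega
  let n : ℕ → ℕ := fun a => #{b ∈ range K | c ≤ l' b + a}
  have hn1 : ∀ a, m' ≤ n a := by
    intro a
    rw [← card_range m']
    refine card_le_card fun b hb => ?_
    have := mem_range.mp hb
    have := hfull b this
    simp only [mem_filter, mem_range]
    omega
  have hn2 : ∀ a, n a ≤ K := fun a => by
    simpa using card_filter_le (range K) fun b => c ≤ l' b + a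
  have hInv : Inv m' n := by
    refine ⟨fun a => Or.inr (Or.inr ⟨hn1 a, card_le_card fun b hb => ?_⟩), 0, by
      have := hn1 0; omega⟩
    simp only [mem_filter] at hb ⊢
    exact ⟨hb.1, by omega⟩
  have hns : ∑ a ∈ range c, n a = ∑ b ∈ range K, l' b := sum_transpose K hle
  have hg := gamma_mono (w := m' - 1) (m := m) (by omega) hmK
  rw [show m' - 1 + 1 = m' by omega] at hg
  have hl1 : ∑ b ∈ range K, l' b + mass μ Q = ∑ b ∈ range K, l b := by rw [hl']; exact h1
  have key : Good μ (tr c n) (S \ Q) (∑ b ∈ range K, l b - mass μ S) := by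
    rcases h with h | h
    · rw [show ∑ b ∈ range K, l b - mass μ S = 0 by omega]
      refine greedy_inj c _ hm3 n hInv ?_
      rw [show c + m' - 1 = c + (m' - 1) by omega, Finset.sum_range_add]
      have : ∑ x ∈ range (m' - 1), n (c + x) ≤ (m' - 1) * K := by
        simpa using Finset.sum_le_card_nsmul (range (m' - 1)) (fun x => n (c + x)) K
          fun x _ => hn2 _
      omega
    · have := greedy_surj (hm2.trans hmK) c _ hm3 n hInv hn2 (by omega)
      convert this using 1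
      omega
  have := qmoves K Q l hK disjoint_sdiff (hl' ▸ transpose hK' hle key)
  rwa [union_sdiff_of_subset hQ] at this

theorem exists_point (U : Submodule ℂ ℂ[X]) [FiniteDimensional ℂ U] {ρ : ℕ} (hU : finrank ℂ U ≤ ρ)
    (T : Finset ℂ) : ∃ x, x ∉ T ∧ ∀ f ∈ U, (X - C x) ^ ρ ∣ f → f = 0 := by
  classical
  have h1 : Good (fun _ : Unit => ρ) (tr 1 fun _ => ρ) (insert () ∅) 0 := by
    refine pmove (r := tr 1 fun _ => ρ) 1 (fun b hb => tr_of_le _ hb) (by simp)
      (fun b => tr_le 1 _ b) (fun c b h1 h2 _ => ?_) (good_empty _ _ 0 (by simp) _ (by simp))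
    rw [tr_of_le _ (by omega)] at h2
    omega
  let W : ℕ → Submodule ℂ ℂ[X] := fun b => if b < 1 then U else ⊥
  have hW0 : ∀ b < 1, W b = U := fun b hb => if_pos hb
  have hW1 : ∀ b, 1 ≤ b → W b = ⊥ := fun b hb => if_neg (by omega)
  have hW : ∀ b, FiniteDimensional ℂ (W b) := fun b => by
    by_cases hb : b < 1
    · rw [hW0 b hb]; infer_instance
    · rw [hW1 b (by omega)]; infer_instance
  have h2 := h1.rows W hW (fun b => by
    by_cases hb : b < 1
    · rw [hW0 b hb, tr_of_lt _ hb]; exact hU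
    · rw [hW1 b (by omega)]; simp) 1 (fun b hb => tr_of_le _ hb)
  have := finite_rows W hW 1 hW1
  obtain ⟨Δ, hΔ, Ψ, h3⟩ := h2.generic
  obtain ⟨q, hq⟩ := exists_eval_ne
    (Δ * ∏ y ∈ T, (MvPolynomial.X ((), 0) - MvPolynomial.C y))
    (mul_ne_zero hΔ (Finset.prod_ne_zero_iff.mpr fun y _ h => by
      have := congrArg (MvPolynomial.eval fun _ => y + 1) h
      simp at this))
  rw [map_mul, map_prod] at hq
  refine ⟨q ((), 0), fun hx => ?_, fun f hf hd => ?_⟩
  · exact Finset.prod_ne_zero_iff.mp (right_ne_zero_of_mul hq) _ hx (by simp)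
  · have := h3 q (left_ne_zero_of_mul hq) (C f) (mem_rows.mpr fun b => by
      rw [coeff_C]
      split_ifs with hb
      · simpa [W, hb] using hf
      · exact zero_mem _) (fun i _ => by
        obtain ⟨g, rfl⟩ := hd
        rw [map_mul, map_pow]
        exact Ideal.mul_mem_right _ _ (Ideal.pow_mem_pow (by simp [mem_mx]) _))
      (Subsingleton.elim _ _)
    exact C_eq_zero.mp this

theorem reflect_mem_lt {n : ℕ} {f : ℂ[X]} (h : f ∈ lt n) : reflect (n - 1) f ∈ lt n := by
  rw [mem_lt] at h ⊢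
  intro a ha
  rw [coeff_reflect]
  rcases Nat.eq_zero_or_pos n with h0 | h0
  · exact h _ (by omega)
  · rw [revAt_eq_self_of_lt (by omega)]
    exact h a ha

/-- Transversality on the shared row. -/
theorem transversal {μ : ι → ℕ} {l : ℕ → ℕ} {k σ lam : ℕ} (hlin : ∀ b ≤ k, l b + σ * b = lam)
    {J : Finset ι} {ρ ρ' : ℕ} (hρ : ρ + ρ' ≤ l k) (h0 : Good μ (tr k l) J 0)
    (h1 : Good μ (tr (k + 1) l) J ρ') :
    Good μ (fun b => if b = k then ρ else tr k l b) J 0 := by
  classical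
  have := finite_good (tr k l) k fun b hb => tr_of_le _ hb
  have := finite_good (tr (k + 1) l) (k + 1) fun b hb => tr_of_le _ hb
  obtain ⟨Δ₀, hΔ₀, Ψ₀, h0⟩ := h0.generic
  obtain ⟨Δ₁, hΔ₁, Ψ₁, h1⟩ := h1.generic
  obtain ⟨q, hq⟩ := exists_eval_ne _ (mul_ne_zero hΔ₀ hΔ₁)
  rw [map_mul] at hq
  replace h0 := h0 q (left_ne_zero_of_mul hq)
  replace h1 := h1 q (right_ne_zero_of_mul hq)
  obtain ⟨p, hp⟩ : ∃ p : ι → ℂ × ℂ, ∀ i, (q (i, 0), q (i, 1)) = p i := ⟨_, fun _ => rfl⟩
  simp only [hp] at h0 h1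
  let V : Submodule ℂ R := (rows fun b => lt (tr (k + 1) l b)) ⊓ sol μ J p
  have hV : finrank ℂ V ≤ ρ' := by
    have : Function.Injective (Ψ₁ ∘ₗ V.subtype) := by
      rw [injective_iff_map_eq_zero]
      intro F hF
      exact Subtype.ext (h1 F F.2.1 (mem_sol.mp F.2.2) hF)
    simpa using LinearMap.finrank_le_finrank_of_injective this
  obtain ⟨x, hx1, hx2⟩ := exists_point (V.map (cf k)) ((Submodule.finrank_map_le _ _).trans hV)
    (J.image fun i => (p i).1)
  refine ⟨fun i => (((p i).1 + -x)⁻¹, (p i).2 * ((p i).1 + -x)⁻¹ ^ σ), 0, fun F hF hVan _ => ?_⟩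
  have hF' : ∀ b, F.coeff b ∈ lt (tr (k + 1) l b) := by
    intro b
    have h2 := mem_lt.mp (mem_rows.mp hF b)
    refine mem_lt.mpr fun a ha => h2 a (le_trans ?_ ha)
    beta_reduce
    by_cases hb : b = k
    · rw [if_pos hb, hb, tr_of_lt _ (Nat.lt_succ_self k)]; omega
    · rw [if_neg hb]
      unfold tr
      split_ifs <;> omega
  have hcoef : ∀ b, (trX (-x) (inv σ (lam - 1) F)).coeff b
      = taylor (-x) (reflect (tr (k + 1) l b - 1) (F.coeff b)) := by
    intro b
    rw [coeff_trX, coeff_inv]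
    by_cases hb : b < k + 1
    · rw [tr_of_lt _ hb, show l b - 1 = lam - 1 - σ * b by have := hlin b (by omega); omega]
    · have h2 := hF' b
      rw [tr_of_le _ (by omega), lt, range_zero, supp_empty, Submodule.mem_bot] at h2
      simp [h2]
  have hG1 : ∀ b, (trX (-x) (inv σ (lam - 1) F)).coeff b ∈ lt (tr (k + 1) l b) := by
    intro b
    rw [hcoef, mem_lt_degree, degree_taylor, ← mem_lt_degree]
    exact reflect_mem_lt (hF' b)
  have hG2 : ∀ i ∈ J, Van (μ i) (p i) (trX (-x) (inv σ (lam - 1) F)) := by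
    intro i hi
    refine van_trX (van_inv ?_ (fun b hb => ?_) (hVan i hi))
    · intro h
      exact hx1 (mem_image.mpr ⟨i, hi, by simpa [add_neg_eq_zero] using h⟩)
    · have h2 := natDegree_lt_of_mem (hF' b) hb
      have h3 : b < k + 1 := by
        by_contra h3
        rw [tr_of_le _ (by omega)] at h2
        omega
      rw [tr_of_lt _ h3] at h2
      have := hlin b (by omega)
      omega
  have hG3 : (trX (-x) (inv σ (lam - 1) F)).coeff k = 0 := by
    refine hx2 _ ⟨_, ⟨mem_rows.mpr hG1, mem_sol.mpr hG2⟩, rfl⟩ ?_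
    rw [hcoef, tr_of_lt _ (Nat.lt_succ_self k)]
    have h2 : X ^ ρ' ∣ reflect (l k - 1) (F.coeff k) := by
      rw [X_pow_dvd_iff]
      intro a ha
      rw [coeff_reflect, revAt_le (by omega)]
      have h3 := mem_lt.mp (mem_rows.mp hF k)
      simp only [if_true] at h3
      exact h3 _ (by omega)
    have h3 := map_dvd (taylorAlgHom (-x)) h2
    simpa [sub_eq_add_neg] using h3
  refine inv_inj σ (lam - 1) F (trX_inj (-x) _ (h0 _ (mem_rows.mpr fun b => ?_) hG2
    (Subsingleton.elim _ _)))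
  by_cases hb : b = k
  · rw [hb, hG3]; exact zero_mem _
  · have := hG1 b
    by_cases hb' : b < k
    · rwa [tr_of_lt _ hb', ← tr_of_lt l (show b < k + 1 by omega)]
    · rwa [tr_of_le _ (show k ≤ b by omega), ← tr_of_le l (show k + 1 ≤ b by omega)]

end Pool.Agent.Lib.MP_6e81d8_ag
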